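import Pool.Agent.Helper43.SN.Defs

set_option autoImplicit false

/-!
# SN-25 Alt: all even permutations by optional 3-cycles

PROOF. If `ι` has no three different elements, `sign g = 1` implies `g = 1`. Otherwise `hstep` gives
monotonicity (`P G → P G'` for `G ⊆ G'`). For a list `L` of triples of different elements let `Q L` be the
set of products: `Q [] = {1}`, `Q (t :: L) = {g | g ∈ Q L ∨ g * (cyc t)⁻¹ ∈ Q L}`. `P (Q L) → P {1}` by
induction on `L` (`hstep` with `G = Q (t :: L)`, `G' = Q L`). `Q L ⊆ Q (L' ++ L)`, `Q L' ⊆ Q (L' ++ L)` (the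
latter by induction on `L'`: `1 ∈ Q L` always). Every `g` with `sign g = 1` is a product of 3-cycles
(`Equiv.Perm.closure_three_cycles_eq_alternating`), every 3-cycle is some `cyc i j l` with different
`i, j, l` (`cyc i j l : i → l → j → i`), so `g ∈ Q (L_g)` for some list; `L` = concatenation of the lists
`L_g` over all `g` (finitely many): `{g | sign g = 1} ⊆ Q L`.
-/

namespace Pool.Agent.Helper43.SN

open Finset Pool.Agent.Helper46.MR

namespace AltAux

section
variable {ι : Type} [DecidableEq ι]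

/-- triples of different elements -/
abbrev Tri (ι : Type) : Type := {t : ι × ι × ι // t.1 ≠ t.2.1 ∧ t.1 ≠ t.2.2 ∧ t.2.1 ≠ t.2.2}

/-- the 3-cycle of a triple -/
def cy (t : Tri ι) : Equiv.Perm ι := cyc t.1.1 t.1.2.1 t.1.2.2

/-- products of optional 3-cycles -/
def Q : List (Tri ι) → Set (Equiv.Perm ι)
  | [] => {1}
  | t :: L => {g | g ∈ Q L ∨ g * (cy t)⁻¹ ∈ Q L}

theorem one_mem_Q (L : List (Tri ι)) : (1 : Equiv.Perm ι) ∈ Q L := by
  induction L with
  | nil => exact rfl
  | cons t L ih => exact Or.inl ih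

theorem mul_mem_Q (L₁ L₂ : List (Tri ι)) {g₁ g₂ : Equiv.Perm ι} (h₁ : g₁ ∈ Q L₁)
    (h₂ : g₂ ∈ Q L₂) : g₁ * g₂ ∈ Q (L₂ ++ L₁) := by
  induction L₂ generalizing g₂ with
  | nil =>
    have : g₂ = 1 := h₂
    rw [this, mul_one]
    exact h₁
  | cons t L ih =>
    rcases h₂ with h | h
    · exact Or.inl (ih h)
    · refine Or.inr ?_
      have := ih h
      rwa [← mul_assoc] at this

theorem Q_append_right (L L' : List (Tri ι)) : Q L ⊆ Q (L' ++ L) := by
  intro g hg
  have := mul_mem_Q L L' hg (one_mem_Q L')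
  rwa [mul_one] at this

theorem Q_append_left (L L' : List (Tri ι)) : Q L' ⊆ Q (L' ++ L) := by
  intro g hg
  have := mul_mem_Q L L' (one_mem_Q L) hg
  rwa [one_mul] at this

theorem cyc_inv (i j l : ι) : (cyc i j l)⁻¹ = cyc i l j := by
  unfold cyc
  rw [mul_inv_rev, Equiv.swap_inv, Equiv.swap_inv]

/-- the inverse triple -/
def flip (t : Tri ι) : Tri ι :=
  ⟨(t.1.1, t.1.2.2, t.1.2.1), t.2.2.1, t.2.1, t.2.2.2.symm⟩

theorem cy_flip (t : Tri ι) : cy (flip t) = (cy t)⁻¹ := by
  unfold cy flip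
  rw [cyc_inv]

theorem cy_mem (t : Tri ι) : cy t ∈ Q [t] := Or.inr (by
  rw [mul_inv_cancel]
  exact rfl)

theorem inv_mem_Q (L : List (Tri ι)) {g : Equiv.Perm ι} (h : g ∈ Q L) :
    ∃ L' : List (Tri ι), g⁻¹ ∈ Q L' := by
  induction L generalizing g with
  | nil =>
    have : g = 1 := h
    refine ⟨[], ?_⟩
    rw [this, inv_one]
    exact rfl
  | cons t L ih =>
    rcases h with h | h
    · exact ih h
    · obtain ⟨L', hL'⟩ := ih h
      have h2 : cy (flip t) ∈ Q [flip t] := cy_mem _
      have h3 := mul_mem_Q _ _ h2 hL'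
      rw [cy_flip, ← mul_inv_rev, inv_mul_cancel_right] at h3
      exact ⟨_, h3⟩

end

variable {ι : Type} [Fintype ι] [DecidableEq ι]

/-- a 3-cycle is some `cy t` -/
theorem exists_cy {σ : Equiv.Perm ι} (h : σ.IsThreeCycle) : ∃ t : Tri ι, σ = cy t := by
  have hc : σ.support.card = 3 := h.card_support
  have hpos : σ.support.Nonempty := by
    rw [← card_pos, hc]; norm_num
  obtain ⟨i, hi⟩ := hpos
  have ho : σ ^ 3 = 1 := by
    rw [← h.orderOf]
    exact pow_orderOf_eq_one σ
  have h3 : σ (σ (σ i)) = i := by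
    have := congrArg (fun s : Equiv.Perm ι => s i) ho
    simpa [pow_succ] using this
  have hi1 : σ i ≠ i := Equiv.Perm.mem_support.1 hi
  have hi2 : σ (σ i) ≠ σ i := fun h' => hi1 (σ.injective h')
  have hi3 : σ (σ i) ≠ i := by
    intro h'
    rw [h'] at h3
    exact hi1 h3
  have hsub : ({i, σ i, σ (σ i)} : Finset ι) ⊆ σ.support := by
    intro x hx
    simp only [mem_insert, mem_singleton] at hx
    rcases hx with rfl | rfl | rfl
    · exact hi
    · exact Equiv.Perm.mem_support.2 hi2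
    · refine Equiv.Perm.mem_support.2 ?_
      rw [h3]
      exact hi3.symm
  have hcard : ({i, σ i, σ (σ i)} : Finset ι).card = 3 := by
    rw [card_insert_of_notMem, card_insert_of_notMem, card_singleton]
    · simp only [mem_singleton]; exact hi2.symm
    · simp only [mem_insert, mem_singleton, not_or]
      exact ⟨hi1.symm, hi3.symm⟩
  have heq : ({i, σ i, σ (σ i)} : Finset ι) = σ.support :=
    eq_of_subset_of_card_le hsub (by rw [hc, hcard])
  refine ⟨⟨(i, σ (σ i), σ i), hi3.symm, hi1.symm, hi2⟩, ?_⟩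
  ext x
  change σ x = (Equiv.swap i (σ (σ i)) * Equiv.swap i (σ i)) x
  rw [Equiv.Perm.mul_apply]
  by_cases hx1 : x = i
  · subst hx1
    rw [Equiv.swap_apply_left, Equiv.swap_apply_of_ne_of_ne hi1 hi2.symm]
  · by_cases hx2 : x = σ i
    · subst hx2
      rw [Equiv.swap_apply_right, Equiv.swap_apply_left]
    · rw [Equiv.swap_apply_of_ne_of_ne hx1 hx2]
      by_cases hx3 : x = σ (σ i)
      · subst hx3
        rw [Equiv.swap_apply_right, h3]
      · rw [Equiv.swap_apply_of_ne_of_ne hx1 hx3]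
        have : x ∉ σ.support := by
          rw [← heq]
          simp only [mem_insert, mem_singleton, not_or]
          exact ⟨hx1, hx2, hx3⟩
        exact Equiv.Perm.notMem_support.1 this

theorem exists_list {g : Equiv.Perm ι} (h : Equiv.Perm.sign g = 1) :
    ∃ L : List (Tri ι), g ∈ Q L := by
  have hg : g ∈ Subgroup.closure {σ : Equiv.Perm ι | σ.IsThreeCycle} := by
    rw [Equiv.Perm.closure_three_cycles_eq_alternating]
    exact Equiv.Perm.mem_alternatingGroup.2 h
  induction hg using Subgroup.closure_induction with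
  | mem σ hσ =>
    obtain ⟨t, rfl⟩ := exists_cy hσ
    exact ⟨[t], cy_mem t⟩
  | one => exact ⟨[], rfl⟩
  | mul a b ha hb iha ihb =>
    have ha' : Equiv.Perm.sign a = 1 := by
      rw [Equiv.Perm.closure_three_cycles_eq_alternating] at ha
      exact Equiv.Perm.mem_alternatingGroup.1 ha
    have hb' : Equiv.Perm.sign b = 1 := by
      rw [Equiv.Perm.closure_three_cycles_eq_alternating] at hb
      exact Equiv.Perm.mem_alternatingGroup.1 hb
    obtain ⟨L₁, h₁⟩ := iha ha'
    obtain ⟨L₂, h₂⟩ := ihb hb'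
    exact ⟨_, mul_mem_Q L₁ L₂ h₁ h₂⟩
  | inv a ha iha =>
    have ha' : Equiv.Perm.sign a = 1 := by
      rw [Equiv.Perm.closure_three_cycles_eq_alternating] at ha
      exact Equiv.Perm.mem_alternatingGroup.1 ha
    obtain ⟨L₁, h₁⟩ := iha ha'
    exact inv_mem_Q L₁ h₁

theorem exists_list_all : ∃ L : List (Tri ι), ∀ g : Equiv.Perm ι,
    Equiv.Perm.sign g = 1 → g ∈ Q L := by
  classical
  suffices h : ∀ S : Finset (Equiv.Perm ι), ∃ L : List (Tri ι), ∀ g ∈ S,
      Equiv.Perm.sign g = 1 → g ∈ Q L by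
    obtain ⟨L, hL⟩ := h univ
    exact ⟨L, fun g => hL g (mem_univ g)⟩
  intro S
  induction S using Finset.induction_on with
  | empty => exact ⟨[], fun g hg => absurd hg (notMem_empty g)⟩
  | insert a S _ ih =>
    obtain ⟨L, hL⟩ := ih
    by_cases ha : Equiv.Perm.sign a = 1
    · obtain ⟨L', hL'⟩ := exists_list ha
      refine ⟨L' ++ L, fun g hg hs => ?_⟩
      rcases mem_insert.1 hg with rfl | hg
      · exact Q_append_left L L' hL'
      · exact Q_append_right L L' (hL g hg hs)
    · refine ⟨L, fun g hg hs => ?_⟩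
      rcases mem_insert.1 hg with rfl | hg
      · exact absurd hs ha
      · exact hL g hg hs

end AltAux

open AltAux in
theorem alt {ι : Type} [Fintype ι] [DecidableEq ι] (P : Set (Equiv.Perm ι) → Prop)
    (hstep : ∀ (G G' : Set (Equiv.Perm ι)) (i j l : ι), i ≠ j → i ≠ l → j ≠ l →
      (∀ g ∈ G, g ∈ G' ∨ g * (cyc i j l)⁻¹ ∈ G') → P G → P G')
    (h : P {g | Equiv.Perm.sign g = 1}) : P {1} := by
  obtain ⟨L, hL⟩ := exists_list_all (ι := ι)
  have key : ∀ L : List (Tri ι), P (Q L) → P {1} := by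
    intro L
    induction L with
    | nil => exact id
    | cons t L ih =>
      intro hP
      exact ih (hstep _ _ t.1.1 t.1.2.1 t.1.2.2 t.2.1 t.2.2.1 t.2.2.2 (fun g hg => hg) hP)
  rcases L with _ | ⟨t, L⟩
  · have : {g : Equiv.Perm ι | Equiv.Perm.sign g = 1} = {1} := by
      ext g
      constructor
      · intro hg
        exact hL g hg
      · intro hg
        have hg' : g = 1 := hg
        change Equiv.Perm.sign g = 1
        rw [hg']
        exact map_one _
    rwa [this] at h
  · exact key (t :: L) (hstep _ _ t.1.1 t.1.2.1 t.1.2.2 t.2.1 t.2.2.1 t.2.2.2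
      (fun g hg => Or.inl (hL g hg)) h)

end Pool.Agent.Helper43.SN
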