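import Pool.Agent.Helper43.SN.Basic
import Pool.Agent.Helper46.MR.Chains

set_option autoImplicit false

/-!
# SN-31 Assemble: from `Ext` to symmetric chains

PROOF. `linking`: for `x` of rank `k` the chain `C ∈ S` through `x` has a bottom of rank `≥ k` (so `= k`) and, being
symmetric (`k₀ = 0`: `i ≤ 0`, `m n ≤ j` also gives `i + j = m n`), a top `z` of rank `m n - k`; `π x = cm n z`
(as in `ChainsAux.step`: injective, hence a bijection). `P (d+2) n k = V d k` (`P_eq_V`, `k ≤ n`).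
`assemble`: induction on `k`. `k = 0`: `S` itself. `k + 1`: let `f, g, π'` be from `Ext d (k+1) π`; `F x = f x` on
`V d k` (identity elsewhere), `G` the same; `Mat (d+2) n k F`, `Mat (d+2) n k G` (`le_iff_cover`, `mem_lower`).
`step_aux` with `k₀ = 0`: `hsym`: if `rk x = k` and `ret x = f x ∈ C` then `cm n (π (f x)) = cm n (g (π' x)) ∈ C` (by
`hl` and `un`) and `z = cm n (π' x)` has `ret z = cm n (g (cm n z)) = cm n (g (π' x)) ∈ C`; conversely
`z` with `ret z ∈ C`: `cm n z = π' x` for some `x`. The new family `ext '' S` has the linking `π'`: `x` and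
`cm n (π' x)` are both retracted into the chain of `f x`. `Ext d k π'` and induction.
`fam_zero_of`: `ChainsAux.fam_all` with `k₀ = s` (`MR.kmain` is not needed here, it is the hypothesis `hK`) gives
`Fam (d+2) n s s S`, hence `Fam (d+2) n 0 s S` (a chain with `i ≤ s`, `m n ≤ j + s` has `i = s`,
`j = m n - s`), then `linking`, `hX`, `assemble`.
-/

namespace Pool.Agent.Helper43.SN

open Finset Pool.Agent.Helper46.MR Pool.Agent.Helper46.MR.ChainsAux

namespace AssembleAux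

variable {d n k : ℕ}

theorem mn_ge (h : k ≤ n) : 2 * k ≤ (d + 2) * n := by
  have h1 : (d + 2) * n = d * n + 2 * n := by ring
  omega

theorem V_LL (h : k ≤ n) {x : Fin (d + 2) → ℕ} (hx : x ∈ V d k) :
    x ∈ LL (d + 2) n ∧ rk x = k := by
  rw [← P_eq_V h] at hx
  exact mem_P'.1 hx

theorem LL_V (h : k ≤ n) {x : Fin (d + 2) → ℕ} (hx : x ∈ LL (d + 2) n) (hr : rk x = k) :
    x ∈ V d k := by
  rw [← P_eq_V h]
  exact mem_P'.2 ⟨hx, hr⟩

open Classical in
/-- the function on all vectors given by a map of levels -/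
noncomputable def toF (f : Vt d k ↪ Vt d (k + 1)) (a : Fin (d + 2) → ℕ) : Fin (d + 2) → ℕ :=
  if h : a ∈ V d k then (f ⟨a, h⟩).1 else a

theorem toF_of (f : Vt d k ↪ Vt d (k + 1)) {a : Fin (d + 2) → ℕ} (h : a ∈ V d k) :
    toF f a = (f ⟨a, h⟩).1 := by
  unfold toF
  rw [dif_pos h]

theorem toF_val (f : Vt d k ↪ Vt d (k + 1)) (x : Vt d k) : toF f x.1 = (f x).1 :=
  toF_of f x.2

theorem mat_toF (hk : k + 1 ≤ n) (f : Vt d k ↪ Vt d (k + 1)) (hf : ∀ x, x.1 ≤ (f x).1) :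
    Mat (d + 2) n k (toF f) := by
  refine ⟨fun x hx => ?_, fun x hx y hy e => ?_⟩
  · have hx' : x ∈ V d k := by rwa [P_eq_V (by omega)] at hx
    rw [toF_of f hx', P_eq_V hk]
    refine ⟨(f ⟨x, hx'⟩).2, ?_⟩
    obtain ⟨i, hi⟩ := (le_iff_cover hx' (f ⟨x, hx'⟩).2).1 (hf ⟨x, hx'⟩)
    exact mem_lower.2 ⟨i, hi⟩
  · have hx' : x ∈ V d k := by
      rw [← P_eq_V (n := n) (by omega)]
      exact_mod_cast hx
    have hy' : y ∈ V d k := by
      rw [← P_eq_V (n := n) (by omega)]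
      exact_mod_cast hy
    rw [toF_of f hx', toF_of f hy'] at e
    have h1 := f.injective (Subtype.ext e)
    exact congrArg Subtype.val h1

end AssembleAux

open AssembleAux

theorem linking (d n k : ℕ) (hk : k ≤ n) (S : Set (Set (Fin (d + 2) → ℕ)))
    (hS : Fam (d + 2) n 0 k S) :
    ∃ π : Equiv.Perm (Vt d k), ∀ x, ∃ C ∈ S, x.1 ∈ C ∧ cm n (π x).1 ∈ C := by
  have hmn : 2 * k ≤ (d + 2) * n := mn_ge hk
  have hex : ∀ x : Vt d k, ∃ z ∈ LL (d + 2) n, rk z + k = (d + 2) * n ∧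
      ∃ C ∈ S, x.1 ∈ C ∧ z ∈ C := by
    intro x
    obtain ⟨h1, h2⟩ := V_LL hk x.2
    obtain ⟨C, hC, hC1⟩ := hS.ex x.1 h1 (by omega) (by omega)
    obtain ⟨i, j, a1, a2, a3, a4, a5, a6⟩ := hS.rg C hC
    have h7 := a4 x.1 hC1
    obtain ⟨z, hz, hz1⟩ := a5 j a2 le_rfl
    exact ⟨z, hS.sub C hC hz, by omega, C, hC, hC1, hz⟩
  choose z hz1 hz2 C hC hC1 hC2 using hex
  have hmem : ∀ x : Vt d k, cm n (z x) ∈ V d k := by
    intro x
    have h3 := rk_cm (n := n) (hz1 x).2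
    have h4 := hz2 x
    exact LL_V hk (cm_mem (hz1 x)) (by omega)
  let φ : Vt d k → Vt d k := fun x => ⟨cm n (z x), hmem x⟩
  have hinj : Function.Injective φ := by
    intro x y e
    have e1 : cm n (z x) = cm n (z y) := congrArg Subtype.val e
    have e2 : z x = z y := by
      rw [← cm_cm (hz1 x).2, ← cm_cm (hz1 y).2, e1]
    have c1 := hC2 x
    rw [e2] at c1
    have e3 := hS.un _ _ (hC x) _ (hC y) c1 (hC2 y)
    have r1 := (V_LL hk x.2).2
    have r2 := (V_LL hk y.2).2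
    have m1 := hC1 x
    rw [e3] at m1
    exact Subtype.ext (le_antisymm (hS.ch _ (hC y) _ m1 _ (hC1 y) (by omega))
      (hS.ch _ (hC y) _ (hC1 y) _ m1 (by omega)))
  have hbij : Function.Bijective φ := Finite.injective_iff_bijective.1 hinj
  refine ⟨Equiv.ofBijective φ hbij, fun x => ⟨C x, hC x, hC1 x, ?_⟩⟩
  have e : (Equiv.ofBijective φ hbij x).1 = cm n (z x) := rfl
  rw [e, cm_cm (hz1 x).2]
  exact hC2 x

theorem assemble (d n : ℕ) : ∀ (k : ℕ), k ≤ n → ∀ (π : Equiv.Perm (Vt d k)), Ext d k π →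
    ∀ S : Set (Set (Fin (d + 2) → ℕ)), Fam (d + 2) n 0 k S →
      (∀ x : Vt d k, ∃ C ∈ S, x.1 ∈ C ∧ cm n (π x).1 ∈ C) →
      ∃ S' : Set (Set (Fin (d + 2) → ℕ)), Fam (d + 2) n 0 0 S' := by
  intro k
  induction k with
  | zero =>
    intro _ π _ S hS _
    exact ⟨S, hS⟩
  | succ k ih =>
    intro hk π hπ S hS hl
    have hmn : 2 * (k + 1) ≤ (d + 2) * n := mn_ge hk
    have hmn' : 2 * k + 2 ≤ (d + 2) * n := by omega
    obtain ⟨f, g, π', hf, hg, hfg, hE⟩ := hπ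
    have hF := mat_toF hk f hf
    have hG := mat_toF hk g hg
    have hk' : k ≤ n := by omega
    have hsym : 0 ≤ k → ∀ C ∈ S,
        (∃ x ∈ LL (d + 2) n, rk x = k ∧ ret (d + 2) n k (toF f) (toF g) x ∈ C) ↔
        (∃ z ∈ LL (d + 2) n, rk z + k = (d + 2) * n ∧
          ret (d + 2) n k (toF f) (toF g) z ∈ C) := by
      intro _ C hC
      constructor
      · rintro ⟨x, hx, hx1, hx2⟩
        rw [ret_bot hx1] at hx2
        have hxV : x ∈ V d k := LL_V hk' hx hx1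
        rw [toF_of f hxV] at hx2
        obtain ⟨C', hC', c1, c2⟩ := hl (f ⟨x, hxV⟩)
        have e := hS.un _ C hC C' hC' hx2 c1
        rw [← e, hfg] at c2
        obtain ⟨q1, q2⟩ := V_LL hk' (π' ⟨x, hxV⟩).2
        have q3 := rk_cm (n := n) q1.2
        refine ⟨cm n (π' ⟨x, hxV⟩).1, cm_mem q1, by omega, ?_⟩
        rw [ret_top hmn' (by omega), cm_cm q1.2, toF_val]
        exact c2
      · rintro ⟨z, hz, hz1, hz2⟩
        rw [ret_top hmn' hz1] at hz2
        have q3 := rk_cm (n := n) hz.2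
        have hzV : cm n z ∈ V d k := LL_V hk' (cm_mem hz) (by omega)
        rw [toF_of g hzV] at hz2
        obtain ⟨x, hx⟩ : ∃ x, π' x = ⟨cm n z, hzV⟩ := π'.surjective _
        obtain ⟨C', hC', c1, c2⟩ := hl (f x)
        rw [hfg, hx] at c2
        have e := hS.un _ C hC C' hC' hz2 c2
        obtain ⟨q1, q2⟩ := V_LL hk' x.2
        refine ⟨x.1, q1, q2, ?_⟩
        rw [ret_bot q2, toF_val, e]
        exact c1
    refine ih hk' π' hE _ (step_aux hmn' hF hG hS hsym) ?_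
    intro x
    obtain ⟨C, hC, c1, c2⟩ := hl (f x)
    rw [hfg] at c2
    obtain ⟨q1, q2⟩ := V_LL hk' x.2
    obtain ⟨p1, p2⟩ := V_LL hk' (π' x).2
    have p3 := rk_cm (n := n) p1.2
    refine ⟨_, ⟨C, hC, rfl⟩, ⟨q1, by omega, by omega, ?_⟩, cm_mem p1, by omega, by omega, ?_⟩
    · rw [ret_bot q2, toF_val]
      exact c1
    · rw [ret_top hmn' (by omega), cm_cm p1.2, toF_val]
      exact c2

theorem fam_zero_of (d n s : ℕ) (hs : s ≤ n)
    (hK : ∀ k, s ≤ k → 2 * k + 2 ≤ (d + 2) * n → K (d + 2) n k)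
    (hX : ∀ π : Equiv.Perm (Vt d s), Ext d s π) :
    ∃ S : Set (Set (Fin (d + 2) → ℕ)), Fam (d + 2) n 0 0 S := by
  have hmn : 2 * s ≤ (d + 2) * n := mn_ge hs
  obtain ⟨S, hS⟩ := fam_all (k₀ := s) hK ((d + 2) * n / 2 - s) s (by omega)
  have hS0 : Fam (d + 2) n 0 s S := by
    refine ⟨hS.sub, hS.ch, ?_, hS.ex, hS.un⟩
    intro C hC
    obtain ⟨i, j, h1, h2, h3, h4, h5, h6⟩ := hS.rg C hC
    exact ⟨i, j, h1, h2, h3, h4, h5, Or.inl (by omega)⟩
  obtain ⟨π, hπ⟩ := linking d n s hs S hS0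
  exact assemble d n s hs π (hX π) S hS0 hπ

end Pool.Agent.Helper43.SN
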