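import Pool.Agent.Helper43.SN.Defs

set_option autoImplicit false

/-!
# SN Basic: elementary facts on levels and shadows
-/

namespace Pool.Agent.Helper43.SN

open Finset Pool.Agent.Helper46.MR

variable {d k : ℕ}

theorem mem_V {a : Fin (d + 2) → ℕ} : a ∈ V d k ↔ Monotone a ∧ ∑ i, a i = k := by
  unfold V
  rw [mem_P]
  refine ⟨fun h => ⟨h.1, h.2.2⟩, fun h => ⟨h.1, fun i => ?_, h.2⟩⟩
  rw [← h.2]
  exact single_le_sum (f := a) (fun _ _ => Nat.zero_le _) (mem_univ i)

theorem P_eq_V {n : ℕ} (h : k ≤ n) : P (d + 2) n k = V d k := P_eq h le_rfl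

theorem mem_ups {A : Finset (Fin (d + 2) → ℕ)} {y : Fin (d + 2) → ℕ} :
    y ∈ ups A ↔ Monotone y ∧ ∃ x ∈ A, ∃ i, y = x + Pi.single i 1 := by
  classical
  unfold ups
  rw [mem_filter, mem_biUnion, and_comm]
  refine and_congr_right fun _ => ?_
  simp only [mem_image, mem_univ, true_and, eq_comm]

theorem ups_eq_up {A : Finset (Fin (d + 2) → ℕ)} (hA : A ⊆ V d k) {n : ℕ} (h : k + 1 ≤ n) :
    up n A = ups A := by
  ext y
  rw [mem_up, mem_ups]
  refine and_congr_right fun _ => ?_
  constructor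
  · rintro ⟨x, hx, i, _, rfl⟩
    exact ⟨x, hx, i, rfl⟩
  · rintro ⟨x, hx, i, rfl⟩
    have h1 := P_le (hA hx) i
    exact ⟨x, hx, i, by omega, rfl⟩

theorem ups_subset {A : Finset (Fin (d + 2) → ℕ)} (hA : A ⊆ V d k) : ups A ⊆ V d (k + 1) := by
  intro y hy
  obtain ⟨hm, x, hx, i, rfl⟩ := mem_ups.1 hy
  refine mem_V.2 ⟨hm, ?_⟩
  rw [sum_add_single, (mem_V.1 (hA hx)).2]

theorem ups_mono {A B : Finset (Fin (d + 2) → ℕ)} (h : A ⊆ B) : ups A ⊆ ups B := by
  intro y hy
  obtain ⟨hm, x, hx, i, rfl⟩ := mem_ups.1 hy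
  exact mem_ups.2 ⟨hm, x, h hx, i, rfl⟩

theorem ups_union (A B : Finset (Fin (d + 2) → ℕ)) : ups (A ∪ B) = ups A ∪ ups B := by
  ext y
  simp only [mem_union, mem_ups, or_and_right, exists_or, and_or_left]

theorem lo_sub {D : Finset (Fin (d + 2) → ℕ)} (hD : D ⊆ V d (k + 1)) : lo D ⊆ V d k := by
  intro x hx
  obtain ⟨hm, i, hi⟩ := mem_lo.1 hx
  have h1 := (mem_V.1 (hD hi)).2
  rw [sum_add_single] at h1
  exact mem_V.2 ⟨hm, by omega⟩

theorem lo_union (A B : Finset (Fin (d + 2) → ℕ)) : lo (A ∪ B) = lo A ∪ lo B := by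
  ext y
  simp only [mem_union, mem_lo, exists_or, and_or_left]

theorem add_single_ap {n : ℕ} (x : Fin n → ℕ) (i j : Fin n) :
    (x + Pi.single i 1 : Fin n → ℕ) j = if j = i then x j + 1 else x j := by
  by_cases h : j = i
  · subst h; simp
  · simp [h]

/-- raising the largest part keeps monotonicity -/
theorem shl_mono {x : Fin (d + 2) → ℕ} (hx : Monotone x) : Monotone (shl x) := by
  intro i j hij
  unfold shl
  rw [add_single_ap, add_single_ap]
  have h := hx hij
  split_ifs with h1 h2 h2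
  · omega
  · exfalso
    subst h1
    exact h2 (Fin.last_le_iff.1 hij)
  · omega
  · exact h

theorem shl_mem {x : Fin (d + 2) → ℕ} (hx : x ∈ V d k) : shl x ∈ V d (k + 1) := by
  obtain ⟨h1, h2⟩ := mem_V.1 hx
  refine mem_V.2 ⟨shl_mono h1, ?_⟩
  unfold shl
  rw [sum_add_single, h2]

theorem shl_mem_ups {A : Finset (Fin (d + 2) → ℕ)} (hA : A ⊆ V d k) {x : Fin (d + 2) → ℕ}
    (hx : x ∈ A) : shl x ∈ ups A :=
  mem_ups.2 ⟨shl_mono (mem_V.1 (hA hx)).1, x, hx, _, rfl⟩

theorem shl_inj : Function.Injective (shl : (Fin (d + 2) → ℕ) → _) := by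
  intro x y h
  unfold shl at h
  exact add_right_cancel h

theorem image_shl_subset {A : Finset (Fin (d + 2) → ℕ)} (hA : A ⊆ V d k) :
    A.image shl ⊆ ups A := by
  intro y hy
  obtain ⟨x, hx, rfl⟩ := mem_image.1 hy
  exact shl_mem_ups hA hx

theorem card_le_ups {A : Finset (Fin (d + 2) → ℕ)} (hA : A ⊆ V d k) :
    A.card ≤ (ups A).card := by
  rw [← card_image_of_injective A shl_inj]
  exact card_le_card (image_shl_subset hA)

theorem disjoint_iff {A D : Finset (Fin (d + 2) → ℕ)} (hA : A ⊆ V d k) (hD : D ⊆ V d (k + 1)) :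
    Disjoint (ups A) D ↔ Disjoint A (lo D) := by
  rw [Finset.disjoint_left, Finset.disjoint_left]
  constructor
  · intro h x hx hx'
    obtain ⟨hm, i, hi⟩ := mem_lo.1 hx'
    exact h (mem_ups.2 ⟨(mem_V.1 (hD hi)).1, x, hx, i, rfl⟩) hi
  · intro h y hy hy'
    obtain ⟨hm, x, hx, i, rfl⟩ := mem_ups.1 hy
    exact h hx (mem_lo.2 ⟨(mem_V.1 (hA hx)).1, i, hy'⟩)

/-- every element of a positive level has a lower cover: `lo (V (k+1)) = V k` and `ups V k = V (k+1)` -/
theorem lo_V : lo (V d (k + 1)) = V d k := by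
  refine Subset.antisymm (lo_sub Subset.rfl) fun x hx => ?_
  exact mem_lo.2 ⟨(mem_V.1 hx).1, Fin.last (d + 1), shl_mem hx⟩

/-- the lowest index with the maximal value can be lowered -/
theorem exists_lower {y : Fin (d + 2) → ℕ} (hy : y ∈ V d (k + 1)) :
    ∃ x ∈ V d k, ∃ i, y = x + Pi.single i 1 := by
  classical
  obtain ⟨hm, hs⟩ := mem_V.1 hy
  -- the first index whose value equals the value of the last index
  let S : Finset (Fin (d + 2)) := univ.filter fun i => y i = y (Fin.last (d + 1))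
  have hS : S.Nonempty := ⟨Fin.last _, by simp [S]⟩
  obtain ⟨i, hiS, hmin⟩ := S.exists_min_image id hS
  have hi : y i = y (Fin.last (d + 1)) := (mem_filter.1 hiS).2
  have hpos : 0 < y i := by
    by_contra h0
    have h0' : y (Fin.last (d + 1)) = 0 := by omega
    have : ∑ j, y j = 0 := sum_eq_zero fun j _ => by
      have := hm (Fin.le_last j)
      omega
    omega
  have hx : (y - Pi.single i 1 : Fin (d + 2) → ℕ) + Pi.single i 1 = y := by
    funext j
    by_cases hj : j = i
    · subst hj; simp; omega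
    · simp [hj]
  have hxm : Monotone (y - Pi.single i 1 : Fin (d + 2) → ℕ) := by
    intro p q hpq
    by_cases hp : p = i
    · subst hp
      by_cases hq : q = p
      · subst hq; exact le_rfl
      · have := hm hpq
        simp [hq]
        omega
    · by_cases hq : q = i
      · subst hq
        have h1 : p < q := lt_of_le_of_ne hpq hp
        have h2 : y p ≠ y (Fin.last (d + 1)) := by
          intro h3
          have : q ≤ p := hmin p (by simp [S, h3])
          exact absurd h1 (not_lt.2 this)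
        have h3 := hm hpq
        simp [hp]
        omega
      · simp [hp, hq]
        exact hm hpq
  refine ⟨_, mem_V.2 ⟨hxm, ?_⟩, i, hx.symm⟩
  have h1 := sum_add_single (y - Pi.single i 1 : Fin (d + 2) → ℕ) i
  rw [hx, hs] at h1
  omega

theorem ups_V : ups (V d k) = V d (k + 1) := by
  refine Subset.antisymm (ups_subset Subset.rfl) fun y hy => ?_
  obtain ⟨x, hx, i, rfl⟩ := exists_lower hy
  exact mem_ups.2 ⟨(mem_V.1 hy).1, x, hx, i, rfl⟩

theorem card_V_mono : (V d k).card ≤ (V d (k + 1)).card := by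
  have := card_le_ups (d := d) (k := k) (A := V d k) Subset.rfl
  rwa [ups_V] at this

/-- duality: a violation of `KP` gives one of the swapped `KP` by complements -/
theorem dual {X X1 X' X1' : Finset (Fin (d + 2) → ℕ)} (hX : X ⊆ V d k) (hX' : X' ⊆ V d k)
    (hX1 : X1 ⊆ V d (k + 1)) (hX1' : X1' ⊆ V d (k + 1)) (hc : X.card = X'.card)
    (hc1 : X1.card = X1'.card) {A D : Finset (Fin (d + 2) → ℕ)} (hA : A ⊆ V d k \ X)
    (hD : D ⊆ V d (k + 1) \ X1') (h1 : (lo D \ X').card < A.card)
    (h2 : (ups A \ X1).card + (lo D \ X').card < A.card + D.card) :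
    (lo ((V d (k + 1) \ X1) \ ups A) \ X).card < ((V d k \ X') \ lo D).card ∧
    (ups ((V d k \ X') \ lo D) \ X1').card + (lo ((V d (k + 1) \ X1) \ ups A) \ X).card <
      ((V d k \ X') \ lo D).card + ((V d (k + 1) \ X1) \ ups A).card := by
  classical
  have hAV : A ⊆ V d k := hA.trans sdiff_subset
  have hDV : D ⊆ V d (k + 1) := hD.trans sdiff_subset
  have e1 : (V d k \ X).card + X.card = (V d k).card := card_sdiff_add_card_eq_card hX
  have e1' : (V d k \ X').card + X'.card = (V d k).card := card_sdiff_add_card_eq_card hX'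
  have e2 : (V d (k + 1) \ X1).card + X1.card = (V d (k + 1)).card :=
    card_sdiff_add_card_eq_card hX1
  have e2' : (V d (k + 1) \ X1').card + X1'.card = (V d (k + 1)).card :=
    card_sdiff_add_card_eq_card hX1'
  -- `A'' = (V k \ X') \ lo D`
  have e3 : ((V d k \ X') \ lo D).card + (lo D \ X').card = (V d k \ X').card := by
    have : (V d k \ X') \ lo D = (V d k \ X') \ (lo D \ X') := by
      ext y
      simp only [mem_sdiff, not_and, not_not]
      tauto
    rw [this]
    exact card_sdiff_add_card_eq_card (sdiff_subset_sdiff (lo_sub hDV) Subset.rfl)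
  have e4 : ((V d (k + 1) \ X1) \ ups A).card + (ups A \ X1).card = (V d (k + 1) \ X1).card := by
    have : (V d (k + 1) \ X1) \ ups A = (V d (k + 1) \ X1) \ (ups A \ X1) := by
      ext y
      simp only [mem_sdiff, not_and, not_not]
      tauto
    rw [this]
    exact card_sdiff_add_card_eq_card (sdiff_subset_sdiff (ups_subset hAV) Subset.rfl)
  -- `lo D₀ \ X` is disjoint from `A`
  have e5 : (lo ((V d (k + 1) \ X1) \ ups A) \ X).card + A.card ≤ (V d k \ X).card := by
    have hD0 : (V d (k + 1) \ X1) \ ups A ⊆ V d (k + 1) := sdiff_subset.trans sdiff_subset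
    have hdis : Disjoint A (lo ((V d (k + 1) \ X1) \ ups A)) :=
      (disjoint_iff hAV hD0).1 disjoint_sdiff
    rw [← card_union_of_disjoint (hdis.symm.mono_left sdiff_subset)]
    exact card_le_card (union_subset (sdiff_subset_sdiff (lo_sub hD0) Subset.rfl) hA)
  have e6 : (ups ((V d k \ X') \ lo D) \ X1').card + D.card ≤ (V d (k + 1) \ X1').card := by
    have hA0 : (V d k \ X') \ lo D ⊆ V d k := sdiff_subset.trans sdiff_subset
    have hdis : Disjoint (ups ((V d k \ X') \ lo D)) D :=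
      (disjoint_iff hA0 hDV).2 sdiff_disjoint
    rw [← card_union_of_disjoint (hdis.mono_left sdiff_subset)]
    exact card_le_card (union_subset (sdiff_subset_sdiff (ups_subset hA0) Subset.rfl) hD)
  constructor <;> omega

theorem le_iff_cover {x y : Fin (d + 2) → ℕ} (hx : x ∈ V d k) (hy : y ∈ V d (k + 1)) :
    x ≤ y ↔ ∃ i, y = x + Pi.single i 1 := by
  classical
  constructor
  · intro hle
    obtain ⟨_, h1⟩ := mem_V.1 hx
    obtain ⟨_, h2⟩ := mem_V.1 hy
    have hsum : ∑ i, (y i - x i) = 1 := by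
      have h3 : ∑ i, y i = ∑ i, (x i + (y i - x i)) :=
        sum_congr rfl fun i _ => by
          have h : x i ≤ y i := hle i
          omega
      rw [h2, sum_add_distrib, h1] at h3
      omega
    have hex : ∃ i, y i - x i ≠ 0 := by
      by_contra h
      push Not at h
      rw [sum_congr rfl fun i _ => h i] at hsum
      simp at hsum
    obtain ⟨i, hi⟩ := hex
    have h4 : (y i - x i) + ∑ j ∈ univ.erase i, (y j - x j) = 1 :=
      (add_sum_erase univ (fun j => y j - x j) (mem_univ i)).trans hsum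
    have h5 : ∑ j ∈ univ.erase i, (y j - x j) = 0 := by omega
    rw [sum_eq_zero_iff] at h5
    refine ⟨i, funext fun j => ?_⟩
    rw [add_single_ap]
    have hij : x j ≤ y j := hle j
    by_cases hj : j = i
    · rw [if_pos hj]
      have h6 : y j - x j = 1 := by rw [hj]; omega
      omega
    · rw [if_neg hj]
      have h6 := h5 j (mem_erase.2 ⟨hj, mem_univ j⟩)
      omega
  · rintro ⟨i, rfl⟩ j
    rw [add_single_ap]
    split_ifs
    · exact Nat.le_succ _
    · exact le_rfl

theorem le_iff_ups {x y : Fin (d + 2) → ℕ} (hx : x ∈ V d k) (hy : y ∈ V d (k + 1)) :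
    x ≤ y ↔ y ∈ ups {x} := by
  rw [le_iff_cover hx hy, mem_ups]
  constructor
  · rintro ⟨i, rfl⟩
    exact ⟨(mem_V.1 hy).1, x, mem_singleton_self x, i, rfl⟩
  · rintro ⟨_, x', hx', i, rfl⟩
    rw [mem_singleton.1 hx']
    exact ⟨i, rfl⟩

theorem le_iff_lo {x y : Fin (d + 2) → ℕ} (hx : x ∈ V d k) (hy : y ∈ V d (k + 1)) :
    x ≤ y ↔ x ∈ lo {y} := by
  rw [le_iff_cover hx hy, mem_lo]
  constructor
  · rintro ⟨i, rfl⟩
    exact ⟨(mem_V.1 hx).1, i, mem_singleton_self _⟩
  · rintro ⟨_, i, hi⟩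
    exact ⟨i, (mem_singleton.1 hi).symm⟩

/-! ### the elements `el k z` -/

theorem init_el (k : ℕ) (z : Fin (d + 1) → ℕ) : Fin.init (el k z) = z := by
  unfold el
  exact Fin.init_snoc _ _

theorem el_last (k : ℕ) (z : Fin (d + 1) → ℕ) : el k z (Fin.last (d + 1)) = k - ∑ i, z i := by
  unfold el
  exact Fin.snoc_last _ _

theorem el_castSucc (k : ℕ) (z : Fin (d + 1) → ℕ) (j : Fin (d + 1)) :
    el k z j.castSucc = z j := by
  unfold el
  exact Fin.snoc_castSucc _ _ _

theorem el_inj (k : ℕ) : Function.Injective (el k : (Fin (d + 1) → ℕ) → _) := by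
  intro z w h
  rw [← init_el k z, h, init_el]

theorem el_mem {z : Fin (d + 1) → ℕ} (hz : Monotone z) (h : (∑ i, z i) + z (Fin.last d) ≤ k) :
    el k z ∈ V d k := by
  refine mem_V.2 ⟨?_, ?_⟩
  · intro i j hij
    refine Fin.lastCases (fun h1 => ?_) (fun j h1 => ?_) j hij
    · refine Fin.lastCases le_rfl (fun i => ?_) i
      rw [el_last, el_castSucc]
      have := hz (Fin.le_last i)
      omega
    · have h2 : i ≠ Fin.last (d + 1) := by
        rintro rfl
        exact absurd (lt_of_le_of_lt h1 (Fin.castSucc_lt_last j)) (lt_irrefl _)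
      obtain ⟨i', rfl⟩ := Fin.exists_castSucc_eq.2 h2
      rw [el_castSucc, el_castSucc]
      exact hz (Fin.castSucc_le_castSucc_iff.1 h1)
  · rw [Fin.sum_univ_castSucc, el_last]
    simp only [el_castSucc]
    omega

theorem el_init {y : Fin (d + 2) → ℕ} (hy : y ∈ V d k) : el k (Fin.init y) = y := by
  have h1 := (mem_V.1 hy).2
  rw [Fin.sum_univ_castSucc] at h1
  funext j
  refine Fin.lastCases ?_ (fun j => ?_) j
  · rw [el_last]
    have : ∑ i : Fin (d + 1), Fin.init y i = ∑ i : Fin (d + 1), y i.castSucc := rfl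
    omega
  · rw [el_castSucc]
    rfl

theorem shl_el {z : Fin (d + 1) → ℕ} (h : ∑ i, z i ≤ k) : shl (el k z) = el (k + 1) z := by
  funext j
  unfold shl
  rw [add_single_ap]
  refine Fin.lastCases ?_ (fun j => ?_) j
  · rw [if_pos rfl, el_last, el_last]
    omega
  · rw [if_neg (Fin.castSucc_lt_last j).ne, el_castSucc, el_castSucc]

theorem el_add {z : Fin (d + 1) → ℕ} (h : ∑ i, z i ≤ k) (j : Fin (d + 1)) :
    el (k + 1) (z + Pi.single j 1) = el k z + Pi.single j.castSucc 1 := by
  funext i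
  rw [add_single_ap]
  refine Fin.lastCases ?_ (fun i => ?_) i
  · rw [if_neg (Fin.castSucc_lt_last j).ne', el_last, el_last, sum_add_single]
    omega
  · rw [el_castSucc, el_castSucc, add_single_ap]
    simp only [Fin.castSucc_inj]

theorem gp_el {z : Fin (d + 1) → ℕ} : gp (el k z) = k - ∑ i, z i - z (Fin.last d) := by
  unfold gp
  rw [el_last, el_castSucc]

end Pool.Agent.Helper43.SN
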