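import Pool.Agent.Helper43.SN.Lym

set_option autoImplicit false

/-!
# SN-5 Big: a violation by two sets of size `≥ ε₁ k^(d+1)` is almost everything

PROOF. `N = k + 1`, WLOG `ε ≤ ε₁`. Let `c` be the gain of `lym_up_mid`, `lym_lo_mid` for `ε` (the smaller
one), `C` from `lym_up`, `lym_lo`. From `hsum`: `|ups A| - |A| - h' ≤ |E| - |lo E|`.
(a) Suppose `|A| + ε N^(d+1) ≤ |V k|`. Then
`((d+1)/N)|lo E| + C N^(d-1) ≥ |E| - |lo E| ≥ ((d+1)/N)|A| + c N^d - h'` and `|lo E| ≤ |A| + h`, so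
`c N^d ≤ C N^(d-1) + (d+1) h / N + h' ≤ C N^(d-1) + ((d+1) δ + δ) N^d`: false for
`δ = c/(4(d+2))` and large `N`. So `|V k| ≤ |A| + ε N^(d+1)`.
(b) Suppose `|lo E| + ε N^(d+1) ≤ |V k|`. Then
`((d+1)/N)|lo E| - c N^d ≥ |E| - |lo E| ≥ ((d+1)/N)|A| - C N^(d-1) - h'`, the same contradiction.
-/

namespace Pool.Agent.Helper43.SN

open Finset Pool.Agent.Helper46.MR

/-- the final contradiction in both cases -/
private theorem big_contra (d : ℕ) (hd : 1 ≤ d) {N c C δ a e h h' : ℝ} (hN : 0 < N)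
    (hc : 0 < c) (hCN : 4 * C ≤ c * N) (hδ : δ * (4 * ((d : ℝ) + 2)) ≤ c)
    (hh : h ≤ δ * N ^ (d + 1)) (hh' : h' ≤ δ * N ^ d) (hae : e ≤ a + h)
    (hmain : ((d : ℝ) + 1) / N * a + c * N ^ d ≤ ((d : ℝ) + 1) / N * e + C * N ^ (d - 1) + h') :
    False := by
  have hNd : 0 < N ^ d := pow_pos hN d
  have hx : 0 ≤ ((d : ℝ) + 1) / N := by positivity
  have h1 : ((d : ℝ) + 1) / N * e ≤ ((d : ℝ) + 1) / N * a + ((d : ℝ) + 1) * δ * N ^ d := by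
    have h2 : ((d : ℝ) + 1) / N * e ≤ ((d : ℝ) + 1) / N * (a + δ * N ^ (d + 1)) :=
      mul_le_mul_of_nonneg_left (by linarith) hx
    have h3 : ((d : ℝ) + 1) / N * (δ * N ^ (d + 1)) = ((d : ℝ) + 1) * δ * N ^ d := by
      rw [pow_succ]
      field_simp
    rw [mul_add, h3] at h2
    exact h2
  have h4 : 4 * (C * N ^ (d - 1)) ≤ c * N ^ d := by
    have h5 : N ^ d = N * N ^ (d - 1) := by
      rw [← pow_succ']
      congr 1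
      omega
    have h6 : 0 < N ^ (d - 1) := pow_pos hN _
    rw [h5]
    nlinarith
  have h7 : 4 * ((d : ℝ) + 2) * δ * N ^ d ≤ c * N ^ d := by
    have := mul_le_mul_of_nonneg_right hδ hNd.le
    linarith
  have h8 : 0 < c * N ^ d := mul_pos hc hNd
  nlinarith

theorem big_viol (d : ℕ) (hd : 1 ≤ d) (ε₁ ε : ℝ) (hε₁ : 0 < ε₁) (hε : 0 < ε) :
    ∃ (δ : ℝ) (K : ℕ), 0 < δ ∧ ∀ k : ℕ, K ≤ k → ∀ A ⊆ V d k, ∀ E ⊆ V d (k + 1), ∀ h h' : ℝ,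
      h ≤ δ * ((k : ℝ) + 1) ^ (d + 1) → h' ≤ δ * ((k : ℝ) + 1) ^ d →
      ε₁ * ((k : ℝ) + 1) ^ (d + 1) ≤ A.card → ε₁ * ((k : ℝ) + 1) ^ (d + 1) ≤ E.card →
      ((lo E).card : ℝ) ≤ A.card + h →
      ((ups A).card : ℝ) + (lo E).card ≤ A.card + E.card + h' →
      ((V d k).card : ℝ) ≤ A.card + ε * ((k : ℝ) + 1) ^ (d + 1) ∧
      ((V d k).card : ℝ) ≤ (lo E).card + ε * ((k : ℝ) + 1) ^ (d + 1) := by
  have hε₂ : 0 < min ε₁ ε := lt_min hε₁ hε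
  obtain ⟨C₁, K₁, hC₁, H₁⟩ := lym_up d hd
  obtain ⟨C₂, K₂, hC₂, H₂⟩ := lym_lo d hd
  obtain ⟨c₃, K₃, hc₃, H₃⟩ := lym_lo_mid d hd (min ε₁ ε) hε₂
  obtain ⟨c₄, K₄, hc₄, H₄⟩ := lym_up_mid d hd (min ε₁ ε) hε₂
  obtain ⟨K₅, hK₅⟩ := exists_nat_gt (4 * C₁ / c₃)
  obtain ⟨K₆, hK₆⟩ := exists_nat_gt (4 * C₂ / c₄)
  have hc : 0 < min c₃ c₄ := lt_min hc₃ hc₄
  refine ⟨min c₃ c₄ / (4 * ((d : ℝ) + 2)), K₁ + K₂ + K₃ + K₄ + K₅ + K₆, by positivity, ?_⟩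
  intro k hk A hA E hE h h' hh hh' hA₁ hE₁ hlo hsum
  have hN : (0 : ℝ) < (k : ℝ) + 1 := by positivity
  have hpow : (0 : ℝ) < ((k : ℝ) + 1) ^ (d + 1) := pow_pos hN _
  have hδ : min c₃ c₄ / (4 * ((d : ℝ) + 2)) * (4 * ((d : ℝ) + 2)) = min c₃ c₄ :=
    div_mul_cancel₀ _ (by positivity)
  have hm₁ : min ε₁ ε * ((k : ℝ) + 1) ^ (d + 1) ≤ ε₁ * ((k : ℝ) + 1) ^ (d + 1) :=
    mul_le_mul_of_nonneg_right (min_le_left _ _) hpow.le
  have hm₂ : min ε₁ ε * ((k : ℝ) + 1) ^ (d + 1) ≤ ε * ((k : ℝ) + 1) ^ (d + 1) :=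
    mul_le_mul_of_nonneg_right (min_le_right _ _) hpow.le
  have hk5 : (K₅ : ℝ) ≤ (k : ℝ) + 1 := by
    have : (K₅ : ℝ) ≤ (k : ℝ) := by exact_mod_cast (by omega : K₅ ≤ k)
    linarith
  have hk6 : (K₆ : ℝ) ≤ (k : ℝ) + 1 := by
    have : (K₆ : ℝ) ≤ (k : ℝ) := by exact_mod_cast (by omega : K₆ ≤ k)
    linarith
  constructor
  · by_contra hcon
    push Not at hcon
    have h1 := H₄ k (by omega) A hA (by linarith) (by linarith)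
    have h2 := H₂ k (by omega) E hE
    refine big_contra d hd hN hc₄ (C := C₂) (a := A.card) (e := (lo E).card) ?_ ?_ hh hh' hlo ?_
    · have h3 : 4 * C₂ / c₄ < (k : ℝ) + 1 := lt_of_lt_of_le hK₆ hk6
      rw [div_lt_iff₀ hc₄] at h3
      linarith
    · rw [hδ]
      exact min_le_right _ _
    · linarith
  · by_contra hcon
    push Not at hcon
    have h1 := H₃ k (by omega) E hE (by linarith) (by linarith)
    have h2 := H₁ k (by omega) A hA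
    refine big_contra d hd hN hc₃ (C := C₁) (a := A.card) (e := (lo E).card) ?_ ?_ hh hh' hlo ?_
    · have h3 : 4 * C₁ / c₃ < (k : ℝ) + 1 := lt_of_lt_of_le hK₅ hk5
      rw [div_lt_iff₀ hc₃] at h3
      linarith
    · rw [hδ]
      exact min_le_left _ _
    · linarith

end Pool.Agent.Helper43.SN
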