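import Pool.Agent.Helper43.SN.Defs2

set_option autoImplicit false

/-!
# SN-22 Cluster: `Crit` for configurations in the bulk with at most three chains close together

PROOF of `crit_cluster`. Let `u` be monotone. `j = last` is valid (`u + e_last` is monotone). If
`u + e_last ∉ im w` done. Otherwise `u + e_last = w l`; `Blk 2 (w l)`, so all gaps of `u` are `≥ 1` (the last
one too) and `u + e_j` is monotone for all `j`. Suppose all `u + e_j ∈ im w`, `u + e_j = w (f j)`.
Then `f` is injective and all `f j ∈ C` (otherwise `Far 2 (w (f j)) (w (f j'))` is violated for any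
`j' ≠ j`), so `d + 1 ≤ |C| ≤ 3`, contradiction.
`stat_of_gen`: `crit_cluster` with `C = ∅`; `Gen B w`, `B ≥ 2`, gives `Blk 2`, `Far 2`, injectivity.
-/

namespace Pool.Agent.Helper43.SN

open Finset Pool.Agent.Helper46.MR

theorem blk_mono {n b : ℕ} {u : Fin (n + 1) → ℕ} (h : Blk b u) : Monotone u := by
  rw [Fin.monotone_iff_le_succ]
  intro j
  have := h.2 j
  omega

theorem crit_cluster {ι : Type} [Fintype ι] {d : ℕ} (hd : 3 ≤ d) (w : ι → Fin (d + 1) → ℕ)
    (C : Finset ι) (hC : C.card ≤ 3) (hb : ∀ l, Blk 2 (w l))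
    (hfar : ∀ l, l ∉ C → ∀ l', l' ≠ l → Far 2 (w l) (w l')) (Z : Finset (Fin (d + 1) → ℕ)) :
    Crit Z (im w) := by
  classical
  intro u hu _
  by_contra hcon
  push Not at hcon
  -- the last coordinate may always be raised
  have hlast : Monotone (u + Pi.single (Fin.last d) 1 : Fin (d + 1) → ℕ) := by
    intro i j hij
    have h := hu hij
    rw [add_single_ap, add_single_ap]
    split_ifs with h1 h2 h2
    · omega
    · exfalso
      subst h1
      exact h2 (Fin.last_le_iff.1 hij)
    · omega
    · exact h
  obtain ⟨l, -, hl⟩ := mem_image.1 (hcon _ hlast)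
  -- all gaps of `u` are positive
  have hgap : ∀ j : Fin d, u j.castSucc + 1 ≤ u j.succ := by
    intro j
    have h1 := (hb l).2 j
    rw [hl, add_single_ap, add_single_ap] at h1
    have h2 : j.castSucc ≠ Fin.last d := (Fin.castSucc_lt_last j).ne
    rw [if_neg h2] at h1
    split_ifs at h1 <;> omega
  have hall : ∀ j, Monotone (u + Pi.single j 1 : Fin (d + 1) → ℕ) := by
    intro j
    rw [Fin.monotone_iff_le_succ]
    intro i
    have h := hgap i
    rw [add_single_ap, add_single_ap]
    split_ifs <;> omega
  have hex : ∀ j, ∃ i, w i = (u + Pi.single j 1 : Fin (d + 1) → ℕ) := by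
    intro j
    obtain ⟨i, -, hi⟩ := mem_image.1 (hcon j (hall j))
    exact ⟨i, hi⟩
  choose f hf using hex
  have hinj : Function.Injective f := by
    intro i j hij
    by_contra hne
    have h1 : (u + Pi.single i 1 : Fin (d + 1) → ℕ) = u + Pi.single j 1 := by
      rw [← hf i, ← hf j, hij]
    have h2 := congrFun h1 i
    rw [add_single_ap, add_single_ap, if_pos rfl, if_neg hne] at h2
    omega
  have hmem : ∀ j, f j ∈ C := by
    intro j
    by_contra hj
    obtain ⟨j', hj'⟩ : ∃ j' : Fin (d + 1), j' ≠ j := by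
      by_cases h0 : j = 0
      · refine ⟨Fin.last d, ?_⟩
        rw [h0]
        intro h1
        have := congrArg Fin.val h1
        simp at this
        omega
      · exact ⟨0, fun h => h0 h.symm⟩
    have hne : f j' ≠ f j := fun h => hj' (hinj h)
    obtain ⟨i, hi⟩ := hfar (f j) hj (f j') hne
    rw [hf j, hf j', add_single_ap, add_single_ap] at hi
    split_ifs at hi <;> omega
  have hcard : d + 1 ≤ C.card := by
    have h1 : (univ.image f : Finset ι) ⊆ C := by
      intro x hx
      obtain ⟨j, -, rfl⟩ := mem_image.1 hx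
      exact hmem j
    have h2 := card_le_card h1
    rw [card_image_of_injective _ hinj, card_univ, Fintype.card_fin] at h2
    exact h2
  omega

theorem stat_of_gen {ι : Type} [Fintype ι] {d B : ℕ} (hd : 3 ≤ d) (hB : 2 ≤ B)
    (w : ι → Fin (d + 1) → ℕ) (hw : Gen B w) : Stat w := by
  classical
  have hblk : ∀ l, Blk 2 (w l) := by
    intro l
    refine ⟨hB.trans (hw.1 l).1, fun j => ?_⟩
    have := (hw.1 l).2 j
    omega
  refine ⟨?_, fun i => blk_mono (hblk i), ?_⟩
  · intro i i' hii
    by_contra hne
    have h1 := hw.2 i i' hne 0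
    rw [hii] at h1
    omega
  · refine crit_cluster hd w ∅ (by simp) hblk ?_ _
    intro l _ l' hl'
    refine ⟨0, ?_⟩
    have h1 := hw.2 l l' (fun h => hl' h.symm) 0
    omega

end Pool.Agent.Helper43.SN
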