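import Pool.Agent.Helper43.SN.Basic

set_option autoImplicit false

/-!
# SN-2 Crude: `|D| - |lo D| ≤ C |D| / k` (F3)

PROOF. For all `m` there is `C` with `k |D| ≤ k |lo D| + C |D|` for `D ⊆ P (m+1) k k`; induction on `m`.
`m = 0`: `D ⊆ {k}`, and `lo D = {k-1}` if `D = {k}`, `k ≥ 1`. STEP `m → m + 1`, `D ⊆ P (m+2) k k`. Fibres
`D_j = {y ∈ D : y 0 = j}`, `j ≤ k/(m+2)`. For `j ≤ k/(2(m+2))` the tail `y (i+1) - j` is in
`P (m+1) k' k'`, `k' = k - (m+2) j ≥ k/2`, and the lower shadow inside the fibre gives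
`|(lo D)_j| ≥ |D_j| - C' |D_j|/k' ≥ |D_j| - 2 C' |D_j|/k`. For every `j ≥ 1`: `y ↦ y - e_0` maps `D_j`
injectively into `(lo D)_(j-1)`. Cut at `j0`: fibres `j < j0` by induction, `j > j0` by `y - e_0`, the
fibre `j0` is lost, choose `0 ≤ j0 ≤ k/(2(m+2))` with `|D_(j0)|` minimal, so
`|D_(j0)| ≤ 2(m+2)|D|/k`. `C = 2 C' + 2(m+2)`. (Only the fibres `(lo D)_j`, `j < j0` and `j ≥ j0` are
used, they are disjoint.)
-/

namespace Pool.Agent.Helper43.SN

open Finset Pool.Agent.Helper46.MR

namespace CrudeAux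

/-- the statement in `L(m,∞)` -/
def St (m C : ℕ) : Prop :=
  ∀ k : ℕ, ∀ D : Finset (Fin m → ℕ), (∀ y ∈ D, Monotone y ∧ ∑ i, y i = k) →
    k * D.card ≤ k * (lo D).card + C * D.card

theorem base : St 1 0 := by
  intro k D hD
  rcases Nat.eq_zero_or_pos k with rfl | hk
  · simp
  rcases D.eq_empty_or_nonempty with rfl | ⟨y, hy⟩
  · simp
  have h1 : D ⊆ {fun _ => k} := by
    intro z hz
    have h2 := (hD z hz).2
    rw [Fin.sum_univ_one] at h2
    rw [mem_singleton]
    funext i
    rw [Subsingleton.elim i 0]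
    exact h2
  have h2 : D.card ≤ 1 := by
    have := card_le_card h1
    rwa [card_singleton] at this
  have h3 : (fun _ : Fin 1 => k - 1) ∈ lo D := by
    refine mem_lo.2 ⟨fun i j _ => le_rfl, 0, ?_⟩
    have h4 : ((fun _ : Fin 1 => k - 1) + Pi.single 0 1 : Fin 1 → ℕ) = y := by
      rw [mem_singleton.1 (h1 hy)]
      funext i
      rw [Subsingleton.elim i 0]
      simp
      omega
    rw [h4]
    exact hy
  have h4 : 1 ≤ (lo D).card := card_pos.2 ⟨_, h3⟩
  have h5 : k * D.card ≤ k * (lo D).card := Nat.mul_le_mul_left k (h2.trans h4)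
  omega

variable {m : ℕ}

/-- fibre -/
def fib (D : Finset (Fin (m + 2) → ℕ)) (j : ℕ) : Finset (Fin (m + 2) → ℕ) :=
  D.filter fun y => y 0 = j

theorem mem_fib {D : Finset (Fin (m + 2) → ℕ)} {j : ℕ} {y : Fin (m + 2) → ℕ} :
    y ∈ fib D j ↔ y ∈ D ∧ y 0 = j := by
  unfold fib
  rw [mem_filter]

/-- the tail -/
def tl (j : ℕ) (y : Fin (m + 2) → ℕ) : Fin (m + 1) → ℕ := fun i => y i.succ - j

/-- back -/
def bk (j : ℕ) (z : Fin (m + 1) → ℕ) : Fin (m + 2) → ℕ :=
  Fin.cons (α := fun _ => ℕ) j fun i => z i + j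

theorem bk_inj (j : ℕ) : Function.Injective (bk j : (Fin (m + 1) → ℕ) → _) := by
  intro z w h
  funext i
  have h1 := congrFun h i.succ
  unfold bk at h1
  rw [Fin.cons_succ, Fin.cons_succ] at h1
  omega

theorem bk_tl {j : ℕ} {y : Fin (m + 2) → ℕ} (hy : Monotone y) (h0 : y 0 = j) :
    bk j (tl j y) = y := by
  funext i
  unfold bk tl
  refine Fin.cases ?_ (fun i => ?_) i
  · rw [Fin.cons_zero, h0]
  · rw [Fin.cons_succ]
    have := hy (Fin.zero_le i.succ)
    omega

theorem bk_mono {j : ℕ} {z : Fin (m + 1) → ℕ} (hz : Monotone z) : Monotone (bk j z) := by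
  intro a b hab
  unfold bk
  revert hab
  refine Fin.cases (fun _ => ?_) (fun a => ?_) a
  · refine Fin.cases le_rfl (fun b => ?_) b
    rw [Fin.cons_zero, Fin.cons_succ]
    omega
  · refine Fin.cases (fun h => ?_) (fun b h => ?_) b
    · exact absurd (Fin.le_zero_iff.1 h) (Fin.succ_ne_zero a)
    · rw [Fin.cons_succ, Fin.cons_succ]
      have := hz (Fin.succ_le_succ_iff.1 h)
      omega

theorem bk_add {j : ℕ} {z : Fin (m + 1) → ℕ} (i : Fin (m + 1)) :
    bk j z + Pi.single i.succ 1 = bk j (z + Pi.single i 1) := by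
  funext a
  rw [add_single_ap]
  unfold bk
  refine Fin.cases ?_ (fun a => ?_) a
  · rw [if_neg (Fin.succ_ne_zero i).symm, Fin.cons_zero, Fin.cons_zero]
  · rw [Fin.cons_succ, Fin.cons_succ, add_single_ap]
    by_cases h : a = i
    · subst h
      simp only [if_true]
      omega
    · rw [if_neg h, if_neg (fun h' => h (Fin.succ_injective _ h'))]

theorem tl_inj {D : Finset (Fin (m + 2) → ℕ)} (hD : ∀ y ∈ D, Monotone y) (j : ℕ) :
    Set.InjOn (tl j) (fib D j : Set (Fin (m + 2) → ℕ)) := by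
  intro y hy w hw h
  obtain ⟨h1, h2⟩ := mem_fib.1 (mem_coe.1 hy)
  obtain ⟨h3, h4⟩ := mem_fib.1 (mem_coe.1 hw)
  rw [← bk_tl (hD y h1) h2, ← bk_tl (hD w h3) h4, h]

theorem lo_fib {D : Finset (Fin (m + 2) → ℕ)} (hD : ∀ y ∈ D, Monotone y) (j : ℕ) :
    (lo ((fib D j).image (tl j))).card ≤ (fib (lo D) j).card := by
  rw [← card_image_of_injective _ (bk_inj (m := m) j)]
  refine card_le_card fun x hx => ?_
  obtain ⟨z, hz, rfl⟩ := mem_image.1 hx
  obtain ⟨hm, i, hi⟩ := mem_lo.1 hz
  obtain ⟨y, hy, hyz⟩ := mem_image.1 hi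
  obtain ⟨h1, h2⟩ := mem_fib.1 hy
  refine mem_fib.2 ⟨mem_lo.2 ⟨bk_mono hm, i.succ, ?_⟩, ?_⟩
  · rw [bk_add, ← hyz, bk_tl (hD y h1) h2]
    exact h1
  · unfold bk
    rw [Fin.cons_zero]

theorem fibre_le {C k : ℕ} (hC : St (m + 1) C) {D : Finset (Fin (m + 2) → ℕ)}
    (hD : ∀ y ∈ D, Monotone y ∧ ∑ i, y i = k) {j : ℕ} (hj : 2 * ((m + 2) * j) ≤ k) :
    k * (fib D j).card ≤ k * (fib (lo D) j).card + 2 * C * (fib D j).card := by
  have hmono : ∀ y ∈ D, Monotone y := fun y hy => (hD y hy).1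
  have h1 := hC (k - (m + 2) * j) ((fib D j).image (tl j)) (by
    intro z hz
    obtain ⟨y, hy, rfl⟩ := mem_image.1 hz
    obtain ⟨h1, h2⟩ := mem_fib.1 hy
    obtain ⟨h3, h4⟩ := hD y h1
    refine ⟨?_, ?_⟩
    · intro a b hab
      exact Nat.sub_le_sub_right (h3 (Fin.succ_le_succ_iff.2 hab)) j
    · have h5 : ∑ i : Fin (m + 1), y i.succ = ∑ i : Fin (m + 1), (tl j y i + j) := by
        refine sum_congr rfl fun i _ => ?_
        unfold tl
        have := h3 (Fin.zero_le i.succ)
        omega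
      rw [Fin.sum_univ_succ, h5, sum_add_distrib, h2] at h4
      simp only [sum_const, card_univ, Fintype.card_fin, smul_eq_mul] at h4
      have h6 : (m + 2) * j = (m + 1) * j + j := by ring
      omega)
  rw [card_image_of_injOn (tl_inj hmono j)] at h1
  have h2 := lo_fib hmono j
  have h3 : (k - (m + 2) * j) * (lo ((fib D j).image (tl j))).card ≤
      (k - (m + 2) * j) * (fib (lo D) j).card := Nat.mul_le_mul_left _ h2
  have h4 := h1.trans (Nat.add_le_add_right h3 _)
  generalize (fib D j).card = a at *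
  generalize (fib (lo D) j).card = b at *
  have hk : k ≤ 2 * (k - (m + 2) * j) := by omega
  generalize k - (m + 2) * j = k' at *
  rcases le_total a b with hab | hab
  · have := Nat.mul_le_mul_left k hab
    omega
  · obtain ⟨c, rfl⟩ := Nat.exists_eq_add_of_le hab
    have h5 : k' * c ≤ C * (b + c) := by nlinarith
    have h6 : k * c ≤ 2 * k' * c := Nat.mul_le_mul_right c hk
    nlinarith

theorem low_le {C k : ℕ} (hC : St (m + 1) C) {D : Finset (Fin (m + 2) → ℕ)}
    (hD : ∀ y ∈ D, Monotone y ∧ ∑ i, y i = k) {j0 : ℕ} (hj : 2 * ((m + 2) * j0) ≤ k) :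
    k * (D.filter fun y => y 0 < j0).card ≤ k * ((lo D).filter fun y => y 0 < j0).card +
      2 * C * (D.filter fun y => y 0 < j0).card := by
  have key : ∀ E : Finset (Fin (m + 2) → ℕ), (E.filter fun y => y 0 < j0).card =
      ∑ j ∈ range j0, (fib E j).card := by
    intro E
    rw [card_eq_sum_card_fiberwise (f := fun y : Fin (m + 2) → ℕ => y 0) (t := range j0)
      (fun y hy => by simpa using (mem_filter.1 (mem_coe.1 hy)).2)]
    refine sum_congr rfl fun j hj => ?_
    congr 1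
    ext y
    rw [mem_fib, mem_filter, mem_filter]
    have := mem_range.1 hj
    constructor
    · rintro ⟨⟨h1, _⟩, h2⟩
      exact ⟨h1, h2⟩
    · rintro ⟨h1, h2⟩
      exact ⟨⟨h1, by omega⟩, h2⟩
  rw [key, key, mul_sum, mul_sum, mul_sum, ← sum_add_distrib]
  refine sum_le_sum fun j hj' => fibre_le hC hD ?_
  have h1 := mem_range.1 hj'
  have : (m + 2) * j ≤ (m + 2) * j0 := Nat.mul_le_mul_left _ h1.le
  omega

theorem high_le {D : Finset (Fin (m + 2) → ℕ)} (hD : ∀ y ∈ D, Monotone y) (j0 : ℕ) :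
    (D.filter fun y => j0 < y 0).card ≤ ((lo D).filter fun y => j0 ≤ y 0).card := by
  classical
  refine card_le_card_of_injOn (fun y => Function.update y 0 (y 0 - 1)) ?_ ?_
  · intro y hy
    obtain ⟨h1, h2⟩ := mem_filter.1 (mem_coe.1 hy)
    refine mem_coe.2 (mem_filter.2 ⟨mem_lo.2 ⟨?_, 0, ?_⟩, ?_⟩)
    · intro a b hab
      have h3 := hD y h1 hab
      by_cases ha : a = 0
      · subst ha
        by_cases hb : b = 0
        · subst hb
          exact le_rfl
        · simp only [Function.update_self, ne_eq, hb, not_false_eq_true, Function.update_of_ne]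
          omega
      · have hb : b ≠ 0 := by
          rintro rfl
          exact ha (Fin.le_zero_iff.1 hab)
        simp only [ne_eq, ha, hb, not_false_eq_true, Function.update_of_ne]
        exact h3
    · have h3 : (Function.update y 0 (y 0 - 1) + Pi.single 0 1 : Fin (m + 2) → ℕ) = y := by
        funext a
        rw [add_single_ap]
        by_cases ha : a = 0
        · subst ha
          simp only [if_true, Function.update_self]
          omega
        · rw [if_neg ha, Function.update_of_ne ha]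
      show (Function.update y 0 (y 0 - 1) + Pi.single 0 1 : Fin (m + 2) → ℕ) ∈ D
      rw [h3]
      exact h1
    · show j0 ≤ Function.update y 0 (y 0 - 1) 0
      rw [Function.update_self]
      omega
  · intro y hy w hw h
    obtain ⟨h1, h2⟩ := mem_filter.1 (mem_coe.1 hy)
    obtain ⟨h3, h4⟩ := mem_filter.1 (mem_coe.1 hw)
    funext a
    have h5 := congrFun h a
    simp only at h5
    by_cases ha : a = 0
    · subst ha
      rw [Function.update_self, Function.update_self] at h5
      omega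
    · rwa [Function.update_of_ne ha, Function.update_of_ne ha] at h5

theorem split (E : Finset (Fin (m + 2) → ℕ)) (j0 : ℕ) :
    E.card = (E.filter fun y => y 0 < j0).card + (E.filter fun y => j0 ≤ y 0).card := by
  have := card_filter_add_card_filter_not (s := E) (fun y => y 0 < j0)
  rw [← this]
  congr 2
  ext y
  simp

theorem split2 (E : Finset (Fin (m + 2) → ℕ)) (j0 : ℕ) :
    (E.filter fun y => j0 ≤ y 0).card = (fib E j0).card + (E.filter fun y => j0 < y 0).card := by
  have := card_filter_add_card_filter_not (s := E.filter fun y => j0 ≤ y 0)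
    (fun y => y 0 = j0)
  rw [← this]
  congr 2
  · ext y
    rw [mem_fib, mem_filter, mem_filter]
    constructor
    · rintro ⟨⟨h1, _⟩, h2⟩
      exact ⟨h1, h2⟩
    · rintro ⟨h1, h2⟩
      exact ⟨⟨h1, h2.ge⟩, h2⟩
  · ext y
    rw [mem_filter, mem_filter, mem_filter]
    constructor
    · rintro ⟨⟨h1, h3⟩, h2⟩
      exact ⟨h1, by omega⟩
    · rintro ⟨h1, h2⟩
      exact ⟨⟨h1, h2.le⟩, by omega⟩

theorem exists_small (D : Finset (Fin (m + 2) → ℕ)) (k : ℕ) :
    ∃ j0 : ℕ, 2 * ((m + 2) * j0) ≤ k ∧ k * (fib D j0).card ≤ 2 * (m + 2) * D.card := by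
  obtain ⟨j0, hj0, hmin⟩ := (range (k / (2 * (m + 2)) + 1)).exists_min_image
    (fun j => (fib D j).card) ⟨0, by simp⟩
  have h0 : 0 < 2 * (m + 2) := by omega
  refine ⟨j0, ?_, ?_⟩
  · have h1 := Nat.lt_succ_iff.1 (mem_range.1 hj0)
    have h2 := Nat.mul_le_of_le_div _ _ _ h1
    calc 2 * ((m + 2) * j0) = j0 * (2 * (m + 2)) := by ring
      _ ≤ k := h2
  · have h1 : (k / (2 * (m + 2)) + 1) * (fib D j0).card ≤
        ∑ j ∈ range (k / (2 * (m + 2)) + 1), (fib D j).card := by
      have := card_nsmul_le_sum (range (k / (2 * (m + 2)) + 1)) (fun j => (fib D j).card)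
        (fib D j0).card (fun j hj => hmin j hj)
      rwa [card_range, smul_eq_mul] at this
    have h2 : ∑ j ∈ range (k / (2 * (m + 2)) + 1), (fib D j).card ≤ D.card := by
      classical
      rw [← card_biUnion]
      · refine card_le_card fun y hy => ?_
        obtain ⟨j, _, hj⟩ := mem_biUnion.1 hy
        exact (mem_fib.1 hj).1
      · intro i _ j _ hij
        refine Finset.disjoint_left.2 ?_
        intro y hy hy'
        exact hij ((mem_fib.1 hy).2.symm.trans (mem_fib.1 hy').2)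
    have h3 : k ≤ 2 * (m + 2) * (k / (2 * (m + 2)) + 1) := by
      have := Nat.lt_mul_div_succ k h0
      exact this.le
    calc k * (fib D j0).card ≤ 2 * (m + 2) * (k / (2 * (m + 2)) + 1) * (fib D j0).card :=
          Nat.mul_le_mul_right _ h3
      _ = 2 * (m + 2) * ((k / (2 * (m + 2)) + 1) * (fib D j0).card) := by ring
      _ ≤ 2 * (m + 2) * D.card := Nat.mul_le_mul_left _ (h1.trans h2)

theorem step {C : ℕ} (hC : St (m + 1) C) : St (m + 2) (2 * C + 2 * (m + 2)) := by
  intro k D hD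
  obtain ⟨j0, hj0, hs⟩ := exists_small D k
  have h1 := low_le hC hD hj0
  have h2 := Nat.mul_le_mul_left k (high_le (fun y hy => (hD y hy).1) j0)
  have h3 := split D j0
  have h4 := split2 D j0
  have h5 := split (lo D) j0
  have h6 : (D.filter fun y => y 0 < j0).card ≤ D.card := card_filter_le _ _
  have h7 := Nat.mul_le_mul_left (2 * C) h6
  have h8 : k * D.card = k * (D.filter fun y => y 0 < j0).card + (k * (fib D j0).card +
      k * (D.filter fun y => j0 < y 0).card) := by
    rw [← mul_add, ← h4, ← mul_add, ← h3]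
  have h9 : k * (lo D).card = k * ((lo D).filter fun y => y 0 < j0).card +
      k * ((lo D).filter fun y => j0 ≤ y 0).card := by
    rw [← mul_add, ← h5]
  rw [add_mul, h8, h9]
  omega

theorem all (m : ℕ) : ∃ C, St (m + 1) C := by
  induction m with
  | zero => exact ⟨0, base⟩
  | succ m ih =>
    obtain ⟨C, hC⟩ := ih
    exact ⟨_, step hC⟩

end CrudeAux

/-- (F3) -/
theorem crude (d : ℕ) : ∃ C : ℕ, ∀ k : ℕ, ∀ D ⊆ V d k,
    k * D.card ≤ k * (lo D).card + C * D.card := by
  obtain ⟨C, hC⟩ := CrudeAux.all (d + 1)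
  exact ⟨C, fun k D hD => hC k D fun y hy => mem_V.1 (hD hy)⟩

end Pool.Agent.Helper43.SN
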