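import Pool.Agent.Helper43.SN.Crude

set_option autoImplicit false

/-!
# SN-6 Cut: the tube

`tube d a k = {y ∈ V d k : k ≤ gp y + a}`, `gp y = y_1 - y_2` (largest minus second largest part).

PROOFS. `lo_tube`: lowering `y_1` lowers `gp` by one (and needs `gp y ≥ 1`), lowering `y_2` raises it,
lowering another part keeps it; conversely `shl x`. `shl_tube`: clear. `card_tube`: lower `y_1` by
`k - a` (bijection onto `V d a`). `ups_tube_disjoint`: if `y ∈ ups A` is in the tube and `x ∈ A`, `x < y`,
then `x ∈ lo (tube (k+1)) = tube k`.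
`cut`: put `g y = k + 1 - gp y` for `y ∈ V (k+1)`, `g x = k - gp x` for `x ∈ V k` (`y` in the tube iff
`g y ≤ a`). Lowering the last part keeps `g`, lowering `y_2` gives `g - 2`, lowering another part
gives `g - 1`. For a cut level `t` with `a ≤ t ≤ k/2`: the part `a < g y ≤ t` of `D` is mapped by
lowering the last part (possible, as `gp y ≥ 1`) injectively into `{a < g x ≤ t}`; the part
`g y ≥ t + 3` has its lower shadow in `{g x ≥ t + 1}`, use `crude` for it; the part
`g y ∈ {t + 1, t + 2}` is lost; choose `t = a + 2 i`, `i < k/8 + 1` or so, with the smallest loss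
(`≤ 8 |D| / k`, pigeonhole). Small `k`: trivial for large `C`.
-/

namespace Pool.Agent.Helper43.SN

open Finset Pool.Agent.Helper46.MR

variable {d a k : ℕ}

private theorem second_ne_last : (Fin.last d).castSucc ≠ Fin.last (d + 1) := by
  intro h
  have := congrArg Fin.val h
  simp at this

/-- raising one part raises `gp` by at most one -/
private theorem gp_add_le (x : Fin (d + 2) → ℕ) (i : Fin (d + 2)) :
    gp (x + Pi.single i 1 : Fin (d + 2) → ℕ) ≤ gp x + 1 := by
  unfold gp
  rw [add_single_ap, add_single_ap]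
  split_ifs <;> omega

/-- raising one part lowers `gp` by at most one -/
private theorem le_gp_add (x : Fin (d + 2) → ℕ) (i : Fin (d + 2)) :
    gp x ≤ gp (x + Pi.single i 1 : Fin (d + 2) → ℕ) + 1 := by
  unfold gp
  rw [add_single_ap, add_single_ap]
  split_ifs <;> omega

private theorem gp_shl {x : Fin (d + 2) → ℕ} (hx : Monotone x) : gp (shl x) = gp x + 1 := by
  have h := hx (Fin.le_last (Fin.last d).castSucc)
  unfold gp shl
  rw [add_single_ap, add_single_ap, if_pos rfl, if_neg second_ne_last]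
  omega

/-- the largest part can be lowered if it is larger than the second largest -/
private theorem exists_shl {y : Fin (d + 2) → ℕ} (hy : y ∈ V d (k + 1)) (h : 1 ≤ gp y) :
    ∃ x ∈ V d k, shl x = y := by
  obtain ⟨hm, hs⟩ := mem_V.1 hy
  have hpos : 1 ≤ y (Fin.last (d + 1)) := by
    unfold gp at h
    omega
  have hx : (y - Pi.single (Fin.last (d + 1)) 1 : Fin (d + 2) → ℕ) +
      Pi.single (Fin.last (d + 1)) 1 = y := by
    funext j
    by_cases hj : j = Fin.last (d + 1)
    · subst hj; simp; omega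
    · simp [hj]
  refine ⟨y - Pi.single (Fin.last (d + 1)) 1, mem_V.2 ⟨?_, ?_⟩, hx⟩
  · intro p q hpq
    by_cases hq : q = Fin.last (d + 1)
    · subst hq
      by_cases hp : p = Fin.last (d + 1)
      · subst hp; exact le_rfl
      · have hp' : p ≤ (Fin.last d).castSucc := by
          rw [Fin.le_def]
          have h1 : p.1 < d + 2 := p.2
          have h2 : p.1 ≠ d + 1 := fun h3 => hp (Fin.ext h3)
          simp
          omega
        have h3 := hm hp'
        unfold gp at h
        simp [hp]
        omega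
    · have hp : p ≠ Fin.last (d + 1) := by
        intro hp
        subst hp
        exact hq (Fin.last_le_iff.1 hpq)
      simp [hp, hq]
      exact hm hpq
  · have h1 := sum_add_single (y - Pi.single (Fin.last (d + 1)) 1 : Fin (d + 2) → ℕ)
      (Fin.last (d + 1))
    rw [hx, hs] at h1
    omega

theorem mem_tube {y : Fin (d + 2) → ℕ} : y ∈ tube d a k ↔ y ∈ V d k ∧ k ≤ gp y + a := by
  unfold tube
  rw [mem_filter]

theorem tube_subset : tube d a k ⊆ V d k := by
  unfold tube
  exact filter_subset _ _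

theorem shl_mem_tube {x : Fin (d + 2) → ℕ} (hx : x ∈ tube d a k) : shl x ∈ tube d a (k + 1) := by
  obtain ⟨h1, h2⟩ := mem_tube.1 hx
  refine mem_tube.2 ⟨shl_mem h1, ?_⟩
  rw [gp_shl (mem_V.1 h1).1]
  omega

theorem lo_tube : lo (tube d a (k + 1)) = tube d a k := by
  ext x
  constructor
  · intro hx
    have hxV := lo_sub tube_subset hx
    obtain ⟨hm, i, hi⟩ := mem_lo.1 hx
    refine mem_tube.2 ⟨hxV, ?_⟩
    have h1 := (mem_tube.1 hi).2
    have h2 := gp_add_le x i
    omega
  · intro hx
    exact mem_lo.2 ⟨(mem_V.1 (tube_subset hx)).1, Fin.last (d + 1), shl_mem_tube hx⟩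

theorem card_tube (h : a ≤ k) : (tube d a k).card = (V d a).card := by
  classical
  induction k, h using Nat.le_induction with
  | base =>
    congr 1
    ext y
    rw [mem_tube]
    exact ⟨fun h => h.1, fun h => ⟨h, Nat.le_add_left _ _⟩⟩
  | succ k hk ih =>
    rw [← ih, ← card_image_of_injective (tube d a k) shl_inj]
    congr 1
    ext y
    rw [mem_image]
    constructor
    · intro hy
      obtain ⟨h1, h2⟩ := mem_tube.1 hy
      obtain ⟨x, hx, rfl⟩ := exists_shl h1 (by omega)
      refine ⟨x, mem_tube.2 ⟨hx, ?_⟩, rfl⟩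
      rw [gp_shl (mem_V.1 hx).1] at h2
      omega
    · rintro ⟨x, hx, rfl⟩
      exact shl_mem_tube hx

theorem ups_tube_disjoint {A : Finset (Fin (d + 2) → ℕ)} (hA : A ⊆ V d k \ tube d a k) :
    Disjoint (ups A) (tube d a (k + 1)) := by
  rw [disjoint_iff (hA.trans sdiff_subset) tube_subset, lo_tube]
  exact disjoint_sdiff.symm.mono_left hA

/-- the inequality for one cut level `t` -/
private theorem cut_level {C : ℕ} (hC : ∀ k : ℕ, ∀ D ⊆ V d k,
      k * D.card ≤ k * (lo D).card + C * D.card) {t : ℕ} (hat : a ≤ t) (htk : t ≤ k)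
    {D : Finset (Fin (d + 2) → ℕ)} (hD : D ⊆ V d (k + 1) \ tube d a (k + 1)) :
    (k + 1) * D.card ≤ (k + 1) * (lo D \ tube d a k).card + C * D.card +
      (k + 1) * (D.filter fun y => gp y + t ≤ k ∧ k ≤ gp y + t + 1).card := by
  classical
  have hDV : D ⊆ V d (k + 1) := hD.trans sdiff_subset
  set D1 := D.filter fun y => k + 1 ≤ gp y + t with hD1
  set D2 := D.filter fun y => gp y + t ≤ k ∧ k ≤ gp y + t + 1 with hD2
  set D3 := D.filter fun y => gp y + t + 2 ≤ k with hD3
  have hcov : D ⊆ D1 ∪ (D2 ∪ D3) := by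
    intro y hy
    simp only [hD1, hD2, hD3, mem_union, mem_filter, hy, true_and]
    omega
  have hcard : D.card ≤ D1.card + (D2.card + D3.card) :=
    (card_le_card hcov).trans ((card_union_le _ _).trans (Nat.add_le_add_left (card_union_le _ _) _))
  -- the lower shadow of the near part
  set S1 := (lo D \ tube d a k).filter fun x => k ≤ gp x + t with hS1
  set S3 := (lo D \ tube d a k).filter fun x => ¬ k ≤ gp x + t with hS3
  have hS : S1.card + S3.card = (lo D \ tube d a k).card := card_filter_add_card_filter_not _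
  have h1 : D1.card ≤ S1.card := by
    rw [← card_image_of_injective S1 shl_inj]
    refine card_le_card fun y hy => ?_
    obtain ⟨hyD, hyt⟩ := mem_filter.1 hy
    obtain ⟨x, hx, rfl⟩ := exists_shl (hDV hyD) (by omega)
    have hg := gp_shl (mem_V.1 hx).1
    have hnt := (mem_sdiff.1 (hD hyD)).2
    refine mem_image_of_mem _ (mem_filter.2 ⟨mem_sdiff.2 ⟨?_, ?_⟩, ?_⟩)
    · exact mem_lo.2 ⟨(mem_V.1 hx).1, Fin.last (d + 1), hyD⟩
    · exact fun hx' => hnt (shl_mem_tube hx')
    · omega
  have h3 : (lo D3).card ≤ S3.card := by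
    refine card_le_card fun x hx => ?_
    obtain ⟨hm, i, hi⟩ := mem_lo.1 hx
    obtain ⟨hiD, hig⟩ := mem_filter.1 hi
    have h2 := le_gp_add x i
    refine mem_filter.2 ⟨mem_sdiff.2 ⟨mem_lo.2 ⟨hm, i, hiD⟩, fun hx' => ?_⟩, ?_⟩
    · have := (mem_tube.1 hx').2
      omega
    · omega
  have h4 := hC (k + 1) D3 ((filter_subset _ _).trans hDV)
  have h5 : C * D3.card ≤ C * D.card := Nat.mul_le_mul_left _ (card_le_card (filter_subset _ _))
  calc (k + 1) * D.card ≤ (k + 1) * (D1.card + (D2.card + D3.card)) :=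
        Nat.mul_le_mul_left _ hcard
    _ = (k + 1) * D1.card + (k + 1) * D2.card + (k + 1) * D3.card := by ring
    _ ≤ (k + 1) * S1.card + (k + 1) * D2.card + ((k + 1) * S3.card + C * D.card) := by
        have e1 := Nat.mul_le_mul_left (k + 1) h1
        have e3 := Nat.mul_le_mul_left (k + 1) h3
        omega
    _ = (k + 1) * (S1.card + S3.card) + C * D.card + (k + 1) * D2.card := by ring
    _ = _ := by rw [hS]

theorem cut (d : ℕ) : ∃ C : ℕ, ∀ a k : ℕ, 4 * a ≤ k → ∀ D ⊆ V d (k + 1) \ tube d a (k + 1),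
    (k + 1) * D.card ≤ (k + 1) * (lo D \ tube d a k).card + C * D.card := by
  classical
  obtain ⟨C, hC⟩ := crude d
  refine ⟨C + 8, fun a k hak D hD => ?_⟩
  set n := k / 8 + 1 with hn
  have hn8 : k + 1 ≤ 8 * n := by omega
  let L : ℕ → Finset (Fin (d + 2) → ℕ) := fun i =>
    D.filter fun y => gp y + (a + 2 * i) ≤ k ∧ k ≤ gp y + (a + 2 * i) + 1
  have hdis : ∀ i ∈ range n, ∀ j ∈ range n, i ≠ j → Disjoint (L i) (L j) := by
    intro i _ j _ hij
    rw [Finset.disjoint_left]
    intro y hy hy'
    have e1 := (mem_filter.1 hy).2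
    have e2 := (mem_filter.1 hy').2
    omega
  have hsum : ∑ i ∈ range n, (L i).card ≤ D.card := by
    rw [← card_biUnion hdis]
    exact card_le_card (biUnion_subset.2 fun i _ => filter_subset _ _)
  obtain ⟨i, hi, hLi⟩ : ∃ i ∈ range n, n * (L i).card ≤ D.card := by
    refine exists_le_of_sum_le (f := fun i => n * (L i).card) (g := fun _ => D.card)
      ⟨0, mem_range.2 (by omega)⟩ ?_
    rw [← mul_sum, sum_const, card_range, smul_eq_mul]
    exact Nat.mul_le_mul_left _ hsum
  have hin := mem_range.1 hi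
  have h1 := cut_level hC (a := a) (k := k) (t := a + 2 * i) (by omega) (by omega) hD
  have h2 : (k + 1) * (L i).card ≤ 8 * D.card :=
    calc (k + 1) * (L i).card ≤ (8 * n) * (L i).card := Nat.mul_le_mul_right _ hn8
      _ = 8 * (n * (L i).card) := by ring
      _ ≤ 8 * D.card := Nat.mul_le_mul_left _ hLi
  have h3 : (C + 8) * D.card = C * D.card + 8 * D.card := by ring
  have h4 : (D.filter fun y => gp y + (a + 2 * i) ≤ k ∧ k ≤ gp y + (a + 2 * i) + 1) = L i := rfl
  rw [h4] at h1
  omega

end Pool.Agent.Helper43.SN
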