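import Mathlib
import Pool.Agent.Helper46.MR.Basic

set_option autoImplicit false

/-!
# Project SN (MP_b31059): `L(m,n)` is a symmetric chain order for `m ≥ 5` and all large `n`

Team note 2271. `m = d + 2`, `d ≥ 3`. The elements of `L(m,∞)` are the monotone
`y : Fin (d+2) → ℕ`; the largest part (`y_1` in the note) is `y (Fin.last (d+1))`, the second largest
part (`y_2`) is `y (Fin.last d).castSucc`, the smallest part is `y 0`. Level `k` = sum `k`.
-/

namespace Pool.Agent.Helper43.SN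

open Finset Pool.Agent.Helper46.MR

/-- level `k` of `L(d+2,∞)` -/
noncomputable def V (d k : ℕ) : Finset (Fin (d + 2) → ℕ) := P (d + 2) k k

/-- level `k` of `L(d+2,∞)` as a type -/
abbrev Vt (d k : ℕ) : Type := {x : Fin (d + 2) → ℕ // x ∈ V d k}

/-- upper shadow in `L(d+2,∞)` -/
noncomputable def ups {d : ℕ} (A : Finset (Fin (d + 2) → ℕ)) : Finset (Fin (d + 2) → ℕ) :=
  open Classical in
  (A.biUnion fun x => univ.image fun i => x + Pi.single i 1).filter fun x => Monotone x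

/-- raise the largest part -/
def shl {d : ℕ} (x : Fin (d + 2) → ℕ) : Fin (d + 2) → ℕ := x + Pi.single (Fin.last (d + 1)) 1

/-- `y_1 - y_2` -/
def gp {d : ℕ} (y : Fin (d + 2) → ℕ) : ℕ := y (Fin.last (d + 1)) - y (Fin.last d).castSucc

/-- the condition for a punctured step of Griggs, `X, X' ⊆ V k`, `X1, X1' ⊆ V (k+1)` are removed
(`lo` is the lower shadow of `Pool.Agent.Helper46.MR`) -/
def KP (d k : ℕ) (X X1 X' X1' : Finset (Fin (d + 2) → ℕ)) : Prop :=
  ∀ A ⊆ V d k \ X, ∀ D ⊆ V d (k + 1) \ X1',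
    A.card ≤ (lo D \ X').card ∨ A.card + D.card ≤ (ups A \ X1).card + (lo D \ X').card

/-- `KP` for sets of at most `s` elements -/
def KPs (d k s : ℕ) (X X1 X' X1' : Finset (Fin (d + 2) → ℕ)) : Prop :=
  ∀ A ⊆ V d k \ X, ∀ D ⊆ V d (k + 1) \ X1', A.card ≤ s → D.card ≤ s →
    A.card ≤ (lo D \ X').card ∨ A.card + D.card ≤ (ups A \ X1).card + (lo D \ X').card

/-- `Ext d k π`: symmetric chains of the ranks `k, ..., mn - k` with the linking `π` at level `k`
(the bottom `x` belongs to the same chain as the complement of `π x`) can be prolonged to all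
ranks. -/
def Ext (d : ℕ) : (k : ℕ) → Equiv.Perm (Vt d k) → Prop
  | 0, _ => True
  | k + 1, π => ∃ (f g : Vt d k ↪ Vt d (k + 1)) (π' : Equiv.Perm (Vt d k)),
      (∀ x, x.1 ≤ (f x).1) ∧ (∀ x, x.1 ≤ (g x).1) ∧ (∀ x, π (f x) = g (π' x)) ∧ Ext d k π'

/-- `T d k x x' G`: every linking at level `k` which links the special elements `x i` and `x' i`
is extendable after a permutation `g ∈ G` of the special elements. -/
def T {ι : Type} [Fintype ι] [DecidableEq ι] (d k : ℕ) (x x' : ι ↪ Vt d k)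
    (G : Set (Equiv.Perm ι)) : Prop :=
  ∀ π : Equiv.Perm (Vt d k), (∀ i, π (x i) = x' i) →
    ∃ g ∈ G, Ext d k (π * g.viaFintypeEmbedding x)

/-- the set of the elements `x i` -/
def imv {ι : Type} [Fintype ι] {d k : ℕ} (x : ι ↪ Vt d k) : Finset (Fin (d + 2) → ℕ) :=
  univ.image fun i => (x i).1

/-- only the links of `y` elements are prescribed -/
def Kill (d k y : ℕ) : Prop :=
  ∀ Y : Finset (Vt d k), Y.card ≤ y → ∀ (π : Equiv.Perm (Vt d k)) (e : ℤˣ),
    ∃ ρ : Equiv.Perm (Vt d k), (∀ v ∈ Y, ρ v = π v) ∧ Equiv.Perm.sign ρ = e ∧ Ext d k ρ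

/-- the tube: the elements of level `k` with `y_1 - y_2 ≥ k - a` -/
noncomputable def tube (d a k : ℕ) : Finset (Fin (d + 2) → ℕ) :=
  (V d k).filter fun y => k ≤ gp y + a

/-- the element of level `k` with the coordinates `z = (y_m, ..., y_2)` -/
def el {d : ℕ} (k : ℕ) (z : Fin (d + 1) → ℕ) : Fin (d + 2) → ℕ :=
  Fin.snoc (α := fun _ => ℕ) z (k - ∑ i, z i)

/-- the cross section of the tube -/
noncomputable def J (d a : ℕ) : Finset (Fin (d + 1) → ℕ) :=
  open Classical in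
  (Fintype.piFinset fun _ : Fin (d + 1) => range (a + 1)).filter fun z =>
    Monotone z ∧ (∑ i, z i) + z (Fin.last d) ≤ a

/-- eventually `T` for the special elements with the coordinates `z i`, `z' i` -/
def Ev {ι : Type} [Fintype ι] [DecidableEq ι] (d : ℕ) (z z' : ι → Fin (d + 1) → ℕ)
    (G : Set (Equiv.Perm ι)) : Prop :=
  ∃ K : ℕ, ∀ k : ℕ, K ≤ k → ∃ x x' : ι ↪ Vt d k,
    (∀ i, (x i).1 = el k (z i)) ∧ (∀ i, (x' i).1 = el k (z' i)) ∧ T d k x x' G

/-- the image of a configuration -/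
def im {ι : Type} [Fintype ι] {d : ℕ} (z : ι → Fin (d + 1) → ℕ) : Finset (Fin (d + 1) → ℕ) :=
  univ.image z

/-- every place outside `Z` has an upper neighbour (with fixed `y_1`) outside `W` -/
def Crit {d : ℕ} (Z W : Finset (Fin (d + 1) → ℕ)) : Prop :=
  ∀ u : Fin (d + 1) → ℕ, Monotone u → u ∉ Z →
    ∃ j, Monotone (u + Pi.single j 1 : Fin (d + 1) → ℕ) ∧ u + Pi.single j 1 ∉ W

/-- generic configuration: far from the walls and pairwise far apart in every coordinate -/
def Gen {ι : Type} {d : ℕ} (B : ℕ) (w : ι → Fin (d + 1) → ℕ) : Prop :=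
  (∀ i, B ≤ w i 0 ∧ ∀ j : Fin d, w i j.castSucc + B ≤ w i j.succ) ∧
    ∀ i i', i ≠ i' → ∀ j, w i j + B ≤ w i' j ∨ w i' j + B ≤ w i j

/-- the 3-cycle `i → l → j → i` -/
def cyc {ι : Type} [DecidableEq ι] (i j l : ι) : Equiv.Perm ι := Equiv.swap i j * Equiv.swap i l

end Pool.Agent.Helper43.SN
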