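import Pool.Agent.Helper43.SN.Basic

set_option autoImplicit false

/-!
# SN Defs2: definitions for the moves of the special chains
-/

namespace Pool.Agent.Helper43.SN

open Finset Pool.Agent.Helper46.MR

/-- far from the walls: all gaps at least `b` -/
def Blk {n : ℕ} (b : ℕ) (u : Fin (n + 1) → ℕ) : Prop :=
  b ≤ u 0 ∧ ∀ j : Fin n, u j.castSucc + b ≤ u j.succ

/-- distance at least `b` -/
def Far {n : ℕ} (b : ℕ) (u v : Fin n → ℕ) : Prop := ∃ j, u j + b ≤ v j ∨ v j + b ≤ u j

/-- the elements of level `k` with the coordinates in `Z` -/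
def elS {d : ℕ} (k : ℕ) (Z : Finset (Fin (d + 1) → ℕ)) : Finset (Fin (d + 2) → ℕ) :=
  Z.image (el k)

/-- a lower set of monotone places -/
def LowS {d : ℕ} (Z : Finset (Fin (d + 1) → ℕ)) : Prop :=
  (∀ u ∈ Z, Monotone u) ∧ ∀ u v : Fin (d + 1) → ℕ, Monotone u → u ≤ v → v ∈ Z → u ∈ Z

/-- `p` lies on the path from `v` to `t` which raises the last coordinate first -/
def OnP {n : ℕ} (v t p : Fin n → ℕ) : Prop :=
  ∃ r, (∀ j, r < j → p j = t j) ∧ (∀ j, j < r → p j = v j) ∧ v r ≤ p r ∧ p r ≤ t r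

/-- the place `M (1, 2, ..., d+1)` -/
def ray {d : ℕ} (M : ℕ) : Fin (d + 1) → ℕ := fun j => M * ((j : ℕ) + 1)

/-- put the chains `i`, `j`, `l` at the places `p`, `q`, `r` -/
def put {ι : Type} [DecidableEq ι] {d : ℕ} (w : ι → Fin (d + 1) → ℕ) (i j l : ι)
    (p q r : Fin (d + 1) → ℕ) : ι → Fin (d + 1) → ℕ :=
  Function.update (Function.update (Function.update w i p) j q) l r

/-- `v` with `r` units added; the last coordinate is filled first up to `t`, then the next one -/
def fill {n : ℕ} (v t : Fin n → ℕ) (r : ℕ) : Fin n → ℕ :=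
  fun j => v j + min (t j - v j) (r - ∑ i ∈ univ.filter (fun i => j < i), (t i - v i))

/-- a configuration of different monotone places which satisfies `Crit` -/
def Stat {ι : Type} [Fintype ι] {d : ℕ} (z : ι → Fin (d + 1) → ℕ) : Prop :=
  Function.Injective z ∧ (∀ i, Monotone (z i)) ∧ Crit (im z) (im z)

end Pool.Agent.Helper43.SN
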