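import Pool.Agent.Helper43.SN.Path

set_option autoImplicit false

/-!
# SN-21 Exit: the special chains leave the tube one after the other

PROOF. WLOG `B ≥ 3`. All coordinates of the places `z i` are `≤ a` for some `a`. Claim, by induction on
`|S|`: for every set `S ⊆ ι` of chains which is an upper set (`l ∈ S`, `z l ≤ z l'` implies `l' ∈ S`) there
are `N l` (`l ∈ S`) with `N l ≥ a + B`, `N l ≥ N l' + B` or conversely for `l ≠ l'`, such that for
`w l = ray (N l)` (`l ∈ S`), `w l = z l` (`l ∉ S`): `Ev d w z' G`. `S = ∅`: hypothesis. STEP: let `i ∉ S` be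
such that `z i` is maximal among `l ∉ S` (so `S ∪ {i}` is an upper set), choose `N i` larger than all
others `+ B + a`. Use `path` from `z i` to `ray (N i)` (`z i ≤ a ≤ N i`).
The places `z l`, `l ∉ S ∪ {i}`, form a lower set `L` (a monotone `u ≤ z l` is some `z l''` by `hlow`, and
`l'' ∉ S ∪ {i}`). A path place `p` is not in `L` (`p ≥ z i`) and has distance `≥ B` from every `ray (N l)`,
`l ∈ S`: before the last phase (`p 0 = z i 0 ≤ a`) by the coordinate `0`, in the last phase (only the
coordinate `0` is raised) by the coordinate `1`.
`Crit` for a step `p → p' = p + e_j`: let `u` be monotone, `u ∉ Z = L ∪ {p} ∪ F`, `F = {ray (N l)}`,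
`W = L ∪ {p'} ∪ F`. No `u + e_j'` is in `L` (else `u ∈ L`). (A) `u + e_j' = q ∈ F` for some `j'`: all
directions are valid for `u` (gaps of `q` are `≥ B ≥ 3`); take another one: `u + e_j''` has distance `≤ 1`
from `q` in every coordinate, so it is not in `F` (other than `q`) and not `p'` (`B ≥ 3`).
(B) otherwise: `j' = last` is valid; if `u + e_last ≠ p'` done. If `u = p' - e_last`: if `j = last` then
`u = p ∈ Z`, excluded. If `j < last`, the last coordinate is already `N i (d+1)`, so `u` is not
constant: `u 0 < u last`, hence some `j'' < last` has `u j'' < u (j''+1)`, it is valid and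
`u + e_j'' ≠ p'`. (This is the trap `(c, .., c, c+1)` mentioned by the referees.)
At the end `w l = ray (N l)` for all `l`: `Gen B w`.
-/

namespace Pool.Agent.Helper43.SN

open Finset Pool.Agent.Helper46.MR

namespace ExitAux

theorem ray_mono {d : ℕ} (M : ℕ) : Monotone (ray M : Fin (d + 1) → ℕ) := by
  intro i j hij
  unfold ray
  have : (i : ℕ) ≤ j := hij
  exact Nat.mul_le_mul le_rfl (by omega)

theorem ray_zero {d : ℕ} (M : ℕ) : (ray M : Fin (d + 1) → ℕ) 0 = M := by
  simp [ray]

theorem mem_im {ι : Type} [Fintype ι] {d : ℕ} {z : ι → Fin (d + 1) → ℕ}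
    {u : Fin (d + 1) → ℕ} : u ∈ im z ↔ ∃ l, z l = u := by
  unfold im
  simp

theorem add_last_mono {d : ℕ} {u : Fin (d + 1) → ℕ} (hu : Monotone u) :
    Monotone (u + Pi.single (Fin.last d) 1 : Fin (d + 1) → ℕ) := by
  intro i j hij
  rw [add_single_apply, add_single_apply]
  have h := hu hij
  split_ifs with h1 h2 h2
  · omega
  · exfalso
    subst h1
    exact h2 (Fin.last_le_iff.1 hij)
  · omega
  · exact h

theorem le_add_single {n : ℕ} (u : Fin n → ℕ) (j : Fin n) :
    u ≤ (u + Pi.single j 1 : Fin n → ℕ) := by
  intro i
  change u i ≤ (u + Pi.single j 1 : Fin n → ℕ) i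
  rw [add_single_apply]
  split_ifs
  · exact Nat.le_succ _
  · exact le_rfl

theorem add_cast_mono {d : ℕ} {u : Fin (d + 1) → ℕ} (hu : Monotone u) (j : Fin d)
    (h : u j.castSucc < u j.succ) :
    Monotone (u + Pi.single j.castSucc 1 : Fin (d + 1) → ℕ) := by
  rw [Fin.monotone_iff_le_succ]
  intro i
  rw [add_single_apply, add_single_apply]
  by_cases hij : i = j
  · subst hij
    rw [if_pos rfl, if_neg (Fin.castSucc_lt_succ).ne']
    omega
  · rw [if_neg (fun h' => hij (Fin.castSucc_inj.1 h'))]
    have h1 : u i.castSucc ≤ u i.succ := hu (Fin.castSucc_lt_succ).le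
    split_ifs <;> omega

theorem exists_step {d : ℕ} {u : Fin (d + 1) → ℕ} (h : u 0 < u (Fin.last d)) :
    ∃ j : Fin d, u j.castSucc < u j.succ := by
  by_contra hc
  push Not at hc
  have h1 : Antitone u := Fin.antitone_iff_succ_le.2 hc
  have h2 := h1 (Fin.zero_le (Fin.last d))
  omega

theorem ray_sub_mono {d : ℕ} {M : ℕ} (hM : 3 ≤ M) {u : Fin (d + 1) → ℕ} {j' : Fin (d + 1)}
    (hu : (u + Pi.single j' 1 : Fin (d + 1) → ℕ) = ray M) (j : Fin (d + 1)) :
    Monotone (u + Pi.single j 1 : Fin (d + 1) → ℕ) := by
  rw [Fin.monotone_iff_le_succ]
  intro i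
  have h1 := congrFun hu i.castSucc
  have h2 := congrFun hu i.succ
  rw [add_single_apply] at h1 h2 ⊢
  rw [add_single_apply]
  unfold ray at h1 h2
  rw [Fin.val_castSucc] at h1
  rw [Fin.val_succ] at h2
  have h3 : M * ((i : ℕ) + 1 + 1) = M * ((i : ℕ) + 1) + M := by ring
  rw [h3] at h2
  split_ifs at h1 h2 ⊢ <;> omega

/-- the configuration: the chains of `S` have left -/
def conf {ι : Type} [DecidableEq ι] {d : ℕ} (z : ι → Fin (d + 1) → ℕ) (S : Finset ι)
    (N : ι → ℕ) : ι → Fin (d + 1) → ℕ :=
  fun l => if l ∈ S then ray (N l) else z l

end ExitAux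

open ExitAux in
theorem leave {ι : Type} [Fintype ι] [DecidableEq ι] (d : ℕ) (hd : 2 ≤ d)
    (z z' : ι → Fin (d + 1) → ℕ) (hz : Function.Injective z) (hlow : LowS (im z))
    (hz' : Stat z') (B : ℕ) (G : Set (Equiv.Perm ι)) (h : Ev d z z' G) :
    ∃ w : ι → Fin (d + 1) → ℕ, Gen B w ∧ Ev d w z' G := by
  classical
  -- a bound for all coordinates
  obtain ⟨a, ha⟩ : ∃ a : ℕ, ∀ l j, z l j ≤ a := by
    refine ⟨∑ l, ∑ j, z l j, fun l j => ?_⟩
    exact (single_le_sum (f := fun j => z l j) (fun _ _ => Nat.zero_le _) (mem_univ j)).trans
      (single_le_sum (f := fun l => ∑ j, z l j) (fun _ _ => Nat.zero_le _) (mem_univ l))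
  obtain ⟨B', hB', hB3⟩ : ∃ B' : ℕ, B ≤ B' ∧ 3 ≤ B' := ⟨max B 3, le_max_left _ _, le_max_right _ _⟩
  have hmz : ∀ l, Monotone (z l) := fun l => hlow.1 _ (mem_im.2 ⟨l, rfl⟩)
  have key : ∀ n : ℕ, n ≤ Fintype.card ι → ∃ (S : Finset ι) (N : ι → ℕ), S.card = n ∧
      (∀ l ∈ S, ∀ l', z l ≤ z l' → l' ∈ S) ∧ (∀ l ∈ S, a + B' ≤ N l) ∧
      (∀ l ∈ S, ∀ l' ∈ S, l ≠ l' → N l + B' ≤ N l' ∨ N l' + B' ≤ N l) ∧
      Ev d (conf z S N) z' G := by
    intro n
    induction n with
    | zero =>
      intro _
      refine ⟨∅, fun _ => 0, rfl, ?_, ?_, ?_, ?_⟩
      · intro l hl; exact absurd hl (Finset.notMem_empty l)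
      · intro l hl; exact absurd hl (Finset.notMem_empty l)
      · intro l hl; exact absurd hl (Finset.notMem_empty l)
      · have : conf z ∅ (fun _ => 0) = z := by
          funext l
          simp [conf]
        rw [this]
        exact h
    | succ n ih =>
      intro hn
      obtain ⟨S, N, hS, hup, hNa, hNf, hev⟩ := ih (by omega)
      -- a maximal chain outside `S`
      have hne : (univ \ S).Nonempty := by
        rw [← card_pos, card_sdiff_of_subset (subset_univ S), card_univ, hS]
        omega
      obtain ⟨i, hi, hmax⟩ := exists_max_image (univ \ S) (fun l => ∑ j, z l j) hne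
      have hiS : i ∉ S := (mem_sdiff.1 hi).2
      have hmax' : ∀ l, l ∉ S → z i ≤ z l → l = i := by
        intro l hl hle
        have h1 : ∑ j, z l j ≤ ∑ j, z i j := hmax l (mem_sdiff.2 ⟨mem_univ l, hl⟩)
        refine hz (funext fun j => ?_)
        have h2 : ∀ j, z i j ≤ z l j := fun j => hle j
        have h3 : ∑ j, z i j = ∑ j, z l j := le_antisymm (sum_le_sum fun j _ => h2 j) h1
        exact ((sum_eq_sum_iff_of_le fun j _ => h2 j).1 h3 j (mem_univ j)).symm
      obtain ⟨M, hMa, hMN⟩ : ∃ M : ℕ, a + B' ≤ M ∧ ∀ l ∈ S, N l + B' ≤ M := by
        refine ⟨a + B' + ∑ l ∈ S, N l, by omega, fun l hl => ?_⟩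
        have := single_le_sum (f := N) (fun _ _ => Nat.zero_le _) hl
        omega
      have hconf : conf z (insert i S) (Function.update N i M) =
          Function.update (conf z S N) i (ray M) := by
        funext l
        by_cases hl : l = i
        · subst hl
          rw [Function.update_self]
          unfold conf
          rw [if_pos (mem_insert_self _ _), Function.update_self]
        · rw [Function.update_of_ne hl]
          unfold conf
          rw [Function.update_of_ne hl]
          simp only [mem_insert, hl, false_or]
      have hci : conf z S N i = z i := by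
        unfold conf
        rw [if_neg hiS]
      have hcS : ∀ l ∈ S, conf z S N l = ray (N l) := by
        intro l hl
        unfold conf
        rw [if_pos hl]
      have hcn : ∀ l, l ∉ S → conf z S N l = z l := by
        intro l hl
        unfold conf
        rw [if_neg hl]
      refine ⟨insert i S, Function.update N i M, ?_, ?_, ?_, ?_, ?_⟩
      · rw [card_insert_of_notMem hiS, hS]
      · intro l hl l' hle
        rcases mem_insert.1 hl with rfl | hl
        · by_cases hl' : l' ∈ S
          · exact mem_insert_of_mem hl'
          · rw [hmax' l' hl' hle]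
            exact mem_insert_self _ _
        · exact mem_insert_of_mem (hup l hl l' hle)
      · intro l hl
        by_cases hli : l = i
        · subst hli
          rw [Function.update_self]
          exact hMa
        · rw [Function.update_of_ne hli]
          exact hNa l ((mem_insert.1 hl).resolve_left hli)
      · intro l hl l' hl' hll
        by_cases hli : l = i
        · have hli' : l' ≠ i := fun h' => hll (hli.trans h'.symm)
          rw [hli, Function.update_self, Function.update_of_ne hli']
          exact Or.inr (hMN l' ((mem_insert.1 hl').resolve_left hli'))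
        · by_cases hli' : l' = i
          · rw [hli', Function.update_self, Function.update_of_ne hli]
            exact Or.inl (hMN l ((mem_insert.1 hl).resolve_left hli))
          · rw [Function.update_of_ne hli, Function.update_of_ne hli']
            exact hNf l ((mem_insert.1 hl).resolve_left hli) l'
              ((mem_insert.1 hl').resolve_left hli') hll
      · rw [hconf]
        have h01 : (0 : Fin (d + 1)) < ⟨1, by omega⟩ := by
          rw [Fin.lt_def]
          simp
        -- the coordinates of path places: far from `ray (N l)`
        have hfar : ∀ p : Fin (d + 1) → ℕ, OnP (z i) (ray M) p → ∀ q : Fin (d + 1) → ℕ,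
            ∀ l ∈ S, (∀ j, q j ≤ ray (N l) j + 1) → (∀ j, ray (N l) j ≤ q j + 1) → p ≠ q := by
          rintro p ⟨r, hr1, hr2, _, _⟩ q l hl hq1 hq2 rfl
          have hNl := hNa l hl
          have hMl := hMN l hl
          by_cases hr : r = 0
          · have h1 := hr1 ⟨1, by omega⟩ (by rw [hr]; exact h01)
            have h2 := hq1 ⟨1, by omega⟩
            unfold ray at h1 h2
            simp only [] at h1 h2
            rw [h1] at h2
            have : (N l + B') * (1 + 1) ≤ M * (1 + 1) := Nat.mul_le_mul hMl le_rfl
            omega
          · have h1 := hr2 0 (Fin.pos_iff_ne_zero.2 hr)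
            have h2 := hq2 0
            rw [ray_zero, h1] at h2
            have := ha i 0
            omega
        have hray : ∀ l ∈ S, ∀ p, OnP (z i) (ray M) p → p ≠ ray (N l) := by
          intro l hl p hp
          exact hfar p hp (ray (N l)) l hl (fun j => Nat.le_succ _) (fun j => Nat.le_succ _)
        have hzt : z i ≤ ray M := by
          intro j
          have h1 := ha i j
          change z i j ≤ M * ((j : ℕ) + 1)
          have h2 : M * 1 ≤ M * ((j : ℕ) + 1) := Nat.mul_le_mul le_rfl (by omega)
          omega
        have hcinj : Function.Injective (conf z S N) := by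
          intro l l' hll
          by_cases hl : l ∈ S
          · by_cases hl' : l' ∈ S
            · rw [hcS l hl, hcS l' hl'] at hll
              by_contra hne'
              have h0 := congrFun hll 0
              rw [ray_zero, ray_zero] at h0
              rcases hNf l hl l' hl' hne' with h1 | h1 <;> omega
            · exfalso
              rw [hcS l hl, hcn l' hl'] at hll
              have h0 := congrFun hll 0
              rw [ray_zero] at h0
              have h1 := ha l' 0
              have h2 := hNa l hl
              omega
          · by_cases hl' : l' ∈ S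
            · exfalso
              rw [hcn l hl, hcS l' hl'] at hll
              have h0 := congrFun hll 0
              rw [ray_zero] at h0
              have h1 := ha l 0
              have h2 := hNa l' hl'
              omega
            · rw [hcn l hl, hcn l' hl'] at hll
              exact hz hll
        have hcmono : ∀ l, Monotone (conf z S N l) := by
          intro l
          by_cases hl : l ∈ S
          · rw [hcS l hl]
            exact ray_mono _
          · rw [hcn l hl]
            exact hmz l
        refine path d (by omega) (conf z S N) z' G i (ray M) hcinj hcmono hz' (ray_mono M)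
          (by rw [hci]; exact hzt) ?_ ?_ hev
        · -- the path avoids the other chains
          intro p hp l hli
          rw [hci] at hp
          by_cases hl : l ∈ S
          · rw [hcS l hl]
            exact hray l hl p hp
          · rw [hcn l hl]
            rintro rfl
            exact hli (hmax' l hl (onP_le hzt hp).1)
        · -- `Crit`
          intro p j hp hp'
          rw [hci] at hp hp'
          intro u hu hnu
          have hpz := (onP_le hzt hp).1
          have hZ : ∀ v, v = p ∨ (∃ l, l ≠ i ∧ conf z S N l = v) →
              v ∈ im (Function.update (conf z S N) i p) := by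
            rintro v (rfl | ⟨l, hli, rfl⟩)
            · exact mem_im.2 ⟨i, Function.update_self _ _ _⟩
            · exact mem_im.2 ⟨l, Function.update_of_ne hli _ _⟩
          have hW : ∀ v, v ≠ p + Pi.single j 1 → (∀ l ∈ S, v ≠ ray (N l)) →
              (∀ l, l ∉ S → l ≠ i → v ≠ z l) →
              v ∉ im (Function.update (conf z S N) i (p + Pi.single j 1)) := by
            intro v h1 h2 h3 hmem
            obtain ⟨l, hl⟩ := mem_im.1 hmem
            by_cases hli : l = i
            · subst hli
              rw [Function.update_self] at hl
              exact h1 hl.symm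
            · rw [Function.update_of_ne hli] at hl
              by_cases hlS : l ∈ S
              · rw [hcS l hlS] at hl
                exact h2 l hlS hl.symm
              · rw [hcn l hlS] at hl
                exact h3 l hlS hli hl.symm
          have hL : ∀ j', ∀ l, l ∉ S → l ≠ i → u + Pi.single j' 1 ≠ z l := by
            intro j' l hlS hli heq
            have hle : u ≤ z l := by
              rw [← heq]
              exact le_add_single u j'
            obtain ⟨l', hl'⟩ := mem_im.1 (hlow.2 u (z l) hu hle (mem_im.2 ⟨l, rfl⟩))
            have h1 : l' ∉ S := fun h' => hlS (hup l' h' l (by rw [hl']; exact hle))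
            have h2 : l' ≠ i := by
              rintro rfl
              exact hli (hmax' l hlS (by rw [hl']; exact hle))
            exact hnu (hZ u (Or.inr ⟨l', h2, by rw [hcn l' h1, hl']⟩))
          by_cases hA : ∃ j', ∃ l ∈ S, u + Pi.single j' 1 = ray (N l)
          · obtain ⟨j', l, hl, hq⟩ := hA
            have hNl := hNa l hl
            obtain ⟨j'', hj''⟩ : ∃ j'' : Fin (d + 1), j'' ≠ j' := by
              by_cases h0 : j' = 0
              · exact ⟨⟨1, by omega⟩, by rw [h0]; exact h01.ne'⟩
              · exact ⟨0, fun h' => h0 h'.symm⟩
            have hb1 : ∀ k, (u + Pi.single j'' 1 : Fin (d + 1) → ℕ) k ≤ ray (N l) k + 1 := by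
              intro k
              have h1 := congrFun hq k
              rw [add_single_apply] at h1 ⊢
              split_ifs at h1 ⊢ <;> omega
            have hb2 : ∀ k, ray (N l) k ≤ (u + Pi.single j'' 1 : Fin (d + 1) → ℕ) k + 1 := by
              intro k
              have h1 := congrFun hq k
              rw [add_single_apply] at h1 ⊢
              split_ifs at h1 ⊢ <;> omega
            refine ⟨j'', ray_sub_mono (by omega) hq j'', hW _ ?_ ?_ (hL j'')⟩
            · exact (hfar _ hp' _ l hl hb1 hb2).symm
            · intro l' hl' heq
              by_cases hll : l' = l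
              · subst hll
                rw [← hq] at heq
                have h1 := congrFun heq j''
                rw [add_single_apply, add_single_apply, if_pos rfl, if_neg hj''] at h1
                omega
              · have h1 := hb1 0
                have h2 := hb2 0
                rw [heq, ray_zero, ray_zero] at h1 h2
                rcases hNf l' hl' l hl hll with h3 | h3 <;> omega
          · push Not at hA
            by_cases hlast : u + Pi.single (Fin.last d) 1 = p + Pi.single j 1
            · -- the trap
              have hjl : j ≠ Fin.last d := by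
                rintro rfl
                exact hnu (hZ u (Or.inl (add_right_cancel hlast)))
              have hlp : (p + Pi.single j 1 : Fin (d + 1) → ℕ) (Fin.last d) =
                  ray M (Fin.last d) := by
                obtain ⟨r, hr1, hr2, _, _⟩ := hp'
                by_cases hr : r = Fin.last d
                · exfalso
                  have h1 := hr2 j (by
                    rw [hr]
                    exact lt_of_le_of_ne (Fin.le_last j) hjl)
                  rw [add_single_apply, if_pos rfl] at h1
                  have h2 : z i j ≤ p j := hpz j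
                  omega
                · exact hr1 _ (lt_of_le_of_ne (Fin.le_last r) hr)
              have h0 : (p + Pi.single j 1 : Fin (d + 1) → ℕ) 0 ≤ ray M 0 :=
                (onP_le hzt hp').2 0
              rw [← hlast, add_single_apply, if_pos rfl] at hlp
              rw [← hlast, add_single_apply, ray_zero] at h0
              have hul : u 0 < u (Fin.last d) := by
                unfold ray at hlp
                rw [Fin.val_last] at hlp
                have h3 : M * (2 + 1) ≤ M * (d + 1) := Nat.mul_le_mul le_rfl (by omega)
                split_ifs at h0 <;> omega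
              obtain ⟨i', hi'⟩ := exists_step hul
              refine ⟨i'.castSucc, add_cast_mono hu i' hi', hW _ ?_ ?_ (hL _)⟩
              · rw [← hlast]
                intro heq
                have h1 := congrFun heq (Fin.last d)
                rw [add_single_apply, add_single_apply, if_pos rfl,
                  if_neg (Fin.castSucc_lt_last i').ne'] at h1
                omega
              · intro l hl
                exact hA _ l hl
            · exact ⟨Fin.last d, add_last_mono hu, hW _ hlast (fun l hl => hA _ l hl) (hL _)⟩
  obtain ⟨S, N, hS, hup, hNa, hNf, hev⟩ := key (Fintype.card ι) le_rfl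
  have hSu : S = univ := (card_eq_iff_eq_univ S).1 hS
  subst hSu
  refine ⟨conf z univ N, ⟨fun l => ?_, fun l l' hll j => ?_⟩, hev⟩
  · have h1 := hNa l (mem_univ l)
    unfold conf
    rw [if_pos (mem_univ l)]
    refine ⟨?_, fun j => ?_⟩
    · rw [ray_zero]
      omega
    · unfold ray
      rw [Fin.val_castSucc, Fin.val_succ]
      have h3 : N l * ((j : ℕ) + 1 + 1) = N l * ((j : ℕ) + 1) + N l := by ring
      omega
  · unfold conf
    rw [if_pos (mem_univ l), if_pos (mem_univ l')]
    unfold ray
    rcases hNf l (mem_univ l) l' (mem_univ l') hll with h1 | h1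
    · left
      have h2 : (N l + B') * ((j : ℕ) + 1) ≤ N l' * ((j : ℕ) + 1) := Nat.mul_le_mul h1 le_rfl
      have h3 : (N l + B') * ((j : ℕ) + 1) = N l * ((j : ℕ) + 1) + B' * j + B' := by ring
      have h4 := Nat.zero_le (B' * (j : ℕ))
      omega
    · right
      have h2 : (N l' + B') * ((j : ℕ) + 1) ≤ N l * ((j : ℕ) + 1) := Nat.mul_le_mul h1 le_rfl
      have h3 : (N l' + B') * ((j : ℕ) + 1) = N l' * ((j : ℕ) + 1) + B' * j + B' := by ring
      have h4 := Nat.zero_le (B' * (j : ℕ))
      omega

/-- a lower set satisfies `Crit` -/
theorem stat_of_low {ι : Type} [Fintype ι] {d : ℕ} (z : ι → Fin (d + 1) → ℕ)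
    (hz : Function.Injective z) (hlow : LowS (im z)) : Stat z := by
  refine ⟨hz, fun i => hlow.1 _ (ExitAux.mem_im.2 ⟨i, rfl⟩), fun u hu hnu => ?_⟩
  refine ⟨Fin.last d, ExitAux.add_last_mono hu, fun hmem => ?_⟩
  exact hnu (hlow.2 u _ hu (ExitAux.le_add_single u _) hmem)

end Pool.Agent.Helper43.SN
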