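import Pool.Agent.Helper43.SN.ThmX
import Pool.Agent.Helper43.SN.Assemble
import Pool.Agent.Helper46.MR.KMain
import Pool.Agent.Helper43.LS.Defs

set_option autoImplicit false

/-!
# SN-32 Final: the theorem

`k₀` from `kmain`, `n₁` from `thmX`, `n₀ = s = max k₀ n₁`; `fam_zero_of`; the conversion of `Fam m n 0 0` as in the
proof of `MR.chains`.
-/

namespace Pool.Agent.Helper43.SN

open Finset Pool.Agent.Helper46.MR

private theorem sco_of_fam {m n : ℕ} {S : Set (Set (Fin m → ℕ))}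
    (hS : ChainsAux.Fam m n 0 0 S) : Pool.LS.SCO m n := by
  refine ⟨S, fun C hC => ⟨hS.sub C hC, ?_, ?_, ?_⟩, ?_⟩
  · intro a ha b hb _
    rcases Nat.le_total (ChainsAux.rk a) (ChainsAux.rk b) with h | h
    · exact Or.inl (hS.ch C hC a ha b hb h)
    · exact Or.inr (hS.ch C hC b hb a ha h)
  · intro a ha b hb e
    have e' : ChainsAux.rk a = ChainsAux.rk b := e
    exact le_antisymm (hS.ch C hC a ha b hb e'.le) (hS.ch C hC b hb a ha e'.ge)
  · obtain ⟨i, j, _, h2, h3, h4, h5, h6⟩ := hS.rg C hC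
    have hj : j = m * n - i := by omega
    refine ⟨i, ?_⟩
    ext t
    constructor
    · rintro ⟨a, ha, rfl⟩
      have h7 := h4 a ha
      rw [hj] at h7
      exact h7
    · rintro ⟨ht1, ht2⟩
      obtain ⟨a, ha, ha1⟩ := h5 t ht1 (by omega)
      exact ⟨a, ha, ha1⟩
  · intro a ha1 ha2
    have haL : a ∈ ChainsAux.LL m n := ⟨ha1, ha2⟩
    obtain ⟨C, hC, haC⟩ := hS.ex a haL (Nat.zero_le _) (ChainsAux.rk_le haL)
    exact ⟨C, ⟨hC, haC⟩, fun C' hC' => hS.un a C' hC'.1 C hC hC'.2 haC⟩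

theorem final (m : ℕ) (hm : 5 ≤ m) : ∃ n₀ : ℕ, ∀ n : ℕ, n₀ ≤ n → Pool.LS.SCO m n := by
  obtain ⟨d, rfl⟩ : ∃ d, m = d + 2 := ⟨m - 2, by omega⟩
  obtain ⟨k₀, hk⟩ := kmain (m := d + 2) (by omega)
  obtain ⟨n₁, hn₁⟩ := thmX d (by omega)
  refine ⟨max k₀ n₁, fun n hn => ?_⟩
  obtain ⟨S, hS⟩ := fam_zero_of d n (max k₀ n₁) hn
    (fun k hk1 hk2 => hk n k ((le_max_left _ _).trans hk1) hk2)
    (fun π => hn₁ _ (le_max_right _ _) π)
  exact sco_of_fam hS

end Pool.Agent.Helper43.SN
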