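import Pool.Agent.Helper43.SN.Path
import Pool.Agent.Helper43.SN.Cluster

set_option autoImplicit false

/-!
# SN-23 Gather: three chains are brought together

`u₀ = ray M`, `M` large (larger than all coordinates of all `w l`, plus `B`). PROOF. Three applications of
`path`: chain `i` to `u₀`, chain `j` to `u₀ + e_p`, chain `l` to `u₀ + e_q` (in this order; the intermediate
configurations are `update w i u₀`, ...). Every place `p'` on the path of a chain has: coordinate `0` equal
to the old one until the last phase, in which all other coordinates are those of the target. So: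
* distance `≥ 2` from the places of the other chains `l' ∉ {i, j, l}` (coordinate `0` by `Gen` before the
  last phase, coordinate `1` in the last phase, since `M` is large) and from the not yet moved ones among
  `i, j, l`; the cluster points `u₀`, `u₀ + e_p` have distance `≥ 2` from all other places;
* it is different from `u₀` and `u₀ + e_p` (for `j`: from `u₀`): before the last phase by the coordinate `0`,
  in the last phase by the coordinate `p` resp. `q` (`p, q ≠ 0`, `p ≠ q`).
* `Blk 2`: `OnP` places between `Blk` places (raising the last coordinate first) are `Blk`.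
`Crit` by `crit_cluster` with `C` = the chains already in the cluster and the moving one (`|C| ≤ 3`).
`Stat w'` from `stat_of_gen`.
-/

namespace Pool.Agent.Helper43.SN

open Finset Pool.Agent.Helper46.MR

/-- the places of a path between bulk places are in the bulk -/
theorem blk_onP {n b : ℕ} {v t p : Fin (n + 1) → ℕ} (hv : Blk b v) (ht : Blk b t) (hvt : v ≤ t)
    (hp : OnP v t p) : Blk b p := by
  obtain ⟨r, h1, h2, h3, h4⟩ := hp
  refine ⟨?_, fun j => ?_⟩
  · rcases lt_or_ge 0 r with h | h
    · rw [h2 0 h]; exact hv.1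
    · have hr : r = 0 := le_antisymm h (Fin.zero_le r)
      subst hr
      exact hv.1.trans h3
  · have hc : (j.castSucc : Fin (n + 1)) < j.succ := Fin.castSucc_lt_succ
    have hvj := hv.2 j
    have htj := ht.2 j
    rcases lt_trichotomy j.succ r with h | h | h
    · rw [h2 _ h, h2 _ (hc.trans h)]
      exact hvj
    · subst h
      rw [h2 _ hc]
      omega
    · rcases lt_or_ge r j.castSucc with h' | h'
      · rw [h1 _ h, h1 _ h']
        exact htj
      · have hr : r = j.castSucc := by
          refine le_antisymm ?_ h'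
          rw [Fin.le_def, Fin.val_castSucc]
          rw [Fin.lt_def, Fin.val_succ] at h
          omega
        subst hr
        rw [h1 _ h]
        omega

theorem blk_ray {d b M : ℕ} (h : b ≤ M) : Blk b (ray M : Fin (d + 1) → ℕ) := by
  refine ⟨?_, fun j => ?_⟩
  · simp only [ray, Fin.val_zero, zero_add, mul_one]
    exact h
  · simp only [ray, Fin.val_castSucc, Fin.val_succ]
    have h3 : M * ((j : ℕ) + 1 + 1) = M * ((j : ℕ) + 1) + M := by ring
    omega

namespace GatherAux

theorem ray_zero {d M : ℕ} : (ray M : Fin (d + 1) → ℕ) 0 = M := by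
  simp [ray]

theorem le_ray {d M : ℕ} (r : Fin (d + 1)) : M ≤ (ray M : Fin (d + 1) → ℕ) r := by
  unfold ray
  exact Nat.le_mul_of_pos_right M (by omega)

theorem exists_bound {ι : Type} [Fintype ι] {d : ℕ} (w : ι → Fin (d + 1) → ℕ) :
    ∃ N : ℕ, ∀ x r, w x r ≤ N := by
  refine ⟨∑ x, ∑ r, w x r, fun x r => ?_⟩
  exact (single_le_sum (f := fun r => w x r) (fun _ _ => Nat.zero_le _) (mem_univ r)).trans
    (single_le_sum (f := fun x => ∑ r, w x r) (fun _ _ => Nat.zero_le _) (mem_univ x))

/-- a place of the path has the old coordinate `0` or all other coordinates of the target -/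
theorem onP_cases {n : ℕ} {v t p : Fin (n + 1) → ℕ} (hp : OnP v t p) :
    p 0 = v 0 ∨ ∀ r, r ≠ 0 → p r = t r := by
  obtain ⟨r, h1, h2, -, -⟩ := hp
  rcases lt_or_ge 0 r with h | h
  · left; exact h2 0 h
  · right
    have hr : r = 0 := le_antisymm h (Fin.zero_le r)
    subst hr
    intro s hs
    exact h1 s (Fin.pos_of_ne_zero hs)

theorem blk_near {d M : ℕ} {v : Fin (d + 1) → ℕ} (hM : 4 ≤ M)
    (h : ∀ j, (ray M : Fin (d + 1) → ℕ) j ≤ v j ∧ v j ≤ (ray M : Fin (d + 1) → ℕ) j + 2) :
    Blk 2 v := by
  refine ⟨?_, fun j => ?_⟩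
  · have h1 := (h 0).1
    rw [ray_zero] at h1
    omega
  · have h1 := (h j.castSucc).2
    have h2 := (h j.succ).1
    unfold ray at h1 h2
    simp only [Fin.val_castSucc, Fin.val_succ] at h1 h2
    have h3 : M * ((j : ℕ) + 1 + 1) = M * ((j : ℕ) + 1) + M := by ring
    omega

variable {ι : Type} [Fintype ι] [DecidableEq ι]

/-- one more chain is brought into the cluster -/
theorem gstep {d B M : ℕ} (hd : 3 ≤ d) {w w' z : ι → Fin (d + 1) → ℕ} (hB : 10 ≤ B)
    (hw : Gen B w) (hw' : Stat w') (hM : ∀ x r, w x r + 4 ≤ M) {C : Finset ι} (x₀ : ι)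
    (hx₀ : x₀ ∉ C) (hC : C.card ≤ 2) (h1 : ∀ x, x ∉ C → z x = w x)
    (h2 : ∀ x ∈ C, Blk 2 (z x) ∧ M ≤ z x 0) (h3 : ∀ x ∈ C, ∀ y ∈ C, z x = z y → x = y)
    {t : Fin (d + 1) → ℕ} (ht : Blk 2 t) (htr : ∀ r, M ≤ t r)
    (h4 : ∀ x ∈ C, ∃ s, s ≠ 0 ∧ z x s ≠ t s) {G : Set (Equiv.Perm ι)} (h : Ev d z w' G) :
    Ev d (Function.update z x₀ t) w' G := by
  have gblk : ∀ x, Blk 2 (w x) := fun x =>
    ⟨by have := (hw.1 x).1; omega, fun j => by have := (hw.1 x).2 j; omega⟩
  have bz : ∀ x, Blk 2 (z x) := by
    intro x
    by_cases hx : x ∈ C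
    · exact (h2 x hx).1
    · rw [h1 x hx]; exact gblk x
  have hinj : Function.Injective z := by
    intro x y hxy
    by_cases hx : x ∈ C
    · by_cases hy : y ∈ C
      · exact h3 x hx y hy hxy
      · exfalso
        have e := congrFun hxy 0
        rw [h1 y hy] at e
        have := (h2 x hx).2
        have := hM y 0
        omega
    · by_cases hy : y ∈ C
      · exfalso
        have e := congrFun hxy 0
        rw [h1 x hx] at e
        have := (h2 y hy).2
        have := hM x 0
        omega
      · by_contra hne
        have e := congrFun hxy 0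
        rw [h1 x hx, h1 y hy] at e
        have := hw.2 x y hne 0
        omega
  have hzx : z x₀ = w x₀ := h1 x₀ hx₀
  have hle : z x₀ ≤ t := by
    rw [hzx, Pi.le_def]
    intro r
    have := hM x₀ r
    have := htr r
    omega
  obtain ⟨o, ho⟩ : ∃ o : Fin (d + 1), o ≠ 0 :=
    ⟨⟨1, by omega⟩, fun e => absurd (congrArg Fin.val e) (by simp)⟩
  -- the places of the path are far from the places of the other chains outside `C`
  have far : ∀ v, OnP (z x₀) t v → ∀ x, x ≠ x₀ → x ∉ C → Far 2 (w x) v := by
    intro v hv x hx hxC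
    rcases onP_cases hv with h0 | h0
    · refine ⟨0, ?_⟩
      rw [h0, hzx]
      have := hw.2 x x₀ hx 0
      omega
    · refine ⟨o, Or.inl ?_⟩
      rw [h0 o ho]
      have := hM x o
      have := htr o
      omega
  refine path d (by omega) z w' G x₀ t hinj (fun x => blk_mono (bz x)) hw' (blk_mono ht) hle
    ?_ ?_ h
  · intro v hv x hx e
    by_cases hxC : x ∈ C
    · rcases onP_cases hv with h0 | h0
      · rw [hzx] at h0
        have := (h2 x hxC).2
        have := hM x₀ 0
        rw [e] at h0
        omega
      · obtain ⟨s, hs, hs'⟩ := h4 x hxC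
        exact hs' (by rw [← e]; exact h0 s hs)
    · obtain ⟨s, hs⟩ := far v hv x hx hxC
      rw [e, h1 x hxC] at hs
      omega
  · intro v r _ hv'
    have hcard : (insert x₀ C).card ≤ 3 := (card_insert_le _ _).trans (by omega)
    refine crit_cluster hd _ (insert x₀ C) hcard ?_ ?_ _
    · intro x
      by_cases hx : x = x₀
      · subst hx
        rw [Function.update_self]
        exact blk_onP (bz x) ht hle hv'
      · rw [Function.update_of_ne hx]
        exact bz x
    · intro x hx y hy
      rw [mem_insert, not_or] at hx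
      rw [Function.update_of_ne hx.1, h1 x hx.2]
      by_cases hyx : y = x₀
      · subst hyx
        rw [Function.update_self]
        exact far _ hv' x hx.1 hx.2
      · rw [Function.update_of_ne hyx]
        refine ⟨0, ?_⟩
        by_cases hyC : y ∈ C
        · left
          have := (h2 y hyC).2
          have := hM x 0
          omega
        · rw [h1 y hyC]
          have := hw.2 x y (Ne.symm hy) 0
          omega

end GatherAux

open GatherAux in
theorem gather {ι : Type} [Fintype ι] [DecidableEq ι] (d : ℕ) (hd : 3 ≤ d)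
    (w w' : ι → Fin (d + 1) → ℕ) (B : ℕ) (hB : 10 ≤ B) (hw : Gen B w) (hw' : Stat w')
    (i j l : ι) (hij : i ≠ j) (hil : i ≠ l) (hjl : j ≠ l) (p q : Fin (d + 1)) (hp : p ≠ 0)
    (hq : q ≠ 0) (hpq : p ≠ q) (G : Set (Equiv.Perm ι)) (h : Ev d w w' G) :
    ∃ M₀ : ℕ, ∀ M : ℕ, M₀ ≤ M →
      Ev d (put w i j l (ray M) (ray M + Pi.single p 1) (ray M + Pi.single q 1)) w' G := by
  obtain ⟨N, hN⟩ := exists_bound w
  refine ⟨N + 4, fun M hM => ?_⟩
  have hM0 : ∀ x r, w x r + 4 ≤ M := fun x r => by have := hN x r; omega
  have b0 : Blk 2 (ray M : Fin (d + 1) → ℕ) := blk_ray (by omega)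
  have bs : ∀ s, Blk 2 (ray M + Pi.single s 1 : Fin (d + 1) → ℕ) := by
    intro s
    refine blk_near (M := M) (by omega) fun r => ?_
    rw [add_single_ap]; split_ifs <;> omega
  have ls : ∀ s r, M ≤ (ray M + Pi.single s 1 : Fin (d + 1) → ℕ) r := by
    intro s r
    have := le_ray (d := d) (M := M) r
    rw [add_single_ap]; split_ifs <;> omega
  unfold put
  have e1 : Ev d (Function.update w i (ray M)) w' G :=
    gstep (M := M) (C := ∅) hd hB hw hw' hM0 i (notMem_empty i) (by simp) (fun _ _ => rfl)
      (fun x hx => absurd hx (notMem_empty x)) (fun x hx => absurd hx (notMem_empty x)) b0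
      le_ray (fun x hx => absurd hx (notMem_empty x)) h
  have e2 : Ev d (Function.update (Function.update w i (ray M)) j (ray M + Pi.single p 1)) w' G := by
    refine gstep (M := M) (C := {i}) hd hB hw hw' hM0 j (by simpa using hij.symm) (by simp)
      (fun x hx => ?_) (fun x hx => ?_) (fun x hx y hy _ => ?_) (bs p) (ls p) (fun x hx => ?_) e1
    · rw [mem_singleton] at hx
      rw [Function.update_of_ne hx]
    · rw [mem_singleton] at hx
      subst hx
      rw [Function.update_self]
      exact ⟨b0, le_ray 0⟩
    · rw [mem_singleton] at hx hy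
      rw [hx, hy]
    · rw [mem_singleton] at hx
      subst hx
      rw [Function.update_self]
      refine ⟨p, hp, ?_⟩
      rw [add_single_ap, if_pos rfl]
      omega
  have yi : Function.update (Function.update w i (ray M)) j (ray M + Pi.single p 1) i = ray M := by
    rw [Function.update_of_ne hij, Function.update_self]
  have yj : Function.update (Function.update w i (ray M)) j (ray M + Pi.single p 1) j
      = ray M + Pi.single p 1 := by
    rw [Function.update_self]
  have yo : ∀ x, x ∉ ({i, j} : Finset ι) →
      Function.update (Function.update w i (ray M)) j (ray M + Pi.single p 1) x = w x := by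
    intro x hx
    simp only [mem_insert, mem_singleton, not_or] at hx
    rw [Function.update_of_ne hx.2, Function.update_of_ne hx.1]
  generalize Function.update (Function.update w i (ray M)) j (ray M + Pi.single p 1) = y at *
  have hne : (ray M : Fin (d + 1) → ℕ) ≠ ray M + Pi.single p 1 := by
    intro e
    have e' := congrFun e p
    rw [add_single_ap, if_pos rfl] at e'
    omega
  refine gstep (M := M) (C := {i, j}) hd hB hw hw' hM0 l ?_ (card_le_two) yo (fun x hx => ?_)
    (fun x hx x' hx' e => ?_) (bs q) (ls q) (fun x hx => ?_) e2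
  · simp only [mem_insert, mem_singleton, not_or]
    exact ⟨hil.symm, hjl.symm⟩
  · simp only [mem_insert, mem_singleton] at hx
    rcases hx with rfl | rfl
    · rw [yi]; exact ⟨b0, le_ray 0⟩
    · rw [yj]; exact ⟨bs p, ls p 0⟩
  · simp only [mem_insert, mem_singleton] at hx hx'
    rcases hx with rfl | rfl <;> rcases hx' with rfl | rfl
    · rfl
    · rw [yi, yj] at e; exact absurd e hne
    · rw [yi, yj] at e; exact absurd e.symm hne
    · rfl
  · simp only [mem_insert, mem_singleton] at hx
    rcases hx with rfl | rfl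
    · rw [yi]
      refine ⟨q, hq, ?_⟩
      rw [add_single_ap, if_pos rfl]
      omega
    · rw [yj]
      refine ⟨q, hq, ?_⟩
      rw [add_single_ap, add_single_ap, if_pos rfl, if_neg (Ne.symm hpq)]
      omega

end Pool.Agent.Helper43.SN
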