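import Pool.Agent.Helper43.SN.Gather

set_option autoImplicit false

/-!
# SN-24 Twist: the hexagon gadget and the dispersal of the cluster

`u = ray M`. PROOF of `twist`. `move` with `z = put w i j l u (u+e_p) (u+e_q)`,
`w₁ = put w i j l (u+e_p) (u+e_p+e_q) (u+e_q)`, `c = cyc i j l` (`c i = l`, `c l = j`, `c j = i`, others fixed):
`w₁ i = z i + e_p`, `w₁ j = z j + e_q`, `w₁ l = z l`; `w₁ (c i) = w₁ l = z i + e_q`,
`w₁ (c l) = w₁ j = z l + e_p`, `w₁ (c j) = w₁ i = z j`. `im w₁ \ im z ⊆ {u + e_p + e_q}`. `Crit` by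
`crit_cluster` with `C = {i, j, l}`; `M` larger than all coordinates of the `w l'` plus `3`.
PROOF of `disperse`. `path` for the chain `j` from `u + e_p + e_q` to `ray M₂`, then for the chain `i` from
`u + e_p` to `ray M₃`, `M₂`, `M₃` huge and far apart (`M₂ ≥ (d+2)(M + B + 2)`, `M₃ ≥ M₂ + ..`); the chain `l`
stays at `u + e_q`. A path from `v` never meets a place `x` with `¬ v ≤ x` (`onP_le`): this gives that it avoids
`u + e_q` and `u + e_p`. Distance from all other places as in `gather`: coordinate `0` (about `M`) before the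
last phase, coordinate `1` in the last phase. `Crit` by `crit_cluster` with `C = {i, j, l}`.
-/

namespace Pool.Agent.Helper43.SN

open Finset Pool.Agent.Helper46.MR

variable {ι : Type} [Fintype ι] [DecidableEq ι]

namespace TwistAux

omit [Fintype ι] in
theorem put_cases {d : ℕ} (w : ι → Fin (d + 1) → ℕ) (i j l : ι) (hij : i ≠ j) (hil : i ≠ l)
    (hjl : j ≠ l) (a b e : Fin (d + 1) → ℕ) :
    put w i j l a b e i = a ∧ put w i j l a b e j = b ∧ put w i j l a b e l = e ∧
      ∀ x, x ∉ ({i, j, l} : Finset ι) → put w i j l a b e x = w x := by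
  unfold put
  refine ⟨?_, ?_, ?_, ?_⟩
  · rw [Function.update_of_ne hil, Function.update_of_ne hij, Function.update_self]
  · rw [Function.update_of_ne hjl, Function.update_self]
  · rw [Function.update_self]
  · intro x hx
    simp only [mem_insert, mem_singleton, not_or] at hx
    rw [Function.update_of_ne hx.2.2, Function.update_of_ne hx.2.1, Function.update_of_ne hx.1]

theorem blk_near {d M : ℕ} {v : Fin (d + 1) → ℕ} (hM : 4 ≤ M)
    (h : ∀ j, (ray M : Fin (d + 1) → ℕ) j ≤ v j ∧ v j ≤ (ray M : Fin (d + 1) → ℕ) j + 2) :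
    Blk 2 v := by
  refine ⟨?_, fun j => ?_⟩
  · have h1 := (h 0).1
    unfold ray at h1
    simp only [Fin.val_zero, zero_add, mul_one] at h1
    omega
  · have h1 := (h j.castSucc).2
    have h2 := (h j.succ).1
    unfold ray at h1 h2
    simp only [Fin.val_castSucc, Fin.val_succ] at h1 h2
    have h3 : M * ((j : ℕ) + 1 + 1) = M * ((j : ℕ) + 1) + M := by ring
    omega

theorem ray_zero {d M : ℕ} : (ray M : Fin (d + 1) → ℕ) 0 = M := by
  simp [ray]

theorem blk_of_gen {κ : Type} {d B : ℕ} (hB : 10 ≤ B) {w : κ → Fin (d + 1) → ℕ} (hw : Gen B w)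
    (x : κ) : Blk 2 (w x) :=
  ⟨by have := (hw.1 x).1; omega, fun j => by have := (hw.1 x).2 j; omega⟩

omit [Fintype ι] [DecidableEq ι] in
/-- the chains outside `C` are generic and below `M`, those in `C` are in the bulk above `M` -/
theorem inj_good {d B M : ℕ} {w z : ι → Fin (d + 1) → ℕ} (hB : 10 ≤ B) (hw : Gen B w)
    (hM : ∀ x, w x 0 + 4 ≤ M) {C : Finset ι} (h1 : ∀ x, x ∉ C → z x = w x)
    (h2 : ∀ x ∈ C, Blk 2 (z x) ∧ M ≤ z x 0) (h3 : ∀ x ∈ C, ∀ y ∈ C, z x = z y → x = y) :
    Function.Injective z := by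
  intro x y hxy
  by_cases hx : x ∈ C
  · by_cases hy : y ∈ C
    · exact h3 x hx y hy hxy
    · exfalso
      have e := congrFun hxy 0
      rw [h1 y hy] at e
      have := (h2 x hx).2
      have := hM y
      omega
  · by_cases hy : y ∈ C
    · exfalso
      have e := congrFun hxy 0
      rw [h1 x hx] at e
      have := (h2 y hy).2
      have := hM x
      omega
    · by_contra hne
      have e := congrFun hxy 0
      rw [h1 x hx, h1 y hy] at e
      have := hw.2 x y hne 0
      omega

omit [Fintype ι] [DecidableEq ι] in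
theorem blk_good {d B M : ℕ} {w z : ι → Fin (d + 1) → ℕ} (hB : 10 ≤ B) (hw : Gen B w)
    {C : Finset ι} (h1 : ∀ x, x ∉ C → z x = w x)
    (h2 : ∀ x ∈ C, Blk 2 (z x) ∧ M ≤ z x 0) (x : ι) : Blk 2 (z x) := by
  by_cases hx : x ∈ C
  · exact (h2 x hx).1
  · rw [h1 x hx]
    exact blk_of_gen hB hw x

omit [DecidableEq ι] in
theorem crit_good {d B M : ℕ} (hd : 3 ≤ d) {w z : ι → Fin (d + 1) → ℕ} (hB : 10 ≤ B)
    (hw : Gen B w) (hM : ∀ x, w x 0 + 4 ≤ M) {C : Finset ι} (hC : C.card ≤ 3)
    (h1 : ∀ x, x ∉ C → z x = w x) (h2 : ∀ x ∈ C, Blk 2 (z x) ∧ M ≤ z x 0)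
    (Z : Finset (Fin (d + 1) → ℕ)) : Crit Z (im z) := by
  refine crit_cluster hd z C hC (blk_good hB hw h1 h2) ?_ Z
  intro x hx y hy
  refine ⟨0, ?_⟩
  rw [h1 x hx]
  by_cases hyC : y ∈ C
  · left
    have := (h2 y hyC).2
    have := hM x
    omega
  · rw [h1 y hyC]
    have := hw.2 x y (Ne.symm hy) 0
    omega

omit [Fintype ι] in
theorem card3 (i j l : ι) : ({i, j, l} : Finset ι).card ≤ 3 := card_le_three

omit [DecidableEq ι] in
theorem exists_bound {d : ℕ} (w : ι → Fin (d + 1) → ℕ) : ∃ N : ℕ, ∀ x r, w x r ≤ N := by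
  refine ⟨∑ x, ∑ r, w x r, fun x r => ?_⟩
  exact (single_le_sum (f := fun r => w x r) (fun _ _ => Nat.zero_le _) (mem_univ r)).trans
    (single_le_sum (f := fun x => ∑ r, w x r) (fun _ _ => Nat.zero_le _) (mem_univ x))

theorem ne_p {d : ℕ} {u v : Fin (d + 1) → ℕ} (p : Fin (d + 1)) (h : u p < v p) : u ≠ v := by
  intro e
  rw [e] at h
  exact lt_irrefl _ h

end TwistAux

open TwistAux in
theorem twist (d : ℕ) (hd : 3 ≤ d)
    (w w' : ι → Fin (d + 1) → ℕ) (B : ℕ) (hB : 10 ≤ B) (hw : Gen B w) (hw' : Stat w')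
    (i j l : ι) (hij : i ≠ j) (hil : i ≠ l) (hjl : j ≠ l) (p q : Fin (d + 1)) (hp : p ≠ 0)
    (hq : q ≠ 0) (hpq : p ≠ q) (G G' : Set (Equiv.Perm ι))
    (hG : ∀ g ∈ G, g ∈ G' ∨ g * (cyc i j l)⁻¹ ∈ G') :
    ∃ M₀ : ℕ, ∀ M : ℕ, M₀ ≤ M →
      Ev d (put w i j l (ray M) (ray M + Pi.single p 1) (ray M + Pi.single q 1)) w' G →
      Ev d (put w i j l (ray M + Pi.single p 1) (ray M + Pi.single p 1 + Pi.single q 1)
        (ray M + Pi.single q 1)) w' G' := by
  obtain ⟨N, hN⟩ := exists_bound w
  refine ⟨N + 4, fun M hM h => ?_⟩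
  have hM0 : ∀ x, w x 0 + 4 ≤ M := fun x => by have := hN x 0; omega
  obtain ⟨zi, zj, zl, zo⟩ := put_cases w i j l hij hil hjl (ray M) (ray M + Pi.single p 1)
    (ray M + Pi.single q 1)
  obtain ⟨wi, wj, wl, wo⟩ := put_cases w i j l hij hil hjl (ray M + Pi.single p 1)
    (ray M + Pi.single p 1 + Pi.single q 1) (ray M + Pi.single q 1)
  generalize put w i j l (ray M) (ray M + Pi.single p 1) (ray M + Pi.single q 1) = z at *
  generalize put w i j l (ray M + Pi.single p 1) (ray M + Pi.single p 1 + Pi.single q 1)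
    (ray M + Pi.single q 1) = w₁ at *
  have z2 : ∀ x ∈ ({i, j, l} : Finset ι), Blk 2 (z x) ∧ M ≤ z x 0 := by
    intro x hx
    simp only [mem_insert, mem_singleton] at hx
    rcases hx with rfl | rfl | rfl
    · rw [zi]
      exact ⟨blk_near (M := M) (by omega) fun r => ⟨le_rfl, by omega⟩, by rw [ray_zero]⟩
    · rw [zj]
      refine ⟨blk_near (M := M) (by omega) fun r => ?_, ?_⟩
      · rw [add_single_ap]; split_ifs <;> omega
      · rw [add_single_ap, if_neg (Ne.symm hp), ray_zero]
    · rw [zl]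
      refine ⟨blk_near (M := M) (by omega) fun r => ?_, ?_⟩
      · rw [add_single_ap]; split_ifs <;> omega
      · rw [add_single_ap, if_neg (Ne.symm hq), ray_zero]
  have w2 : ∀ x ∈ ({i, j, l} : Finset ι), Blk 2 (w₁ x) ∧ M ≤ w₁ x 0 := by
    intro x hx
    simp only [mem_insert, mem_singleton] at hx
    rcases hx with rfl | rfl | rfl
    · rw [wi]
      refine ⟨blk_near (M := M) (by omega) fun r => ?_, ?_⟩
      · rw [add_single_ap]; split_ifs <;> omega
      · rw [add_single_ap, if_neg (Ne.symm hp), ray_zero]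
    · rw [wj]
      refine ⟨blk_near (M := M) (by omega) fun r => ?_, ?_⟩
      · rw [add_single_ap, add_single_ap]; split_ifs <;> omega
      · rw [add_single_ap, add_single_ap, if_neg (Ne.symm hp), if_neg (Ne.symm hq), ray_zero]
    · rw [wl]
      refine ⟨blk_near (M := M) (by omega) fun r => ?_, ?_⟩
      · rw [add_single_ap]; split_ifs <;> omega
      · rw [add_single_ap, if_neg (Ne.symm hq), ray_zero]
  have key : ∀ u : Fin (d + 1) → ℕ, u ≠ u + Pi.single p 1 ∧ u ≠ u + Pi.single q 1 ∧
      (u + Pi.single p 1 : Fin (d + 1) → ℕ) ≠ u + Pi.single q 1 ∧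
      (u + Pi.single p 1 : Fin (d + 1) → ℕ) ≠ u + Pi.single p 1 + Pi.single q 1 ∧
      (u + Pi.single p 1 + Pi.single q 1 : Fin (d + 1) → ℕ) ≠ u + Pi.single q 1 := by
    intro u
    refine ⟨ne_p p ?_, ne_p q ?_, (ne_p p ?_).symm, ne_p q ?_, (ne_p p ?_).symm⟩
    · rw [add_single_ap, if_pos rfl]; omega
    · rw [add_single_ap, if_pos rfl]; omega
    · rw [add_single_ap, add_single_ap, if_pos rfl, if_neg hpq]; omega
    · rw [add_single_ap _ q q, if_pos rfl]; omega
    · rw [add_single_ap, add_single_ap _ q p, add_single_ap, if_pos rfl, if_neg hpq, if_neg hpq]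
      omega
  obtain ⟨k1, k2, k3, k4, k5⟩ := key (ray M)
  have z3 : ∀ x ∈ ({i, j, l} : Finset ι), ∀ y ∈ ({i, j, l} : Finset ι), z x = z y → x = y := by
    intro x hx y hy e
    simp only [mem_insert, mem_singleton] at hx hy
    rcases hx with rfl | rfl | rfl <;> rcases hy with rfl | rfl | rfl <;>
      first
      | rfl
      | (simp only [zi, zj, zl] at e; exact absurd e (by assumption))
      | (simp only [zi, zj, zl] at e; exact absurd e.symm (by assumption))
  have w3 : ∀ x ∈ ({i, j, l} : Finset ι), ∀ y ∈ ({i, j, l} : Finset ι), w₁ x = w₁ y → x = y := by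
    intro x hx y hy e
    simp only [mem_insert, mem_singleton] at hx hy
    rcases hx with rfl | rfl | rfl <;> rcases hy with rfl | rfl | rfl <;>
      first
      | rfl
      | (simp only [wi, wj, wl] at e; exact absurd e (by assumption))
      | (simp only [wi, wj, wl] at e; exact absurd e.symm (by assumption))
  have ci : cyc i j l i = l := by
    unfold cyc
    rw [Equiv.Perm.mul_apply, Equiv.swap_apply_left, Equiv.swap_apply_of_ne_of_ne hil.symm hjl.symm]
  have cl : cyc i j l l = j := by
    unfold cyc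
    rw [Equiv.Perm.mul_apply, Equiv.swap_apply_right, Equiv.swap_apply_left]
  have cj : cyc i j l j = i := by
    unfold cyc
    rw [Equiv.Perm.mul_apply, Equiv.swap_apply_of_ne_of_ne hij.symm hjl, Equiv.swap_apply_right]
  have co : ∀ x, x ≠ i → x ≠ j → x ≠ l → cyc i j l x = x := by
    intro x h1 h2 h3
    unfold cyc
    rw [Equiv.Perm.mul_apply, Equiv.swap_apply_of_ne_of_ne h1 h3, Equiv.swap_apply_of_ne_of_ne h1 h2]
  refine move d (by omega) z w' w₁ (cyc i j l) G G' (inj_good hB hw hM0 zo z2 z3)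
    (inj_good hB hw hM0 wo w2 w3) (fun x => blk_mono (blk_good hB hw zo z2 x))
    (fun x => blk_mono (blk_good hB hw wo w2 x)) hw' ?_ ?_ ?_
    (crit_good hd hB hw hM0 (card3 i j l) wo w2 _) hG h
  · intro x
    by_cases hx : x ∈ ({i, j, l} : Finset ι)
    · simp only [mem_insert, mem_singleton] at hx
      rcases hx with rfl | rfl | rfl
      · right; exact ⟨p, by rw [wi, zi]⟩
      · right; exact ⟨q, by rw [wj, zj]⟩
      · left; rw [wl, zl]
    · left; rw [wo x hx, zo x hx]
  · intro x
    by_cases hx : x ∈ ({i, j, l} : Finset ι)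
    · simp only [mem_insert, mem_singleton] at hx
      rcases hx with rfl | rfl | rfl
      · right; exact ⟨q, by rw [ci, wl, zi]⟩
      · left; rw [cj, wi, zj]
      · right; exact ⟨p, by rw [cl, wj, zl, add_right_comm]⟩
    · have hx' := hx
      simp only [mem_insert, mem_singleton, not_or] at hx'
      left
      rw [co x hx'.1 hx'.2.1 hx'.2.2, wo x hx, zo x hx]
  · have hsub : im w₁ \ im z ⊆ {ray M + Pi.single p 1 + Pi.single q 1} := by
      intro v hv
      rw [mem_sdiff] at hv
      obtain ⟨hv1, hv2⟩ := hv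
      unfold im at hv1 hv2
      obtain ⟨x, -, rfl⟩ := mem_image.1 hv1
      rw [mem_singleton]
      by_cases hx : x ∈ ({i, j, l} : Finset ι)
      · simp only [mem_insert, mem_singleton] at hx
        rcases hx with rfl | rfl | rfl
        · exact absurd (mem_image.2 ⟨j, mem_univ _, by rw [zj, wi]⟩) hv2
        · exact wj
        · exact absurd (mem_image.2 ⟨x, mem_univ _, by rw [zl, wl]⟩) hv2
      · exact absurd (mem_image.2 ⟨x, mem_univ _, by rw [zo x hx, wo x hx]⟩) hv2
    exact (card_le_card hsub).trans (by rw [card_singleton])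

open TwistAux in
theorem disperse (d : ℕ) (hd : 3 ≤ d)
    (w w' : ι → Fin (d + 1) → ℕ) (B : ℕ) (hB : 10 ≤ B) (hw : Gen B w) (hw' : Stat w')
    (i j l : ι) (hij : i ≠ j) (hil : i ≠ l) (hjl : j ≠ l) (p q : Fin (d + 1)) (hp : p ≠ 0)
    (hq : q ≠ 0) (hpq : p ≠ q) (G : Set (Equiv.Perm ι)) :
    ∃ M₀ : ℕ, ∀ M : ℕ, M₀ ≤ M →
      Ev d (put w i j l (ray M + Pi.single p 1) (ray M + Pi.single p 1 + Pi.single q 1)
        (ray M + Pi.single q 1)) w' G →
      ∃ w₂ : ι → Fin (d + 1) → ℕ, Gen B w₂ ∧ Ev d w₂ w' G := by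
  obtain ⟨N, hN⟩ := exists_bound w
  refine ⟨N + B + 4, fun M hM h => ?_⟩
  have hM0 : ∀ x, w x 0 + 4 ≤ M := fun x => by have := hN x 0; omega
  obtain ⟨zi, zj, zl, zo⟩ := put_cases w i j l hij hil hjl (ray M + Pi.single p 1)
    (ray M + Pi.single p 1 + Pi.single q 1) (ray M + Pi.single q 1)
  generalize put w i j l (ray M + Pi.single p 1) (ray M + Pi.single p 1 + Pi.single q 1)
    (ray M + Pi.single q 1) = z at *
  have b1 : Blk 2 (ray M + Pi.single p 1 : Fin (d + 1) → ℕ) := by
    refine blk_near (M := M) (by omega) fun r => ?_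
    rw [add_single_ap]; split_ifs <;> omega
  have b2 : Blk 2 (ray M + Pi.single p 1 + Pi.single q 1 : Fin (d + 1) → ℕ) := by
    refine blk_near (M := M) (by omega) fun r => ?_
    rw [add_single_ap, add_single_ap]; split_ifs <;> omega
  have b3 : Blk 2 (ray M + Pi.single q 1 : Fin (d + 1) → ℕ) := by
    refine blk_near (M := M) (by omega) fun r => ?_
    rw [add_single_ap]; split_ifs <;> omega
  have m1 : (ray M + Pi.single p 1 : Fin (d + 1) → ℕ) 0 = M := by
    rw [add_single_ap, if_neg (Ne.symm hp), ray_zero]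
  have m2 : (ray M + Pi.single p 1 + Pi.single q 1 : Fin (d + 1) → ℕ) 0 = M := by
    rw [add_single_ap, add_single_ap, if_neg (Ne.symm hp), if_neg (Ne.symm hq), ray_zero]
  have m3 : (ray M + Pi.single q 1 : Fin (d + 1) → ℕ) 0 = M := by
    rw [add_single_ap, if_neg (Ne.symm hq), ray_zero]
  -- the two targets
  obtain ⟨M₂, hM2⟩ : ∃ M₂, M₂ = M + B + 4 := ⟨_, rfl⟩
  obtain ⟨M₃, hM3⟩ : ∃ M₃, M₃ = M₂ + B := ⟨_, rfl⟩
  have rle : ∀ (a b : ℕ), a ≤ b → ∀ r, (ray a : Fin (d + 1) → ℕ) r + (b - a)
      ≤ (ray b : Fin (d + 1) → ℕ) r := by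
    intro a b hab r
    obtain ⟨c, rfl⟩ : ∃ c, b = a + c := ⟨b - a, by omega⟩
    unfold ray
    rw [Nat.add_sub_cancel_left, add_mul]
    have : c ≤ c * ((r : ℕ) + 1) := Nat.le_mul_of_pos_right c (by omega)
    omega
  have t2 : (ray M + Pi.single p 1 + Pi.single q 1 : Fin (d + 1) → ℕ) ≤ ray M₂ := by
    rw [Pi.le_def]
    intro r
    have := rle M M₂ (by omega) r
    rw [add_single_ap, add_single_ap]
    split_ifs <;> omega
  have t3 : (ray M + Pi.single p 1 : Fin (d + 1) → ℕ) ≤ ray M₃ := by
    rw [Pi.le_def]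
    intro r
    have := rle M M₃ (by omega) r
    rw [add_single_ap]
    split_ifs <;> omega
  have bray : ∀ a, 4 ≤ a → Blk 2 (ray a : Fin (d + 1) → ℕ) := fun a ha =>
    blk_near ha fun r => ⟨le_rfl, by omega⟩
  have hzi : ∀ x ∈ ({i, j, l} : Finset ι), x ≠ i → x ≠ j → x = l := by
    intro x hx h1 h2
    simp only [mem_insert, mem_singleton] at hx
    rcases hx with rfl | rfl | rfl
    · exact absurd rfl h1
    · exact absurd rfl h2
    · rfl
  -- general facts on a configuration with `i` at `a`, `j` at `b`, `l` at `ray M + e_q`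
  have conf : ∀ (y : ι → Fin (d + 1) → ℕ) (a b : Fin (d + 1) → ℕ), y i = a → y j = b →
      y l = ray M + Pi.single q 1 → Blk 2 a → Blk 2 b → M ≤ a 0 → M ≤ b 0 →
      ∀ x ∈ ({i, j, l} : Finset ι), Blk 2 (y x) ∧ M ≤ y x 0 := by
    intro y a b e1 e2 e3 ba bb ma mb x hx
    simp only [mem_insert, mem_singleton] at hx
    rcases hx with rfl | rfl | rfl
    · rw [e1]; exact ⟨ba, ma⟩
    · rw [e2]; exact ⟨bb, mb⟩
    · rw [e3]; exact ⟨b3, m3.ge⟩
  have cinj : ∀ (y : ι → Fin (d + 1) → ℕ) (a b : Fin (d + 1) → ℕ), y i = a → y j = b →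
      y l = ray M + Pi.single q 1 → a ≠ b → a ≠ ray M + Pi.single q 1 →
      b ≠ ray M + Pi.single q 1 →
      ∀ x ∈ ({i, j, l} : Finset ι), ∀ x' ∈ ({i, j, l} : Finset ι), y x = y x' → x = x' := by
    intro y a b e1 e2 e3 k1 k2 k3 x hx x' hx' e
    simp only [mem_insert, mem_singleton] at hx hx'
    rcases hx with rfl | rfl | rfl <;> rcases hx' with rfl | rfl | rfl <;>
      first
      | rfl
      | (simp only [e1, e2, e3] at e; exact absurd e (by assumption))
      | (simp only [e1, e2, e3] at e; exact absurd e.symm (by assumption))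
  have ji : j ∈ ({i, j, l} : Finset ι) := by simp
  have ii : i ∈ ({i, j, l} : Finset ι) := by simp
  -- first path
  have z2 := conf z _ _ zi zj zl b1 b2 m1.ge m2.ge
  have z3 := cinj z _ _ zi zj zl (ne_p q (by rw [add_single_ap _ q q, if_pos rfl]; omega))
    (ne_p p (by rw [add_single_ap, add_single_ap, if_pos rfl, if_neg hpq]; omega)).symm
    (ne_p p (by
      rw [add_single_ap, add_single_ap _ q p, add_single_ap, if_pos rfl, if_neg hpq, if_neg hpq]
      omega)).symm
  have ev1 : Ev d (Function.update z j (ray M₂)) w' G := by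
    refine path d (by omega) z w' G j (ray M₂) (inj_good hB hw hM0 zo z2 z3)
      (fun x => blk_mono (blk_good hB hw zo z2 x)) hw' (blk_mono (bray M₂ (by omega)))
      (by rw [zj]; exact t2) ?_ ?_ h
    · intro v hv x hx
      rw [zj] at hv
      have h1 := (onP_le t2 hv).1
      by_cases hxC : x ∈ ({i, j, l} : Finset ι)
      · by_cases hxi : x = i
        · rw [hxi, zi]
          refine (ne_p q ?_).symm
          refine lt_of_lt_of_le ?_ (h1 q)
          rw [add_single_ap _ q q, if_pos rfl]; omega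
        · rw [hzi x hxC hxi hx, zl]
          refine (ne_p p ?_).symm
          refine lt_of_lt_of_le ?_ (h1 p)
          rw [add_single_ap, add_single_ap _ q p, add_single_ap, if_pos rfl, if_neg hpq, if_neg hpq]
          omega
      · rw [zo x hxC]
        refine (ne_p 0 ?_).symm
        refine lt_of_lt_of_le ?_ (h1 0)
        have := hM0 x
        rw [m2]; omega
    · intro v r hv hv'
      rw [zj] at hv hv'
      have h1 := (onP_le t2 hv').1
      refine crit_good hd hB hw hM0 (card3 i j l) (fun x hx => ?_)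
        (conf _ (ray M + Pi.single p 1) (v + Pi.single r 1) ?_ ?_ ?_ b1
          (blk_onP b2 (bray M₂ (by omega)) t2 hv') m1.ge (by rw [← m2]; exact h1 0)) _
      · have hxj : x ≠ j := fun e => hx (e ▸ ji)
        rw [Function.update_of_ne hxj, zo x hx]
      · rw [Function.update_of_ne hij, zi]
      · rw [Function.update_self]
      · rw [Function.update_of_ne hjl.symm, zl]
  -- second path
  have yi : Function.update z j (ray M₂) i = ray M + Pi.single p 1 := by
    rw [Function.update_of_ne hij, zi]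
  have yj : Function.update z j (ray M₂) j = ray M₂ := by rw [Function.update_self]
  have yl : Function.update z j (ray M₂) l = ray M + Pi.single q 1 := by
    rw [Function.update_of_ne hjl.symm, zl]
  have yo : ∀ x, x ∉ ({i, j, l} : Finset ι) → Function.update z j (ray M₂) x = w x := by
    intro x hx
    have hxj : x ≠ j := fun e => hx (e ▸ ji)
    rw [Function.update_of_ne hxj, zo x hx]
  generalize Function.update z j (ray M₂) = y at *
  have r20 : M ≤ (ray M₂ : Fin (d + 1) → ℕ) 0 := by rw [ray_zero]; omega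
  have y2 := conf y _ _ yi yj yl b1 (bray M₂ (by omega)) m1.ge r20
  have y3 := cinj y _ _ yi yj yl
    (ne_p 0 (by rw [m1, ray_zero]; omega))
    (ne_p p (by rw [add_single_ap, add_single_ap, if_pos rfl, if_neg hpq]; omega)).symm
    (ne_p 0 (by rw [m3, ray_zero]; omega)).symm
  have ev2 : Ev d (Function.update y i (ray M₃)) w' G := by
    refine path d (by omega) y w' G i (ray M₃) (inj_good hB hw hM0 yo y2 y3)
      (fun x => blk_mono (blk_good hB hw yo y2 x)) hw' (blk_mono (bray M₃ (by omega)))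
      (by rw [yi]; exact t3) ?_ ?_ ev1
    · intro v hv x hx
      rw [yi] at hv
      have h1 := (onP_le t3 hv).1
      by_cases hxC : x ∈ ({i, j, l} : Finset ι)
      · by_cases hxj : x = j
        · rw [hxj, yj]
          obtain ⟨r, hr1, hr2, -, -⟩ := hv
          by_cases hr : r = Fin.last d
          · refine ne_p 0 ?_
            have h0 : (0 : Fin (d + 1)) < r := by
              rw [hr, Fin.lt_def]
              simp only [Fin.val_zero, Fin.val_last]
              omega
            rw [hr2 0 h0, m1, ray_zero]; omega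
          · refine (ne_p (Fin.last d) ?_).symm
            rw [hr1 _ (lt_of_le_of_ne (Fin.le_last r) hr)]
            have := rle M₂ M₃ (by omega) (Fin.last d)
            omega
        · rw [hzi x hxC hx hxj, yl]
          refine (ne_p p ?_).symm
          refine lt_of_lt_of_le ?_ (h1 p)
          rw [add_single_ap, add_single_ap, if_pos rfl, if_neg hpq]; omega
      · rw [yo x hxC]
        refine (ne_p 0 ?_).symm
        refine lt_of_lt_of_le ?_ (h1 0)
        have := hM0 x
        rw [m1]; omega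
    · intro v r hv hv'
      rw [yi] at hv hv'
      have h1 := (onP_le t3 hv').1
      refine crit_good hd hB hw hM0 (card3 i j l) (fun x hx => ?_)
        (conf _ (v + Pi.single r 1) (ray M₂) ?_ ?_ ?_
          (blk_onP b1 (bray M₃ (by omega)) t3 hv') (bray M₂ (by omega))
          (by rw [← m1]; exact h1 0) r20) _
      · have hxi : x ≠ i := fun e => hx (e ▸ ii)
        rw [Function.update_of_ne hxi, yo x hx]
      · rw [Function.update_self]
      · rw [Function.update_of_ne hij.symm, yj]
      · rw [Function.update_of_ne hil.symm, yl]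
  refine ⟨_, ?_, ev2⟩
  -- the final configuration is generic
  have ui : Function.update y i (ray M₃) i = ray M₃ := by rw [Function.update_self]
  have uj : Function.update y i (ray M₃) j = ray M₂ := by rw [Function.update_of_ne hij.symm, yj]
  have ul : Function.update y i (ray M₃) l = ray M + Pi.single q 1 := by
    rw [Function.update_of_ne hil.symm, yl]
  have uo : ∀ x, x ∉ ({i, j, l} : Finset ι) → Function.update y i (ray M₃) x = w x := by
    intro x hx
    have hxi : x ≠ i := fun e => hx (e ▸ ii)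
    rw [Function.update_of_ne hxi, yo x hx]
  generalize Function.update y i (ray M₃) = u at *
  have gray : ∀ a, B ≤ a → B ≤ (ray a : Fin (d + 1) → ℕ) 0 ∧ ∀ r : Fin d,
      (ray a : Fin (d + 1) → ℕ) r.castSucc + B ≤ (ray a : Fin (d + 1) → ℕ) r.succ := by
    intro a ha
    refine ⟨by rw [ray_zero]; exact ha, fun r => ?_⟩
    unfold ray
    simp only [Fin.val_castSucc, Fin.val_succ]
    have h3 : a * ((r : ℕ) + 1 + 1) = a * ((r : ℕ) + 1) + a := by ring
    omega
  have gl : B ≤ (ray M + Pi.single q 1 : Fin (d + 1) → ℕ) 0 ∧ ∀ r : Fin d,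
      (ray M + Pi.single q 1 : Fin (d + 1) → ℕ) r.castSucc + B
        ≤ (ray M + Pi.single q 1 : Fin (d + 1) → ℕ) r.succ := by
    refine ⟨by rw [m3]; omega, fun r => ?_⟩
    rw [add_single_ap, add_single_ap]
    unfold ray
    simp only [Fin.val_castSucc, Fin.val_succ]
    have h3 : M * ((r : ℕ) + 1 + 1) = M * ((r : ℕ) + 1) + M := by ring
    split_ifs <;> omega
  have hwl : ∀ x r, w x r + B ≤ (ray M : Fin (d + 1) → ℕ) r := by
    intro x r
    have h1 := hN x r
    have h2 := rle 0 M (Nat.zero_le _) r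
    omega
  have hl2 : ∀ r, (ray M + Pi.single q 1 : Fin (d + 1) → ℕ) r + B
      ≤ (ray M₂ : Fin (d + 1) → ℕ) r := by
    intro r
    have h2 := rle M M₂ (by omega) r
    rw [add_single_ap]
    split_ifs <;> omega
  have h23 : ∀ r, (ray M₂ : Fin (d + 1) → ℕ) r + B ≤ (ray M₃ : Fin (d + 1) → ℕ) r := by
    intro r
    have h2 := rle M₂ M₃ (by omega) r
    omega
  have hMl : ∀ r, (ray M : Fin (d + 1) → ℕ) r ≤ (ray M + Pi.single q 1 : Fin (d + 1) → ℕ) r := by
    intro r
    rw [add_single_ap]
    split_ifs <;> omega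
  refine ⟨fun x => ?_, ?_⟩
  · by_cases hx : x ∈ ({i, j, l} : Finset ι)
    · simp only [mem_insert, mem_singleton] at hx
      rcases hx with rfl | rfl | rfl
      · rw [ui]; exact gray M₃ (by omega)
      · rw [uj]; exact gray M₂ (by omega)
      · rw [ul]; exact gl
    · rw [uo x hx]; exact hw.1 x
  · intro x x' hne r
    have a1 := hl2 r
    have a2 := h23 r
    have a3 := hMl r
    by_cases hx : x ∈ ({i, j, l} : Finset ι)
    · simp only [mem_insert, mem_singleton] at hx
      by_cases hx' : x' ∈ ({i, j, l} : Finset ι)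
      · simp only [mem_insert, mem_singleton] at hx'
        rcases hx with rfl | rfl | rfl <;> rcases hx' with rfl | rfl | rfl <;>
          first
          | exact absurd rfl hne
          | (simp only [ui, uj, ul]; omega)
      · rw [uo x' hx']
        have a4 := hwl x' r
        right
        rcases hx with rfl | rfl | rfl
        · rw [ui]; omega
        · rw [uj]; omega
        · rw [ul]; omega
    · rw [uo x hx]
      have a5 := hwl x r
      by_cases hx' : x' ∈ ({i, j, l} : Finset ι)
      · simp only [mem_insert, mem_singleton] at hx'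
        left
        rcases hx' with rfl | rfl | rfl
        · rw [ui]; omega
        · rw [uj]; omega
        · rw [ul]; omega
      · rw [uo x' hx']
        exact hw.2 x x' hne r

end Pool.Agent.Helper43.SN
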