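import Pool.Agent.Helper43.SN.TubeT
import Pool.Agent.Helper43.SN.Exit
import Pool.Agent.Helper43.SN.Twist
import Pool.Agent.Helper43.SN.Alt

set_option autoImplicit false

/-!
# SN-26 GenAll: everything is extendable from a generic configuration

PROOF. `a` from `tubeT`, `ι = J d a`, `val` is injective and `im val = J d a` is a lower set (`mem_J`).
`B' = max B 10`. `leave` for the first side (`Stat val` by `stat_of_low`): `w₀` with `Gen B'`,
`Ev d w₀ val {sign = 1}`. `Ev_symm`, `leave` for `val` with the static side `w₀` (`stat_of_gen`), `Ev_symm`: `w'`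
with `Gen B' w'`, `Ev d w₀ w' {sign = 1}`. Then `alt` with `P G := ∃ w, Gen B' w ∧ Ev d w w' G`; `hstep` by
`gather`, `twist`, `disperse` for a common large `M` (`p`, `q` any two different nonzero indices, `d ≥ 3`).
-/

namespace Pool.Agent.Helper43.SN

open Finset Pool.Agent.Helper46.MR

namespace GenAllAux

theorem gen_mono {ι : Type} {d B B' : ℕ} (h : B ≤ B') {w : ι → Fin (d + 1) → ℕ}
    (hw : Gen B' w) : Gen B w := by
  obtain ⟨h1, h2⟩ := hw
  refine ⟨fun i => ⟨?_, fun j => ?_⟩, fun i i' hne j => ?_⟩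
  · have := (h1 i).1
    omega
  · have := (h1 i).2 j
    omega
  · rcases h2 i i' hne j with h3 | h3
    · left; omega
    · right; omega

theorem im_val (d a : ℕ) :
    im (fun i : {z : Fin (d + 1) → ℕ // z ∈ J d a} => i.1) = J d a := by
  ext z
  unfold im
  rw [mem_image]
  constructor
  · rintro ⟨i, -, rfl⟩
    exact i.2
  · intro hz
    exact ⟨⟨z, hz⟩, mem_univ _, rfl⟩

theorem lowS_J (d a : ℕ) : LowS (J d a) := by
  refine ⟨fun u hu => (mem_J.1 hu).1, fun u v hu huv hv => ?_⟩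
  have h1 := (mem_J.1 hv).2
  refine mem_J.2 ⟨hu, ?_⟩
  have h2 : ∑ i, u i ≤ ∑ i, v i := sum_le_sum fun i _ => huv i
  have h3 : u (Fin.last d) ≤ v (Fin.last d) := huv _
  omega

end GenAllAux

theorem genAll (d : ℕ) (hd : 3 ≤ d) : ∃ a : ℕ, ∀ B : ℕ,
    ∃ w w' : {z : Fin (d + 1) → ℕ // z ∈ J d a} → Fin (d + 1) → ℕ,
      Gen B w ∧ Gen B w' ∧ Ev d w w' {1} := by
  obtain ⟨a, ha⟩ := tubeT d hd
  refine ⟨a, fun B => ?_⟩
  have hB : 10 ≤ max B 10 := le_max_right _ _
  have hinj : Function.Injective (fun i : {z : Fin (d + 1) → ℕ // z ∈ J d a} => i.1) :=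
    Subtype.val_injective
  have hlow : LowS (im (fun i : {z : Fin (d + 1) → ℕ // z ∈ J d a} => i.1)) := by
    rw [GenAllAux.im_val]
    exact GenAllAux.lowS_J d a
  have hstat : Stat (fun i : {z : Fin (d + 1) → ℕ // z ∈ J d a} => i.1) :=
    stat_of_low _ hinj hlow
  obtain ⟨w₀, hg₀, h₀⟩ := leave d (by omega) _ _ hinj hlow hstat (max B 10) _ ha
  obtain ⟨w', hg', h₁⟩ := leave d (by omega) _ w₀ hinj hlow
    (stat_of_gen hd (by omega) w₀ hg₀) (max B 10) _ (Ev_symm h₀)
  have h₂ : Ev d w₀ w' {g | Equiv.Perm.sign g = 1} := by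
    refine Ev_mono ?_ (Ev_symm h₁)
    intro g hg
    simpa using hg
  have hw' : Stat w' := stat_of_gen hd (by omega) w' hg'
  have key := alt (fun G => ∃ w, Gen (max B 10) w ∧ Ev d w w' G) ?_ ⟨w₀, hg₀, h₂⟩
  · obtain ⟨w, hw, hE⟩ := key
    exact ⟨w, w', GenAllAux.gen_mono (le_max_left _ _) hw,
      GenAllAux.gen_mono (le_max_left _ _) hg', hE⟩
  · rintro G G' i j l hij hil hjl hG ⟨w, hw, hE⟩
    have hp : (⟨1, by omega⟩ : Fin (d + 1)) ≠ 0 := by
      intro h
      have := congrArg Fin.val h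
      simp at this
    have hq : (⟨2, by omega⟩ : Fin (d + 1)) ≠ 0 := by
      intro h
      have := congrArg Fin.val h
      simp at this
    have hpq : (⟨1, by omega⟩ : Fin (d + 1)) ≠ ⟨2, by omega⟩ := by
      intro h
      have := congrArg Fin.val h
      simp at this
    obtain ⟨M₁, h1⟩ := gather d hd w w' (max B 10) hB hw hw' i j l hij hil hjl _ _ hp hq hpq G hE
    obtain ⟨M₂, h2⟩ := twist d hd w w' (max B 10) hB hw hw' i j l hij hil hjl _ _ hp hq hpq
      G G' hG
    obtain ⟨M₃, h3⟩ := disperse d hd w w' (max B 10) hB hw hw' i j l hij hil hjl _ _ hp hq hpq G'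
    have m1 : M₁ ≤ max M₁ (max M₂ M₃) := le_max_left _ _
    have m2 : M₂ ≤ max M₁ (max M₂ M₃) := (le_max_left _ _).trans (le_max_right _ _)
    have m3 : M₃ ≤ max M₁ (max M₂ M₃) := (le_max_right _ _).trans (le_max_right _ _)
    exact h3 _ m3 (h2 _ m2 (h1 _ m1))

end Pool.Agent.Helper43.SN
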