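import Pool.Agent.Helper43.SN.Basic
import Pool.Agent.Helper84.SN.CovStep

set_option autoImplicit false

/-!
# SN-10 Hall: the punctured Griggs step for `T`, symmetry of `Ext` and `T`

PROOF of `T_step`. Given `π₁` on `V (k+1)` with `π₁ (x1 i) = x1' i`. By `hK` and Hall's theorem
(`Pool.Agent.Helper84.SN.hall_step` with `P1 = V k \ imv x`, `P2 = V k \ imv x'`,
`Q1 = V (k+1) \ imv x1`, `Q2 = V (k+1) \ imv x1'`, `Y = Q1`, `r = 0`, `e = π₁`, relation = `≤`, see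
`le_iff_ups`, `le_iff_lo`) there are injections `F₀ : V k \ X → V (k+1) \ X1`,
`G₀ : V k \ X' → V (k+1) \ X1'` with `π₁ (range F₀) = range G₀`, `x ≤ F₀ x`, `x ≤ G₀ x`. Extend
`G = G₀`, `G (x' i) = x1' i` and, for `s ∈ {1, c}`, `F_s = F₀`, `F_s (x i) = x1 (s i)`. Let `π'` be the
permutation of `V k` with `G (π' x) = π₁ (F₀ x)` off `X` and `π' (x i) = x' i`. By `hT` there is
`g ∈ G` with `Ext d k (π' * g^)`, `g^ = g.viaFintypeEmbedding x`. If `g ∈ G'` take `g' = g`, `s = 1`, if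
`g * c⁻¹ ∈ G'` take `g' = g * c⁻¹`, `s = c`: then
`(π₁ * g'^) (F_s (x i)) = π₁ (x1 (g' (s i))) = x1' (g' (s i)) = G (x' (g i)) = G ((π' * g^) (x i))` and
off `X` `(π₁ * g'^) (F_s x) = π₁ (F₀ x) = G (π' x)`, so `Ext d (k+1) (π₁ * g'^)` with `F_s`, `G`,
`π' * g^`. (`Equiv.Perm.viaFintypeEmbedding_apply_image`, `.._apply_notMem_range`.)

`Ext_symm`: swap `f` and `g`, `π f = g π'` gives `π⁻¹ g = f π'⁻¹`.
`T_symm`: for `π (x' i) = x i` apply `T` to `π⁻¹`; `(π⁻¹ * g^)⁻¹ = (g^)⁻¹ * π = π * (g⁻¹)^'` (with respect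
to `x'`).
-/

namespace Pool.Agent.Helper43.SN

open Finset Pool.Agent.Helper46.MR

variable {ι : Type} [Fintype ι] [DecidableEq ι] {d k : ℕ}

namespace HallAux

theorem upS_le {A X1 : Finset (Fin (d + 2) → ℕ)} (hA : A ⊆ V d k) :
    Pool.Agent.Helper84.SN.upS (fun a b : Fin (d + 2) → ℕ => a ≤ b) (V d (k + 1) \ X1) A =
      ups A \ X1 := by
  ext y
  rw [Pool.Agent.Helper84.SN.mem_upS, mem_sdiff, mem_sdiff]
  constructor
  · rintro ⟨⟨h1, h2⟩, x, hx, hxy⟩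
    exact ⟨ups_mono (singleton_subset_iff.2 hx) ((le_iff_ups (hA hx) h1).1 hxy), h2⟩
  · rintro ⟨h1, h2⟩
    have h3 := ups_subset hA h1
    obtain ⟨_, x, hx, i, hi⟩ := mem_ups.1 h1
    exact ⟨⟨h3, h2⟩, x, hx, (le_iff_cover (hA hx) h3).2 ⟨i, hi⟩⟩

theorem loS_le {D X : Finset (Fin (d + 2) → ℕ)} (hD : D ⊆ V d (k + 1)) :
    Pool.Agent.Helper84.SN.loS (fun a b : Fin (d + 2) → ℕ => a ≤ b) (V d k \ X) D =
      lo D \ X := by
  ext x
  rw [Pool.Agent.Helper84.SN.mem_loS, mem_sdiff, mem_sdiff]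
  constructor
  · rintro ⟨⟨h1, h2⟩, y, hy, hxy⟩
    obtain ⟨i, hi⟩ := (le_iff_cover h1 (hD hy)).1 hxy
    refine ⟨mem_lo.2 ⟨(mem_V.1 h1).1, i, ?_⟩, h2⟩
    rw [← hi]
    exact hy
  · rintro ⟨h1, h2⟩
    have h3 := lo_sub hD h1
    obtain ⟨_, i, hi⟩ := mem_lo.1 h1
    exact ⟨⟨h3, h2⟩, _, hi, (le_iff_cover h3 (hD hi)).2 ⟨i, rfl⟩⟩

theorem KP_of {X X1 X' X1' : Finset (Fin (d + 2) → ℕ)} (h : KP d k X X1 X' X1') :
    Pool.Agent.Helper84.SN.KP (fun a b : Fin (d + 2) → ℕ => a ≤ b) (V d k) (V d (k + 1))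
      X X1 X' X1' := by
  intro A hA D hD
  rw [upS_le (hA.trans sdiff_subset), loS_le (hD.trans sdiff_subset)]
  exact h A hA D hD

end HallAux

theorem T_step (x x' : ι ↪ Vt d k) (x1 x1' : ι ↪ Vt d (k + 1))
    (hx : ∀ i, (x i).1 ≤ (x1 i).1) (hx' : ∀ i, (x' i).1 ≤ (x1' i).1)
    (hK : KP d k (imv x) (imv x1) (imv x') (imv x1'))
    (c : Equiv.Perm ι) (hc : ∀ i, (x i).1 ≤ (x1 (c i)).1) (G G' : Set (Equiv.Perm ι))
    (hG : ∀ g ∈ G, g ∈ G' ∨ g * c⁻¹ ∈ G') (hT : T d k x x' G) : T d (k + 1) x1 x1' G' := by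
  classical
  have hcov : Pool.Agent.Helper84.SN.Cov (V d k) (Ext d k) x x' G := by
    intro π hπ
    obtain ⟨g, hg, hE⟩ := hT π hπ
    refine ⟨g, hg, π * g.viaFintypeEmbedding x, fun z hz => ?_, fun i => ?_, hE⟩
    · rw [Equiv.Perm.mul_apply, Equiv.Perm.viaFintypeEmbedding_apply_notMem_range]
      rintro ⟨i, hi⟩
      exact hz i hi
    · rw [Equiv.Perm.mul_apply, Equiv.Perm.viaFintypeEmbedding_apply_image, hπ]
  have h := Pool.Agent.Helper84.SN.cov_step (R := fun a b => a ≤ b) (P := V d k)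
    (Q := V d (k + 1)) (x := x) (x' := x') (y := x1) (y' := x1') x.injective x'.injective
    x1.injective x1'.injective card_V_mono hx' (C := {1, c})
    (by
      rintro c' (rfl | hc')
      · exact hx
      · rw [Set.mem_singleton_iff.1 hc']
        exact hc)
    (HallAux.KP_of hK) (B := G) (B' := G')
    (by
      intro g hg
      rcases hG g hg with h | h
      · refine ⟨1, Or.inl rfl, ?_⟩
        rwa [inv_one, mul_one]
      · exact ⟨c, Or.inr rfl, h⟩)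
    hcov
  intro π₁ hπ₁
  obtain ⟨b, hb, π', h1, h2, π'', ⟨F, G0, hF, hG0, hFR, hGR, hFG⟩, hE⟩ := h π₁ hπ₁
  refine ⟨b, hb, ?_⟩
  have e : π₁ * b.viaFintypeEmbedding x1 = π' := by
    ext1 z
    by_cases hz : z ∈ Set.range x1
    · obtain ⟨i, rfl⟩ := hz
      rw [Equiv.Perm.mul_apply, Equiv.Perm.viaFintypeEmbedding_apply_image, hπ₁, h2]
    · rw [Equiv.Perm.mul_apply, Equiv.Perm.viaFintypeEmbedding_apply_notMem_range _ _ hz, h1]
      intro i hi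
      exact hz ⟨i, hi⟩
  rw [e]
  exact ⟨⟨F, hF⟩, ⟨G0, hG0⟩, π'', hFR, hGR, hFG, hE⟩

theorem Ext_symm : ∀ (k : ℕ) (π : Equiv.Perm (Vt d k)), Ext d k π → Ext d k π⁻¹ := by
  intro k
  induction k with
  | zero => exact fun _ _ => trivial
  | succ k ih =>
    rintro π ⟨f, g, π', hf, hg, h, hE⟩
    refine ⟨g, f, π'⁻¹, hg, hf, fun x => ?_, ih π' hE⟩
    rw [Equiv.Perm.inv_eq_iff_eq, h, Equiv.Perm.inv_def, Equiv.apply_symm_apply]

theorem T_symm {x x' : ι ↪ Vt d k} {G : Set (Equiv.Perm ι)} (h : T d k x x' G) :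
    T d k x' x {g | g⁻¹ ∈ G} := by
  intro π hπ
  obtain ⟨g, hg, hE⟩ := h π⁻¹ fun i => by rw [Equiv.Perm.inv_eq_iff_eq, hπ]
  refine ⟨g⁻¹, by rw [Set.mem_ofPred_eq, inv_inv]; exact hg, ?_⟩
  have e : (π⁻¹ * g.viaFintypeEmbedding x)⁻¹ = π * g⁻¹.viaFintypeEmbedding x' := by
    rw [mul_inv_rev, inv_inv, inv_mul_eq_iff_eq_mul]
    ext1 z
    by_cases hz : z ∈ Set.range x'
    · obtain ⟨i, rfl⟩ := hz
      rw [Equiv.Perm.mul_apply, Equiv.Perm.mul_apply,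
        Equiv.Perm.viaFintypeEmbedding_apply_image, hπ, hπ,
        Equiv.Perm.viaFintypeEmbedding_apply_image, Equiv.Perm.inv_def,
        Equiv.apply_symm_apply]
    · rw [Equiv.Perm.mul_apply, Equiv.Perm.mul_apply,
        Equiv.Perm.viaFintypeEmbedding_apply_notMem_range _ _ hz,
        Equiv.Perm.viaFintypeEmbedding_apply_notMem_range]
      rintro ⟨i, hi⟩
      rw [← hπ] at hi
      exact hz ⟨i, π.injective hi⟩
  rw [← e]
  exact Ext_symm k _ hE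

theorem T_mono {x x' : ι ↪ Vt d k} {G G' : Set (Equiv.Perm ι)} (hG : G ⊆ G')
    (h : T d k x x' G) : T d k x x' G' := by
  intro π hπ
  obtain ⟨g, hg, hE⟩ := h π hπ
  exact ⟨g, hG hg, hE⟩

theorem T_one {x x' : ι ↪ Vt d k} (h : T d k x x' {1}) (π : Equiv.Perm (Vt d k))
    (hπ : ∀ i, π (x i) = x' i) : Ext d k π := by
  obtain ⟨g, hg, hE⟩ := h π hπ
  rw [Set.mem_singleton_iff.1 hg] at hE
  have e : π * (1 : Equiv.Perm ι).viaFintypeEmbedding x = π := by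
    ext1 z
    by_cases hz : z ∈ Set.range x
    · obtain ⟨i, rfl⟩ := hz
      rw [Equiv.Perm.mul_apply, Equiv.Perm.viaFintypeEmbedding_apply_image,
        Equiv.Perm.one_apply]
    · rw [Equiv.Perm.mul_apply, Equiv.Perm.viaFintypeEmbedding_apply_notMem_range _ _ hz]
  rwa [e] at hE

end Pool.Agent.Helper43.SN
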