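import Pool.Agent.Helper43.SN.Basic
import Pool.Agent.Helper46.MR.LemE
import Pool.Agent.Helper46.MR.Compl

set_option autoImplicit false

/-!
# SN-1 Iso: isoperimetric inequality (F2)

`f(A) = |ups A| - |A| ≥ 0` for `A ⊆ V d k` (`card_le_ups`).

PROOF of `iso`. `MR.lemE` with `m = d + 1`, `n = k + 1` for `D = A.image (cm n) ⊆ P (d+2) n ((d+2) n - k)`
(`cm_image_subset`, `cm_image_card`): by `LemEAux.df_eq` (or the like) `EE D = |lo D| - |D|`, because no
`y ∈ D` has `y 0 = 0` (`y 0 = n - a (last) ≥ 1`). `lo_cm_card` (`|lo (A.image cm)| = |up n A|`) and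
`ups_eq_up`.

PROOF of `card_lt_ups`. Otherwise `ups A = A.image shl` (`image_shl_subset`, equal cardinalities). So for
`x ∈ A` and `i ≠ last` with `x + e_i` monotone, `x + e_i = shl x'`, `x' ∈ A`, i.e.
`x' = x + e_i - e_last ∈ A` is monotone. If all elements of `A` are constant, `A = {c}` and
`(d+2) ∣ k`: excluded by `h`. So there is a nonconstant `x ∈ A`; take one with minimal last entry. There
is an `i < last` with `x i < x (i+1)` and then `x + e_i` is monotone, so `x' = x + e_i - e_last ∈ A`, and
it has a smaller last entry, hence it is constant `c`, `x = c - e_i + e_last`, so `i = 0` (monotone) and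
`x = (c-1, c, .., c, c+1)`. As `d ≥ 1`, also `i = d` (the index before the last) has `x i < x (i+1)`, so by
the same argument `i = d` is `0`: contradiction.
-/

namespace Pool.Agent.Helper43.SN

open Finset Pool.Agent.Helper46.MR

variable {d k : ℕ}

/-- (F2) -/
theorem iso {A : Finset (Fin (d + 2) → ℕ)} (hA : A ⊆ V d k) :
    A.card ^ d ≤ ((2 * d + 5) * ((ups A).card - A.card + 1)) ^ (d + 1) := by
  classical
  have hP : A ⊆ P (d + 2) (k + 1) k := by
    rw [P_eq_V (Nat.le_succ k)]; exact hA
  have hk : k ≤ (d + 2) * (k + 1) := by nlinarith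
  have hD := cm_image_subset hk hP
  have h1 := lemE (m := d + 1) (n := k + 1) (Nat.le_add_left 1 d) hD
  have h2 := cm_image_card hP
  have h3 := lo_cm_card hP
  rw [ups_eq_up hA le_rfl] at h3
  have hmono : ∀ y ∈ A.image (cm (k + 1)), Monotone y := fun y hy => P_mono (hD hy)
  have h4 := df_eq (m := d + 1) hmono
  have h5 : ((A.image (cm (k + 1))).filter fun y => y 0 = 0) = ∅ := by
    rw [filter_eq_empty_iff]
    intro y hy
    obtain ⟨a, ha, rfl⟩ := mem_image.1 hy
    have h6 := P_le (hA ha) (Fin.rev 0)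
    have h7 : cm (k + 1) a 0 = k + 1 - a (Fin.rev 0) := rfl
    omega
  rw [h5, card_empty, h2, h3] at h4
  have h6 : EE (A.image (cm (k + 1))) = (ups A).card - A.card := by omega
  rw [h2, h6] at h1
  exact h1

/-- raising `x i.castSucc` keeps monotonicity if `x i.castSucc < x i.succ` -/
theorem IsoAux.mono_add {x : Fin (d + 2) → ℕ} (hx : Monotone x) {i : Fin (d + 1)}
    (h : x i.castSucc < x i.succ) : Monotone (x + Pi.single i.castSucc 1 : Fin (d + 2) → ℕ) := by
  intro p q hpq
  rw [add_single_ap, add_single_ap]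
  have h1 := hx hpq
  split_ifs with h2 h3 h3
  · omega
  · subst h2
    have h4 : i.succ ≤ q := by
      have h6 : i.castSucc < q := lt_of_le_of_ne hpq (Ne.symm h3)
      have h7 := Fin.lt_def.1 h6
      rw [Fin.le_def, Fin.val_succ]
      rw [Fin.val_castSucc] at h7
      omega
    have h5 := hx h4
    omega
  · omega
  · exact h1

theorem card_lt_ups (hd : 1 ≤ d) {A : Finset (Fin (d + 2) → ℕ)} (hA : A ⊆ V d k)
    (hne : A.Nonempty) (h : k % (d + 2) ≠ 0 ∨ 2 ≤ A.card) : A.card < (ups A).card := by
  classical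
  by_contra hcon
  have hsh : A.image shl = ups A := by
    refine eq_of_subset_of_card_le (image_shl_subset hA) ?_
    rw [card_image_of_injective A shl_inj]
    exact not_lt.1 hcon
  -- the key step
  have key : ∀ x ∈ A, ∀ i : Fin (d + 1), x i.castSucc < x i.succ →
      ∃ x' ∈ A, x' + Pi.single (Fin.last (d + 1)) 1 = x + Pi.single i.castSucc 1 := by
    intro x hx i hi
    have h1 : x + Pi.single i.castSucc 1 ∈ ups A :=
      mem_ups.2 ⟨IsoAux.mono_add (mem_V.1 (hA hx)).1 hi, x, hx, _, rfl⟩
    rw [← hsh] at h1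
    obtain ⟨x', hx', he⟩ := mem_image.1 h1
    exact ⟨x', hx', he⟩
  -- a constant element
  have cst : ∀ x ∈ A, x (Fin.last (d + 1)) ≤ x 0 → (∀ i, x i = x 0) ∧ (d + 2) * x 0 = k := by
    intro x hx h0
    obtain ⟨hm, hs⟩ := mem_V.1 (hA hx)
    have hc : ∀ i, x i = x 0 := by
      intro i
      have h1 := hm (Fin.zero_le i)
      have h2 := hm (Fin.le_last i)
      omega
    refine ⟨hc, ?_⟩
    rw [← hs, sum_congr rfl fun i _ => hc i]
    simp
  have hex : ∃ x ∈ A, x 0 < x (Fin.last (d + 1)) := by
    by_contra hno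
    push Not at hno
    rcases h with h | h
    · obtain ⟨x, hx⟩ := hne
      have h1 := (cst x hx (hno x hx)).2
      apply h
      rw [← h1]
      exact Nat.mul_mod_right _ _
    · obtain ⟨a, ha, b, hb, hab⟩ := one_lt_card.1 h
      obtain ⟨h1, h2⟩ := cst a ha (hno a ha)
      obtain ⟨h3, h4⟩ := cst b hb (hno b hb)
      apply hab
      have h5 : a 0 = b 0 := by
        have : (d + 2) * a 0 = (d + 2) * b 0 := by omega
        exact Nat.eq_of_mul_eq_mul_left (by omega) this
      funext i
      rw [h1 i, h3 i, h5]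
  let S : Finset (Fin (d + 2) → ℕ) := A.filter fun x => x 0 < x (Fin.last (d + 1))
  have hS : S.Nonempty := by
    obtain ⟨x, hx, hx'⟩ := hex
    exact ⟨x, mem_filter.2 ⟨hx, hx'⟩⟩
  obtain ⟨x, hxS, hmin⟩ := S.exists_min_image (fun x => x (Fin.last (d + 1))) hS
  obtain ⟨hxA, hx0⟩ := mem_filter.1 hxS
  obtain ⟨hxm, hxs⟩ := mem_V.1 (hA hxA)
  -- the structure of x
  have str : ∀ i : Fin (d + 1), x i.castSucc < x i.succ → i = 0 ∧ ∃ c,
      x (Fin.last (d + 1)) = c + 1 ∧ ∀ j : Fin (d + 1), j ≠ 0 → x j.castSucc = c := by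
    intro i hi
    obtain ⟨x', hx', he⟩ := key x hxA i hi
    have hj : ∀ j : Fin (d + 2), (if j = Fin.last (d + 1) then x' j + 1 else x' j) =
        if j = i.castSucc then x j + 1 else x j := by
      intro j
      have := congrFun he j
      rwa [add_single_ap, add_single_ap] at this
    have hl := hj (Fin.last (d + 1))
    rw [if_pos rfl, if_neg (Fin.castSucc_lt_last i).ne'] at hl
    have hx'c : x' (Fin.last (d + 1)) ≤ x' 0 := by
      by_contra hlt
      have := hmin x' (mem_filter.2 ⟨hx', not_le.1 hlt⟩)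
      omega
    obtain ⟨hc, _⟩ := cst x' hx' hx'c
    have hi0 : i = 0 := by
      by_contra hi0
      have h1 := hj 0
      have h2 := hj i.castSucc
      have h3 : (0 : Fin (d + 2)) ≠ i.castSucc := by
        intro h
        apply hi0
        have : (0 : Fin (d + 1)).castSucc = i.castSucc := h
        exact (Fin.castSucc_injective _ this).symm
      have h4 : (0 : Fin (d + 2)) ≠ Fin.last (d + 1) := by
        intro h
        have := congrArg Fin.val h
        simp at this
      rw [if_neg h4, if_neg h3] at h1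
      rw [if_neg (Fin.castSucc_lt_last i).ne, if_pos rfl, hc] at h2
      have h5 := hxm (Fin.zero_le i.castSucc)
      omega
    refine ⟨hi0, x' 0, ?_, ?_⟩
    · rw [← hl, hc]
    · intro j hj0
      have h1 := hj j.castSucc
      rw [if_neg (Fin.castSucc_lt_last j).ne, if_neg, hc] at h1
      · exact h1.symm
      · intro h
        exact hj0 ((Fin.castSucc_injective _ h).trans hi0)
  -- there is a jump
  have hjump : ∃ i : Fin (d + 1), x i.castSucc < x i.succ := by
    by_contra hno
    push Not at hno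
    have hall : ∀ i : Fin (d + 2), x i ≤ x 0 := by
      intro i
      refine Fin.induction le_rfl (fun j hj => ?_) i
      exact (hno j).trans hj
    have := hall (Fin.last (d + 1))
    omega
  obtain ⟨i, hi⟩ := hjump
  obtain ⟨_, c, hc1, hc2⟩ := str i hi
  have hl0 : Fin.last d ≠ 0 := by
    intro h
    have := congrArg Fin.val h
    simp at this
    omega
  have h1 := hc2 (Fin.last d) hl0
  have h2 : x (Fin.last d).castSucc < x (Fin.last d).succ := by
    rw [h1, Fin.succ_last, hc1]
    omega
  exact hl0 (str (Fin.last d) h2).1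

end Pool.Agent.Helper43.SN
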