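import Pool.Agent.Helper43.SN.Basic
import Pool.Agent.Helper46.MR.KMain

set_option autoImplicit false

/-!
# SN-8 KEmpty: the condition (K) of MR as `KP` without special elements

PROOF. `MR.kmain` with `m = d + 2`, `n = k + 1`. For `A ⊆ V k`, `D ⊆ V (k+1)` with `|lo D| < |A|` put
`D1 = V (k+1) \ ups A`; `lo D1 ⊆ V k \ A` (`disjoint_iff`), so `|lo D| + |lo D1| < |V k|` and
`|D| + |D1| + |V k| ≤ |V (k+1)| + |lo D| + |lo D1|`, which is the claim.
-/

namespace Pool.Agent.Helper43.SN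

open Finset Pool.Agent.Helper46.MR

theorem kp_empty (d : ℕ) (hd : 2 ≤ d) : ∃ k₀ : ℕ, ∀ k : ℕ, k₀ ≤ k → KP d k ∅ ∅ ∅ ∅ := by
  classical
  obtain ⟨k₀, hk₀⟩ := kmain (m := d + 2) (by omega)
  refine ⟨k₀, fun k hk => ?_⟩
  intro A hA D hD
  rw [sdiff_empty] at hA hD
  rw [sdiff_empty, sdiff_empty]
  by_cases hlt : A.card ≤ (lo D).card
  · exact Or.inl hlt
  refine Or.inr ?_
  have hK : K (d + 2) (k + 1) k := hk₀ (k + 1) k hk (by nlinarith)
  have hD1 : V d (k + 1) \ ups A ⊆ V d (k + 1) := sdiff_subset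
  have hdis : Disjoint A (lo (V d (k + 1) \ ups A)) := (disjoint_iff hA hD1).1 disjoint_sdiff
  have h1 : (lo (V d (k + 1) \ ups A)).card + A.card ≤ (V d k).card := by
    rw [← card_union_of_disjoint hdis.symm]
    exact card_le_card (union_subset (lo_sub hD1) hA)
  have h2 : (V d (k + 1) \ ups A).card + (ups A).card = (V d (k + 1)).card :=
    card_sdiff_add_card_eq_card (ups_subset hA)
  have e1 : P (d + 2) (k + 1) k = V d k := P_eq_V (Nat.le_succ k)
  have e2 : P (d + 2) (k + 1) (k + 1) = V d (k + 1) := P_eq_V le_rfl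
  have h3 := hK D (e2 ▸ hD) (V d (k + 1) \ ups A) (e2 ▸ hD1) (by rw [e1]; omega)
  rw [e1, e2] at h3
  omega

end Pool.Agent.Helper43.SN
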