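import Pool.Agent.Helper43.SN.Lym

set_option autoImplicit false

/-!
# SN-14 KillRate: the number of links killed in the bulk

PROOF. `N = k + 1`, `f(A) = |ups A| - |A| ≥ 0`, `r = y (d+1)/(k+d+2) + c N^d`. Suppose
`|A| + |A'| > y - r` (otherwise the first entry of the max is large enough). To show
`f(A) + f(A') ≥ r`. Note `y - y(d+1)/(k+d+2) = y N/(k+d+2)`.
(1) One of `A`, `A'` is in the middle (`ε N^(d+1) ≤ |A|`, `|A| + ε N^(d+1) ≤ |V k|`): `lym_up_mid` for it,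
`lym_up` for the other: `f(A) + f(A') ≥ ((d+1)/N)(|A|+|A'|) + c_ε N^d - C N^(d-1)`
`> ((d+1)/N)(y N/(k+d+2) - c N^d) + c_ε N^d - C N^(d-1) ≥ y(d+1)/(k+d+2) + c N^d` if `c ≤ c_ε/4`, large `N`.
(2) Both are smaller than `ε N^(d+1)`: then `y - r < 2 ε N^(d+1)`, but `y - r ≥ y/2 - c N^d ≥ η/4 N^(d+1)`
for large `k`: impossible if `ε ≤ η/8`.
(3) One of them, say `A`, has `|A| > |V k| - ε N^(d+1)`. `(d+2)! y ≤ (1-θ) W d (k+1)`,
`W d (k+1) = W d k (k+d+2)/N` (`W_succ`), `W d k ≤ (d+2)! |V k|` (`W_le_V`), so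
`y (d+1)/(k+d+2) ≤ (1-θ) ((d+1)/N) |V k|`. `f(A) ≥ ((d+1)/N)(|V k| - ε N^(d+1)) - C N^(d-1)`, so
`f(A) - r ≥ ((d+1)/N)(θ |V k| - ε N^(d+1)) - C N^(d-1) - c N^d ≥ 0` by `V_lo` (`|V k| ≥ c_V N^(d+1)`), if
`ε ≤ θ c_V/2`, `c ≤ (d+1) θ c_V/4`, large `N`.
-/

namespace Pool.Agent.Helper43.SN

open Finset Pool.Agent.Helper46.MR

namespace KillRateAux

theorem case_one {N D M p c c1 C y a a' ua ua' : ℝ} (hN : 0 < N) (hD : 0 ≤ D) (hM : M = N + D)
    (hp : 0 < p) (h1 : (1 + D / N) * a + c1 * (p * N) ≤ ua)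
    (h2 : (1 + D / N) * a' ≤ ua' + C * p) (hlt : y < y * D / M + c * (p * N) + a + a')
    (hc : D * c + C ≤ (c1 - c) * N) : y * D / M + c * (p * N) + a + a' ≤ ua + ua' := by
  have hM0 : 0 < M := by linarith
  have e1 : D / N * (y - y * D / M - c * (p * N)) = y * D / M - D * c * p := by
    rw [hM]
    have : N + D ≠ 0 := by linarith
    field_simp
    ring
  have h3 : D / N * (y - y * D / M - c * (p * N)) ≤ D / N * (a + a') :=
    mul_le_mul_of_nonneg_left (by linarith) (by positivity)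
  rw [e1] at h3
  have h4 : (D * c + C) * p ≤ (c1 - c) * N * p := mul_le_mul_of_nonneg_right hc hp.le
  nlinarith

theorem case_two {N D M p c ε η y a a' : ℝ} (hN : 0 < N) (hD : 0 ≤ D) (hM : M = N + D)
    (hDN : D ≤ N) (hp : 0 < p) (hlt : y < y * D / M + c * (p * N) + a + a')
    (ha : a < ε * (p * N * N)) (ha' : a' < ε * (p * N * N)) (hy : η * (p * N * N) ≤ y)
    (hε : ε ≤ η / 8) (hη : 0 < η) (hc : c ≤ η / 4 * N) : False := by
  have hM0 : 0 < M := by linarith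
  have hpn : 0 < p * N * N := by positivity
  have hy0 : 0 < y := lt_of_lt_of_le (by positivity) hy
  have h1 : y * D / M ≤ y / 2 := by
    rw [div_le_div_iff₀ hM0 (by norm_num)]
    nlinarith
  have h2 : c * (p * N) ≤ η / 4 * N * (p * N) := mul_le_mul_of_nonneg_right hc (by positivity)
  have h3 : ε * (p * N * N) ≤ η / 8 * (p * N * N) := mul_le_mul_of_nonneg_right hε hpn.le
  have h4 : η / 4 * N * (p * N) = η / 4 * (p * N * N) := by ring
  linarith

theorem case_three {N D M p c C ε θ cV v y a a' ua ua' : ℝ} (hN : 0 < N) (hD : 0 ≤ D)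
    (hp : 0 < p) (h1 : (1 + D / N) * a ≤ ua + C * p)
    (h2 : a' ≤ ua') (ha : v < a + ε * (p * N * N)) (hθ : 0 ≤ θ)
    (hy : y * D / M ≤ (1 - θ) * (D / N * v)) (hv : cV * (p * N * N) ≤ v)
    (h : D * ε * N + C + c * N ≤ θ * D * cV * N) :
    y * D / M + c * (p * N) + a + a' ≤ ua + ua' := by
  have hDN : 0 ≤ D / N := by positivity
  have h3 : D / N * (v - ε * (p * N * N)) ≤ D / N * a :=
    mul_le_mul_of_nonneg_left (by linarith) hDN
  have e1 : D / N * (v - ε * (p * N * N)) = D / N * v - D * ε * (p * N) := by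
    field_simp
  rw [e1] at h3
  have h4 : D / N * (cV * (p * N * N)) ≤ D / N * v := mul_le_mul_of_nonneg_left hv hDN
  have e2 : D / N * (cV * (p * N * N)) = D * cV * (p * N) := by
    field_simp
  rw [e2] at h4
  have h5 : θ * (D * cV * (p * N)) ≤ θ * (D / N * v) := mul_le_mul_of_nonneg_left h4 hθ
  have h6 : (D * ε * N + C + c * N) * p ≤ θ * D * cV * N * p :=
    mul_le_mul_of_nonneg_right h hp.le
  nlinarith

end KillRateAux

open KillRateAux

theorem kill_rate (d : ℕ) (hd : 1 ≤ d) (η θ : ℝ) (hη : 0 < η) (hθ : 0 < θ) :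
    ∃ (c : ℝ) (K : ℕ), 0 < c ∧ ∀ k : ℕ, K ≤ k → ∀ y : ℕ,
      η * ((k : ℝ) + 1) ^ (d + 1) ≤ y →
      ((d + 2).factorial : ℝ) * y ≤ (1 - θ) * W d (k + 1) →
      ∀ A ⊆ V d k, ∀ A' ⊆ V d k,
        (y : ℝ) * ((d : ℝ) + 1) / ((k : ℝ) + d + 2) + c * ((k : ℝ) + 1) ^ d + A.card + A'.card ≤
          max (y : ℝ) ((ups A).card + (ups A').card) := by
  obtain ⟨cV, hcV, hV⟩ := V_lo d
  obtain ⟨C, K₁, hC, hup⟩ := lym_up d hd
  have hε : 0 < min (η / 8) (θ * cV / 2) := lt_min (by positivity) (by positivity)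
  obtain ⟨ε, hεdef⟩ : ∃ ε : ℝ, ε = min (η / 8) (θ * cV / 2) := ⟨_, rfl⟩
  rw [← hεdef] at hε
  have hε1 : ε ≤ η / 8 := by rw [hεdef]; exact min_le_left _ _
  have hε2 : ε ≤ θ * cV / 2 := by rw [hεdef]; exact min_le_right _ _
  obtain ⟨c₁, K₂, hc₁, hmid⟩ := lym_up_mid d hd ε hε
  have hD : (0 : ℝ) < (d : ℝ) + 1 := by positivity
  obtain ⟨c, hcdef⟩ : ∃ c : ℝ, c = min (min (c₁ / 2) 1) (((d : ℝ) + 1) * θ * cV / 4) := ⟨_, rfl⟩
  have hc : 0 < c := by
    rw [hcdef]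
    exact lt_min (lt_min (by positivity) one_pos) (by positivity)
  have hca : c ≤ c₁ / 2 := by
    rw [hcdef]; exact (min_le_left _ _).trans (min_le_left _ _)
  have hcb : c ≤ 1 := by
    rw [hcdef]; exact (min_le_left _ _).trans (min_le_right _ _)
  have hcc : c ≤ ((d : ℝ) + 1) * θ * cV / 4 := by
    rw [hcdef]; exact min_le_right _ _
  obtain ⟨N₁, hN₁⟩ := exists_nat_ge (2 * (((d : ℝ) + 1) * c + C) / c₁)
  obtain ⟨N₂, hN₂⟩ := exists_nat_ge (4 / η)
  obtain ⟨N₃, hN₃⟩ := exists_nat_ge (4 * C / (((d : ℝ) + 1) * θ * cV))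
  refine ⟨c, max (max K₁ K₂) (max (max N₁ N₂) (max N₃ d)), hc, fun k hk y hy1 hy2 A hA A' hA' => ?_⟩
  have hk1 : K₁ ≤ k := by omega
  have hk2 : K₂ ≤ k := by omega
  have hkN₁ : (N₁ : ℝ) ≤ k := by
    have : N₁ ≤ k := by omega
    exact_mod_cast this
  have hkN₂ : (N₂ : ℝ) ≤ k := by
    have : N₂ ≤ k := by omega
    exact_mod_cast this
  have hkN₃ : (N₃ : ℝ) ≤ k := by
    have : N₃ ≤ k := by omega
    exact_mod_cast this
  have hkd : (d : ℝ) ≤ k := by
    have : d ≤ k := by omega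
    exact_mod_cast this
  have hk0 : (0 : ℝ) ≤ k := Nat.cast_nonneg k
  -- the real numbers
  obtain ⟨N, hNdef⟩ : ∃ N : ℝ, N = (k : ℝ) + 1 := ⟨_, rfl⟩
  obtain ⟨D, hDdef⟩ : ∃ D : ℝ, D = (d : ℝ) + 1 := ⟨_, rfl⟩
  have hM : (k : ℝ) + d + 2 = N + D := by rw [hNdef, hDdef]; ring
  have hN : 0 < N := by rw [hNdef]; positivity
  have hMpos : 0 < (k : ℝ) + d + 2 := by positivity
  have hp1 : ((k : ℝ) + 1) ^ d = N ^ (d - 1) * N := by
    rw [hNdef, ← pow_succ]
    congr 1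
    omega
  have hp2 : ((k : ℝ) + 1) ^ (d + 1) = N ^ (d - 1) * N * N := by
    rw [pow_succ, hp1, hNdef]
  have hp : 0 < N ^ (d - 1) := by positivity
  have hup1 := hup k hk1 A hA
  have hup2 := hup k hk1 A' hA'
  have hV1 := hV k
  have hm1 := hmid k hk2 A hA
  have hm2 := hmid k hk2 A' hA'
  have hle1 : (A.card : ℝ) ≤ ((ups A).card : ℝ) := by exact_mod_cast card_le_ups hA
  have hle2 : (A'.card : ℝ) ≤ ((ups A').card : ℝ) := by exact_mod_cast card_le_ups hA'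
  have hW1 : (W d (k + 1) : ℝ) * ((k : ℝ) + 1) = W d k * ((k : ℝ) + d + 2) := by
    exact_mod_cast W_succ d k
  have hW2 : (W d k : ℝ) ≤ ((d + 2).factorial : ℝ) * ((V d k).card : ℝ) := by
    exact_mod_cast W_le_V d k
  rw [hp2] at hy1 hV1 hm1 hm2
  rw [hp1] at hm1 hm2
  rw [← hNdef, ← hDdef] at hup1 hup2 hm1 hm2
  rw [← hNdef] at hW1
  rw [← hDdef] at hcc hN₁ hN₃ hD
  have hfac : (0 : ℝ) < ((d + 2).factorial : ℝ) := by positivity
  have hpn : 0 < N ^ (d - 1) * N * N := by positivity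
  have hy0 : (0 : ℝ) < y := lt_of_lt_of_le (by positivity) hy1
  have hθ1 : 0 < 1 - θ := by
    by_contra hcon
    have h1 : (1 - θ) * (W d (k + 1) : ℝ) ≤ 0 :=
      mul_nonpos_of_nonpos_of_nonneg (by linarith) (Nat.cast_nonneg _)
    have h2 : (0 : ℝ) < ((d + 2).factorial : ℝ) * y := by positivity
    linarith
  -- `y N ≤ (1 - θ) v M`
  have hyv : (y : ℝ) * N ≤ (1 - θ) * (((V d k).card : ℝ) * ((k : ℝ) + d + 2)) := by
    have h1 : ((d + 2).factorial : ℝ) * y * N ≤ (1 - θ) * W d (k + 1) * N :=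
      mul_le_mul_of_nonneg_right hy2 hN.le
    have h2 : (1 - θ) * W d (k + 1) * N = (1 - θ) * (W d k * ((k : ℝ) + d + 2)) := by
      rw [mul_assoc, hW1]
    have h3 : (1 - θ) * (W d k * ((k : ℝ) + d + 2)) ≤
        (1 - θ) * (((d + 2).factorial : ℝ) * ((V d k).card : ℝ) * ((k : ℝ) + d + 2)) :=
      mul_le_mul_of_nonneg_left (mul_le_mul_of_nonneg_right hW2 hMpos.le) hθ1.le
    have h4 : ((d + 2).factorial : ℝ) * ((y : ℝ) * N) ≤
        ((d + 2).factorial : ℝ) * ((1 - θ) * (((V d k).card : ℝ) * ((k : ℝ) + d + 2))) := by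
      nlinarith
    exact le_of_mul_le_mul_left h4 hfac
  have hyD : (y : ℝ) * D / ((k : ℝ) + d + 2) ≤ (1 - θ) * (D / N * ((V d k).card : ℝ)) := by
    rw [div_le_iff₀ hMpos]
    have h1 : (1 - θ) * (D / N * ((V d k).card : ℝ)) * ((k : ℝ) + d + 2) =
        D * ((1 - θ) * (((V d k).card : ℝ) * ((k : ℝ) + d + 2))) / N := by
      field_simp
    rw [h1, le_div_iff₀ hN]
    nlinarith
  rw [hp1, ← hDdef]
  by_cases hr : (y : ℝ) * D / ((k : ℝ) + d + 2) + c * (N ^ (d - 1) * N) + A.card + A'.card ≤ y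
  · exact hr.trans (le_max_left _ _)
  push Not at hr
  refine le_trans ?_ (le_max_right _ _)
  have hDN : D ≤ N := by rw [hDdef, hNdef]; linarith
  -- thresholds
  have ht1 : D * c + C ≤ (c₁ - c) * N := by
    have h1 : 2 * (D * c + C) / c₁ ≤ N := by rw [hNdef]; linarith
    rw [div_le_iff₀ hc₁] at h1
    have h2 : c * N ≤ c₁ / 2 * N := mul_le_mul_of_nonneg_right hca hN.le
    nlinarith
  have ht2 : c ≤ η / 4 * N := by
    have h1 : 4 / η ≤ N := by rw [hNdef]; linarith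
    rw [div_le_iff₀ hη] at h1
    linarith
  have hDθ : 0 < D * θ * cV := by positivity
  have ht3 : D * ε * N + C + c * N ≤ θ * D * cV * N := by
    have h1 : 4 * C / (D * θ * cV) ≤ N := by rw [hNdef]; linarith
    rw [div_le_iff₀ hDθ] at h1
    have h2 : c * N ≤ D * θ * cV / 4 * N := mul_le_mul_of_nonneg_right hcc hN.le
    have h3 : D * ε * N ≤ D * (θ * cV / 2) * N :=
      mul_le_mul_of_nonneg_right (mul_le_mul_of_nonneg_left hε2 hD.le) hN.le
    nlinarith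
  by_cases hA1 : ε * (N ^ (d - 1) * N * N) ≤ A.card
  · by_cases hA2 : (A.card : ℝ) + ε * (N ^ (d - 1) * N * N) ≤ (V d k).card
    · exact case_one hN hD.le hM hp (hm1 hA1 hA2) hup2 hr ht1
    · push Not at hA2
      exact case_three hN hD.le hp hup1 hle2 hA2 hθ.le hyD hV1 ht3
  · push Not at hA1
    by_cases hB1 : ε * (N ^ (d - 1) * N * N) ≤ A'.card
    · have hr' : (y : ℝ) < y * D / ((k : ℝ) + d + 2) + c * (N ^ (d - 1) * N) + A'.card + A.card := by
        linarith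
      have hgoal : (y : ℝ) * D / ((k : ℝ) + d + 2) + c * (N ^ (d - 1) * N) + A'.card + A.card ≤
          (ups A').card + (ups A).card := by
        by_cases hB2 : (A'.card : ℝ) + ε * (N ^ (d - 1) * N * N) ≤ (V d k).card
        · exact case_one hN hD.le hM hp (hm2 hB1 hB2) hup1 hr' ht1
        · push Not at hB2
          exact case_three hN hD.le hp hup2 hle1 hB2 hθ.le hyD hV1 ht3
      linarith
    · push Not at hB1
      exact (case_two hN hD.le hM hDN hp hr hA1 hB1 hy1 hε1 hη ht2).elim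

end Pool.Agent.Helper43.SN
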