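import Pool.Agent.Helper43.SN.KillSmall
import Pool.Agent.Helper43.SN.KillRate

set_option autoImplicit false

/-!
# SN-15 KillAll: all links but a proportion `θ` can be killed

PROOF. WLOG `θ ≤ 1/2`. Choose `η > 0` so small that (`kill_small`, `V_pow`) `Kill d k y` holds for all
`k ≥ K₁` and `y ≤ η (k+1)^(d+1)`: with `t = ⌈η^(1/(d+1)) (k+1)⌉`, `K + M t ≤ k` if
`M η^(1/(d+1)) ≤ 1/2` and `k` is large (for instance `η = (1/(2M+2))^(d+1)`). Let `c`, `K₂` be from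
`kill_rate η θ`, `k₀` from `kp_empty`, and `c₁ > 0` with `c (k+1)^d - 1 ≥ c₁ W d k / (k+1)` for
`k ≥ K₃` (`W_hi`). `K₀ = max`. Claim: for all `k ≥ K₀` and all `y` with `(d+2)! y ≤ (1-θ) W d k` and
`y ≤ c₁ (∑ j ∈ Ico K₀ k, 1/(j+1)) * W d k`: `Kill d k y`. Induction on `k`: `k = K₀`: `y = 0`. Step `k → k+1`:
if `y ≤ η (k+1)^(d+1)` use `kill_small` (at level `k+1`). Otherwise let
`r = ⌊y (d+1)/(k+d+2) + c (k+1)^d⌋` (`r ≤ y`: take `c` smaller or take the minimum with `y`; if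
`y - r = 0` the claim for `0` is fine). `kill_step` (`y ≤ |V (k+1)|` by `W_le_V`): need `Kill d k (y - r)`.
`y - r ≤ y (k+1)/(k+d+2) - c (k+1)^d + 1`, and `W d k = W d (k+1) (k+1)/(k+d+2)` (`W_succ`), so
`(y - r)/W d k ≤ y/W d (k+1) - c₁/(k+1)`: both hypotheses hold at level `k`. The harmonic sum diverges, so for
`k ≥ K` the second hypothesis follows from the first.
-/

namespace Pool.Agent.Helper43.SN

open Finset Pool.Agent.Helper46.MR

namespace KillAllAux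

theorem W_pos (d k : ℕ) : (0 : ℝ) < W d k := by
  have h := W_lo d k
  have h1 : 0 < (k + 1) ^ (d + 1) := by positivity
  have h2 : 0 < W d k := by
    by_contra h3
    have : W d k = 0 := by omega
    rw [this, mul_zero] at h
    omega
  exact_mod_cast h2

theorem W_mul (d k : ℕ) : (W d k : ℝ) = W d (k + 1) * (((k : ℝ) + 1) / ((k : ℝ) + d + 2)) := by
  have h : ((W d (k + 1) * (k + 1) : ℕ) : ℝ) = ((W d k * (k + d + 2) : ℕ) : ℝ) := by
    rw [W_succ]
  push_cast at h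
  have h1 : (0 : ℝ) < (k : ℝ) + d + 2 := by positivity
  rw [mul_div_assoc', eq_div_iff h1.ne', h]

theorem W_up (d k : ℕ) : (W d k : ℝ) ≤ ((d : ℝ) + 1) ^ (d + 1) * ((k : ℝ) + 1) ^ (d + 1) := by
  have h : (W d k : ℝ) ≤ ((k : ℝ) + d + 1) ^ (d + 1) := by exact_mod_cast W_hi d k
  refine h.trans ?_
  rw [← mul_pow]
  refine pow_le_pow_left₀ (by positivity) ?_ _
  have h1 : (0 : ℝ) ≤ (d : ℝ) * k := by positivity
  nlinarith

/-- the small case -/
theorem small {d M K₁ k y : ℕ} (hK : ∀ t k y : ℕ, y ≤ t ^ (d + 1) → K₁ + M * t ≤ k → Kill d k y)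
    (hk : 2 * (K₁ + M) ≤ k) (hy : (y : ℝ) ≤ (1 / (2 * (M : ℝ) + 2)) ^ (d + 1) * ((k : ℝ) + 1) ^ (d + 1)) :
    Kill d (k + 1) y := by
  obtain ⟨q, hq⟩ : ∃ q, q = (k + 1) / (2 * M + 2) := ⟨_, rfl⟩
  have h1 : q * (2 * M + 2) ≤ k + 1 := by rw [hq]; exact Nat.div_mul_le_self _ _
  have h2 : k + 1 < (q + 1) * (2 * M + 2) := by
    rw [hq, add_mul, one_mul]
    exact Nat.lt_div_mul_add (by omega)
  refine hK (q + 1) (k + 1) y ?_ ?_
  · have h3 : (1 / (2 * (M : ℝ) + 2)) * ((k : ℝ) + 1) ≤ (q : ℝ) + 1 := by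
      rw [one_div_mul_eq_div, div_le_iff₀ (by positivity)]
      exact_mod_cast h2.le
    have h4 : (y : ℝ) ≤ ((q : ℝ) + 1) ^ (d + 1) := by
      refine hy.trans ?_
      rw [← mul_pow]
      exact pow_le_pow_left₀ (by positivity) h3 _
    exact_mod_cast h4
  · have h5 : 2 * (M * q) ≤ k + 1 := by
      calc 2 * (M * q) ≤ q * (2 * M + 2) := by nlinarith
        _ ≤ k + 1 := h1
    rw [mul_add, mul_one]
    omega

/-- the arithmetic of one step -/
theorem arith {d k : ℕ} {c c₁ θ y y' w w' F H : ℝ} (hc₁ : c₁ * w ≤ (c * ((k : ℝ) + 1) ^ d - 1) * (k + 1))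
    (hc : 1 ≤ c * ((k : ℝ) + 1) ^ d) (hF : 0 ≤ F)
    (hw : w = w' * (((k : ℝ) + 1) / ((k : ℝ) + d + 2)))
    (hy' : y' ≤ y - (y * ((d : ℝ) + 1) / ((k : ℝ) + d + 2) + c * ((k : ℝ) + 1) ^ d) + 1)
    (h1 : F * y ≤ (1 - θ) * w') (h2 : y ≤ c₁ * (H + 1 / ((k : ℝ) + 1)) * w') :
    F * y' ≤ (1 - θ) * w ∧ y' ≤ c₁ * H * w := by
  have hp : (0 : ℝ) < (k : ℝ) + d + 2 := by positivity
  have hk : (0 : ℝ) < (k : ℝ) + 1 := by positivity
  have hρ : 0 ≤ ((k : ℝ) + 1) / ((k : ℝ) + d + 2) := by positivity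
  have e : y - y * ((d : ℝ) + 1) / ((k : ℝ) + d + 2) = y * (((k : ℝ) + 1) / ((k : ℝ) + d + 2)) := by
    field_simp
    ring
  have h3 : y' ≤ y * (((k : ℝ) + 1) / ((k : ℝ) + d + 2)) - (c * ((k : ℝ) + 1) ^ d - 1) := by
    linarith
  constructor
  · have h4 : y' ≤ y * (((k : ℝ) + 1) / ((k : ℝ) + d + 2)) := by linarith
    calc F * y' ≤ F * (y * (((k : ℝ) + 1) / ((k : ℝ) + d + 2))) := mul_le_mul_of_nonneg_left h4 hF
      _ = (F * y) * (((k : ℝ) + 1) / ((k : ℝ) + d + 2)) := by ring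
      _ ≤ ((1 - θ) * w') * (((k : ℝ) + 1) / ((k : ℝ) + d + 2)) := mul_le_mul_of_nonneg_right h1 hρ
      _ = (1 - θ) * w := by rw [hw]; ring
  · have h5 : y * (((k : ℝ) + 1) / ((k : ℝ) + d + 2)) ≤ c₁ * (H + 1 / ((k : ℝ) + 1)) * w := by
      calc y * (((k : ℝ) + 1) / ((k : ℝ) + d + 2))
          ≤ (c₁ * (H + 1 / ((k : ℝ) + 1)) * w') * (((k : ℝ) + 1) / ((k : ℝ) + d + 2)) :=
            mul_le_mul_of_nonneg_right h2 hρ
        _ = c₁ * (H + 1 / ((k : ℝ) + 1)) * w := by rw [hw]; ring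
    have h6 : c₁ * w / ((k : ℝ) + 1) ≤ c * ((k : ℝ) + 1) ^ d - 1 := by
      rw [div_le_iff₀ hk]
      exact hc₁
    have h7 : c₁ * (H + 1 / ((k : ℝ) + 1)) * w = c₁ * H * w + c₁ * w / ((k : ℝ) + 1) := by
      field_simp
    linarith

end KillAllAux

open KillAllAux in
theorem kill_all (d : ℕ) (hd : 3 ≤ d) (θ : ℝ) (hθ : 0 < θ) : ∃ K : ℕ, ∀ k : ℕ, K ≤ k →
    ∀ y : ℕ, ((d + 2).factorial : ℝ) * y ≤ (1 - θ) * W d k → Kill d k y := by
  obtain ⟨M, K₁, hK₁⟩ := kill_small d hd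
  obtain ⟨η, hη⟩ : ∃ η : ℝ, η = (1 / (2 * (M : ℝ) + 2)) ^ (d + 1) := ⟨_, rfl⟩
  have hη0 : 0 < η := by rw [hη]; positivity
  obtain ⟨c, K₂, hc, hrate⟩ := kill_rate d (by omega) η θ hη0 hθ
  obtain ⟨k₀, hk₀⟩ := kp_empty d (by omega)
  obtain ⟨D, hD⟩ : ∃ D : ℝ, D = ((d : ℝ) + 1) ^ (d + 1) := ⟨_, rfl⟩
  have hD0 : 0 < D := by rw [hD]; positivity
  obtain ⟨c₁, hc₁⟩ : ∃ c₁ : ℝ, c₁ = c / (2 * D) := ⟨_, rfl⟩
  have hc₁0 : 0 < c₁ := by rw [hc₁]; positivity
  obtain ⟨K₃, hK₃⟩ := exists_nat_gt (2 / c)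
  obtain ⟨K₀, hK₀⟩ : ∃ K₀, K₀ = 2 * (K₁ + M) + K₂ + k₀ + K₃ := ⟨_, rfl⟩
  have hF : (1 : ℝ) ≤ ((d + 2).factorial : ℝ) := by
    exact_mod_cast Nat.succ_le_of_lt (Nat.factorial_pos (d + 2))
  -- the main claim
  have main : ∀ n : ℕ, ∀ y : ℕ, ((d + 2).factorial : ℝ) * y ≤ (1 - θ) * W d (K₀ + n) →
      (y : ℝ) ≤ c₁ * (∑ j ∈ range n, 1 / (((K₀ + j : ℕ) : ℝ) + 1)) * W d (K₀ + n) →
      Kill d (K₀ + n) y := by
    intro n
    induction n with
    | zero =>
      intro y _ h2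
      have h3 : (y : ℝ) ≤ 0 := by simpa using h2
      have h4 : y = 0 := by
        have : y ≤ 0 := by exact_mod_cast h3
        omega
      subst h4
      exact hK₁ 0 _ 0 (by positivity) (by omega)
    | succ n ih =>
      intro y h1 h2
      rw [← add_assoc] at h1 h2 ⊢
      obtain ⟨k, hk⟩ : ∃ k, k = K₀ + n := ⟨_, rfl⟩
      rw [← hk] at ih h1 h2 ⊢
      rw [sum_range_succ, ← hk] at h2
      by_cases hy : (y : ℝ) ≤ η * ((k : ℝ) + 1) ^ (d + 1)
      · refine small hK₁ (by omega) ?_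
        rw [← hη]
        exact hy
      push Not at hy
      have hr := hrate k (by omega) y hy.le h1
      have hWp := W_pos d (k + 1)
      have h1θ : 0 ≤ 1 - θ := by
        by_contra hneg
        push Not at hneg
        have h3 : (1 - θ) * (W d (k + 1) : ℝ) < 0 := mul_neg_of_neg_of_pos hneg hWp
        have h4 : (0 : ℝ) ≤ ((d + 2).factorial : ℝ) * y := by positivity
        linarith
      have hyV : y ≤ (V d (k + 1)).card := by
        have h3 : ((d + 2).factorial : ℝ) * y ≤ ((d + 2).factorial : ℝ) * (V d (k + 1)).card := by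
          have h4 : (W d (k + 1) : ℝ) ≤ ((d + 2).factorial : ℝ) * (V d (k + 1)).card := by
            exact_mod_cast W_le_V d (k + 1)
          have h5 : (1 - θ) * (W d (k + 1) : ℝ) ≤ W d (k + 1) := by nlinarith
          linarith
        have h6 : (0 : ℝ) < ((d + 2).factorial : ℝ) := by linarith
        exact_mod_cast le_of_mul_le_mul_left h3 h6
      obtain ⟨s, hs⟩ : ∃ s : ℝ, s = (y : ℝ) * ((d : ℝ) + 1) / ((k : ℝ) + d + 2) +
          c * ((k : ℝ) + 1) ^ d := ⟨_, rfl⟩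
      have hs0 : 0 ≤ s := by rw [hs]; positivity
      have hrs : ((min y ⌊s⌋₊ : ℕ) : ℝ) ≤ s :=
        (Nat.cast_le.2 (min_le_right _ _)).trans (Nat.floor_le hs0)
      refine kill_step (r := min y ⌊s⌋₊) (hk₀ k (by omega)) hyV (min_le_left _ _) ?_ ?_
      · intro A hA A' hA'
        have h3 := hr A hA A' hA'
        rw [← hs] at h3
        have h4 : ((min y ⌊s⌋₊ : ℕ) : ℝ) + A.card + A'.card ≤
            max (y : ℝ) ((ups A).card + (ups A').card) := by linarith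
        exact_mod_cast h4
      · rcases le_or_gt y ⌊s⌋₊ with hle | hgt
        · rw [min_eq_left hle, Nat.sub_self]
          apply ih
          · rw [Nat.cast_zero, mul_zero]
            exact mul_nonneg h1θ (W_pos d k).le
          · rw [Nat.cast_zero]
            have := (W_pos d k).le
            positivity
        · rw [min_eq_right hgt.le]
          have hk1 : (1 : ℝ) ≤ (k : ℝ) + 1 := by
            have : (0 : ℝ) ≤ k := by positivity
            linarith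
          have hpow : (k : ℝ) + 1 ≤ ((k : ℝ) + 1) ^ d := by
            calc (k : ℝ) + 1 = ((k : ℝ) + 1) ^ 1 := (pow_one _).symm
              _ ≤ ((k : ℝ) + 1) ^ d := pow_le_pow_right₀ hk1 (by omega)
          have hbig : 2 ≤ c * ((k : ℝ) + 1) ^ d := by
            have h3 : (K₃ : ℝ) ≤ (k : ℝ) + 1 := by
              have : K₃ ≤ k + 1 := by omega
              exact_mod_cast this
            have h4 : 2 / c ≤ ((k : ℝ) + 1) ^ d := by linarith
            rw [div_le_iff₀ hc] at h4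
            linarith
          have hcast : ((y - ⌊s⌋₊ : ℕ) : ℝ) ≤ (y : ℝ) - ((y : ℝ) * ((d : ℝ) + 1) /
              ((k : ℝ) + d + 2) + c * ((k : ℝ) + 1) ^ d) + 1 := by
            rw [← hs, Nat.cast_sub hgt.le]
            have := Nat.lt_floor_add_one s
            linarith
          have hcc : c₁ * (W d k : ℝ) ≤ (c * ((k : ℝ) + 1) ^ d - 1) * (k + 1) := by
            have h3 := W_up d k
            rw [← hD] at h3
            have h4 : c₁ * (W d k : ℝ) ≤ c₁ * (D * ((k : ℝ) + 1) ^ (d + 1)) :=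
              mul_le_mul_of_nonneg_left h3 hc₁0.le
            have h5 : c₁ * (D * ((k : ℝ) + 1) ^ (d + 1)) = c / 2 * ((k : ℝ) + 1) ^ d * (k + 1) := by
              rw [hc₁, pow_succ]
              field_simp
            rw [h5] at h4
            refine h4.trans ?_
            apply mul_le_mul_of_nonneg_right _ (by positivity)
            linarith
          obtain ⟨h3, h4⟩ := arith hcc (by linarith) (by linarith) (W_mul d k) hcast h1 h2
          exact ih _ h3 h4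
  -- the harmonic sum
  have hdiv := Real.tendsto_sum_range_one_div_nat_succ_atTop
  obtain ⟨N, hN⟩ := (Filter.tendsto_atTop.1 hdiv
    (1 / c₁ + ∑ i ∈ range K₀, (1 / ((i : ℝ) + 1)))).exists_forall_of_atTop
  refine ⟨K₀ + N, fun k hk y hy => ?_⟩
  obtain ⟨n, rfl⟩ : ∃ n, k = K₀ + n := ⟨k - K₀, by omega⟩
  refine main n y hy ?_
  have h1 := hN (K₀ + n) (by omega)
  rw [sum_range_add] at h1
  have h2 : 1 / c₁ ≤ ∑ j ∈ range n, 1 / (((K₀ + j : ℕ) : ℝ) + 1) := by linarith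
  have h3 : 1 ≤ c₁ * ∑ j ∈ range n, 1 / (((K₀ + j : ℕ) : ℝ) + 1) := by
    rw [div_le_iff₀ hc₁0] at h2
    linarith
  have hWp := W_pos d (K₀ + n)
  have h4 : (y : ℝ) ≤ W d (K₀ + n) := by
    have h5 : (y : ℝ) ≤ ((d + 2).factorial : ℝ) * y := by
      have : (0 : ℝ) ≤ y := by positivity
      nlinarith
    have h6 : (1 - θ) * (W d (K₀ + n) : ℝ) ≤ W d (K₀ + n) := by nlinarith
    linarith
  nlinarith

end Pool.Agent.Helper43.SN
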