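import Pool.Agent.Helper43.SN.Basic

set_option autoImplicit false

/-!
# SN-12 KillBase: both signs at every level `k ≥ 4`

PROOF. `Ext d k 1` by `f = g = shl`, `π' = 1`. `kill_zero`: `e = 1`: `ρ = 1`. `e = -1`: `k = k' + 1`; let `y`, `y'`
be two different elements of `V d k` with `gp = 0` (`y_1 = y_2`): for even `k` `(k/2, k/2, 0, ..)` and
`(k/2 - 1, k/2 - 1, 1, 1, 0, ..)`, for odd `k ≥ 5` `((k-1)/2, (k-1)/2, 1, 0, ..)` and
`((k-3)/2, (k-3)/2, 1, 1, 1, 0, ..)` (parts in decreasing order; `m = d + 2 ≥ 5` parts). They are not of the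
form `shl x`, so `swap y y'` fixes all `shl x` and `Ext d k (swap y y')` by `f = g = shl`, `π' = 1`.
-/

namespace Pool.Agent.Helper43.SN

open Finset Pool.Agent.Helper46.MR

variable {d k : ℕ}

namespace KillBaseAux

/-- raising the largest part as an embedding of the levels -/
def shlE (d k : ℕ) : Vt d k ↪ Vt d (k + 1) where
  toFun x := ⟨shl x.1, shl_mem x.2⟩
  inj' _ _ h := Subtype.ext (shl_inj (congrArg Subtype.val h))

theorem le_shl (x : Fin (d + 2) → ℕ) : x ≤ shl x := by
  intro j
  unfold shl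
  rw [add_single_ap]
  split_ifs
  · exact Nat.le_succ _
  · exact le_rfl

/-- the element with the parts `A, A, B, C, D, 0, ...` -/
def par (e A B C D : ℕ) (i : Fin (e + 3 + 2)) : ℕ :=
  if i.val < e then 0 else if i.val = e then D else if i.val = e + 1 then C
    else if i.val = e + 2 then B else A

theorem par_mono {e A B C D : ℕ} (h1 : B ≤ A) (h2 : C ≤ B) (h3 : D ≤ C) :
    Monotone (par e A B C D) := by
  intro i j hij
  have h : i.val ≤ j.val := hij
  unfold par
  split_ifs <;> omega

theorem par_sum (e A B C D : ℕ) : ∑ i, par e A B C D i = 2 * A + B + C + D := by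
  rw [Fin.sum_univ_castSucc, Fin.sum_univ_castSucc, Fin.sum_univ_castSucc,
    Fin.sum_univ_castSucc, Fin.sum_univ_castSucc]
  have h0 : ∀ i : Fin e, par e A B C D
      (Fin.castSucc (Fin.castSucc (Fin.castSucc (Fin.castSucc (Fin.castSucc i))))) = 0 := by
    intro i
    unfold par
    simp only [Fin.val_castSucc]
    rw [if_pos i.isLt]
  rw [sum_congr rfl fun i _ => h0 i]
  simp only [par, Fin.val_castSucc, Fin.val_last, sum_const_zero]
  have e1 : ¬ e < e := lt_irrefl e
  have e2 : ¬ e + 1 < e := by omega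
  have e3 : ¬ e + 2 < e := by omega
  have e4 : ¬ e + 3 < e := by omega
  have e5 : ¬ e + 3 + 1 < e := by omega
  have f2 : ¬ e + 1 = e := by omega
  have f3 : ¬ e + 2 = e := by omega
  have f4 : ¬ e + 3 = e := by omega
  have f5 : ¬ e + 3 + 1 = e := by omega
  have g3 : ¬ e + 2 = e + 1 := by omega
  have g4 : ¬ e + 3 = e + 1 := by omega
  have g5 : ¬ e + 3 + 1 = e + 1 := by omega
  have i4 : ¬ e + 3 = e + 2 := by omega
  have i5 : ¬ e + 3 + 1 = e + 2 := by omega
  simp only [if_neg e1, if_neg e2, if_neg e3, if_neg e4, if_neg e5, if_neg f2, if_neg f3,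
    if_neg f4, if_neg f5, if_neg g3, if_neg g4, if_neg g5, if_neg i4, if_neg i5, if_true]
  ring

theorem par_last (e A B C D : ℕ) : par e A B C D (Fin.last (e + 3 + 1)) = A := by
  unfold par
  simp only [Fin.val_last]
  split_ifs <;> omega

theorem par_snd (e A B C D : ℕ) : par e A B C D (Fin.last (e + 3)).castSucc = A := by
  unfold par
  simp only [Fin.val_castSucc, Fin.val_last]
  split_ifs <;> omega

/-- an element whose two largest parts agree is not in the image of `shl` -/
theorem ne_shl {x y : Fin (d + 2) → ℕ} (hx : Monotone x)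
    (hy : y (Fin.last (d + 1)) = y (Fin.last d).castSucc) : shl x ≠ y := by
  intro h
  have h1 : shl x (Fin.last (d + 1)) = x (Fin.last (d + 1)) + 1 := by
    unfold shl
    rw [add_single_ap, if_pos rfl]
  have h2 : shl x (Fin.last d).castSucc = x (Fin.last d).castSucc := by
    unfold shl
    rw [add_single_ap, if_neg (Fin.castSucc_lt_last _).ne]
  have h3 : x (Fin.last d).castSucc ≤ x (Fin.last (d + 1)) := hx (Fin.le_last _)
  rw [h] at h1 h2
  omega

/-- two different elements with equal largest parts -/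
theorem exists_two (hd : 3 ≤ d) (hk : 4 ≤ k) : ∃ y y' : Vt d k, y ≠ y' ∧
    y.1 (Fin.last (d + 1)) = y.1 (Fin.last d).castSucc ∧
    y'.1 (Fin.last (d + 1)) = y'.1 (Fin.last d).castSucc := by
  obtain ⟨e, rfl⟩ : ∃ e, d = e + 3 := ⟨d - 3, by omega⟩
  rcases Nat.even_or_odd' k with ⟨a, rfl | rfl⟩
  · refine ⟨⟨par e a 0 0 0, mem_V.2 ⟨par_mono (by omega) (by omega) (by omega), ?_⟩⟩,
      ⟨par e (a - 1) 1 1 0, mem_V.2 ⟨par_mono (by omega) (by omega) (by omega), ?_⟩⟩, ?_, ?_, ?_⟩
    · rw [par_sum]; omega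
    · rw [par_sum]; omega
    · intro h
      have h1 := congrFun (congrArg Subtype.val h) (Fin.last (e + 3 + 1))
      simp only [par_last] at h1
      omega
    · simp only [par_last, par_snd]
    · simp only [par_last, par_snd]
  · refine ⟨⟨par e a 1 0 0, mem_V.2 ⟨par_mono (by omega) (by omega) (by omega), ?_⟩⟩,
      ⟨par e (a - 1) 1 1 1, mem_V.2 ⟨par_mono (by omega) (by omega) (by omega), ?_⟩⟩, ?_, ?_, ?_⟩
    · rw [par_sum]
    · rw [par_sum]; omega
    · intro h
      have h1 := congrFun (congrArg Subtype.val h) (Fin.last (e + 3 + 1))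
      simp only [par_last] at h1
      omega
    · simp only [par_last, par_snd]
    · simp only [par_last, par_snd]

end KillBaseAux

open KillBaseAux

theorem ext_one : ∀ k : ℕ, Ext d k 1 := by
  intro k
  induction k with
  | zero => trivial
  | succ k ih =>
    exact ⟨shlE d k, shlE d k, 1, fun x => le_shl x.1, fun x => le_shl x.1, fun x => rfl, ih⟩

theorem kill_zero (hd : 3 ≤ d) (hk : 4 ≤ k) : Kill d k 0 := by
  classical
  intro Y hY π e
  have hY0 : Y = ∅ := by
    rw [← card_eq_zero]
    omega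
  subst hY0
  rcases Int.units_eq_one_or e with rfl | rfl
  · exact ⟨1, fun v hv => absurd hv (notMem_empty v), Equiv.Perm.sign_one, ext_one k⟩
  · obtain ⟨y, y', hne, hy, hy'⟩ := exists_two hd hk
    refine ⟨Equiv.swap y y', fun v hv => absurd hv (notMem_empty v), ?_, ?_⟩
    · rw [Equiv.Perm.sign_swap']
      rw [if_neg hne]
    · obtain ⟨k', rfl⟩ : ∃ k', k = k' + 1 := ⟨k - 1, by omega⟩
      refine ⟨shlE d k', shlE d k', 1, fun x => le_shl x.1, fun x => le_shl x.1, fun x => ?_,
        ext_one k'⟩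
      have hm : Monotone x.1 := (mem_V.1 x.2).1
      refine Equiv.swap_apply_of_ne_of_ne ?_ ?_
      · intro h
        exact ne_shl hm hy (congrArg Subtype.val h)
      · intro h
        exact ne_shl hm hy' (congrArg Subtype.val h)

end Pool.Agent.Helper43.SN
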