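import Pool.Agent.Helper43.SN.Basic
import Pool.Agent.Helper84.SN.HallStep

set_option autoImplicit false

/-!
# SN-11 KillStep: `Kill d k (y - r) → Kill d (k+1) y`

PROOF. Let `Y ⊆ V (k+1)`, `|Y| ≤ y`; enlarge `Y` to `|Y| = y` (`y ≤ |V (k+1)|`). By Hall
(`Pool.Agent.Helper84.SN.hall_step` with `P1 = P2 = V k`, `Q1 = Q2 = V (k+1)`, `Y`, `Y' = π Y`, `e = π`,
relation `≤`; note that `r + |V k| ≤ |V (k+1)|` follows from `hr` with `A = V k`, `A' = ∅` and `hy`) there
are injections `F, G : V k → V (k+1)`, `x ≤ F x`, `x ≤ G x`, such that for `v ∈ Y`: `v ∈ range F` iff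
`π v ∈ range G`, and at most `y - r` elements of `Y` are in `range F`. Let `Y₀ = F⁻¹ (Y)`, `|Y₀| ≤ y - r`,
`π₀` a permutation of `V k` with `G (π₀ x) = π (F x)` for `x ∈ Y₀` (exists: injective map on a subset of a
finite set), and `τ` a bijection `V (k+1) \ range F → V (k+1) \ range G` which agrees with `π` on
`Y \ range F`. For every `ρ₀ : Perm (V k)` let `Φ ρ₀` be the permutation of `V (k+1)` with
`Φ ρ₀ (F x) = G (ρ₀ x)`, and `= τ` off `range F`. Then `Φ (ρ₀ * σ) = Φ ρ₀ * (F σ F⁻¹)`, so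
`sign (Φ ρ₀) = sign ρ₀ * κ` with a constant `κ`. Apply `Kill d k (y - r)` to `Y₀`, `π₀`, `e * κ`.
-/

namespace Pool.Agent.Helper43.SN

open Finset Pool.Agent.Helper46.MR

variable {d k : ℕ}

namespace KillStepAux

/-- extension of an injection to a bijection with the complement of the range -/
noncomputable def sumE {α β : Type*} (F : α ↪ β) : α ⊕ ((Set.range F)ᶜ : Set β) ≃ β :=
  open Classical in
  (Equiv.sumCongr (Equiv.ofInjective F F.injective) (Equiv.refl _)).trans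
    (Equiv.Set.sumCompl (Set.range F))

theorem sumE_inl {α β : Type*} (F : α ↪ β) (x : α) : sumE F (Sum.inl x) = F x := by
  classical
  simp [sumE]

theorem sumE_inr {α β : Type*} (F : α ↪ β) (x : ((Set.range F)ᶜ : Set β)) :
    sumE F (Sum.inr x) = x.1 := by
  classical
  simp [sumE]

theorem abs_perm {α β : Type*} [Fintype α] [DecidableEq α] [Fintype β] [DecidableEq β]
    (F G : α ↪ β) (π : Equiv.Perm β) (Y : Finset β)
    (hY : ∀ y ∈ Y, y ∈ Set.range F ↔ π y ∈ Set.range G) :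
    ∃ (π₀ : Equiv.Perm α) (κ : ℤˣ), ∀ ρ₀ : Equiv.Perm α, (∀ x, F x ∈ Y → ρ₀ x = π₀ x) →
      ∃ ρ : Equiv.Perm β, (∀ x, ρ (F x) = G (ρ₀ x)) ∧ (∀ v ∈ Y, ρ v = π v) ∧
        Equiv.Perm.sign ρ = Equiv.Perm.sign ρ₀ * κ := by
  classical
  -- the permutation of the lower level
  obtain ⟨g, hg⟩ := Finset.exists_equiv_extend_of_card_eq (α := α) (β := β)
    (t := univ.image G) (by rw [card_image_of_injective _ G.injective, card_univ])
    (s := univ.filter fun x => F x ∈ Y) (f := fun x => π (F x))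
    (by
      intro z hz
      obtain ⟨x, hx, rfl⟩ := mem_image.1 hz
      obtain ⟨w, hw⟩ := (hY _ (mem_filter.1 hx).2).1 ⟨x, rfl⟩
      exact mem_image.2 ⟨w, mem_univ _, hw⟩)
    (by
      intro x _ x' _ h
      exact F.injective (π.injective h))
  have hgG : ∀ x : α, ∃ w : α, G w = (g x : β) := by
    intro x
    obtain ⟨w, _, hw⟩ := mem_image.1 (g x).2
    exact ⟨w, hw⟩
  choose p hp using hgG
  have hpi : Function.Injective p := by
    intro x x' h
    have h1 := hp x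
    rw [h, hp x'] at h1
    exact (g.injective (Subtype.ext h1)).symm
  let π₀ : Equiv.Perm α := Equiv.ofBijective p (Finite.injective_iff_bijective.1 hpi)
  have hπ₀ : ∀ x, F x ∈ Y → G (π₀ x) = π (F x) := by
    intro x hx
    have h1 : G (π₀ x) = (g x : β) := hp x
    rw [h1]
    exact hg x (mem_filter.2 ⟨mem_univ _, hx⟩)
  -- the bijection of the complements
  obtain ⟨τ, hτ⟩ := Finset.exists_equiv_extend_of_card_eq (α := ((Set.range F)ᶜ : Set β)) (β := β)
    (t := univ \ univ.image G)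
    (by
      rw [card_sdiff_of_subset (subset_univ _), card_image_of_injective _ G.injective, card_univ,
        card_univ, Fintype.card_compl_set, Set.card_range_of_injective F.injective])
    (s := univ.filter fun x => x.1 ∈ Y) (f := fun x => π x.1)
    (by
      intro z hz
      obtain ⟨x, hx, rfl⟩ := mem_image.1 hz
      rw [mem_sdiff]
      refine ⟨mem_univ _, fun h => x.2 ?_⟩
      obtain ⟨w, _, hw⟩ := mem_image.1 h
      exact (hY _ (mem_filter.1 hx).2).2 ⟨w, hw⟩)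
    (by
      intro x _ x' _ h
      exact Subtype.ext (π.injective h))
  let τ' : ((Set.range F)ᶜ : Set β) ≃ ((Set.range G)ᶜ : Set β) :=
    τ.trans (Equiv.subtypeEquivRight (by
      intro x
      simp))
  have hτ' : ∀ x : ((Set.range F)ᶜ : Set β), x.1 ∈ Y → (τ' x : β) = π x.1 := by
    intro x hx
    exact hτ x (mem_filter.2 ⟨mem_univ _, hx⟩)
  let Φ : Equiv.Perm α → Equiv.Perm β := fun ρ₀ =>
    (sumE F).symm.trans ((Equiv.sumCongr ρ₀ τ').trans (sumE G))
  have hΦ : ∀ ρ₀, Φ ρ₀ = Φ 1 * (((sumE F).symm.trans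
      (Equiv.Perm.sumCongr ρ₀ (1 : Equiv.Perm ((Set.range F)ᶜ : Set β)))).trans (sumE F)) := by
    intro ρ₀
    ext b
    obtain ⟨z, rfl⟩ := (sumE F).surjective b
    rcases z with z | z <;> simp [Φ]
  refine ⟨π₀, Equiv.Perm.sign (Φ 1), fun ρ₀ hρ => ⟨Φ ρ₀, ?_, ?_, ?_⟩⟩
  · intro x
    have h1 : (sumE F).symm (F x) = Sum.inl x := by
      rw [Equiv.symm_apply_eq, sumE_inl]
    simp only [Φ, Equiv.trans_apply, h1, Equiv.sumCongr_apply, Sum.map_inl, sumE_inl]
  · intro v hv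
    obtain ⟨z, rfl⟩ := (sumE F).surjective v
    rcases z with z | z
    · rw [sumE_inl] at hv ⊢
      have h1 : (sumE F).symm (F z) = Sum.inl z := by
        rw [Equiv.symm_apply_eq, sumE_inl]
      simp only [Φ, Equiv.trans_apply, h1, Equiv.sumCongr_apply, Sum.map_inl, sumE_inl]
      rw [hρ z hv, hπ₀ z hv]
    · rw [sumE_inr] at hv ⊢
      have h1 : (sumE F).symm z.1 = Sum.inr z := by
        rw [Equiv.symm_apply_eq, sumE_inr]
      simp only [Φ, Equiv.trans_apply, h1, Equiv.sumCongr_apply, Sum.map_inr, sumE_inr]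
      exact hτ' z hv
  · rw [hΦ ρ₀, Equiv.Perm.sign_mul, Equiv.Perm.sign_symm_trans_trans, Equiv.Perm.sign_sumCongr,
      Equiv.Perm.sign_one, mul_one, mul_comm]

/-- the finset of vectors of a finset of elements of the level -/
abbrev vl {d k : ℕ} (A : Finset (Vt d k)) : Finset (Fin (d + 2) → ℕ) :=
  A.map (Function.Embedding.subtype _)

theorem vl_sub (A : Finset (Vt d k)) : vl A ⊆ V d k := by
  intro x hx
  obtain ⟨w, _, rfl⟩ := mem_map.1 hx
  exact w.2

theorem mem_vl {A : Finset (Vt d k)} (x : Vt d k) : x.1 ∈ vl A ↔ x ∈ A := by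
  constructor
  · intro h
    obtain ⟨w, hw, h⟩ := mem_map.1 h
    have : w = x := Subtype.ext h
    exact this ▸ hw
  · intro h
    exact mem_map.2 ⟨x, h, rfl⟩

theorem upS_eq (A : Finset (Vt d k)) :
    vl (Pool.Agent.Helper84.SN.upS (fun (x : Vt d k) (z : Vt d (k + 1)) => x.1 ≤ z.1) univ A) =
      ups (vl A) := by
  ext y
  constructor
  · intro hy
    obtain ⟨w, hw, rfl⟩ := mem_map.1 hy
    obtain ⟨_, x, hx, hxw⟩ := Pool.Agent.Helper84.SN.mem_upS.1 hw
    have h1 := (le_iff_ups x.2 w.2).1 hxw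
    exact ups_mono (singleton_subset_iff.2 ((mem_vl x).2 hx)) h1
  · intro hy
    have hyV := ups_subset (vl_sub A) hy
    obtain ⟨hm, x, hx, i, hi⟩ := mem_ups.1 hy
    obtain ⟨w, hw, rfl⟩ := mem_map.1 hx
    refine (mem_vl (⟨y, hyV⟩ : Vt d (k + 1))).2 (Pool.Agent.Helper84.SN.mem_upS.2
      ⟨mem_univ _, w, hw, ?_⟩)
    exact (le_iff_cover w.2 hyV).2 ⟨i, hi⟩

theorem loS_eq (D : Finset (Vt d (k + 1))) :
    vl (Pool.Agent.Helper84.SN.loS (fun (x : Vt d k) (z : Vt d (k + 1)) => x.1 ≤ z.1) univ D) =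
      lo (vl D) := by
  ext y
  constructor
  · intro hy
    obtain ⟨w, hw, rfl⟩ := mem_map.1 hy
    obtain ⟨_, z, hz, hwz⟩ := Pool.Agent.Helper84.SN.mem_loS.1 hw
    obtain ⟨i, hi⟩ := (le_iff_cover w.2 z.2).1 hwz
    refine mem_lo.2 ⟨(mem_V.1 w.2).1, i, ?_⟩
    have := (mem_vl z).2 hz
    rw [hi] at this
    exact this
  · intro hy
    have hyV := lo_sub (vl_sub D) hy
    obtain ⟨hm, i, hi⟩ := mem_lo.1 hy
    obtain ⟨w, hw, hwi⟩ := mem_map.1 hi
    refine (mem_vl (⟨y, hyV⟩ : Vt d k)).2 (Pool.Agent.Helper84.SN.mem_loS.2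
      ⟨mem_univ _, w, hw, ?_⟩)
    exact (le_iff_cover hyV w.2).2 ⟨i, hwi⟩

theorem V_nonempty (d k : ℕ) : (V d k).Nonempty := by
  induction k with
  | zero => exact ⟨0, mem_V.2 ⟨fun _ _ _ => le_rfl, by simp⟩⟩
  | succ k ih =>
    obtain ⟨x, hx⟩ := ih
    exact ⟨shl x, shl_mem hx⟩

end KillStepAux

open KillStepAux

theorem kill_mono {y y' : ℕ} (h : y ≤ y') (hK : Kill d k y') : Kill d k y := by
  intro Y hY π e
  exact hK Y (hY.trans h) π e

theorem kill_card {y : ℕ} (h : Kill d k (V d k).card) : Kill d k y := by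
  intro Y hY π e
  refine h Y ?_ π e
  have := card_le_univ Y
  rwa [Fintype.card_coe] at this

theorem kill_step {y r : ℕ} (hKP : KP d k ∅ ∅ ∅ ∅) (hy : y ≤ (V d (k + 1)).card) (hry : r ≤ y)
    (hr : ∀ A ⊆ V d k, ∀ A' ⊆ V d k,
      r + A.card + A'.card ≤ max y ((ups A).card + (ups A').card))
    (h : Kill d k (y - r)) : Kill d (k + 1) y := by
  classical
  intro Y0 hY0 π e
  obtain ⟨Y, hYY, hYc⟩ : ∃ Y : Finset (Vt d (k + 1)), Y0 ⊆ Y ∧ Y.card = y := by
    obtain ⟨t, h1, h2⟩ := Finset.exists_superset_card_eq (s := Y0) hY0 (by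
      rw [Fintype.card_coe]
      exact hy)
    exact ⟨t, h1, h2⟩
  suffices hs : ∃ ρ : Equiv.Perm (Vt d (k + 1)), (∀ v ∈ Y, ρ v = π v) ∧
      Equiv.Perm.sign ρ = e ∧ Ext d (k + 1) ρ by
    obtain ⟨ρ, h1, h2, h3⟩ := hs
    exact ⟨ρ, fun v hv => h1 v (hYY hv), h2, h3⟩
  have hne : Nonempty (Vt d (k + 1)) := by
    obtain ⟨x, hx⟩ := V_nonempty d (k + 1)
    exact ⟨⟨x, hx⟩⟩
  have hup : ∀ A : Finset (Vt d k), (Pool.Agent.Helper84.SN.upS
      (fun (x : Vt d k) (z : Vt d (k + 1)) => x.1 ≤ z.1) univ A).card = (ups (vl A)).card := by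
    intro A
    rw [← upS_eq, card_map]
  have hlo : ∀ D : Finset (Vt d (k + 1)), (Pool.Agent.Helper84.SN.loS
      (fun (x : Vt d k) (z : Vt d (k + 1)) => x.1 ≤ z.1) univ D).card = (lo (vl D)).card := by
    intro D
    rw [← loS_eq, card_map]
  obtain ⟨F, G, hF, hG, hFi, hGi, hFG, hcard⟩ := Pool.Agent.Helper84.SN.hall_step
    (R := fun (x : Vt d k) (z : Vt d (k + 1)) => x.1 ≤ z.1)
    (P1 := univ) (P2 := univ) (Q1 := univ) (Q2 := univ) (Y := Y) (Y' := Y.image π) (e := π)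
    (r := r) rfl rfl (subset_univ _) (subset_univ _)
    (by
      refine ⟨?_, π.injective.injOn, ?_⟩
      · intro z hz
        exact mem_coe.2 (mem_image_of_mem _ (mem_coe.1 hz))
      · intro z hz
        obtain ⟨w, hw, rfl⟩ := mem_image.1 (mem_coe.1 hz)
        exact ⟨w, mem_coe.2 hw, rfl⟩)
    (by
      intro A _ D _
      rw [hup, hlo, ← card_map (Function.Embedding.subtype _) (s := A),
        ← card_map (Function.Embedding.subtype _) (s := D)]
      have h1 := hKP (vl A) (by rw [sdiff_empty]; exact vl_sub A) (vl D)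
        (by rw [sdiff_empty]; exact vl_sub D)
      simpa only [sdiff_empty] using h1)
    (by
      intro _ A _ A' _
      rw [hup, hup, hYc, ← card_map (Function.Embedding.subtype _) (s := A),
        ← card_map (Function.Embedding.subtype _) (s := A')]
      exact hr (vl A) (vl_sub A) (vl A') (vl_sub A'))
    (by
      rw [card_univ, card_univ, Fintype.card_coe, Fintype.card_coe]
      have h1 := hr (V d k) Subset.rfl ∅ (empty_subset _)
      have h2 : ups (∅ : Finset (Fin (d + 2) → ℕ)) = ∅ := by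
        ext y
        simp [mem_ups]
      rw [h2, ups_V, card_empty] at h1
      rcases le_max_iff.1 h1 with h1 | h1 <;> omega)
  have hFinj : Function.Injective F := fun x x' hx => hFi (by simp) (by simp) hx
  have hGinj : Function.Injective G := fun x x' hx => hGi (by simp) (by simp) hx
  obtain ⟨π₀, κ, hκ⟩ := abs_perm (⟨F, hFinj⟩ : Vt d k ↪ Vt d (k + 1)) ⟨G, hGinj⟩ π Y (by
    intro v hv
    have h1 := hFG v hv
    simpa only [mem_image, mem_univ, true_and, Set.mem_range, Function.Embedding.coeFn_mk]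
      using h1)
  have hY₀ : (univ.filter fun x => F x ∈ Y).card ≤ y - r := by
    have h1 : (univ.filter fun x => F x ∈ Y).image F = univ.image F ∩ Y := by
      ext z
      simp only [mem_image, mem_filter, mem_univ, true_and, mem_inter]
      constructor
      · rintro ⟨x, hx, rfl⟩
        exact ⟨⟨x, rfl⟩, hx⟩
      · rintro ⟨⟨x, rfl⟩, hx⟩
        exact ⟨x, hx, rfl⟩
    have h2 : (univ.filter fun x => F x ∈ Y).card = (univ.image F ∩ Y).card := by
      rw [← h1, card_image_of_injective _ hFinj]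
    omega
  obtain ⟨ρ₀, h1, h2, h3⟩ := h (univ.filter fun x => F x ∈ Y) hY₀ π₀ (e * κ)
  obtain ⟨ρ, h4, h5, h6⟩ := hκ ρ₀ (fun x hx => h1 x (mem_filter.2 ⟨mem_univ _, hx⟩))
  refine ⟨ρ, h5, ?_, ?_⟩
  · rw [h6, h2, mul_assoc, Int.units_mul_self, mul_one]
  · refine ⟨⟨F, hFinj⟩, ⟨G, hGinj⟩, ρ₀, ?_, ?_, h4, h3⟩
    · intro x
      exact (hF x (mem_univ _)).2
    · intro x
      exact (hG x (mem_univ _)).2

end Pool.Agent.Helper43.SN
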