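import Pool.Agent.Helper43.SN.Basic
import Pool.Agent.Helper46.MR.BurnIneq
import Pool.Agent.Helper46.MR.SgFacts

set_option autoImplicit false

/-!
# SN-3 Size: the sizes of the levels

`W d k = C(k+d+1, d+1)` is the size of the level `k` of the cube (`lev (d+2) n k`, `k ≤ n`,
`SgFacts.lev_low`), `|V d k|` is about `W d k / (d+2)!`.

HINTS. `sy n k (P m n k) = Q m n k` (`SymAux.sy_P`), `sy_card_le`, `le_sy_card` (in `BurnIneq`),
with `n = k`. `V_pow`: `y ↦ Fin.init y` is injective on `V d k` (`el_init`), with values in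
`Fin (d+1) → range (k+1)`. `W_lo`: `C(k+d+1,d+1) (d+1)! = (k+1)(k+2)..(k+d+1)`
(`Nat.ascFactorial`/`Nat.pow_succ_le_ascFactorial`).
-/

namespace Pool.Agent.Helper43.SN

open Finset Pool.Agent.Helper46.MR

/-- size of the level `k` of the cube with `d + 2` coordinates -/
def W (d k : ℕ) : ℕ := (k + d + 1).choose (d + 1)

theorem W_zero (d : ℕ) : W d 0 = 1 := by
  unfold W
  rw [Nat.zero_add, Nat.choose_self]

theorem W_succ (d k : ℕ) : W d (k + 1) * (k + 1) = W d k * (k + d + 2) := by
  unfold W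
  have h := Nat.add_one_mul_choose_eq (k + d + 1) k
  have e1 : (k + 1 + d + 1).choose (d + 1) = (k + d + 1 + 1).choose (k + 1) := by
    rw [show k + 1 + d + 1 = k + d + 1 + 1 by ring]
    exact Nat.choose_symm_of_eq_add (by ring)
  have e2 : (k + d + 1).choose (d + 1) = (k + d + 1).choose k :=
    Nat.choose_symm_of_eq_add (by ring)
  rw [e1, e2, ← h]
  ring

theorem W_lo (d k : ℕ) : (k + 1) ^ (d + 1) ≤ (d + 1).factorial * W d k := by
  unfold W
  have h := Nat.pow_succ_le_ascFactorial (k + 1) (d + 1)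
  rw [Nat.ascFactorial_eq_factorial_mul_choose] at h
  rw [show k + d + 1 = k + (d + 1) by ring]
  exact h

theorem W_hi (d k : ℕ) : W d k ≤ (k + d + 1) ^ (d + 1) := by
  unfold W
  exact Nat.choose_le_pow _ _

/-- the level of the cube -/
private theorem card_Q_eq (d k : ℕ) : (Q (d + 2) k k).card = W d k := by
  rw [card_Q]
  unfold W
  exact lev_low (b := d + 1) le_rfl

/-- the symmetrised level -/
private theorem sy_P (m n k : ℕ) : sy n k (P m n k) = Q m n k := by
  refine Subset.antisymm (sy_subset _) fun x hx => ?_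
  refine SymAux.mem_sy.2 ⟨hx, Tuple.sort x, ?_⟩
  obtain ⟨h1, h2⟩ := mem_Q.1 (SymAux.comp_mem_Q hx (Tuple.sort x))
  exact mem_P.2 ⟨Tuple.monotone_sort x, h1, h2⟩

theorem W_le_V (d k : ℕ) : W d k ≤ (d + 2).factorial * (V d k).card := by
  have h := sy_card_le (m := d + 2) (n := k) (k := k) (A := P (d + 2) k k) Subset.rfl
  rw [sy_P, card_Q_eq] at h
  exact h

theorem V_le_W (d k : ℕ) :
    (d + 2).factorial * (V d k).card ≤ W d k + (d + 2).factorial * (k + 1) ^ d := by
  have h := le_sy_card (m := d + 2) (n := k) (k := k) (by omega) (A := P (d + 2) k k) Subset.rfl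
  rw [sy_P, card_Q_eq] at h
  exact h

theorem V_pow (d k : ℕ) : (V d k).card ≤ (k + 1) ^ (d + 1) := by
  classical
  have h1 : (V d k).card ≤ (Fintype.piFinset fun _ : Fin (d + 1) => range (k + 1)).card := by
    refine card_le_card_of_injOn (fun y => Fin.init y) ?_ ?_
    · intro y hy
      rw [mem_coe, Fintype.mem_piFinset]
      intro i
      rw [mem_range]
      have h2 := (mem_V.1 (mem_coe.1 hy)).2
      have h3 : y i.castSucc ≤ ∑ j, y j :=
        single_le_sum (f := y) (fun _ _ => Nat.zero_le _) (mem_univ _)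
      have h4 : y i.castSucc < k + 1 := by omega
      exact h4
    · intro y hy y' hy' h
      rw [← el_init (mem_coe.1 hy), ← el_init (mem_coe.1 hy')]
      exact congrArg (el k) h
  rw [Fintype.card_piFinset] at h1
  simpa using h1

/-- `|V d k| ≥ c (k+1)^(d+1)` -/
theorem V_lo (d : ℕ) : ∃ c : ℝ, 0 < c ∧ ∀ k : ℕ, c * ((k : ℝ) + 1) ^ (d + 1) ≤ (V d k).card := by
  have hp : (0 : ℝ) < ((d + 1).factorial : ℝ) * ((d + 2).factorial : ℝ) := by positivity
  refine ⟨1 / (((d + 1).factorial : ℝ) * ((d + 2).factorial : ℝ)), by positivity, fun k => ?_⟩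
  have h1 := W_lo d k
  have h2 := W_le_V d k
  have h3 : (k + 1) ^ (d + 1) ≤ (d + 1).factorial * ((d + 2).factorial * (V d k).card) :=
    h1.trans (Nat.mul_le_mul_left _ h2)
  have h4 : ((k : ℝ) + 1) ^ (d + 1) ≤
      ((d + 1).factorial : ℝ) * (((d + 2).factorial : ℝ) * ((V d k).card : ℝ)) := by
    exact_mod_cast h3
  rw [one_div, inv_mul_le_iff₀ hp]
  linarith

end Pool.Agent.Helper43.SN
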