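import Pool.Agent.Helper43.SN.Iso
import Pool.Agent.Helper43.SN.Size
import Pool.Agent.Helper43.SN.KEmpty
import Pool.Agent.Helper43.SN.KillStep
import Pool.Agent.Helper43.SN.KillBase

set_option autoImplicit false

/-!
# SN-13 KillSmall: `Kill d k y` for `y ≤ t^(d+1)`, `k ≥ K + M t`

PROOF. `f(A) = |ups A| - |A|`. `b = d + 1`. Let `k₀` be from `kp_empty` (`k₀ ≥ 4`).
(1) STEP BY ONE. `y ≥ 3`: `r = 1` is allowed in `kill_step`: if `1 + |A| + |A'| > y` then
`|A| + |A'| ≥ 3`, one of them has `≥ 2` elements, so `f(A) + f(A') ≥ 1` (`card_lt_ups`). `y ∈ {1, 2}`: `r = 1`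
is allowed if `k % (d+2) ≠ 0`; otherwise `r = 0` (always allowed, `card_le_ups`). So from `Kill d k 0`
(`kill_zero`) one gets: for every constant `y₀`, `Kill d k y₀` for all `k ≥ K(y₀)` (e.g. `K = k₀ + y₀ + 6`;
two levels are enough for each of `y = 1, 2`).
(2) LARGE STEPS. For `y ≥ y₀`: `r = ⌊c y^(d/(d+1))⌋ ≥ 1` is allowed: if `r + |A| + |A'| > y`, the larger of
the two, say `A`, has `|A| ≥ (y - r)/2 ≥ y/4`, and by `iso` `f(A) + 1 ≥ |A|^(d/(d+1))/(2d+5)`, which is
`≥ r + 1` for small `c`. Convenient form: for `t₀ ≤ t` and `(t-1)^(d+1) ≤ y ≤ t^(d+1)` the number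
`r = max 1 ⌊c' t^d⌋` is allowed, `c' > 0` depends only on `d`. Since `t^(d+1) - (t-1)^(d+1) ≤ (d+1) t^d`,
at most `M` such steps lead from `y ≤ t^(d+1)` to `y ≤ (t-1)^(d+1)`: induction on `t` (claim: `Kill d k y` for
`y ≤ t^(d+1)`, `k ≥ K + M t`); inner induction on the number of steps. Steps need `y ≤ |V (k+1)|`; if not,
use `kill_card`/`kill_mono` with `y = |V (k+1)|` (or `M` so large that it holds, `V_lo`).
-/

namespace Pool.Agent.Helper43.SN

open Finset Pool.Agent.Helper46.MR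

namespace KillSmallAux

/-- the levels are large -/
theorem V_big (d : ℕ) : ∃ M : ℕ, 1 ≤ M ∧ ∀ t k : ℕ, M * t ≤ k → t ^ (d + 1) ≤ (V d k).card := by
  obtain ⟨c, hc, h⟩ := V_lo d
  obtain ⟨M, hM⟩ := exists_nat_gt (1 / c)
  have hMpos : (0 : ℝ) < M := lt_trans (by positivity) hM
  have hM1 : 1 ≤ M := by exact_mod_cast hMpos
  refine ⟨M, hM1, fun t k hk => ?_⟩
  have h1 : (1 : ℝ) ≤ c * M := by
    have := (div_lt_iff₀ hc).1 hM
    linarith
  have hM1' : (1 : ℝ) ≤ M := by exact_mod_cast hM1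
  have h2 : (1 : ℝ) ≤ c * (M : ℝ) ^ (d + 1) := by
    calc (1 : ℝ) ≤ c * M := h1
      _ = c * (M : ℝ) ^ 1 := by rw [pow_one]
      _ ≤ c * (M : ℝ) ^ (d + 1) := by
          apply mul_le_mul_of_nonneg_left _ hc.le
          exact pow_le_pow_right₀ hM1' (by omega)
  have h3 : ((t : ℝ)) ^ (d + 1) ≤ ((V d k).card : ℝ) := by
    calc ((t : ℝ)) ^ (d + 1) = 1 * (t : ℝ) ^ (d + 1) := (one_mul _).symm
      _ ≤ (c * (M : ℝ) ^ (d + 1)) * (t : ℝ) ^ (d + 1) :=
          mul_le_mul_of_nonneg_right h2 (by positivity)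
      _ = c * ((M : ℝ) * t) ^ (d + 1) := by rw [mul_pow]; ring
      _ ≤ c * ((k : ℝ) + 1) ^ (d + 1) := by
          apply mul_le_mul_of_nonneg_left _ hc.le
          apply pow_le_pow_left₀ (by positivity)
          have : ((M * t : ℕ) : ℝ) ≤ (k : ℝ) := by exact_mod_cast hk
          push_cast at this
          linarith
      _ ≤ _ := h k
  exact_mod_cast h3

/-- one set of the pair is large: the arithmetic -/
theorem big_one {d N t a f r : ℕ} (hN : N = 4 * (2 * d + 5) * 2 ^ d) (ht : 2 ≤ t)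
    (ha : (t - 1) ^ (d + 1) ≤ 4 * a) (hiso : a ^ d ≤ ((2 * d + 5) * (f + 1)) ^ (d + 1))
    (hr : r ≤ t ^ d / N) : r ≤ f := by
  by_contra hlt
  push Not at hlt
  have hNpos : 0 < N := by rw [hN]; positivity
  have h1 : (f + 1) * N ≤ t ^ d :=
    (Nat.mul_le_mul_right N (show f + 1 ≤ r from hlt)).trans
      ((Nat.mul_le_mul_right N hr).trans (Nat.div_mul_le_self _ _))
  have h2 : t ≤ 2 * (t - 1) := by omega
  have h3 : t ^ d ≤ 2 ^ d * (t - 1) ^ d := by
    rw [← mul_pow]
    exact Nat.pow_le_pow_left h2 d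
  have h4 : (f + 1) * (4 * (2 * d + 5)) ≤ (t - 1) ^ d := by
    have h5 : ((f + 1) * (4 * (2 * d + 5))) * 2 ^ d ≤ (t - 1) ^ d * 2 ^ d := by
      calc ((f + 1) * (4 * (2 * d + 5))) * 2 ^ d = (f + 1) * N := by rw [hN]; ring
        _ ≤ t ^ d := h1
        _ ≤ 2 ^ d * (t - 1) ^ d := h3
        _ = _ := by ring
    exact Nat.le_of_mul_le_mul_right h5 (by positivity)
  have h5 : (4 * ((2 * d + 5) * (f + 1))) ^ (d + 1) ≤ (4 * a) ^ d := by
    calc (4 * ((2 * d + 5) * (f + 1))) ^ (d + 1)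
        = ((f + 1) * (4 * (2 * d + 5))) ^ (d + 1) := by congr 1; ring
      _ ≤ ((t - 1) ^ d) ^ (d + 1) := Nat.pow_le_pow_left h4 _
      _ = ((t - 1) ^ (d + 1)) ^ d := by rw [← pow_mul, ← pow_mul, mul_comm]
      _ ≤ (4 * a) ^ d := Nat.pow_le_pow_left ha d
  rw [mul_pow 4 ((2 * d + 5) * (f + 1)), mul_pow 4 a] at h5
  have h6 : 0 < ((2 * d + 5) * (f + 1)) ^ (d + 1) := by positivity
  have h7 : 4 ^ d * a ^ d < 4 ^ (d + 1) * ((2 * d + 5) * (f + 1)) ^ (d + 1) := by
    calc 4 ^ d * a ^ d ≤ 4 ^ d * ((2 * d + 5) * (f + 1)) ^ (d + 1) := Nat.mul_le_mul_left _ hiso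
      _ < 4 ^ (d + 1) * ((2 * d + 5) * (f + 1)) ^ (d + 1) := by
          apply Nat.mul_lt_mul_of_pos_right _ h6
          exact Nat.pow_lt_pow_right (by norm_num) (by omega)
  omega

/-- `t^d / N ≤ y / 2` -/
theorem half {d N t y : ℕ} (hN : N = 4 * (2 * d + 5) * 2 ^ d) (ht : 2 ≤ t)
    (hy : (t - 1) ^ (d + 1) ≤ y) : 2 * (t ^ d / N) ≤ y := by
  have hNpos : 0 < N := by rw [hN]; positivity
  have h2 : t ≤ 2 * (t - 1) := by omega
  have h3 : t ^ d ≤ 2 ^ d * (t - 1) ^ d := by
    rw [← mul_pow]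
    exact Nat.pow_le_pow_left h2 d
  have h4 : (t - 1) ^ d ≤ (t - 1) ^ (d + 1) :=
    Nat.pow_le_pow_right (by omega) (by omega)
  have h5 : t ^ d / N ≤ (t - 1) ^ d / 2 := by
    apply (Nat.div_le_div_right h3 : t ^ d / N ≤ 2 ^ d * (t - 1) ^ d / N).trans
    rw [Nat.le_div_iff_mul_le (by norm_num)]
    apply Nat.le_of_mul_le_mul_left _ (show 0 < 2 ^ d by positivity)
    calc 2 ^ d * (2 ^ d * (t - 1) ^ d / N * 2) = (2 ^ d * (t - 1) ^ d / N) * (2 * 2 ^ d) := by ring
      _ ≤ (2 ^ d * (t - 1) ^ d / N) * N := by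
          apply Nat.mul_le_mul_left
          rw [hN]
          apply Nat.mul_le_mul_right
          omega
      _ ≤ 2 ^ d * (t - 1) ^ d := Nat.div_mul_le_self _ _
  have h6 : 2 * ((t - 1) ^ d / 2) ≤ (t - 1) ^ d := Nat.mul_div_le _ _
  omega

/-- the allowed steps -/
theorem allow {d k N t y r : ℕ} (hd : 3 ≤ d) (hN : N = 4 * (2 * d + 5) * 2 ^ d)
    (hy : (t - 1) ^ (d + 1) ≤ y) (hy3 : 3 ≤ y) (hr : r ≤ max 1 (t ^ d / N)) :
    ∀ A ⊆ V d k, ∀ A' ⊆ V d k, r + A.card + A'.card ≤ max y ((ups A).card + (ups A').card) := by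
  have hNpos : 0 < N := by rw [hN]; positivity
  have hN1 : 1 < N := by
    rw [hN]
    have : 0 < 2 ^ d := by positivity
    nlinarith
  -- the asymmetric form
  have main : ∀ A ⊆ V d k, ∀ A' ⊆ V d k, A'.card ≤ A.card →
      r + A.card + A'.card ≤ max y ((ups A).card + (ups A').card) := by
    intro A hA A' hA' hle
    have h1 := card_le_ups hA
    have h1' := card_le_ups hA'
    by_cases hsmall : r + A.card + A'.card ≤ y
    · exact le_max_of_le_left hsmall
    push Not at hsmall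
    apply le_max_of_le_right
    have key : r ≤ (ups A).card - A.card := by
      rcases Nat.lt_or_ge r 2 with hr1 | hr2
      · -- `r ≤ 1`
        have h2 : 2 ≤ A.card := by omega
        have hne : A.Nonempty := card_pos.1 (by omega)
        have h3 := card_lt_ups (by omega) hA hne (Or.inr h2)
        omega
      · have hr' : r ≤ t ^ d / N := by
          rcases le_max_iff.1 hr with h | h
          · omega
          · exact h
        have ht : 2 ≤ t := by
          by_contra ht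
          have ht1 : t ≤ 1 := by omega
          have : t ^ d ≤ 1 := Nat.pow_le_one_iff (by omega) |>.2 ht1
          have : t ^ d / N = 0 := Nat.div_eq_of_lt (by omega)
          omega
        have h4 := half hN ht hy
        have ha : (t - 1) ^ (d + 1) ≤ 4 * A.card := by omega
        exact big_one hN ht ha (iso hA) hr'
    omega
  intro A hA A' hA'
  rcases le_total A'.card A.card with h | h
  · exact main A hA A' hA' h
  · have := main A' hA' A hA h
    rw [add_right_comm, add_comm (ups A).card]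
    exact this

/-- `y = 1, 2` -/
theorem allow_one {d k y : ℕ} (hd : 3 ≤ d) (hk : k % (d + 2) ≠ 0) (hy : 1 ≤ y) :
    ∀ A ⊆ V d k, ∀ A' ⊆ V d k, 1 + A.card + A'.card ≤ max y ((ups A).card + (ups A').card) := by
  intro A hA A' hA'
  have h1 := card_le_ups hA
  have h1' := card_le_ups hA'
  by_cases hne : A.Nonempty
  · have := card_lt_ups (by omega) hA hne (Or.inl hk)
    exact le_max_of_le_right (by omega)
  by_cases hne' : A'.Nonempty
  · have := card_lt_ups (by omega) hA' hne' (Or.inl hk)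
    exact le_max_of_le_right (by omega)
  rw [Finset.not_nonempty_iff_eq_empty] at hne hne'
  subst hne; subst hne'
  apply le_max_of_le_left
  simpa using hy

theorem allow_zero {d k y : ℕ} :
    ∀ A ⊆ V d k, ∀ A' ⊆ V d k, 0 + A.card + A'.card ≤ max y ((ups A).card + (ups A').card) := by
  intro A hA A' hA'
  have h1 := card_le_ups hA
  have h1' := card_le_ups hA'
  exact le_max_of_le_right (by omega)

/-- one more element costs two levels -/
theorem kill_two_levels {d y k₀ : ℕ} (hd : 3 ≤ d) (hKP : ∀ k, k₀ ≤ k → KP d k ∅ ∅ ∅ ∅)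
    (hV : ∀ k, k₀ ≤ k → y + 1 ≤ (V d k).card) (h : ∀ k, k₀ ≤ k → Kill d k y) :
    ∀ k, k₀ + 2 ≤ k → Kill d k (y + 1) := by
  have one : ∀ k, k₀ ≤ k → k % (d + 2) ≠ 0 → Kill d (k + 1) (y + 1) := fun k hk hmod =>
    kill_step (hKP k hk) (hV (k + 1) (by omega)) (by omega) (allow_one hd hmod (by omega))
      (by simpa using h k hk)
  intro k hk
  obtain ⟨k, rfl⟩ : ∃ j, k = j + 1 + 1 := ⟨k - 2, by omega⟩
  by_cases hmod : (k + 1) % (d + 2) = 0
  · have hmod' : k % (d + 2) ≠ 0 := by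
      intro h0
      have h1 := Nat.dvd_of_mod_eq_zero h0
      have h2 := Nat.dvd_of_mod_eq_zero hmod
      have h3 : (d + 2) ∣ 1 := (Nat.dvd_add_right h1).1 h2
      have := Nat.le_of_dvd (by norm_num) h3
      omega
    have h1 := one k (by omega) hmod'
    refine kill_step (r := 0) (hKP (k + 1) (by omega)) (hV _ (by omega)) (by omega) allow_zero ?_
    simpa using h1
  · exact one (k + 1) (by omega) hmod

theorem diff_le (d t : ℕ) : (t + 1) ^ (d + 1) ≤ t ^ (d + 1) + (d + 1) * (t + 1) ^ d := by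
  induction d with
  | zero => simp
  | succ d ih =>
    have h1 : t ^ (d + 1) ≤ (t + 1) ^ (d + 1) := Nat.pow_le_pow_left (by omega) _
    calc (t + 1) ^ (d + 1 + 1) = (t + 1) ^ (d + 1) * t + (t + 1) ^ (d + 1) := by ring
      _ ≤ (t ^ (d + 1) + (d + 1) * (t + 1) ^ d) * t + (t + 1) ^ (d + 1) :=
          Nat.add_le_add_right (Nat.mul_le_mul_right t ih) _
      _ = t ^ (d + 1 + 1) + (d + 1) * ((t + 1) ^ d * t) + (t + 1) ^ (d + 1) := by ring
      _ ≤ t ^ (d + 1 + 1) + (d + 1) * ((t + 1) ^ d * (t + 1)) + (t + 1) ^ (d + 1) := by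
          apply Nat.add_le_add_right
          apply Nat.add_le_add_left
          apply Nat.mul_le_mul_left
          apply Nat.mul_le_mul_left
          omega
      _ = _ := by ring

theorem steps_le {N x : ℕ} (hN : 0 < N) : x ≤ 2 * N * max 1 (x / N) := by
  rcases Nat.lt_or_ge x N with h | h
  · have : 1 ≤ max 1 (x / N) := le_max_left _ _
    nlinarith
  · have h1 : 1 ≤ x / N := (Nat.one_le_div_iff hN).2 h
    rw [max_eq_right h1]
    have h2 : x < N * (x / N + 1) := Nat.lt_mul_div_succ x hN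
    nlinarith

end KillSmallAux

open KillSmallAux in
theorem kill_small (d : ℕ) (hd : 3 ≤ d) : ∃ M K : ℕ, ∀ t k y : ℕ, y ≤ t ^ (d + 1) →
    K + M * t ≤ k → Kill d k y := by
  obtain ⟨k₁, hk₁⟩ := kp_empty d (by omega)
  obtain ⟨M₁, hM₁, hV⟩ := V_big d
  obtain ⟨N, hN⟩ : ∃ N, N = 4 * (2 * d + 5) * 2 ^ d := ⟨_, rfl⟩
  have hNpos : 0 < N := by rw [hN]; positivity
  -- the base
  obtain ⟨k₀, hk₀⟩ : ∃ k₀, k₀ = k₁ + 4 + 2 * M₁ := ⟨_, rfl⟩
  have hKP : ∀ k, k₀ ≤ k → KP d k ∅ ∅ ∅ ∅ := fun k hk => hk₁ k (by omega)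
  have hV2 : ∀ k, k₀ ≤ k → 2 ≤ (V d k).card := fun k hk => by
    have h1 := hV 2 k (by omega)
    have h2 : 2 ^ 1 ≤ 2 ^ (d + 1) := Nat.pow_le_pow_right (by norm_num) (by omega)
    omega
  have h0 : ∀ k, k₀ ≤ k → Kill d k 0 := fun k hk => kill_zero hd (by omega)
  have h1 : ∀ k, k₀ + 2 ≤ k → Kill d k 1 :=
    kill_two_levels hd hKP (fun k hk => by have := hV2 k hk; omega) h0
  have h2 : ∀ k, k₀ + 2 + 2 ≤ k → Kill d k 2 :=
    kill_two_levels hd (fun k hk => hKP k (by omega)) (fun k hk => hV2 k (by omega)) h1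
  refine ⟨M₁ + 2 * N * (d + 1), k₀ + 4, ?_⟩
  intro t
  induction t with
  | zero =>
    intro k y hy hk
    have : y = 0 := by simpa using hy
    subst this
    exact h0 k (by omega)
  | succ t ih =>
    intro k y hy hk
    obtain ⟨r, hr⟩ : ∃ r, r = max 1 ((t + 1) ^ d / N) := ⟨_, rfl⟩
    -- inner induction
    have inner : ∀ j k y : ℕ, y ≤ (t + 1) ^ (d + 1) → y ≤ t ^ (d + 1) + j * r →
        k₀ + 4 + (M₁ + 2 * N * (d + 1)) * t + M₁ + j ≤ k → Kill d k y := by
      intro j
      induction j with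
      | zero =>
        intro k y _ hy hk
        exact ih k y (by simpa using hy) (by omega)
      | succ j ihj =>
        intro k y hyt hy hk
        by_cases hy1 : y ≤ t ^ (d + 1)
        · exact ih k y hy1 (by omega)
        by_cases hy2 : y ≤ 2
        · exact kill_mono hy2 (h2 k (by omega))
        obtain ⟨k, rfl⟩ : ∃ k', k = k' + 1 := ⟨k - 1, by omega⟩
        have hyt' : (t + 1 - 1) ^ (d + 1) ≤ y := by
          rw [Nat.add_sub_cancel]; omega
        have hall := allow (k := k) (r := r) hd hN hyt' (by omega) hr.le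
        have hcard : y ≤ (V d (k + 1)).card := by
          refine hyt.trans (hV (t + 1) (k + 1) ?_)
          have e1 : M₁ * (t + 1) ≤ (M₁ + 2 * N * (d + 1)) * t + M₁ := by
            have : M₁ * t ≤ (M₁ + 2 * N * (d + 1)) * t := Nat.mul_le_mul_right _ (by omega)
            rw [mul_add, mul_one]
            omega
          omega
        have hry : r ≤ y := by
          rw [hr]
          apply max_le (by omega)
          rcases Nat.lt_or_ge (t + 1) 2 with ht | ht
          · have ht0 : t = 0 := by omega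
            subst ht0
            have : (0 + 1) ^ d / N ≤ 1 := by
              rw [zero_add, one_pow]
              exact Nat.div_le_self _ _
            omega
          · have := half hN ht hyt'
            omega
        refine kill_step (r := r) (hKP k ?_) hcard hry hall ?_
        · have e1 : 0 ≤ (M₁ + 2 * N * (d + 1)) * t := Nat.zero_le _
          omega
        · refine ihj k (y - r) (by omega) ?_ (by omega)
          rw [Nat.succ_mul] at hy
          omega
    refine inner (2 * N * (d + 1)) k y hy ?_ ?_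
    · have e1 := diff_le d t
      have e2 := steps_le (x := (t + 1) ^ d) hNpos
      rw [← hr] at e2
      calc y ≤ (t + 1) ^ (d + 1) := hy
        _ ≤ t ^ (d + 1) + (d + 1) * (t + 1) ^ d := e1
        _ ≤ t ^ (d + 1) + (d + 1) * (2 * N * r) :=
            Nat.add_le_add_left (Nat.mul_le_mul_left _ e2) _
        _ = _ := by ring
    · calc _ = k₀ + 4 + (M₁ + 2 * N * (d + 1)) * (t + 1) := by ring
        _ ≤ k := hk

end Pool.Agent.Helper43.SN
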