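import Pool.Agent.Helper43.SN.Size
import Pool.Agent.Helper46.MR.Large
import Pool.Agent.Helper46.MR.Mid
import Pool.Agent.Helper46.MR.Bulk

set_option autoImplicit false

/-!
# SN-4 Lym: (F1), LYM with gain, for the levels `k → k + 1` of `V d`

Everything from `MR` with `m = d + 2`, `n = k + 1`, `η = 1/2` (so `η n ≤ k`, `k ≤ (m - η) n` and
`2 k + 2 ≤ m n` for `k ≥ 1`); `qq m n (n-1) = 1 + (m-1)/n` (`SgFacts.qq_low`), `P_eq_V`, `ups_eq_up`.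
`m - 3 = d - 1`, `m - 2 = d`, `m - 1 = d + 1`.

`lym_up`: `large_up`. `lym_lo`: `large_lo` with `sg m n (k+1) = (d+1)/(k+1+d+1)` (`sg_low`):
`|E| (1 - sg) ≤ |lo E| + C n^(d-1)`, and `1/(1-sg) = 1 + (d+1)/(k+1)`.
`lym_lo_mid`: `mid_lo`.
`lym_up_mid`: let `D = V (k+1) \ ups A`, `A' = V k \ lo D ⊇ A` (`disjoint_iff`), `ups A' = ups A`. If
`|D| ≥ ε' n^(d+1)`: `mid_lo` for `D` (`|lo D| ≤ |V k| - |A|`), and
`|V (k+1)| ≥ (1+(d+1)/n) |V k| - C n^(d-1)` (`ak_lo`) give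
`|ups A| ≥ (1+(d+1)/n)|A'| + c n^d - C n^(d-1)`. If `|D| < ε' n^(d+1)`:
`|ups A| > |V (k+1)| - ε' n^(d+1) ≥ |V k| - ε' n^(d+1) ≥ |A| + (ε - ε') n^(d+1)`, which is more than
needed for `ε' = ε/2` and large `n`, as `(d+1)/n |A| ≤ (d+1) n^d` (`V_pow`).
-/

namespace Pool.Agent.Helper43.SN

open Finset Pool.Agent.Helper46.MR

namespace LymAux

theorem qq_eq (d k : ℕ) : qq (d + 2) (k + 1) k = 1 + ((d : ℝ) + 1) / ((k : ℝ) + 1) := by
  have h := qq_low (b := d + 2) (n := k + 1) (by omega) (by omega)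
  rw [Nat.add_sub_cancel] at h
  rw [h]
  push_cast
  ring

theorem sg_eq (d k : ℕ) : sg (d + 2) (k + 1) (k + 1) = ((d : ℝ) + 1) / ((k : ℝ) + d + 2) := by
  rw [sg_low (b := d + 2) (n := k + 1) (t := k + 1) (by omega) (by omega) le_rfl]
  push_cast
  congr 1 <;> ring

theorem le_mul (d k : ℕ) : 2 * k + 2 ≤ (d + 2) * (k + 1) := by
  nlinarith [Nat.zero_le (d * k), Nat.zero_le d]

theorem half_le {k : ℕ} (hk : 1 ≤ k) : (1 / 2 : ℝ) * ((k + 1 : ℕ) : ℝ) ≤ k := by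
  have : (1 : ℝ) ≤ k := by exact_mod_cast hk
  push_cast
  linarith

theorem le_sub (d k : ℕ) : (k : ℝ) ≤ (((d + 2 : ℕ) : ℝ) - 1 / 2) * ((k + 1 : ℕ) : ℝ) := by
  have h1 : (0 : ℝ) ≤ d := Nat.cast_nonneg d
  have h2 : (0 : ℝ) ≤ k := Nat.cast_nonneg k
  push_cast
  nlinarith [mul_nonneg h1 h2]

end LymAux

open LymAux

theorem lym_up (d : ℕ) (hd : 1 ≤ d) : ∃ (C : ℝ) (K : ℕ), 0 ≤ C ∧ ∀ k : ℕ, K ≤ k →
    ∀ A ⊆ V d k, (1 + ((d : ℝ) + 1) / ((k : ℝ) + 1)) * A.card ≤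
      (ups A).card + C * ((k : ℝ) + 1) ^ (d - 1) := by
  obtain ⟨C, n₀, hC, h⟩ := large_up (m := d + 2) (by omega) (1 / 2) (by norm_num)
  refine ⟨C, max n₀ 1, hC, fun k hk A hA => ?_⟩
  have hk0 : n₀ ≤ k := (le_max_left _ _).trans hk
  have hk1 : 1 ≤ k := (le_max_right _ _).trans hk
  have h1 := h (k + 1) k (by omega) (half_le hk1) (le_mul d k) A
    (by rw [P_eq_V (Nat.le_succ k)]; exact hA)
  rw [qq_eq, ups_eq_up hA le_rfl, show d + 2 - 3 = d - 1 by omega] at h1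
  push_cast at h1
  linarith

theorem lym_lo (d : ℕ) (hd : 1 ≤ d) : ∃ (C : ℝ) (K : ℕ), 0 ≤ C ∧ ∀ k : ℕ, K ≤ k →
    ∀ E ⊆ V d (k + 1), (E.card : ℝ) ≤
      (1 + ((d : ℝ) + 1) / ((k : ℝ) + 1)) * (lo E).card + C * ((k : ℝ) + 1) ^ (d - 1) := by
  obtain ⟨C, n₀, hC, h⟩ := large_lo (m := d + 2) (by omega) (1 / 2) (by norm_num)
  refine ⟨C * ((d : ℝ) + 2), max n₀ 1, by positivity, fun k hk E hE => ?_⟩
  have hk0 : n₀ ≤ k := (le_max_left _ _).trans hk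
  have hk1 : 1 ≤ k := (le_max_right _ _).trans hk
  have h1 := h (k + 1) k (by omega) (half_le hk1) (le_sub d k) E
    (by rw [P_eq_V le_rfl]; exact hE)
  rw [sg_eq, show d + 2 - 3 = d - 1 by omega] at h1
  unfold df at h1
  push_cast at h1
  have hd0 : (0 : ℝ) ≤ d := Nat.cast_nonneg d
  have hk' : (0 : ℝ) ≤ k := Nat.cast_nonneg k
  have hk1' : (0 : ℝ) < (k : ℝ) + 1 := by positivity
  have hkd : (0 : ℝ) < (k : ℝ) + d + 2 := by positivity
  set X : ℝ := C * ((k : ℝ) + 1) ^ (d - 1) with hX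
  have hX0 : 0 ≤ X := by positivity
  set e : ℝ := (E.card : ℝ) with he
  set l : ℝ := ((lo E).card : ℝ) with hl
  have h2 : e * ((k : ℝ) + 1) ≤ (l + X) * ((k : ℝ) + d + 2) := by
    have h3 : ((d : ℝ) + 1) / ((k : ℝ) + d + 2) * e * ((k : ℝ) + d + 2) = ((d : ℝ) + 1) * e := by
      field_simp
    have h4 : (e - l) * ((k : ℝ) + d + 2) ≤
        (((d : ℝ) + 1) / ((k : ℝ) + d + 2) * e + X) * ((k : ℝ) + d + 2) :=
      mul_le_mul_of_nonneg_right h1 hkd.le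
    nlinarith
  have h5 : e ≤ (l + X) * (((k : ℝ) + d + 2) / ((k : ℝ) + 1)) := by
    rw [← mul_div_assoc, le_div_iff₀ hk1']
    exact h2
  have h6 : ((k : ℝ) + d + 2) / ((k : ℝ) + 1) = 1 + ((d : ℝ) + 1) / ((k : ℝ) + 1) := by
    field_simp
    ring
  have h7 : ((d : ℝ) + 1) / ((k : ℝ) + 1) ≤ (d : ℝ) + 1 := by
    apply div_le_self (by positivity)
    linarith
  rw [h6] at h5
  have h8 : X * (1 + ((d : ℝ) + 1) / ((k : ℝ) + 1)) ≤ X * ((d : ℝ) + 2) :=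
    mul_le_mul_of_nonneg_left (by linarith) hX0
  have h9 : C * ((d : ℝ) + 2) * ((k : ℝ) + 1) ^ (d - 1) = X * ((d : ℝ) + 2) := by
    rw [hX]
    ring
  rw [h9]
  nlinarith

theorem lym_lo_mid (d : ℕ) (hd : 1 ≤ d) (ε : ℝ) (hε : 0 < ε) :
    ∃ (c : ℝ) (K : ℕ), 0 < c ∧ ∀ k : ℕ, K ≤ k →
      ∀ E ⊆ V d (k + 1), ε * ((k : ℝ) + 1) ^ (d + 1) ≤ E.card →
        ((lo E).card : ℝ) + ε * ((k : ℝ) + 1) ^ (d + 1) ≤ (V d k).card →
        (E.card : ℝ) + c * ((k : ℝ) + 1) ^ d ≤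
          (1 + ((d : ℝ) + 1) / ((k : ℝ) + 1)) * (lo E).card := by
  obtain ⟨c, n₀, hc, h⟩ := mid_lo (m := d + 2) (by omega) (1 / 2) ε (by norm_num) hε
  refine ⟨c, max n₀ 1, hc, fun k hk E hE h1 h2 => ?_⟩
  have hk0 : n₀ ≤ k := (le_max_left _ _).trans hk
  have hk1 : 1 ≤ k := (le_max_right _ _).trans hk
  have h3 := h (k + 1) k (by omega) (half_le hk1) (le_mul d k) E
    (by rw [P_eq_V le_rfl]; exact hE)
    (by rw [show d + 2 - 1 = d + 1 by omega]; push_cast; exact h1)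
    (by rw [show d + 2 - 1 = d + 1 by omega, P_eq_V (Nat.le_succ k)]; push_cast; exact h2)
  rw [qq_eq, show d + 2 - 2 = d by omega] at h3
  unfold df at h3
  push_cast at h3
  linarith

theorem lym_up_mid (d : ℕ) (hd : 1 ≤ d) (ε : ℝ) (hε : 0 < ε) :
    ∃ (c : ℝ) (K : ℕ), 0 < c ∧ ∀ k : ℕ, K ≤ k →
      ∀ A ⊆ V d k, ε * ((k : ℝ) + 1) ^ (d + 1) ≤ A.card →
        (A.card : ℝ) + ε * ((k : ℝ) + 1) ^ (d + 1) ≤ (V d k).card →
        (1 + ((d : ℝ) + 1) / ((k : ℝ) + 1)) * A.card + c * ((k : ℝ) + 1) ^ d ≤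
          (ups A).card := by
  obtain ⟨c₁, K₁, hc₁, hmid⟩ := lym_lo_mid d hd (ε / 2) (by positivity)
  obtain ⟨C, n₀, hC, hak⟩ := ak_lo (m := d + 2) (by omega) (1 / 2) (by norm_num)
  obtain ⟨N₁, hN₁⟩ := exists_nat_ge (2 * C / c₁)
  obtain ⟨N₂, hN₂⟩ := exists_nat_ge (2 * ((d : ℝ) + 1 + c₁ / 2) / ε)
  refine ⟨c₁ / 2, max (max K₁ (max n₀ 1)) (max N₁ N₂), by positivity, fun k hk A hA h1 h2 => ?_⟩
  have hkK : K₁ ≤ k := by omega
  have hk0 : n₀ ≤ k := by omega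
  have hk1 : 1 ≤ k := by omega
  have hkN₁ : (N₁ : ℝ) ≤ k := by
    have : N₁ ≤ k := by omega
    exact_mod_cast this
  have hkN₂ : (N₂ : ℝ) ≤ k := by
    have : N₂ ≤ k := by omega
    exact_mod_cast this
  have hd0 : (0 : ℝ) ≤ d := Nat.cast_nonneg d
  have hk' : (0 : ℝ) ≤ k := Nat.cast_nonneg k
  have hn0 : (0 : ℝ) < (k : ℝ) + 1 := by positivity
  have h3 := hak (k + 1) k (by omega) (half_le hk1) (le_mul d k)
  rw [qq_eq, show d + 2 - 3 = d - 1 by omega, P_eq_V (Nat.le_succ k), P_eq_V le_rfl] at h3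
  push_cast at h3
  set D := V d (k + 1) \ ups A with hD
  have hDV : D ⊆ V d (k + 1) := sdiff_subset
  have hDc : D.card + (ups A).card = (V d (k + 1)).card :=
    card_sdiff_add_card_eq_card (ups_subset hA)
  have hDc' : (D.card : ℝ) + ((ups A).card : ℝ) = ((V d (k + 1)).card : ℝ) := by
    exact_mod_cast hDc
  have hdis : Disjoint A (lo D) := (disjoint_iff hA hDV).1 disjoint_sdiff
  have hlo : A.card + (lo D).card ≤ (V d k).card := by
    rw [← card_union_of_disjoint hdis]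
    exact card_le_card (union_subset hA (lo_sub hDV))
  have hlo' : (A.card : ℝ) + ((lo D).card : ℝ) ≤ ((V d k).card : ℝ) := by exact_mod_cast hlo
  have hmono : ((V d k).card : ℝ) ≤ ((V d (k + 1)).card : ℝ) := by exact_mod_cast card_V_mono
  have hVp : ((V d k).card : ℝ) ≤ ((k : ℝ) + 1) ^ (d + 1) := by exact_mod_cast V_pow d k
  have hA0 : (0 : ℝ) ≤ (A.card : ℝ) := Nat.cast_nonneg _
  set q : ℝ := 1 + ((d : ℝ) + 1) / ((k : ℝ) + 1) with hq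
  have hq0 : 0 ≤ q := by positivity
  set n : ℝ := (k : ℝ) + 1 with hn
  have hnd : 0 < n ^ d := by positivity
  have hpd : n ^ (d + 1) = n ^ d * n := pow_succ _ _
  have hpd' : n ^ d = n ^ (d - 1) * n := by
    rw [← pow_succ]
    congr 1
    omega
  have hpd1 : 0 < n ^ (d - 1) := by positivity
  by_cases hc : ε / 2 * n ^ (d + 1) ≤ D.card
  · have h4 := hmid k hkK D hDV hc (by linarith)
    have h5 : C * n ^ (d - 1) ≤ c₁ / 2 * n ^ d := by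
      rw [hpd']
      have h6 : 2 * C / c₁ ≤ n := by linarith
      rw [div_le_iff₀ hc₁] at h6
      have h7 : C * n ^ (d - 1) ≤ (n * c₁ / 2) * n ^ (d - 1) :=
        mul_le_mul_of_nonneg_right (by linarith) hpd1.le
      calc C * n ^ (d - 1) ≤ (n * c₁ / 2) * n ^ (d - 1) := h7
        _ = c₁ / 2 * (n ^ (d - 1) * n) := by ring
    have h8 : q * ((lo D).card : ℝ) ≤ q * (((V d k).card : ℝ) - A.card) :=
      mul_le_mul_of_nonneg_left (by linarith) hq0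
    nlinarith
  · push Not at hc
    have h4 : ((d : ℝ) + 1) / n * A.card ≤ ((d : ℝ) + 1) * n ^ d := by
      have h5 : (A.card : ℝ) ≤ n ^ d * n := by
        rw [← hpd]
        have : 0 ≤ ε * n ^ (d + 1) := by positivity
        linarith
      have h6 : (A.card : ℝ) / n ≤ n ^ d := by
        rw [div_le_iff₀ hn0]
        exact h5
      calc ((d : ℝ) + 1) / n * A.card = ((d : ℝ) + 1) * (A.card / n) := by ring
        _ ≤ ((d : ℝ) + 1) * n ^ d := mul_le_mul_of_nonneg_left h6 (by positivity)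
    have h7 : ((d : ℝ) + 1 + c₁ / 2) * n ^ d ≤ ε / 2 * n ^ (d + 1) := by
      rw [hpd]
      have h8 : 2 * ((d : ℝ) + 1 + c₁ / 2) / ε ≤ n := by linarith
      rw [div_le_iff₀ hε] at h8
      calc ((d : ℝ) + 1 + c₁ / 2) * n ^ d ≤ (n * ε / 2) * n ^ d :=
            mul_le_mul_of_nonneg_right (by linarith) hnd.le
        _ = ε / 2 * (n ^ d * n) := by ring
    have h9 : q * A.card = A.card + ((d : ℝ) + 1) / n * A.card := by
      rw [hq]
      ring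
    rw [h9]
    linarith

end Pool.Agent.Helper43.SN
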