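import Pool.Agent.Helper43.SN.MoveKP
import Pool.Agent.Helper43.SN.Hall

set_option autoImplicit false

/-!
# SN-19 Move: moves of the special chains on the first side

PROOF of `move`. Let `K₀` be from `h`, `K₁` large for `kp_move` (`Z = im z`, `W = im w`, `Z' = im z'`),
`kp_static` (for `im w`, `im z'`) and for `el_mem`. Let `k ≥ K₀ + K₁ + 2`. (a) If `(k-1) % (d+2) ≠ 0`: `Ev` at
level `k - 1` and `T_step` from `k - 1` to `k` with `kp_move`, `x1 i = el k (w i)`, `x1' i = el k (z' i)`.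
(b) Otherwise `(k-2) % (d+2) ≠ 0`: this step from `k - 2` to `k - 1`, then a static step (`kp_static`,
`T_step` with `c = 1`, `G' = G'`) from `k - 1` to `k`. `el k (z i) ≤ el (k+1) (w i)` by `shl_el` or `el_add`
(`le_iff_cover`), `imv x = elS k (im z)`.
`Ev_symm`: `T_symm`. `Ev_mono`: `T_mono`.
-/

namespace Pool.Agent.Helper43.SN

open Finset Pool.Agent.Helper46.MR

variable {ι : Type} [Fintype ι] [DecidableEq ι]

namespace MoveAux

/-- a bound for the levels -/
def bd {d : ℕ} (w : ι → Fin (d + 1) → ℕ) : ℕ := ∑ i, ((∑ j, w i j) + w i (Fin.last d))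

theorem bd_le {d : ℕ} (w : ι → Fin (d + 1) → ℕ) {k : ℕ} (hk : bd w ≤ k) (i : ι) :
    (∑ j, w i j) + w i (Fin.last d) ≤ k :=
  (single_le_sum (f := fun i => (∑ j, w i j) + w i (Fin.last d)) (fun _ _ => Nat.zero_le _)
    (mem_univ i)).trans hk

/-- the embedding with the coordinates `w` -/
def emb {d : ℕ} (k : ℕ) (w : ι → Fin (d + 1) → ℕ) (hw : Function.Injective w)
    (hm : ∀ i, el k (w i) ∈ V d k) : ι ↪ Vt d k :=
  ⟨fun i => ⟨el k (w i), hm i⟩, fun i j h => hw (el_inj k (congrArg Subtype.val h))⟩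

theorem imv_eq {d k : ℕ} (x : ι ↪ Vt d k) (z : ι → Fin (d + 1) → ℕ)
    (hx : ∀ i, (x i).1 = el k (z i)) : imv x = elS k (im z) := by
  unfold imv elS im
  rw [image_image]
  exact image_congr fun i _ => hx i

theorem el_le_el {d k : ℕ} {u v : Fin (d + 1) → ℕ} (hu : ∑ i, u i ≤ k)
    (h : v = u ∨ ∃ j, v = u + Pi.single j 1) : el k u ≤ el (k + 1) v := by
  rcases h with rfl | ⟨j, rfl⟩
  · rw [← shl_el hu]
    intro i
    unfold shl
    rw [add_single_ap]
    split_ifs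
    · exact Nat.le_succ _
    · exact le_rfl
  · rw [el_add hu]
    intro i
    rw [add_single_ap]
    split_ifs
    · exact Nat.le_succ _
    · exact le_rfl

theorem card_im {d : ℕ} {z : ι → Fin (d + 1) → ℕ} (hz : Function.Injective z) :
    (im z).card = Fintype.card ι := by
  unfold im
  rw [card_image_of_injective _ hz, card_univ]

theorem im_mono {d : ℕ} {z : ι → Fin (d + 1) → ℕ} (mz : ∀ i, Monotone (z i)) :
    ∀ u ∈ im z, Monotone u := by
  intro u hu
  unfold im at hu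
  obtain ⟨i, _, rfl⟩ := mem_image.1 hu
  exact mz i

end MoveAux

open MoveAux in
theorem move (d : ℕ) (hd : 1 ≤ d) (z z' w : ι → Fin (d + 1) → ℕ) (c : Equiv.Perm ι)
    (G G' : Set (Equiv.Perm ι)) (hz : Function.Injective z) (hw : Function.Injective w)
    (mz : ∀ i, Monotone (z i)) (mw : ∀ i, Monotone (w i)) (hz' : Stat z')
    (h1 : ∀ i, w i = z i ∨ ∃ j, w i = z i + Pi.single j 1)
    (h2 : ∀ i, w (c i) = z i ∨ ∃ j, w (c i) = z i + Pi.single j 1)
    (hcard : (im w \ im z).card ≤ 1) (hcr : Crit (im z) (im w))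
    (hG : ∀ g ∈ G, g ∈ G' ∨ g * c⁻¹ ∈ G') (h : Ev d z z' G) : Ev d w z' G' := by
  obtain ⟨K0, h⟩ := h
  obtain ⟨i', m', cr'⟩ := hz'
  obtain ⟨K1, hK1⟩ := kp_move d hd (im z) (im w) (im z') (im_mono mz) (im_mono mw) (im_mono m')
    ((card_im hz).trans (card_im i').symm) ((card_im hw).trans (card_im hz).symm) hcard hcr cr'
  obtain ⟨K2, hK2⟩ := kp_static d hd (im w) (im z') (im_mono mw) (im_mono m')
    ((card_im hw).trans (card_im i').symm)
  -- the step from level `k` to `k + 1` with a move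
  have stepA : ∀ k : ℕ, K0 ≤ k → K1 ≤ k → bd z ≤ k → bd w ≤ k → bd z' ≤ k → k % (d + 2) ≠ 0 →
      ∃ x x' : ι ↪ Vt d (k + 1), (∀ i, (x i).1 = el (k + 1) (w i)) ∧
        (∀ i, (x' i).1 = el (k + 1) (z' i)) ∧ T d (k + 1) x x' G' := by
    intro k hk0 hk1 hbz hbw hbz' hmod
    obtain ⟨x, x', hx, hx', hT⟩ := h k hk0
    refine ⟨emb (k + 1) w hw fun i => el_mem (mw i) ((bd_le w hbw i).trans (Nat.le_succ k)),
      emb (k + 1) z' i' fun i => el_mem (m' i) ((bd_le z' hbz' i).trans (Nat.le_succ k)),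
      fun i => rfl, fun i => rfl, ?_⟩
    refine T_step x x' _ _ (fun i => ?_) (fun i => ?_) ?_ c (fun i => ?_) G G' hG hT
    · rw [hx i]
      exact el_le_el (by have := bd_le z hbz i; omega) (h1 i)
    · rw [hx' i]
      exact el_le_el (by have := bd_le z' hbz' i; omega) (Or.inl rfl)
    · rw [imv_eq x z hx, imv_eq x' z' hx', imv_eq _ w (fun i => rfl), imv_eq _ z' (fun i => rfl)]
      exact hK1 k hk1 hmod
    · rw [hx i]
      exact el_le_el (by have := bd_le z hbz i; omega) (h2 i)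
  -- the static step
  have stepB : ∀ k : ℕ, K2 ≤ k → bd w ≤ k → bd z' ≤ k →
      (∃ x x' : ι ↪ Vt d k, (∀ i, (x i).1 = el k (w i)) ∧
        (∀ i, (x' i).1 = el k (z' i)) ∧ T d k x x' G') →
      ∃ x x' : ι ↪ Vt d (k + 1), (∀ i, (x i).1 = el (k + 1) (w i)) ∧
        (∀ i, (x' i).1 = el (k + 1) (z' i)) ∧ T d (k + 1) x x' G' := by
    rintro k hk2 hbw hbz' ⟨x, x', hx, hx', hT⟩
    refine ⟨emb (k + 1) w hw fun i => el_mem (mw i) ((bd_le w hbw i).trans (Nat.le_succ k)),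
      emb (k + 1) z' i' fun i => el_mem (m' i) ((bd_le z' hbz' i).trans (Nat.le_succ k)),
      fun i => rfl, fun i => rfl, ?_⟩
    have hle : ∀ i, (x i).1 ≤ el (k + 1) (w i) := fun i => by
      rw [hx i]
      exact el_le_el (by have := bd_le w hbw i; omega) (Or.inl rfl)
    refine T_step x x' _ _ hle (fun i => ?_) ?_ 1 hle G' G' (fun g hg => Or.inl hg) hT
    · rw [hx' i]
      exact el_le_el (by have := bd_le z' hbz' i; omega) (Or.inl rfl)
    · rw [imv_eq x w hx, imv_eq x' z' hx', imv_eq _ w (fun i => rfl), imv_eq _ z' (fun i => rfl)]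
      exact hK2 k hk2
  refine ⟨K0 + K1 + K2 + bd z + bd w + bd z' + 2, fun k hk => ?_⟩
  obtain ⟨k, rfl⟩ : ∃ k', k = k' + 1 := ⟨k - 1, by omega⟩
  by_cases hmod : k % (d + 2) = 0
  · obtain ⟨k, rfl⟩ : ∃ k', k = k' + 1 := ⟨k - 1, by omega⟩
    have hmod' : k % (d + 2) ≠ 0 := by
      intro h0
      have e1 := Nat.dvd_of_mod_eq_zero hmod
      have e2 := Nat.dvd_of_mod_eq_zero h0
      have e3 := Nat.le_of_dvd one_pos ((Nat.dvd_add_right e2).1 e1)
      omega
    exact stepB (k + 1) (by omega) (by omega) (by omega)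
      (stepA k (by omega) (by omega) (by omega) (by omega) (by omega) hmod')
  · exact stepA k (by omega) (by omega) (by omega) (by omega) (by omega) hmod

theorem Ev_symm {d : ℕ} {z z' : ι → Fin (d + 1) → ℕ} {G : Set (Equiv.Perm ι)}
    (h : Ev d z z' G) : Ev d z' z {g | g⁻¹ ∈ G} := by
  obtain ⟨K, h⟩ := h
  refine ⟨K, fun k hk => ?_⟩
  obtain ⟨x, x', hx, hx', hT⟩ := h k hk
  exact ⟨x', x, hx', hx, T_symm hT⟩

theorem Ev_mono {d : ℕ} {z z' : ι → Fin (d + 1) → ℕ} {G G' : Set (Equiv.Perm ι)}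
    (hG : G ⊆ G') (h : Ev d z z' G) : Ev d z z' G' := by
  obtain ⟨K, h⟩ := h
  refine ⟨K, fun k hk => ?_⟩
  obtain ⟨x, x', hx, hx', hT⟩ := h k hk
  exact ⟨x, x', hx, hx', T_mono hG hT⟩

end Pool.Agent.Helper43.SN
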