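import Pool.Agent.Helper43.SN.Defs2
import Pool.Agent.Helper43.SN.Iso
import Pool.Agent.Helper43.SN.Crude

set_option autoImplicit false

/-!
# SN-17 MoveA: small sets near the special chains

`k` is large, `Z`, `W` are fixed finite sets of places (`z = (y_m, .., y_2)`), `el k z ∈ V k`
(`el_mem`), `shl (el k z) = el (k+1) z`, `el (k+1) (z + e_j) = el k z + e_j` (`shl_el`, `el_add`),
`el_init`, `init_el`, `el_inj`.

PROOFS. Let `R` be larger than all coordinate sums of elements of `Z`, `W`; `k ≥ 4 (R + s + 2)`.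
`stat_up`: `shl` maps `A` injectively into `ups A`, and `shl y ∈ elS (k+1) Z` would give `y ∈ elS k Z`.
CLIMBING. Let `Crit Z W`, `A ⊆ V k \ elS k Z`, `el k u ∈ A` with `∑ u ≤ R`, and suppose that for all `v` with
`el k v ∈ A` and all `j` with `v + e_j` monotone and `∉ W` (and `∑ v ≤ R + s`) also
`el k (v + e_j) ∈ A`. Then `|A| > s`: `v ∉ Z` as `el k v ∈ A`, so `Crit` gives such a `j`; the coordinate
sums increase, so one gets `s + 1` different elements.
`stat_strict`: if it fails, `ups A \ elS (k+1) Z = A.image shl` (`stat_up`). If `A` has an element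
`el k u` with `∑ u ≤ R`: climbing (`W = Z`): for `el k v ∈ A`, `v + e_j ∉ Z` monotone,
`el (k+1) (v+e_j) = el k v + e_j ∈ ups A`, not in `elS (k+1) Z`, hence `= shl y`, `y ∈ A`,
`y = el k (v + e_j)`; so `|A| > s`, contradiction. If all elements of `A` have coordinate sum (without the
last coordinate) `> R`: `ups A` is disjoint from `elS (k+1) Z`, and `|ups A| > |A|` by `card_lt_ups`.
`move_up`: let `B = {y ∈ A : shl y ∉ elS (k+1) W}`. `y ∈ A \ B` is `el k b'` with `b' ∈ W \ Z`, so there is at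
most one. `B.image shl ⊆ ups A \ elS (k+1) W`. If the claim fails, `|B| = |A| - 1`, `el k b' ∈ A` and
`ups A \ elS (k+1) W = B.image shl`; climb from `u = b'`: contradiction as before.
`down_le`: choose `t ∈ [R, R + s]` such that no `y ∈ D` has `∑ (init y) = t + 1` (pigeonhole). Near part
(`∑ init y ≤ t`): lower the last coordinate (`y - e_last`, possible and monotone as `k` is large), injective,
`∑ init` is kept, the result is in `elS k Z` only if `init y ∈ Z \ W`. Far part (`∑ init y ≥ t + 2`): its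
lower shadow has `∑ init ≥ t + 1 > R`, is disjoint from `elS k Z` and from the near images, and has at
least as many elements by `crude` (`(k+1) |D| ≤ (k+1) |lo D| + C |D|`, `C s < k + 1`).
-/

namespace Pool.Agent.Helper43.SN

open Finset Pool.Agent.Helper46.MR

namespace MoveAAux

variable {d k : ℕ}

theorem init_add_last (x : Fin (d + 2) → ℕ) :
    Fin.init (x + Pi.single (Fin.last (d + 1)) 1 : Fin (d + 2) → ℕ) = Fin.init x := by
  funext j
  show (x + Pi.single (Fin.last (d + 1)) 1 : Fin (d + 2) → ℕ) j.castSucc = x j.castSucc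
  rw [add_single_ap, if_neg (Fin.castSucc_lt_last j).ne]

theorem init_add_castSucc (x : Fin (d + 2) → ℕ) (j : Fin (d + 1)) :
    Fin.init (x + Pi.single j.castSucc 1 : Fin (d + 2) → ℕ) = Fin.init x + Pi.single j 1 := by
  funext i
  show (x + Pi.single j.castSucc 1 : Fin (d + 2) → ℕ) i.castSucc = _
  rw [add_single_ap, add_single_ap]
  simp only [Fin.castSucc_inj]
  rfl

theorem init_shl (x : Fin (d + 2) → ℕ) : Fin.init (shl x) = Fin.init x := init_add_last x

theorem init_mono {x : Fin (d + 2) → ℕ} (hx : Monotone x) :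
    Monotone (Fin.init x : Fin (d + 1) → ℕ) := by
  intro i j hij
  exact hx (Fin.castSucc_le_castSucc_iff.2 hij)

theorem mem_elS {Z : Finset (Fin (d + 1) → ℕ)} {z : Fin (d + 1) → ℕ} :
    el k z ∈ elS k Z ↔ z ∈ Z := by
  unfold elS
  rw [mem_image]
  constructor
  · rintro ⟨w, hw, h⟩
    rwa [← el_inj k h]
  · intro h
    exact ⟨z, h, rfl⟩

theorem init_of_elS {Z : Finset (Fin (d + 1) → ℕ)} {y : Fin (d + 2) → ℕ} (h : y ∈ elS k Z) :
    Fin.init y ∈ Z := by
  unfold elS at h
  obtain ⟨z, hz, rfl⟩ := mem_image.1 h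
  rwa [init_el]

theorem mem_elS_iff {Z : Finset (Fin (d + 1) → ℕ)} {y : Fin (d + 2) → ℕ} (hy : y ∈ V d k) :
    y ∈ elS k Z ↔ Fin.init y ∈ Z := by
  refine ⟨init_of_elS, fun h => ?_⟩
  rw [← el_init hy]
  exact mem_elS.2 h

/-- sum of the coordinates without the last one -/
def sz (y : Fin (d + 2) → ℕ) : ℕ := ∑ i : Fin (d + 1), Fin.init y i

theorem sz_el (z : Fin (d + 1) → ℕ) : sz (el k z) = ∑ i, z i := by
  unfold sz
  rw [init_el]

theorem sz_add (x : Fin (d + 2) → ℕ) (i : Fin (d + 2)) :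
    sz x ≤ sz (x + Pi.single i 1 : Fin (d + 2) → ℕ) ∧
      sz (x + Pi.single i 1 : Fin (d + 2) → ℕ) ≤ sz x + 1 := by
  unfold sz
  refine Fin.lastCases ?_ (fun j => ?_) i
  · rw [init_add_last]
    omega
  · rw [init_add_castSucc, sum_add_single]
    omega

theorem exists_bound (Z : Finset (Fin (d + 1) → ℕ)) : ∃ R : ℕ, ∀ z ∈ Z, ∑ i, z i ≤ R :=
  ⟨Z.sup fun z => ∑ i, z i, fun _ hz => le_sup (f := fun z : Fin (d + 1) → ℕ => ∑ i, z i) hz⟩

theorem last_le (z : Fin (d + 1) → ℕ) : z (Fin.last d) ≤ ∑ i, z i :=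
  single_le_sum (f := z) (fun _ _ => Nat.zero_le _) (mem_univ _)

/-- climbing -/
theorem climb {s R : ℕ} {Z W : Finset (Fin (d + 1) → ℕ)} (hc : Crit Z W)
    {A : Finset (Fin (d + 2) → ℕ)} (hA : A ⊆ V d k \ elS k Z) {u : Fin (d + 1) → ℕ}
    (hu : el k u ∈ A) (hm : Monotone u) (hR : ∑ i, u i ≤ R)
    (hstep : ∀ v : Fin (d + 1) → ℕ, Monotone v → ∑ i, v i ≤ R + s → el k v ∈ A →
      ∀ j, Monotone (v + Pi.single j 1 : Fin (d + 1) → ℕ) → v + Pi.single j 1 ∉ W →
        el k (v + Pi.single j 1) ∈ A) : s < A.card := by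
  have h1 : ∀ r : ℕ, r ≤ s → ∃ v : Fin (d + 1) → ℕ, Monotone v ∧ ∑ i, v i = ∑ i, u i + r ∧
      el k v ∈ A := by
    intro r
    induction r with
    | zero => exact fun _ => ⟨u, hm, rfl, hu⟩
    | succ r ih =>
      intro hr
      obtain ⟨v, hv, hvs, hvA⟩ := ih (by omega)
      have hvZ : v ∉ Z := by
        intro h
        exact (mem_sdiff.1 (hA hvA)).2 (mem_elS.2 h)
      obtain ⟨j, hj, hjW⟩ := hc v hv hvZ
      refine ⟨v + Pi.single j 1, hj, ?_, hstep v hv (by omega) hvA j hj hjW⟩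
      rw [sum_add_single, hvs]
      omega
  choose! v hv1 hv2 hv3 using h1
  have h2 : (range (s + 1)).card ≤ A.card := by
    refine card_le_card_of_injOn (fun r => el k (v r)) ?_ ?_
    · intro r hr
      exact hv3 r (Nat.lt_succ_iff.1 (mem_range.1 (mem_coe.1 hr)))
    · intro r hr r' hr' h
      have h3 := el_inj k h
      have h4 := hv2 r (Nat.lt_succ_iff.1 (mem_range.1 (mem_coe.1 hr)))
      have h5 := hv2 r' (Nat.lt_succ_iff.1 (mem_range.1 (mem_coe.1 hr')))
      rw [h3] at h4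
      omega
  rw [card_range] at h2
  omega

/-- a step upwards from `el k v`, which is not in the removed set -/
theorem el_step {N : ℕ} {W : Finset (Fin (d + 1) → ℕ)} {A B : Finset (Fin (d + 2) → ℕ)}
    (hBV : B ⊆ V d k) (hB : ups A \ elS (k + 1) W = B.image shl) (hN : 2 * N + 2 ≤ k)
    {v : Fin (d + 1) → ℕ} (hv : ∑ i, v i ≤ N) (hvA : el k v ∈ A) {j : Fin (d + 1)}
    (hj : Monotone (v + Pi.single j 1 : Fin (d + 1) → ℕ)) (hjW : v + Pi.single j 1 ∉ W) :
    el k (v + Pi.single j 1) ∈ B := by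
  have h1 := el_add (k := k) (z := v) (by omega) j
  have h2 : ∑ i, (v + Pi.single j 1 : Fin (d + 1) → ℕ) i = ∑ i, v i + 1 := sum_add_single v j
  have h3 := last_le (v + Pi.single j 1 : Fin (d + 1) → ℕ)
  have h4 : el (k + 1) (v + Pi.single j 1) ∈ V d (k + 1) := el_mem hj (by omega)
  have h5 : el (k + 1) (v + Pi.single j 1) ∈ ups A \ elS (k + 1) W := by
    refine mem_sdiff.2 ⟨mem_ups.2 ⟨(mem_V.1 h4).1, _, hvA, _, h1⟩, ?_⟩
    rw [mem_elS]
    exact hjW
  rw [hB] at h5
  obtain ⟨y, hy, hye⟩ := mem_image.1 h5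
  have h6 : Fin.init y = v + Pi.single j 1 := by
    rw [← init_shl y, hye, init_el]
  rw [← h6, el_init (hBV hy)]
  exact hy

theorem shl_notin {Z : Finset (Fin (d + 1) → ℕ)} {y : Fin (d + 2) → ℕ} (hy : y ∈ V d k) :
    shl y ∈ elS (k + 1) Z ↔ y ∈ elS k Z := by
  rw [mem_elS_iff (shl_mem hy), mem_elS_iff hy, init_shl]

end MoveAAux

open MoveAAux

theorem stat_up {d k : ℕ} (Z : Finset (Fin (d + 1) → ℕ)) {A : Finset (Fin (d + 2) → ℕ)}
    (hA : A ⊆ V d k \ elS k Z) : A.card ≤ (ups A \ elS (k + 1) Z).card := by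
  have hAV : A ⊆ V d k := hA.trans sdiff_subset
  rw [← card_image_of_injective A shl_inj]
  refine card_le_card fun x hx => ?_
  obtain ⟨y, hy, rfl⟩ := mem_image.1 hx
  refine mem_sdiff.2 ⟨shl_mem_ups hAV hy, ?_⟩
  rw [shl_notin (hAV hy)]
  exact (mem_sdiff.1 (hA hy)).2

theorem stat_strict (d : ℕ) (hd : 1 ≤ d) (s : ℕ) (Z : Finset (Fin (d + 1) → ℕ))
    (hc : Crit Z Z) : ∃ K : ℕ, ∀ k : ℕ, K ≤ k → k % (d + 2) ≠ 0 →
      ∀ A ⊆ V d k \ elS k Z, A.card ≤ s → A.Nonempty →
        A.card + 1 ≤ (ups A \ elS (k + 1) Z).card := by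
  obtain ⟨R, hR⟩ := exists_bound Z
  refine ⟨2 * (R + s) + 2, fun k hk hkm A hA hs hne => ?_⟩
  have hAV : A ⊆ V d k := hA.trans sdiff_subset
  by_contra hcon
  have h1 : A.image shl ⊆ ups A \ elS (k + 1) Z := by
    intro x hx
    obtain ⟨y, hy, rfl⟩ := mem_image.1 hx
    refine mem_sdiff.2 ⟨shl_mem_ups hAV hy, ?_⟩
    rw [shl_notin (hAV hy)]
    exact (mem_sdiff.1 (hA hy)).2
  have h2 : A.image shl = ups A \ elS (k + 1) Z := by
    refine eq_of_subset_of_card_le h1 ?_
    rw [card_image_of_injective A shl_inj]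
    omega
  by_cases hex : ∃ y ∈ A, sz y ≤ R
  · obtain ⟨y, hy, hyR⟩ := hex
    have h3 : s < A.card := by
      refine climb (R := R) hc hA (u := Fin.init y) ?_ (init_mono (mem_V.1 (hAV hy)).1) hyR ?_
      · rw [el_init (hAV hy)]
        exact hy
      · intro v _ hvs hvA j hj hjW
        exact el_step hAV h2.symm hk hvs hvA hj hjW
    omega
  · push Not at hex
    have h3 : ups A \ elS (k + 1) Z = ups A := by
      rw [Finset.sdiff_eq_self_iff_disjoint, Finset.disjoint_left]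
      intro x hx hx'
      obtain ⟨_, y, hy, i, rfl⟩ := mem_ups.1 hx
      have h4 := hR _ (init_of_elS hx')
      have h5 := hex y hy
      have h6 := (sz_add y i).1
      unfold sz at h5 h6
      omega
    rw [h3] at hcon
    have := card_lt_ups hd hAV hne (Or.inl hkm)
    omega

theorem move_up (d s : ℕ) (Z W : Finset (Fin (d + 1) → ℕ)) (hc : Crit Z W)
    (hWZ : (W \ Z).card ≤ 1) : ∃ K : ℕ, ∀ k : ℕ, K ≤ k →
      ∀ A ⊆ V d k \ elS k Z, A.card ≤ s → A.card ≤ (ups A \ elS (k + 1) W).card := by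
  classical
  obtain ⟨R, hR⟩ := exists_bound W
  refine ⟨2 * (R + s) + 2, fun k hk A hA hs => ?_⟩
  have hAV : A ⊆ V d k := hA.trans sdiff_subset
  by_contra hcon
  set B : Finset (Fin (d + 2) → ℕ) := A.filter fun y => shl y ∉ elS (k + 1) W with hB
  have hBA : B ⊆ A := filter_subset _ _
  have h1 : B.image shl ⊆ ups A \ elS (k + 1) W := by
    intro x hx
    obtain ⟨y, hy, rfl⟩ := mem_image.1 hx
    obtain ⟨h3, h4⟩ := mem_filter.1 hy
    exact mem_sdiff.2 ⟨shl_mem_ups hAV h3, h4⟩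
  have h2 := card_le_card h1
  rw [card_image_of_injective B shl_inj] at h2
  have h3 : (A \ B).card ≤ (W \ Z).card := by
    refine card_le_card_of_injOn (fun y => Fin.init y) ?_ ?_
    · intro y hy
      obtain ⟨h4, h5⟩ := mem_sdiff.1 (mem_coe.1 hy)
      have h6 : shl y ∈ elS (k + 1) W := by
        by_contra h
        exact h5 (mem_filter.2 ⟨h4, h⟩)
      rw [shl_notin (hAV h4), mem_elS_iff (hAV h4)] at h6
      have h7 := (mem_sdiff.1 (hA h4)).2
      rw [mem_elS_iff (hAV h4)] at h7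
      exact mem_coe.2 (mem_sdiff.2 ⟨h6, h7⟩)
    · intro y hy y' hy' h
      have h4 := hAV (mem_sdiff.1 (mem_coe.1 hy)).1
      have h5 := hAV (mem_sdiff.1 (mem_coe.1 hy')).1
      rw [← el_init h4, ← el_init h5]
      exact congrArg (el k) h
  have h4 : (A \ B).card + B.card = A.card := card_sdiff_add_card_eq_card hBA
  have h5 : ups A \ elS (k + 1) W = B.image shl := by
    symm
    refine eq_of_subset_of_card_le h1 ?_
    rw [card_image_of_injective B shl_inj]
    omega
  have h6 : (A \ B).Nonempty := by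
    rw [← card_pos]
    omega
  obtain ⟨y, hy⟩ := h6
  obtain ⟨hyA, hyB⟩ := mem_sdiff.1 hy
  have h7 : shl y ∈ elS (k + 1) W := by
    by_contra h
    exact hyB (mem_filter.2 ⟨hyA, h⟩)
  have h8 : Fin.init y ∈ W := by
    rw [← init_shl]
    exact init_of_elS h7
  have h9 : s < A.card := by
    refine climb (R := R) hc hA (u := Fin.init y) ?_ (init_mono (mem_V.1 (hAV hyA)).1)
      (hR _ h8) ?_
    · rw [el_init (hAV hyA)]
      exact hyA
    · intro v _ hvs hvA j hj hjW
      exact hBA (el_step (hBA.trans hAV) h5 hk hvs hvA hj hjW)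
  omega

theorem down_le (d s : ℕ) (Z W : Finset (Fin (d + 1) → ℕ)) : ∃ K : ℕ, ∀ k : ℕ, K ≤ k →
    ∀ D ⊆ V d (k + 1) \ elS (k + 1) W, D.card ≤ s →
      D.card ≤ (lo D \ elS k Z).card + (Z \ W).card := by
  classical
  obtain ⟨R, hR⟩ := exists_bound Z
  obtain ⟨C, hC⟩ := crude d
  refine ⟨2 * (R + s) + 2 + C * s, fun k hk D hD hs => ?_⟩
  have hDV : D ⊆ V d (k + 1) := hD.trans sdiff_subset
  -- the empty annulus
  have hann : ∃ t, R ≤ t ∧ t ≤ R + s ∧ ∀ y ∈ D, sz y ≠ t + 1 := by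
    by_contra hno
    push Not at hno
    have h1 : (range (s + 1)).card ≤ (D.image sz).card := by
      refine card_le_card_of_injOn (fun r => R + r + 1) ?_ ?_
      · intro r hr
        have h2 := mem_range.1 (mem_coe.1 hr)
        obtain ⟨y, hy, hy2⟩ := hno (R + r) (by omega) (by omega)
        exact mem_coe.2 (mem_image.2 ⟨y, hy, hy2⟩)
      · intro r _ r' _ h
        simp only at h
        omega
    have h2 : (D.image sz).card ≤ D.card := card_image_le
    rw [card_range] at h1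
    omega
  obtain ⟨t, ht1, ht2, ht⟩ := hann
  set D1 : Finset (Fin (d + 2) → ℕ) := D.filter fun y => sz y ≤ t with hD1
  set D2 : Finset (Fin (d + 2) → ℕ) := D.filter fun y => ¬ sz y ≤ t with hD2
  have hcard : D1.card + D2.card = D.card := card_filter_add_card_filter_not _
  have hD1D : D1 ⊆ D := filter_subset _ _
  have hD2D : D2 ⊆ D := filter_subset _ _
  -- near part
  have hnear : ∀ y ∈ D1, el k (Fin.init y) ∈ V d k ∧ shl (el k (Fin.init y)) = y := by
    intro y hy
    obtain ⟨hyD, hyt⟩ := mem_filter.1 hy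
    have h1 := hDV hyD
    have h2 := last_le (Fin.init y : Fin (d + 1) → ℕ)
    unfold sz at hyt
    refine ⟨el_mem (init_mono (mem_V.1 h1).1) (by omega), ?_⟩
    rw [shl_el (by omega), el_init h1]
  set E : Finset (Fin (d + 2) → ℕ) := D1.image fun y => el k (Fin.init y) with hE
  have hEcard : E.card = D1.card := by
    refine card_image_of_injOn ?_
    intro y hy y' hy' h
    simp only at h
    rw [← (hnear y (mem_coe.1 hy)).2, ← (hnear y' (mem_coe.1 hy')).2, h]
  have hElo : E ⊆ lo D := by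
    intro x hx
    obtain ⟨y, hy, rfl⟩ := mem_image.1 hx
    obtain ⟨h1, h2⟩ := hnear y hy
    refine mem_lo.2 ⟨(mem_V.1 h1).1, Fin.last (d + 1), ?_⟩
    have h3 : el k (Fin.init y) + Pi.single (Fin.last (d + 1)) 1 = y := h2
    rw [h3]
    exact hD1D hy
  have hEZ : (E ∩ elS k Z).card ≤ (Z \ W).card := by
    refine card_le_card_of_injOn (fun y => Fin.init y) ?_ ?_
    · intro x hx
      obtain ⟨h1, h2⟩ := mem_inter.1 (mem_coe.1 hx)
      obtain ⟨y, hy, rfl⟩ := mem_image.1 h1
      rw [mem_elS] at h2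
      have h3 := (mem_sdiff.1 (hD (hD1D hy))).2
      rw [mem_elS_iff (hDV (hD1D hy))] at h3
      simp only [init_el]
      exact mem_coe.2 (mem_sdiff.2 ⟨h2, h3⟩)
    · intro x hx x' hx' h
      obtain ⟨y, hy, rfl⟩ := mem_image.1 (mem_inter.1 (mem_coe.1 hx)).1
      obtain ⟨y', hy', rfl⟩ := mem_image.1 (mem_inter.1 (mem_coe.1 hx')).1
      simp only [init_el] at h
      rw [h]
  -- far part
  have hfar : D2.card ≤ (lo D2).card := by
    have h1 := hC (k + 1) D2 (hD2D.trans hDV)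
    have h2 : D2.card ≤ s := (card_le_card hD2D).trans hs
    by_contra h3
    push Not at h3
    have h4 : (k + 1) * ((lo D2).card + 1) ≤ (k + 1) * D2.card := Nat.mul_le_mul_left _ h3
    have h5 : C * D2.card ≤ C * s := Nat.mul_le_mul_left _ h2
    rw [mul_add, mul_one] at h4
    omega
  have hsz : ∀ x ∈ lo D2, t + 1 ≤ sz x := by
    intro x hx
    obtain ⟨_, i, hi⟩ := mem_lo.1 hx
    obtain ⟨h1, h2⟩ := mem_filter.1 hi
    have h3 := (sz_add x i).2
    have h4 := ht _ h1
    omega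
  have hdis : Disjoint (E \ elS k Z) (lo D2) := by
    rw [Finset.disjoint_left]
    intro x hx hx'
    obtain ⟨y, hy, rfl⟩ := mem_image.1 (mem_sdiff.1 hx).1
    have h1 := hsz _ hx'
    rw [sz_el] at h1
    have h2 : sz y ≤ t := (mem_filter.1 hy).2
    unfold sz at h2
    omega
  have hsub : (E \ elS k Z) ∪ lo D2 ⊆ lo D \ elS k Z := by
    intro x hx
    rcases mem_union.1 hx with h | h
    · obtain ⟨h1, h2⟩ := mem_sdiff.1 h
      exact mem_sdiff.2 ⟨hElo h1, h2⟩
    · refine mem_sdiff.2 ⟨?_, ?_⟩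
      · obtain ⟨h1, i, hi⟩ := mem_lo.1 h
        exact mem_lo.2 ⟨h1, i, hD2D hi⟩
      · intro h1
        have h2 := hR _ (init_of_elS h1)
        have h3 := hsz x h
        unfold sz at h3
        omega
  have h1 := card_le_card hsub
  rw [card_union_of_disjoint hdis] at h1
  have h2 : (E ∩ elS k Z).card + (E \ elS k Z).card = E.card := card_inter_add_card_sdiff _ _
  omega

end Pool.Agent.Helper43.SN
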