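import Pool.Agent.Helper43.SN.Iso
import Pool.Agent.Helper43.SN.Crude
import Pool.Agent.Helper43.SN.Big

set_option autoImplicit false

/-!
# SN-9 Punct: for a bounded number `H` of special elements only small sets can violate `KP`

PROOF. `N = k + 1`. Let `(A, D)` violate `KP X X1 X' X1'`. `|ups A \ X1| ≥ |ups A| - H`,
`|lo D \ X'| ≥ |lo D| - H`. So `|lo D| < |A| + H`, and with `f = |ups A| - |A|`:
`f < |D| - |lo D| + 2 H ≤ C |D| / N + 2 H` (`crude`); `|D| ≤ 2 (|A| + H)` as soon as `N ≥ 2 C`. So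
`f + 1 ≤ 2 H + 1 + 2 C (|A| + H)/N ≤ (2 H + 2) + 2 C |A| / N` for large `N`. By `iso` either
`2 C |A| / N ≤ 2 H + 2`, then `|A|^d ≤ ((2d+5)(4H+4))^(d+1)`, so `|A| ≤ s'` (`d ≥ 1`),
`|D| ≤ 2 (s' + H)`: with `s = 2 (s' + H)` this contradicts `KPs X X1 X' X1'`; or
`|A|^d ≤ ((2d+5) 4 C |A| / N)^(d+1)`, so `|A| ≥ ε₁ N^(d+1)`, and then
`|D| ≥ (N/C)(f - 2H)` with `f + 1 ≥ |A|^(d/(d+1))/(2d+5)`, so `|D| ≥ ε₁ N^(d+1)` (smaller `ε₁`, large
`N`). In this case `big_viol` (`E = D`, `h = H`, `h' = 2 H`, `ε = ε₁/2`):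
`|V k| ≤ |lo D| + ε N^(d+1)`. By `dual` the pair `A'' = (V k \ X') \ lo D`, `(V (k+1) \ X1) \ ups A`
violates `KP X' X1' X X1`, so by the same dichotomy (with `KPs X' X1' X X1`) `|A''| ≥ ε₁ N^(d+1)`.
Contradiction, as `|A''| ≤ |V k| - |lo D|`.
-/

namespace Pool.Agent.Helper43.SN

open Finset Pool.Agent.Helper46.MR

namespace PunctAux

/-- the arithmetic of the dichotomy -/
theorem arith {d H C N a u l D : ℕ} (hd : 1 ≤ d) (hC : 1 ≤ C) (hN1 : 2 * C ≤ N)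
    (hN2 : 2 * C * H ≤ N)
    (hN3 : 2 * (((2 * d + 5) * (4 * C)) ^ d * (2 * d + 5)) * (2 * H + 1) ≤ N)
    (hau : a ≤ u) (hcr : N * D ≤ N * l + C * D)
    (hiso : a ^ d ≤ ((2 * d + 5) * (u - a + 1)) ^ (d + 1)) (h1 : l < a + H)
    (h2 : u + l < a + D + 2 * H) :
    (a ≤ 2 * (((2 * d + 5) * (4 * H + 4)) ^ (d + 1) + H) ∧
      D ≤ 2 * (((2 * d + 5) * (4 * H + 4)) ^ (d + 1) + H)) ∨
    (N ^ (d + 1) ≤ (((2 * d + 5) * (4 * C)) ^ (d + 1) +
        2 * (((2 * d + 5) * (4 * C)) ^ d * (2 * d + 5)) * C) * a ∧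
      N ^ (d + 1) ≤ (((2 * d + 5) * (4 * C)) ^ (d + 1) +
        2 * (((2 * d + 5) * (4 * C)) ^ d * (2 * d + 5)) * C) * D) := by
  obtain ⟨f, rfl⟩ := Nat.exists_eq_add_of_le hau
  rw [Nat.add_sub_cancel_left] at hiso
  have hN0 : 0 < N := by omega
  -- `D ≤ 2 l`
  have hD2 : D ≤ 2 * l := by
    refine le_of_mul_le_mul_left (a := N) ?_ hN0
    have h3 : 2 * C * D ≤ N * D := Nat.mul_le_mul_right D hN1
    nlinarith
  have hNf : N * (f + 1) ≤ C * D + 2 * H * N := by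
    have h3 : f + l + 1 ≤ D + 2 * H := by omega
    have h4 : N * (f + l + 1) ≤ N * (D + 2 * H) := Nat.mul_le_mul_left N h3
    nlinarith
  have hNf2 : N * (f + 1) ≤ 2 * C * a + (2 * H + 1) * N := by
    have h3 : D ≤ 2 * (a + H) := by omega
    have h4 : C * D ≤ C * (2 * (a + H)) := Nat.mul_le_mul_left C h3
    nlinarith
  set Q := (2 * d + 5) * (4 * C) with hQ
  by_cases hcase : 2 * C * a ≤ (2 * H + 2) * N
  · left
    have h3 : f + 1 ≤ 4 * H + 4 := by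
      refine le_of_mul_le_mul_left (a := N) ?_ hN0
      nlinarith
    have h4 : a ≤ ((2 * d + 5) * (4 * H + 4)) ^ (d + 1) :=
      (Nat.le_self_pow (by omega) a).trans
        (hiso.trans (Nat.pow_le_pow_left (Nat.mul_le_mul_left _ h3) _))
    constructor <;> omega
  · right
    push Not at hcase
    have ha : 0 < a := by
      rcases Nat.eq_zero_or_pos a with h | h
      · subst h
        simp at hcase
      · exact h
    have h3 : N * (f + 1) ≤ 4 * C * a := by nlinarith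
    -- `N^(d+1) ≤ Q^(d+1) a`
    have h4 : N ^ (d + 1) ≤ Q ^ (d + 1) * a := by
      refine le_of_mul_le_mul_left (a := a ^ d) ?_ (pow_pos ha d)
      calc a ^ d * N ^ (d + 1) ≤ ((2 * d + 5) * (f + 1)) ^ (d + 1) * N ^ (d + 1) :=
            Nat.mul_le_mul_right _ hiso
        _ = ((2 * d + 5) * (N * (f + 1))) ^ (d + 1) := by rw [← mul_pow]; ring
        _ ≤ ((2 * d + 5) * (4 * C * a)) ^ (d + 1) :=
            Nat.pow_le_pow_left (Nat.mul_le_mul_left _ h3) _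
        _ = a ^ d * (Q ^ (d + 1) * a) := by
            rw [show (2 * d + 5) * (4 * C * a) = Q * a by rw [hQ]; ring, mul_pow, pow_succ a d]
            ring
    -- `N^d ≤ Q^d (2d+5) (f+1)`
    have h5 : N ^ d ≤ Q ^ d * (2 * d + 5) * (f + 1) := by
      have h6 : (N ^ d) ^ (d + 1) ≤ (Q ^ d * (2 * d + 5) * (f + 1)) ^ (d + 1) := by
        calc (N ^ d) ^ (d + 1) = (N ^ (d + 1)) ^ d := by rw [← pow_mul, ← pow_mul, mul_comm]
          _ ≤ (Q ^ (d + 1) * a) ^ d := Nat.pow_le_pow_left h4 _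
          _ = (Q ^ d) ^ (d + 1) * a ^ d := by
              rw [mul_pow, ← pow_mul, ← pow_mul, mul_comm (d + 1) d]
          _ ≤ (Q ^ d) ^ (d + 1) * ((2 * d + 5) * (f + 1)) ^ (d + 1) :=
              Nat.mul_le_mul_left _ hiso
          _ = (Q ^ d * (2 * d + 5) * (f + 1)) ^ (d + 1) := by rw [← mul_pow]; ring
      exact (Nat.pow_le_pow_iff_left (Nat.succ_ne_zero d)).1 h6
    set R := Q ^ d * (2 * d + 5) with hR
    have h7 : N ^ (d + 1) ≤ R * (C * D + 2 * H * N) := by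
      calc N ^ (d + 1) = N ^ d * N := pow_succ _ _
        _ ≤ R * (f + 1) * N := Nat.mul_le_mul_right _ h5
        _ = R * (N * (f + 1)) := by ring
        _ ≤ _ := Nat.mul_le_mul_left _ hNf
    have h8 : 2 * R * (2 * H + 1) * N ≤ N ^ (d + 1) := by
      calc 2 * R * (2 * H + 1) * N ≤ N * N := Nat.mul_le_mul_right _ hN3
        _ ≤ N ^ d * N := Nat.mul_le_mul_right _ (Nat.le_self_pow (by omega) N)
        _ = _ := (pow_succ _ _).symm
    have h9 : N ^ (d + 1) ≤ 2 * R * C * D := by nlinarith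
    constructor
    · calc N ^ (d + 1) ≤ Q ^ (d + 1) * a := h4
        _ ≤ _ := Nat.mul_le_mul_right _ (Nat.le_add_right _ _)
    · calc N ^ (d + 1) ≤ 2 * R * C * D := h9
        _ ≤ _ := Nat.mul_le_mul_right _ (Nat.le_add_left _ _)

/-- a violating pair is small or big -/
theorem dich (d : ℕ) (hd : 1 ≤ d) (H : ℕ) : ∃ s E K : ℕ, 1 ≤ E ∧ ∀ k : ℕ, K ≤ k →
    ∀ X1 X' : Finset (Fin (d + 2) → ℕ), X1.card = H → X'.card = H →
    ∀ A ⊆ V d k, ∀ D ⊆ V d (k + 1), (lo D \ X').card < A.card →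
      (ups A \ X1).card + (lo D \ X').card < A.card + D.card →
      (A.card ≤ s ∧ D.card ≤ s) ∨
      ((k + 1) ^ (d + 1) ≤ E * A.card ∧ (k + 1) ^ (d + 1) ≤ E * D.card) := by
  obtain ⟨C0, hC0⟩ := crude d
  refine ⟨2 * (((2 * d + 5) * (4 * H + 4)) ^ (d + 1) + H),
    ((2 * d + 5) * (4 * (C0 + 1))) ^ (d + 1) +
        2 * (((2 * d + 5) * (4 * (C0 + 1))) ^ d * (2 * d + 5)) * (C0 + 1),
    2 * (C0 + 1) + 2 * (C0 + 1) * H +
      2 * (((2 * d + 5) * (4 * (C0 + 1))) ^ d * (2 * d + 5)) * (2 * H + 1), ?_, ?_⟩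
  · have : 0 < ((2 * d + 5) * (4 * (C0 + 1))) ^ (d + 1) := pow_pos (by positivity) _
    omega
  intro k hk X1 X' hX1 hX' A hA D hD h1 h2
  have e1 : (ups A).card ≤ (ups A \ X1).card + X1.card := card_le_card_sdiff_add_card
  have e2 : (lo D).card ≤ (lo D \ X').card + X'.card := card_le_card_sdiff_add_card
  have hcr := hC0 (k + 1) D hD
  refine arith (d := d) (H := H) (C := C0 + 1) (N := k + 1) (a := A.card) (u := (ups A).card)
    (l := (lo D).card) (D := D.card) hd (by omega) (by omega) (by omega) (by omega)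
    (card_le_ups hA) ?_ (iso hA) (by omega) (by omega)
  calc (k + 1) * D.card ≤ (k + 1) * (lo D).card + C0 * D.card := hcr
    _ ≤ _ := Nat.add_le_add_left (Nat.mul_le_mul_right _ (Nat.le_succ _)) _

end PunctAux

theorem punct (d : ℕ) (hd : 1 ≤ d) (H : ℕ) : ∃ s K : ℕ, ∀ k : ℕ, K ≤ k →
    ∀ X ⊆ V d k, ∀ X' ⊆ V d k, ∀ X1 ⊆ V d (k + 1), ∀ X1' ⊆ V d (k + 1),
      X.card = H → X'.card = H → X1.card = H → X1'.card = H →
      KPs d k s X X1 X' X1' → KPs d k s X' X1' X X1 → KP d k X X1 X' X1' := by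
  obtain ⟨s, E, K0, hE, hdich⟩ := PunctAux.dich d hd H
  have hE0 : (0 : ℝ) < E := by exact_mod_cast hE
  obtain ⟨δ, K1, hδ, hbig⟩ := big_viol d hd (1 / E) (1 / (2 * E)) (by positivity) (by positivity)
  obtain ⟨K2, hK2⟩ := exists_nat_ge (2 * H / δ)
  refine ⟨s, K0 + K1 + K2, fun k hk X hX X' hX' X1 hX1 X1' hX1' cX cX' cX1 cX1' hs hs' => ?_⟩
  intro A hA D hD
  by_contra hcon
  push Not at hcon
  obtain ⟨h1, h2⟩ := hcon
  have hAV : A ⊆ V d k := hA.trans sdiff_subset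
  have hDV : D ⊆ V d (k + 1) := hD.trans sdiff_subset
  have e1 : (ups A).card ≤ (ups A \ X1).card + X1.card := card_le_card_sdiff_add_card
  have e2 : (lo D).card ≤ (lo D \ X').card + X'.card := card_le_card_sdiff_add_card
  rcases hdich k (by omega) X1 X' cX1 cX' A hAV D hDV h1 h2 with ⟨h3, h4⟩ | ⟨h3, h4⟩
  · rcases hs A hA D hD h3 h4 with h5 | h5 <;> omega
  -- the dual pair
  obtain ⟨g1, g2⟩ := dual hX hX' hX1 hX1' (cX.trans cX'.symm) (cX1.trans cX1'.symm) hA hD h1 h2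
  have hA0 : (V d k \ X') \ lo D ⊆ V d k \ X' := sdiff_subset
  have hD0 : (V d (k + 1) \ X1) \ ups A ⊆ V d (k + 1) \ X1 := sdiff_subset
  rcases hdich k (by omega) X1' X cX1' cX _ (hA0.trans sdiff_subset) _ (hD0.trans sdiff_subset)
    g1 g2 with ⟨h5, h6⟩ | ⟨h5, -⟩
  · rcases hs' _ hA0 _ hD0 h5 h6 with h7 | h7 <;> omega
  -- both pairs are big
  have hN1 : (1 : ℝ) ≤ (k : ℝ) + 1 := by
    have : (0 : ℝ) ≤ k := Nat.cast_nonneg k
    linarith
  have hNp : (0 : ℝ) < ((k : ℝ) + 1) ^ (d + 1) := pow_pos (by linarith) _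
  have hH2 : (2 * H : ℝ) ≤ δ * ((k : ℝ) + 1) ^ d := by
    have h6 : (2 * H : ℝ) ≤ δ * K2 := by
      rw [div_le_iff₀ hδ] at hK2
      linarith
    have h7 : (K2 : ℝ) ≤ (k : ℝ) + 1 := by
      have : K2 ≤ k + 1 := by omega
      exact_mod_cast this
    have h8 : (k : ℝ) + 1 ≤ ((k : ℝ) + 1) ^ d := le_self_pow₀ hN1 (by omega)
    calc (2 * H : ℝ) ≤ δ * K2 := h6
      _ ≤ _ := mul_le_mul_of_nonneg_left (h7.trans h8) hδ.le
  have hH1 : (H : ℝ) ≤ δ * ((k : ℝ) + 1) ^ (d + 1) := by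
    have h6 : ((k : ℝ) + 1) ^ d ≤ ((k : ℝ) + 1) ^ (d + 1) := pow_le_pow_right₀ hN1 (Nat.le_succ d)
    have h7 : δ * ((k : ℝ) + 1) ^ d ≤ δ * ((k : ℝ) + 1) ^ (d + 1) :=
      mul_le_mul_of_nonneg_left h6 hδ.le
    have h8 : (0 : ℝ) ≤ H := Nat.cast_nonneg H
    linarith
  have c3 : (1 / (E : ℝ)) * ((k : ℝ) + 1) ^ (d + 1) ≤ A.card := by
    rw [div_mul_eq_mul_div, one_mul, div_le_iff₀ hE0, mul_comm]
    exact_mod_cast h3
  have c4 : (1 / (E : ℝ)) * ((k : ℝ) + 1) ^ (d + 1) ≤ D.card := by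
    rw [div_mul_eq_mul_div, one_mul, div_le_iff₀ hE0, mul_comm]
    exact_mod_cast h4
  have c1 : ((lo D).card : ℝ) ≤ A.card + H := by
    have : (lo D).card ≤ A.card + H := by omega
    exact_mod_cast this
  have c2 : ((ups A).card : ℝ) + (lo D).card ≤ A.card + D.card + 2 * H := by
    have : (ups A).card + (lo D).card ≤ A.card + D.card + 2 * H := by omega
    exact_mod_cast this
  obtain ⟨-, h6⟩ := hbig k (by omega) A hAV D hDV H (2 * H) hH1 hH2 c3 c4 c1 c2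
  have h7 : ((V d k \ X') \ lo D).card + (lo D).card ≤ (V d k).card := by
    have : ((V d k \ X') \ lo D).card ≤ (V d k \ lo D).card :=
      card_le_card (sdiff_subset_sdiff sdiff_subset Subset.rfl)
    have h8 := card_sdiff_add_card_eq_card (lo_sub hDV)
    omega
  have h8 : (((V d k \ X') \ lo D).card : ℝ) + (lo D).card ≤ (V d k).card := by exact_mod_cast h7
  have h9 : ((k : ℝ) + 1) ^ (d + 1) ≤ E * (((V d k \ X') \ lo D).card : ℝ) := by
    exact_mod_cast h5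
  have h10 : E * (((V d k \ X') \ lo D).card : ℝ) ≤ ((k : ℝ) + 1) ^ (d + 1) / 2 := by
    calc E * (((V d k \ X') \ lo D).card : ℝ)
        ≤ E * (1 / (2 * E) * ((k : ℝ) + 1) ^ (d + 1)) :=
          mul_le_mul_of_nonneg_left (by linarith) hE0.le
      _ = ((k : ℝ) + 1) ^ (d + 1) / 2 := by
          field_simp
  linarith

end Pool.Agent.Helper43.SN
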