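import Pool.Agent.Helper43.SN.MoveA
import Pool.Agent.Helper43.SN.Punct

set_option autoImplicit false

/-!
# SN-18 MoveKP: `KP` when nothing moves, or one set move on the first side

PROOF. `H` = the common cardinality, `s`, `K` from `punct d hd H`; `elS k Z ⊆ V k` for large `k`
(`el_mem`), `|elS k Z| = |Z|` (`el_inj`). Both `KPs` are checked by the second alternative (or trivially):
`kp_static`: `|A| ≤ |ups A \ X1|` (`stat_up`), `|D| ≤ |lo D \ X'|` (`down_le` with `Z = W`).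
`kp_move`: `KPs X X1 X' X1'`: `move_up` for `Z`, `W` and `down_le` for `Z'`, `Z'`.
`KPs X' X1' X X1`: `A ⊆ V k \ elS k Z'`: `A = ∅`: first alternative; `A ≠ ∅`: `|A| + 1 ≤ |ups A \ X1'|`
(`stat_strict` for `Z'`), `|D| ≤ |lo D \ elS k Z| + |Z \ W| ≤ .. + 1` (`down_le`;
`|Z \ W| = |W \ Z|` as `|Z| = |W|`).
-/

namespace Pool.Agent.Helper43.SN

open Finset Pool.Agent.Helper46.MR

namespace MoveKPAux

/-- places of `Z` are elements of all large levels -/
theorem exists_level {d : ℕ} (Z : Finset (Fin (d + 1) → ℕ)) (mZ : ∀ z ∈ Z, Monotone z) :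
    ∃ K : ℕ, ∀ k : ℕ, K ≤ k → elS k Z ⊆ V d k := by
  classical
  refine ⟨Z.sup fun z => (∑ i, z i) + z (Fin.last d), fun k hk => ?_⟩
  intro y hy
  unfold elS at hy
  obtain ⟨z, hz, rfl⟩ := mem_image.1 hy
  exact el_mem (mZ z hz) ((Finset.le_sup (f := fun z : Fin (d + 1) → ℕ =>
    (∑ i, z i) + z (Fin.last d)) hz).trans hk)

theorem card_elS {d : ℕ} (k : ℕ) (Z : Finset (Fin (d + 1) → ℕ)) :
    (elS k Z).card = Z.card := by
  classical
  unfold elS
  exact card_image_of_injective Z (el_inj k)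

end MoveKPAux

open MoveKPAux in
theorem kp_static (d : ℕ) (hd : 1 ≤ d) (Z Z' : Finset (Fin (d + 1) → ℕ))
    (mZ : ∀ z ∈ Z, Monotone z) (mZ' : ∀ z ∈ Z', Monotone z) (hc : Z.card = Z'.card) :
    ∃ K : ℕ, ∀ k : ℕ, K ≤ k →
      KP d k (elS k Z) (elS (k + 1) Z) (elS k Z') (elS (k + 1) Z') := by
  obtain ⟨s, K0, h0⟩ := punct d hd Z.card
  obtain ⟨K1, h1⟩ := exists_level Z mZ
  obtain ⟨K2, h2⟩ := exists_level Z' mZ'
  obtain ⟨K3, h3⟩ := down_le d s Z Z
  obtain ⟨K4, h4⟩ := down_le d s Z' Z'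
  refine ⟨K0 + K1 + K2 + K3 + K4, fun k hk => ?_⟩
  refine h0 k (by omega) _ (h1 k (by omega)) _ (h2 k (by omega)) _ (h1 (k + 1) (by omega)) _
    (h2 (k + 1) (by omega)) (card_elS _ _) ((card_elS _ _).trans hc.symm) (card_elS _ _)
    ((card_elS _ _).trans hc.symm) ?_ ?_
  · intro A hA D hD _ hDs
    right
    have e1 := stat_up Z hA
    have e2 := h4 k (by omega) D hD hDs
    rw [Finset.sdiff_self, card_empty] at e2
    omega
  · intro A hA D hD _ hDs
    right
    have e1 := stat_up Z' hA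
    have e2 := h3 k (by omega) D hD hDs
    rw [Finset.sdiff_self, card_empty] at e2
    omega

open MoveKPAux in
theorem kp_move (d : ℕ) (hd : 1 ≤ d) (Z W Z' : Finset (Fin (d + 1) → ℕ))
    (mZ : ∀ z ∈ Z, Monotone z) (mW : ∀ z ∈ W, Monotone z) (mZ' : ∀ z ∈ Z', Monotone z)
    (hc : Z.card = Z'.card) (hc' : W.card = Z.card) (hWZ : (W \ Z).card ≤ 1)
    (hcr : Crit Z W) (hcr' : Crit Z' Z') :
    ∃ K : ℕ, ∀ k : ℕ, K ≤ k → k % (d + 2) ≠ 0 →
      KP d k (elS k Z) (elS (k + 1) W) (elS k Z') (elS (k + 1) Z') := by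
  obtain ⟨s, K0, h0⟩ := punct d hd Z.card
  obtain ⟨K1, h1⟩ := exists_level Z mZ
  obtain ⟨K2, h2⟩ := exists_level Z' mZ'
  obtain ⟨K3, h3⟩ := exists_level W mW
  obtain ⟨K4, h4⟩ := move_up d s Z W hcr hWZ
  obtain ⟨K5, h5⟩ := down_le d s Z' Z'
  obtain ⟨K6, h6⟩ := stat_strict d hd s Z' hcr'
  obtain ⟨K7, h7⟩ := down_le d s Z W
  have hZW : (Z \ W).card ≤ 1 := by
    have e1 := card_sdiff_add_card_inter Z W
    have e2 := card_sdiff_add_card_inter W Z
    rw [inter_comm] at e2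
    omega
  refine ⟨K0 + K1 + K2 + K3 + K4 + K5 + K6 + K7, fun k hk hk' => ?_⟩
  refine h0 k (by omega) _ (h1 k (by omega)) _ (h2 k (by omega)) _ (h3 (k + 1) (by omega)) _
    (h2 (k + 1) (by omega)) (card_elS _ _) ((card_elS _ _).trans hc.symm)
    ((card_elS _ _).trans hc') ((card_elS _ _).trans hc.symm) ?_ ?_
  · intro A hA D hD hAs hDs
    right
    have e1 := h4 k (by omega) A hA hAs
    have e2 := h5 k (by omega) D hD hDs
    rw [Finset.sdiff_self, card_empty] at e2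
    omega
  · intro A hA D hD hAs hDs
    rcases A.eq_empty_or_nonempty with rfl | hne
    · left
      rw [card_empty]
      exact Nat.zero_le _
    · right
      have e1 := h6 k (by omega) hk' A hA hAs hne
      have e2 := h7 k (by omega) D hD hDs
      omega

end Pool.Agent.Helper43.SN
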