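import Pool.Agent.Helper43.SN.Defs2
import Pool.Agent.Helper43.SN.Size

set_option autoImplicit false

/-!
# SN-29 Nice: good targets

PROOF. `bad_blk`: at most `C (n+1)^d` elements of `V d n` are not `Blk N`: for `y 0 = δ < N`, or
`y (j+1) - y j = δ < N`, the element is determined by `δ`, `j` and by the coordinates other than two of them
(other than `0`, last; other than `j`, `j+1`, since the sum is `n`), which are `≤ n`: at most
`(d+2) N (n+1)^d` (crude count). `bad_last`: at most `(n+1)^d` elements have a given last coordinate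
(determined by the coordinates other than `0` and last). Greedy choice of `t 1, t 2, ..`: at every step the
forbidden elements `y` are: `y` or `π y` not `Blk N`; the last coordinate of `y` within distance `< N` of that
of an earlier `t i`; the last coordinate of `π y` within `< N` of that of an earlier `π (t i)`: together
at most `C' (n+1)^d < c (n+1)^(d+1) ≤ |V d n|` (`V_lo`) for large `n` (`π` is a bijection).
-/

namespace Pool.Agent.Helper43.SN

open Finset Pool.Agent.Helper46.MR

/-- a set of elements of level `n` which are determined by the coordinates other than `a`, `b` -/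
private theorem card_det {d n : ℕ} {a b : Fin (d + 2)} (hab : a ≠ b)
    {S : Finset (Fin (d + 2) → ℕ)} (hS : S ⊆ V d n)
    (h : ∀ y ∈ S, ∀ y' ∈ S, (∀ i, i ≠ a → i ≠ b → y i = y' i) → y = y') :
    S.card ≤ (n + 1) ^ d := by
  classical
  have h1 : S.card ≤ (Fintype.piFinset fun i : Fin (d + 2) =>
      if i = a ∨ i = b then ({0} : Finset ℕ) else range (n + 1)).card := by
    refine card_le_card_of_injOn (fun y i => if i = a ∨ i = b then 0 else y i) ?_ ?_
    · intro y hy
      rw [mem_coe, Fintype.mem_piFinset]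
      intro i
      have h2 := (mem_V.1 (hS (mem_coe.1 hy))).2
      have h3 : y i ≤ ∑ j, y j :=
        single_le_sum (f := y) (fun _ _ => Nat.zero_le _) (mem_univ _)
      by_cases hi : i = a ∨ i = b
      · simp [hi]
      · simp only [hi, if_false, mem_range]
        omega
    · intro y hy y' hy' hyy
      refine h y (mem_coe.1 hy) y' (mem_coe.1 hy') fun i hia hib => ?_
      have h2 := congrFun hyy i
      simpa [hia, hib] using h2
  refine h1.trans (le_of_eq ?_)
  rw [Fintype.card_piFinset]
  have h2 : ∀ i : Fin (d + 2), (if i = a ∨ i = b then ({0} : Finset ℕ) else range (n + 1)).card =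
      if i = a ∨ i = b then 1 else n + 1 := by
    intro i
    split_ifs <;> simp
  simp only [h2]
  rw [prod_ite, prod_const_one, one_mul, prod_const]
  congr 1
  have h3 : (univ.filter fun i : Fin (d + 2) => ¬ (i = a ∨ i = b)) = univ \ {a, b} := by
    ext i
    simp
  rw [h3, card_sdiff_of_subset (subset_univ _), card_pair hab, card_univ, Fintype.card_fin]
  rfl

/-- the sum of the coordinates, two of them separated -/
private theorem sum_two {d : ℕ} {a b : Fin (d + 2)} (hab : a ≠ b) (y : Fin (d + 2) → ℕ) :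
    ∑ i, y i = y a + y b + ∑ i ∈ univ \ {a, b}, y i := by
  have h := sum_sdiff (f := y) (subset_univ ({a, b} : Finset (Fin (d + 2))))
  rw [sum_pair hab] at h
  rw [← h, add_comm]

private theorem sum_rest {d : ℕ} {a b : Fin (d + 2)} {y y' : Fin (d + 2) → ℕ}
    (h : ∀ i, i ≠ a → i ≠ b → y i = y' i) :
    ∑ i ∈ univ \ {a, b}, y i = ∑ i ∈ univ \ {a, b}, y' i := by
  refine sum_congr rfl fun i hi => ?_
  simp only [mem_sdiff, mem_univ, mem_insert, mem_singleton, true_and, not_or] at hi
  exact h i hi.1 hi.2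

/-- the elements with a given difference of two different coordinates -/
private theorem card_diff {d n : ℕ} {a b : Fin (d + 2)} (hab : a ≠ b) (δ : ℕ) :
    ((V d n).filter fun y => y b = y a + δ).card ≤ (n + 1) ^ d := by
  refine card_det hab (filter_subset _ _) fun y hy y' hy' h => ?_
  rw [mem_filter] at hy hy'
  have h1 := (mem_V.1 hy.1).2
  have h2 := (mem_V.1 hy'.1).2
  rw [sum_two hab] at h1 h2
  rw [sum_rest h] at h1
  have h3 := hy.2
  have h4 := hy'.2
  have ha : y a = y' a := by omega
  have hb : y b = y' b := by omega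
  funext i
  by_cases hia : i = a
  · rw [hia, ha]
  · by_cases hib : i = b
    · rw [hib, hb]
    · exact h i hia hib

/-- the elements with a given value of a coordinate -/
private theorem card_val {d n : ℕ} {a b : Fin (d + 2)} (hab : a ≠ b) (δ : ℕ) :
    ((V d n).filter fun y => y a = δ).card ≤ (n + 1) ^ d := by
  refine card_det hab (filter_subset _ _) fun y hy y' hy' h => ?_
  rw [mem_filter] at hy hy'
  have h1 := (mem_V.1 hy.1).2
  have h2 := (mem_V.1 hy'.1).2
  rw [sum_two hab] at h1 h2
  rw [sum_rest h] at h1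
  have h3 := hy.2
  have h4 := hy'.2
  have ha : y a = y' a := by omega
  have hb : y b = y' b := by omega
  funext i
  by_cases hia : i = a
  · rw [hia, ha]
  · by_cases hib : i = b
    · rw [hib, hb]
    · exact h i hia hib

theorem bad_blk (d N n : ℕ) :
    ((V d n).filter fun y => ¬ (N ≤ y 0 ∧ ∀ j : Fin (d + 1), y j.castSucc + N ≤ y j.succ)).card
      ≤ (d + 2) * N * (n + 1) ^ d := by
  classical
  have h0 : (0 : Fin (d + 2)) ≠ Fin.last (d + 1) := by
    intro h
    have := congrArg Fin.val h
    simp at this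
  have hsub : ((V d n).filter fun y =>
      ¬ (N ≤ y 0 ∧ ∀ j : Fin (d + 1), y j.castSucc + N ≤ y j.succ)) ⊆
      ((range N).biUnion fun δ => (V d n).filter fun y => y 0 = δ) ∪
      ((univ : Finset (Fin (d + 1))).biUnion fun j => (range N).biUnion fun δ =>
        (V d n).filter fun y => y j.succ = y j.castSucc + δ) := by
    intro y hy
    rw [mem_filter] at hy
    obtain ⟨hyV, hy⟩ := hy
    have hm := (mem_V.1 hyV).1
    rw [mem_union]
    by_cases h1 : N ≤ y 0
    · right
      have h2 : ∃ j : Fin (d + 1), ¬ (y j.castSucc + N ≤ y j.succ) := by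
        by_contra hcon
        push Not at hcon
        exact hy ⟨h1, hcon⟩
      obtain ⟨j, hj⟩ := h2
      have h3 : y j.castSucc ≤ y j.succ := hm (Fin.castSucc_le_succ j)
      rw [mem_biUnion]
      refine ⟨j, mem_univ _, ?_⟩
      rw [mem_biUnion]
      refine ⟨y j.succ - y j.castSucc, ?_, ?_⟩
      · rw [mem_range]
        omega
      · rw [mem_filter]
        exact ⟨hyV, by omega⟩
    · left
      rw [mem_biUnion]
      exact ⟨y 0, by rw [mem_range]; omega, by rw [mem_filter]; exact ⟨hyV, rfl⟩⟩
  refine (card_le_card hsub).trans ((card_union_le _ _).trans ?_)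
  have h1 : ((range N).biUnion fun δ => (V d n).filter fun y => y 0 = δ).card ≤
      N * (n + 1) ^ d := by
    have := card_biUnion_le_card_mul (range N) (fun δ => (V d n).filter fun y => y 0 = δ)
      ((n + 1) ^ d) (fun δ _ => card_val h0 δ)
    rwa [card_range] at this
  have h2 : ((univ : Finset (Fin (d + 1))).biUnion fun j => (range N).biUnion fun δ =>
        (V d n).filter fun y => y j.succ = y j.castSucc + δ).card ≤
      (d + 1) * (N * (n + 1) ^ d) := by
    have := card_biUnion_le_card_mul (univ : Finset (Fin (d + 1))) (fun j =>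
      (range N).biUnion fun δ => (V d n).filter fun y => y j.succ = y j.castSucc + δ)
      (N * (n + 1) ^ d) (fun j _ => by
        have := card_biUnion_le_card_mul (range N)
          (fun δ => (V d n).filter fun y => y j.succ = y j.castSucc + δ)
          ((n + 1) ^ d) (fun δ _ => card_diff (Fin.castSucc_lt_succ (i := j)).ne δ)
        rwa [card_range] at this)
    rwa [card_univ, Fintype.card_fin] at this
  calc _ ≤ N * (n + 1) ^ d + (d + 1) * (N * (n + 1) ^ d) := Nat.add_le_add h1 h2
    _ = (d + 2) * N * (n + 1) ^ d := by ring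

theorem bad_last (d n v : ℕ) :
    ((V d n).filter fun y => y (Fin.last (d + 1)) = v).card ≤ (n + 1) ^ d := by
  have h0 : Fin.last (d + 1) ≠ (0 : Fin (d + 2)) := by
    intro h
    have := congrArg Fin.val h
    simp at this
  exact card_val h0 v

/-- greedy choice -/
private theorem greedy {ι α : Type} [Fintype ι] [DecidableEq ι] [Fintype α] [DecidableEq α]
    (B : Finset α) (R : α → Finset α) (hs : ∀ a b, a ∈ R b → b ∈ R a) (r : ℕ)
    (hR : ∀ a, (R a).card ≤ r) (hc : B.card + Fintype.card ι * r < Fintype.card α) :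
    ∃ t : ι → α, (∀ i, t i ∉ B) ∧ ∀ i i', i ≠ i' → t i ∉ R (t i') := by
  have hne : Nonempty α := Fintype.card_pos_iff.1 (by omega)
  have key : ∀ s : Finset ι, ∃ t : ι → α, (∀ i ∈ s, t i ∉ B) ∧
      ∀ i ∈ s, ∀ i' ∈ s, i ≠ i' → t i ∉ R (t i') := by
    intro s
    induction s using Finset.induction_on with
    | empty => exact ⟨fun _ => Classical.arbitrary α, by simp, by simp⟩
    | insert i0 s hi0 ih =>
      obtain ⟨t, ht1, ht2⟩ := ih
      have hF : (B ∪ s.biUnion fun i => R (t i)).card < (univ : Finset α).card := by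
        refine lt_of_le_of_lt (card_union_le _ _) (lt_of_le_of_lt ?_ hc)
        refine Nat.add_le_add_left ?_ _
        refine (card_biUnion_le_card_mul s _ r fun i _ => hR _).trans ?_
        exact Nat.mul_le_mul_right _ (card_le_univ s)
      obtain ⟨a, -, ha⟩ := exists_mem_notMem_of_card_lt_card hF
      rw [mem_union, not_or, mem_biUnion] at ha
      obtain ⟨ha1, ha2⟩ := ha
      push Not at ha2
      refine ⟨Function.update t i0 a, ?_, ?_⟩
      · intro i hi
        rcases mem_insert.1 hi with h1 | h1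
        · rw [h1, Function.update_self]
          exact ha1
        · have : i ≠ i0 := fun h => hi0 (h ▸ h1)
          rw [Function.update_of_ne this]
          exact ht1 i h1
      · intro i hi i' hi' hne
        rcases mem_insert.1 hi with h1 | h1
        · rcases mem_insert.1 hi' with h2 | h2
          · exact absurd (h1.trans h2.symm) hne
          · have h3 : i' ≠ i0 := fun h => hi0 (h ▸ h2)
            rw [h1, Function.update_self, Function.update_of_ne h3]
            exact ha2 i' h2
        · have h3 : i ≠ i0 := fun h => hi0 (h ▸ h1)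
          rcases mem_insert.1 hi' with h2 | h2
          · rw [h2, Function.update_self, Function.update_of_ne h3]
            exact fun h => ha2 i h1 (hs _ _ h)
          · have h4 : i' ≠ i0 := fun h => hi0 (h ▸ h2)
            rw [Function.update_of_ne h3, Function.update_of_ne h4]
            exact ht2 i h1 i' h2 hne
  obtain ⟨t, h1, h2⟩ := key univ
  exact ⟨t, fun i => h1 i (mem_univ _), fun i i' h => h2 i (mem_univ _) i' (mem_univ _) h⟩

/-- the elements whose last coordinate is near to `v` -/
private theorem card_near (d N n v : ℕ) :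
    ((univ : Finset (Vt d n)).filter fun y => ¬ (v + N ≤ y.1 (Fin.last (d + 1)) ∨
      y.1 (Fin.last (d + 1)) + N ≤ v)).card ≤ 2 * N * (n + 1) ^ d := by
  classical
  have h1 : ((univ : Finset (Vt d n)).filter fun y => ¬ (v + N ≤ y.1 (Fin.last (d + 1)) ∨
      y.1 (Fin.last (d + 1)) + N ≤ v)).card ≤ ((Ico (v + 1 - N) (v + N)).biUnion fun w =>
        (V d n).filter fun y => y (Fin.last (d + 1)) = w).card := by
    refine card_le_card_of_injOn (fun y => y.1) ?_ (Subtype.val_injective.injOn)
    intro y hy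
    have hy1 := (mem_filter.1 (mem_coe.1 hy)).2
    rw [mem_coe, mem_biUnion]
    refine ⟨y.1 (Fin.last (d + 1)), ?_, ?_⟩
    · rw [mem_Ico]
      omega
    · rw [mem_filter]
      exact ⟨y.2, rfl⟩
  refine h1.trans ((card_biUnion_le_card_mul _ _ _ fun w _ => bad_last d n w).trans ?_)
  refine Nat.mul_le_mul_right _ ?_
  rw [Nat.card_Ico]
  omega

theorem nice (ι : Type) [Fintype ι] [DecidableEq ι] (d N : ℕ) : ∃ n₁ : ℕ, ∀ n : ℕ, n₁ ≤ n →
    ∀ π : Equiv.Perm (Vt d n), ∃ t : ι → Vt d n,
      (∀ i, Blk N (t i).1) ∧ (∀ i, Blk N (π (t i)).1) ∧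
      ∀ i i', i ≠ i' →
        ((t i).1 (Fin.last (d + 1)) + N ≤ (t i').1 (Fin.last (d + 1)) ∨
          (t i').1 (Fin.last (d + 1)) + N ≤ (t i).1 (Fin.last (d + 1))) ∧
        ((π (t i)).1 (Fin.last (d + 1)) + N ≤ (π (t i')).1 (Fin.last (d + 1)) ∨
          (π (t i')).1 (Fin.last (d + 1)) + N ≤ (π (t i)).1 (Fin.last (d + 1))) := by
  classical
  obtain ⟨c, hc, hV⟩ := V_lo d
  set C' : ℕ := 2 * ((d + 2) * N) + Fintype.card ι * (2 * (2 * N)) with hC'
  obtain ⟨n₁, hn₁⟩ := exists_nat_gt ((C' : ℝ) / c)
  refine ⟨n₁, fun n hn π => ?_⟩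
  set B₁ : Finset (Vt d n) := univ.filter fun y => ¬ Blk N y.1 with hB₁
  set B₂ : Finset (Vt d n) := univ.filter fun y => ¬ Blk N (π y).1 with hB₂
  obtain ⟨nr, hnr, hn1⟩ : ∃ nr : Vt d n → Finset (Vt d n),
      (∀ a y, y ∈ nr a ↔ ¬ (a.1 (Fin.last (d + 1)) + N ≤ y.1 (Fin.last (d + 1)) ∨
        y.1 (Fin.last (d + 1)) + N ≤ a.1 (Fin.last (d + 1)))) ∧
      ∀ a, (nr a).card ≤ 2 * N * (n + 1) ^ d :=
    ⟨fun a => univ.filter fun y => ¬ (a.1 (Fin.last (d + 1)) + N ≤ y.1 (Fin.last (d + 1)) ∨
        y.1 (Fin.last (d + 1)) + N ≤ a.1 (Fin.last (d + 1))),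
      fun a y => by simp only [mem_filter, mem_univ, true_and],
      fun a => card_near d N n _⟩
  have hb1 : B₁.card ≤ (d + 2) * N * (n + 1) ^ d := by
    refine le_trans ?_ (bad_blk d N n)
    refine card_le_card_of_injOn (fun y => y.1) ?_ (Subtype.val_injective.injOn)
    intro y hy
    have hy1 := (mem_filter.1 (mem_coe.1 hy)).2
    rw [mem_coe, mem_filter]
    exact ⟨y.2, hy1⟩
  have hb2 : B₂.card ≤ (d + 2) * N * (n + 1) ^ d := by
    refine le_trans ?_ hb1
    refine card_le_card_of_injOn (fun y => π y) ?_ (π.injective.injOn)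
    intro y hy
    have hy1 := (mem_filter.1 (mem_coe.1 hy)).2
    rw [mem_coe, mem_filter]
    exact ⟨mem_univ _, hy1⟩
  obtain ⟨R, hR, hRc⟩ : ∃ R : Vt d n → Finset (Vt d n),
      (∀ a y, y ∈ R a ↔ y ∈ nr a ∨ π y ∈ nr (π a)) ∧
      ∀ a, (R a).card ≤ 2 * (2 * N) * (n + 1) ^ d := by
    refine ⟨fun a => nr a ∪ univ.filter fun y => π y ∈ nr (π a), fun a y => ?_, fun a => ?_⟩
    · simp only [mem_union, mem_filter, mem_univ, true_and]
    · have h1 : (univ.filter fun y => π y ∈ nr (π a)).card ≤ 2 * N * (n + 1) ^ d := by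
        refine le_trans ?_ (hn1 (π a))
        refine card_le_card_of_injOn (fun y => π y) ?_ (π.injective.injOn)
        intro y hy
        exact mem_coe.2 (mem_filter.1 (mem_coe.1 hy)).2
      calc (nr a ∪ univ.filter fun y => π y ∈ nr (π a)).card
          ≤ (nr a).card + (univ.filter fun y => π y ∈ nr (π a)).card := card_union_le _ _
        _ ≤ 2 * N * (n + 1) ^ d + 2 * N * (n + 1) ^ d := Nat.add_le_add (hn1 a) h1
        _ = 2 * (2 * N) * (n + 1) ^ d := by ring
  have hnrs : ∀ a b, a ∈ nr b → b ∈ nr a := by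
    intro a b h
    rw [hnr] at h ⊢
    exact fun h1 => h h1.symm
  have hRs : ∀ a b, a ∈ R b → b ∈ R a := by
    intro a b h
    rw [hR] at h ⊢
    rcases h with h | h
    · exact Or.inl (hnrs _ _ h)
    · exact Or.inr (hnrs _ _ h)
  have hcount : (B₁ ∪ B₂).card + Fintype.card ι * (2 * (2 * N) * (n + 1) ^ d) <
      Fintype.card (Vt d n) := by
    have h1 : (B₁ ∪ B₂).card + Fintype.card ι * (2 * (2 * N) * (n + 1) ^ d) ≤
        C' * (n + 1) ^ d := by
      calc _ ≤ ((d + 2) * N * (n + 1) ^ d + (d + 2) * N * (n + 1) ^ d) +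
            Fintype.card ι * (2 * (2 * N) * (n + 1) ^ d) :=
          Nat.add_le_add_right ((card_union_le _ _).trans (Nat.add_le_add hb1 hb2)) _
        _ = C' * (n + 1) ^ d := by rw [hC']; ring
    refine lt_of_le_of_lt h1 ?_
    rw [Fintype.card_coe]
    have h2 : (C' : ℝ) * ((n : ℝ) + 1) ^ d < (V d n).card := by
      refine lt_of_lt_of_le ?_ (hV n)
      rw [pow_succ']
      have h3 : (C' : ℝ) < c * ((n : ℝ) + 1) := by
        have h4 : (C' : ℝ) < c * n₁ := by
          rw [div_lt_iff₀ hc] at hn₁
          linarith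
        have h5 : (n₁ : ℝ) ≤ n := by exact_mod_cast hn
        nlinarith
      have h6 : (0 : ℝ) < ((n : ℝ) + 1) ^ d := by positivity
      nlinarith
    exact_mod_cast h2
  obtain ⟨t, ht1, ht2⟩ := greedy (ι := ι) (B₁ ∪ B₂) R hRs _ hRc hcount
  refine ⟨t, fun i => ?_, fun i => ?_, fun i i' hii => ?_⟩
  · have h := ht1 i
    rw [mem_union, not_or, hB₁, mem_filter] at h
    by_contra hcon
    exact h.1 ⟨mem_univ _, hcon⟩
  · have h := ht1 i
    rw [mem_union, not_or, hB₂, mem_filter, mem_filter] at h
    by_contra hcon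
    exact h.2 ⟨mem_univ _, hcon⟩
  · have h := ht2 i' i hii.symm
    rw [hR, not_or, hnr, hnr, not_not, not_not] at h
    exact h

end Pool.Agent.Helper43.SN
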