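import Pool.Agent.Helper43.SN.Defs2
import Pool.Agent.Helper43.SN.Punct

set_option autoImplicit false

/-!
# SN-27 Par: all special chains move at the same time, far from the walls and from each other

`N = 8 s + 20`, distance = maximum of the coordinate differences.
PROOF of `par_up`. For every `i` choose `ρ_i ∈ {2, 4, .., 2 s + 2}` such that no `y ∈ A` has distance `ρ_i` or
`ρ_i + 1` from `x i` (pigeonhole). Map `y ∈ A` with distance `< ρ_i` from `x i` (at most one such `i`, as
`N > 2 (2 s + 4)`) to `y + e_(δ i)` (monotone, as the gaps of `y` are `≥ N - 2 (2 s + 2)`), distance from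
`x i` `≤ ρ_i`; map the other `y` (distance `≥ ρ_i + 2` from all `x i`) to `shl y`, distance `≥ ρ_i + 1`. This map
`A → ups A` is injective and its values are not in `imv x1`: near: `y + e_(δ i) = x i + e_(δ i)` implies
`y = x i ∈ imv x`; `= x1 i'`, `i' ≠ i`, is excluded by the distances; far: the distance of `shl y` from
`x i` is `≥ ρ_i + 1 ≥ 3`, that of `x1 i` is `1`.
PROOF of `par_down`. The same with `D` and the centres `x1 i`: near: `y ↦ y - e_(δ i)` (monotone), never in
`imv x`; far part `D_f`: `lo D_f` has distance `≥ ρ_i + 1` from all `x1 i`, so it is disjoint from the near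
images and from `imv x`, and `|lo D_f| ≥ |D_f|` by `crude` for large `k` (`C s < k + 1`).
PROOF of `par`. `H = |ι|`, `s`, `K` from `punct d hd H`, `N = 8 s + 20`; both `KPs` by `par_up`, `par_down` (second
alternative).
-/

namespace Pool.Agent.Helper43.SN

open Finset Pool.Agent.Helper46.MR

variable {ι : Type} [Fintype ι] [DecidableEq ι]

namespace ParAux

/-- distance at most `r` -/
def Nr {n : ℕ} (r : ℕ) (u v : Fin n → ℕ) : Prop := ∀ j, u j ≤ v j + r ∧ v j ≤ u j + r

theorem Nr.mono {n r r' : ℕ} {u v : Fin n → ℕ} (h : Nr r u v) (hr : r ≤ r') : Nr r' u v := by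
  intro j
  have := h j
  omega

theorem Nr.symm {n r : ℕ} {u v : Fin n → ℕ} (h : Nr r u v) : Nr r v u := by
  intro j
  have := h j
  omega

theorem Nr.trans {n r r' : ℕ} {u v w : Fin n → ℕ} (h : Nr r u v) (h' : Nr r' v w) :
    Nr (r + r') u w := by
  intro j
  have := h j
  have := h' j
  omega

theorem nr_add {n : ℕ} (u : Fin n → ℕ) (i : Fin n) : Nr 1 u (u + Pi.single i 1) := by
  intro j
  rw [add_single_ap]
  split_ifs <;> omega

theorem not_nr_of_far {n b r : ℕ} {u v : Fin n → ℕ} (h : Far b u v) (hr : r < b) :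
    ¬ Nr r u v := by
  intro h'
  obtain ⟨j, hj⟩ := h
  have := h' j
  omega

/-- a point near a point far from the walls can be raised in every coordinate -/
theorem mono_add {d N r : ℕ} {x y : Fin (d + 2) → ℕ} (hb : Blk N x) (h : Nr r y x)
    (hr : 2 * r + 1 ≤ N) (i : Fin (d + 2)) : Monotone (y + Pi.single i 1 : Fin (d + 2) → ℕ) := by
  refine Fin.monotone_iff_le_succ.2 fun j => ?_
  rw [add_single_ap, add_single_ap]
  have h1 := hb.2 j
  have h2 := h j.castSucc
  have h3 := h j.succ
  split_ifs <;> omega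

/-- a point near a point far from the walls can be lowered in every coordinate -/
theorem exists_sub {d N r : ℕ} {x y : Fin (d + 2) → ℕ} (hb : Blk N x) (h : Nr r y x)
    (hr : 2 * r + 1 ≤ N) (i : Fin (d + 2)) :
    ∃ z : Fin (d + 2) → ℕ, Monotone z ∧ z + Pi.single i 1 = y := by
  have hmy : Monotone y := by
    refine Fin.monotone_iff_le_succ.2 fun j => ?_
    have h1 := hb.2 j
    have h2 := h j.castSucc
    have h3 := h j.succ
    omega
  have hpos : 0 < y i := by
    have h1 := hb.1
    have h2 := h 0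
    have h3 : y 0 ≤ y i := hmy (Fin.zero_le i)
    omega
  refine ⟨y - Pi.single i 1, Fin.monotone_iff_le_succ.2 fun j => ?_, funext fun j => ?_⟩
  · have h1 := hb.2 j
    have h2 := h j.castSucc
    have h3 := h j.succ
    have h4 : (y - Pi.single i 1 : Fin (d + 2) → ℕ) j.castSucc ≤ y j.castSucc := by
      simp only [Pi.sub_apply]
      omega
    have h5 : y j.succ ≤ (y - Pi.single i 1 : Fin (d + 2) → ℕ) j.succ + 1 := by
      by_cases hj : j.succ = i
      · rw [hj]
        simp only [Pi.sub_apply, Pi.single_eq_same]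
        omega
      · simp only [Pi.sub_apply, Pi.single_eq_of_ne hj]
        omega
    omega
  · rw [add_single_ap]
    by_cases hj : j = i
    · rw [if_pos hj, hj]
      simp only [Pi.sub_apply, Pi.single_eq_same]
      omega
    · rw [if_neg hj]
      simp only [Pi.sub_apply, Pi.single_eq_of_ne hj]
      omega

/-- a good radius -/
theorem exists_radius {n s : ℕ} (c : ι → Fin n → ℕ)
    (hc : ∀ i i', i ≠ i' → ¬ Nr (4 * s + 6) (c i) (c i')) (A : Finset (Fin n → ℕ))
    (hA : A.card ≤ s) : ∃ t ≤ s, ∀ y ∈ A, ∀ i, Nr (2 * t + 3) y (c i) → Nr (2 * t + 1) y (c i) := by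
  by_contra hcon
  push Not at hcon
  have hcon' : ∀ t : ℕ, ∃ y, t ≤ s → y ∈ A ∧ ∃ i, Nr (2 * t + 3) y (c i) ∧
      ¬ Nr (2 * t + 1) y (c i) := by
    intro t
    by_cases ht : t ≤ s
    · obtain ⟨y, hy, i, h1, h2⟩ := hcon t ht
      exact ⟨y, fun _ => ⟨hy, i, h1, h2⟩⟩
    · exact ⟨0, fun h => absurd h ht⟩
  choose f hf using hcon'
  have hcard : A.card < (range (s + 1)).card := by
    rw [card_range]
    omega
  obtain ⟨t, ht, t', ht', hne, heq⟩ := exists_ne_map_eq_of_card_lt_of_maps_to hcard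
    (f := f) (fun t ht => (hf t (by have := mem_range.1 ht; omega)).1)
  have ht1 : t ≤ s := by have := mem_range.1 ht; omega
  have ht1' : t' ≤ s := by have := mem_range.1 ht'; omega
  obtain ⟨_, i, h1, h2⟩ := hf t ht1
  obtain ⟨_, i', h1', h2'⟩ := hf t' ht1'
  rw [← heq] at h1' h2'
  by_cases hi : i = i'
  · subst hi
    rcases lt_or_gt_of_ne hne with h | h
    · exact h2' (h1.mono (by omega))
    · exact h2 (h1'.mono (by omega))
  · exact hc i i' hi ((h1.symm.trans h1').mono (by omega))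

theorem card_imv {d k : ℕ} (x : ι ↪ Vt d k) : (imv x).card = Fintype.card ι := by
  unfold imv
  rw [card_image_of_injective, card_univ]
  intro i i' h
  exact x.injective (Subtype.ext h)

theorem mem_imv {d k : ℕ} {x : ι ↪ Vt d k} {y : Fin (d + 2) → ℕ} :
    y ∈ imv x ↔ ∃ i, (x i).1 = y := by
  unfold imv
  simp

theorem imv_sub {d k : ℕ} (x : ι ↪ Vt d k) : imv x ⊆ V d k := by
  intro y hy
  obtain ⟨i, rfl⟩ := mem_imv.1 hy
  exact (x i).2

end ParAux

open ParAux

theorem par_up (d s k : ℕ) (x : ι ↪ Vt d k) (x1 : ι ↪ Vt d (k + 1)) (δ : ι → Fin (d + 2))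
    (h1 : ∀ i, (x1 i).1 = (x i).1 + Pi.single (δ i) 1) (hb : ∀ i, Blk (8 * s + 20) (x i).1)
    (hf : ∀ i i', i ≠ i' → Far (8 * s + 20) (x i).1 (x i').1) :
    ∀ A ⊆ V d k \ imv x, A.card ≤ s → A.card ≤ (ups A \ imv x1).card := by
  classical
  intro A hA hs
  have hAV : A ⊆ V d k := hA.trans sdiff_subset
  obtain ⟨t, ht, hrad⟩ := exists_radius (s := s) (fun i => (x i).1)
    (fun i i' hi => not_nr_of_far (hf i i' hi) (by omega)) A hs
  have h1x : ∀ i, Nr 1 (x i).1 (x1 i).1 := by
    intro i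
    rw [h1]
    exact nr_add _ _
  have huniq : ∀ i i', Nr (4 * s + 8) (x i).1 (x i').1 → i = i' := by
    intro i i' h
    by_contra hne
    exact not_nr_of_far (hf i i' hne) (by omega) h
  let φ : (Fin (d + 2) → ℕ) → (Fin (d + 2) → ℕ) := fun y =>
    if h : ∃ i, Nr (2 * t + 1) y (x i).1 then y + Pi.single (δ h.choose) 1 else shl y
  have hφn : ∀ y i, Nr (2 * t + 1) y (x i).1 → φ y = y + Pi.single (δ i) 1 := by
    intro y i hi
    have h : ∃ i, Nr (2 * t + 1) y (x i).1 := ⟨i, hi⟩
    have h2 : h.choose = i := huniq _ _ ((h.choose_spec.symm.trans hi).mono (by omega))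
    show (if h : ∃ i, Nr (2 * t + 1) y (x i).1 then y + Pi.single (δ h.choose) 1 else shl y) = _
    rw [dif_pos h, h2]
  have hφf : ∀ y, (∀ i, ¬ Nr (2 * t + 1) y (x i).1) → φ y = shl y := by
    intro y hy
    have h : ¬ ∃ i, Nr (2 * t + 1) y (x i).1 := by
      rintro ⟨i, hi⟩
      exact hy i hi
    show (if h : ∃ i, Nr (2 * t + 1) y (x i).1 then y + Pi.single (δ h.choose) 1 else shl y) = _
    rw [dif_neg h]
  refine card_le_card_of_injOn φ ?_ ?_
  · intro y hy
    have hyA : y ∈ A := mem_coe.1 hy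
    rw [mem_coe, mem_sdiff]
    by_cases h : ∃ i, Nr (2 * t + 1) y (x i).1
    · obtain ⟨i, hi⟩ := h
      rw [hφn y i hi]
      refine ⟨mem_ups.2 ⟨mono_add (hb i) hi (by omega) _, y, hyA, _, rfl⟩, fun hmem => ?_⟩
      obtain ⟨i', hi'⟩ := mem_imv.1 hmem
      have h3 : i' = i := by
        apply huniq
        have h4 : Nr 1 (x i').1 (y + Pi.single (δ i) 1) := by
          rw [← hi']
          exact h1x i'
        exact ((h4.trans (nr_add y (δ i)).symm).trans hi).mono (by omega)
      subst h3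
      rw [h1] at hi'
      have h5 : (x i').1 = y := add_right_cancel hi'
      exact (mem_sdiff.1 (hA hyA)).2 (mem_imv.2 ⟨i', h5⟩)
    · push Not at h
      rw [hφf y h]
      refine ⟨shl_mem_ups hAV hyA, fun hmem => ?_⟩
      obtain ⟨i', hi'⟩ := mem_imv.1 hmem
      apply h i'
      apply hrad y hyA i'
      have h4 : Nr 1 (x i').1 (shl y) := by
        rw [← hi']
        exact h1x i'
      exact ((nr_add y _).trans h4.symm).mono (by omega)
  · intro y hy y' hy' heq
    have hyA : y ∈ A := mem_coe.1 hy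
    have hyA' : y' ∈ A := mem_coe.1 hy'
    by_cases h : ∃ i, Nr (2 * t + 1) y (x i).1
    · obtain ⟨i, hi⟩ := h
      rw [hφn y i hi] at heq
      by_cases h' : ∃ i, Nr (2 * t + 1) y' (x i).1
      · obtain ⟨i', hi'⟩ := h'
        rw [hφn y' i' hi'] at heq
        have h3 : i = i' := by
          apply huniq
          have h4 := hi.symm.trans (nr_add y (δ i))
          rw [heq] at h4
          exact ((h4.trans (nr_add y' (δ i')).symm).trans hi').mono (by omega)
        subst h3
        exact add_right_cancel heq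
      · push Not at h'
        rw [hφf y' h'] at heq
        exfalso
        apply h' i
        apply hrad y' hyA' i
        have h4 : Nr 1 y' (shl y') := nr_add y' _
        rw [← heq] at h4
        exact ((h4.trans (nr_add y (δ i)).symm).trans hi).mono (by omega)
    · push Not at h
      rw [hφf y h] at heq
      by_cases h' : ∃ i, Nr (2 * t + 1) y' (x i).1
      · obtain ⟨i', hi'⟩ := h'
        rw [hφn y' i' hi'] at heq
        exfalso
        apply h i'
        apply hrad y hyA i'
        have h4 : Nr 1 y (shl y) := nr_add y _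
        rw [heq] at h4
        exact ((h4.trans (nr_add y' (δ i')).symm).trans hi').mono (by omega)
      · push Not at h'
        rw [hφf y' h'] at heq
        exact shl_inj heq

theorem par_down (d s : ℕ) : ∃ K : ℕ, ∀ k : ℕ, K ≤ k → ∀ (x : ι ↪ Vt d k)
    (x1 : ι ↪ Vt d (k + 1)) (δ : ι → Fin (d + 2)),
    (∀ i, (x1 i).1 = (x i).1 + Pi.single (δ i) 1) → (∀ i, Blk (8 * s + 20) (x i).1) →
    (∀ i i', i ≠ i' → Far (8 * s + 20) (x i).1 (x i').1) →
    ∀ D ⊆ V d (k + 1) \ imv x1, D.card ≤ s → D.card ≤ (lo D \ imv x).card := by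
  classical
  obtain ⟨C, hC⟩ := crude d
  refine ⟨C * s, fun k hk x x1 δ h1 hb hf D hD hs => ?_⟩
  have hDV : D ⊆ V d (k + 1) := hD.trans sdiff_subset
  have h1x : ∀ i, Nr 1 (x i).1 (x1 i).1 := by
    intro i
    rw [h1]
    exact nr_add _ _
  have huniq : ∀ i i', Nr (4 * s + 10) (x i).1 (x i').1 → i = i' := by
    intro i i' h
    by_contra hne
    exact not_nr_of_far (hf i i' hne) (by omega) h
  obtain ⟨t, ht, hrad⟩ := exists_radius (s := s) (fun i => (x1 i).1)
    (fun i i' hi h => hi (huniq i i' (((h1x i).trans (h.trans (h1x i').symm)).mono (by omega)))) D hs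
  -- the near part
  set Dn := D.filter fun y => ∃ i, Nr (2 * t + 1) y (x1 i).1 with hDn
  set Df := D.filter fun y => ¬ ∃ i, Nr (2 * t + 1) y (x1 i).1 with hDf
  have hsplit : Dn.card + Df.card = D.card := card_filter_add_card_filter_not _
  have hex : ∀ y : Fin (d + 2) → ℕ, ∃ z : Fin (d + 2) → ℕ, ∀ i, Nr (2 * t + 1) y (x1 i).1 →
      Monotone z ∧ z + Pi.single (δ i) 1 = y := by
    intro y
    by_cases h : ∃ i, Nr (2 * t + 1) y (x1 i).1
    · obtain ⟨i, hi⟩ := h
      obtain ⟨z, hz1, hz2⟩ := exists_sub (hb i) (hi.trans (h1x i).symm) (by omega) (δ i)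
      refine ⟨z, fun i' hi' => ?_⟩
      have h3 : i' = i := by
        apply huniq
        exact (((h1x i').trans hi'.symm).trans (hi.trans (h1x i).symm)).mono (by omega)
      subst h3
      exact ⟨hz1, hz2⟩
    · push Not at h
      exact ⟨0, fun i hi => absurd hi (h i)⟩
  choose ψ hψ using hex
  have hn : Dn.card = (Dn.image ψ).card := by
    rw [card_image_of_injOn]
    intro y hy y' hy' heq
    obtain ⟨hyD, i, hi⟩ := mem_filter.1 (mem_coe.1 hy)
    obtain ⟨hyD', i', hi'⟩ := mem_filter.1 (mem_coe.1 hy')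
    obtain ⟨_, h3⟩ := hψ y i hi
    obtain ⟨_, h3'⟩ := hψ y' i' hi'
    have h4 : i = i' := by
      apply huniq
      have h5 : Nr 1 (ψ y) y := by
        have := nr_add (ψ y) (δ i)
        rwa [h3] at this
      have h5' : Nr 1 (ψ y') y' := by
        have := nr_add (ψ y') (δ i')
        rwa [h3'] at this
      rw [← heq] at h5'
      exact (((((h1x i).trans hi.symm).trans h5.symm).trans h5').trans
        (hi'.trans (h1x i').symm)).mono (by omega)
    subst h4
    rw [← h3, ← h3', heq]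
  have hsub : Dn.image ψ ∪ lo Df ⊆ lo D \ imv x := by
    intro z hz
    rw [mem_sdiff]
    rcases mem_union.1 hz with hz | hz
    · obtain ⟨y, hy, rfl⟩ := mem_image.1 hz
      obtain ⟨hyD, i, hi⟩ := mem_filter.1 hy
      obtain ⟨h3, h4⟩ := hψ y i hi
      refine ⟨mem_lo.2 ⟨h3, δ i, by rw [h4]; exact hyD⟩, fun hmem => ?_⟩
      obtain ⟨i', hi'⟩ := mem_imv.1 hmem
      have h5 : i' = i := by
        apply huniq
        rw [hi']
        have h6 : Nr 1 (ψ y) y := by
          have := nr_add (ψ y) (δ i)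
          rwa [h4] at this
        exact ((h6.trans hi).trans (h1x i).symm).mono (by omega)
      subst h5
      have h7 : (x1 i').1 = y := by
        rw [h1, hi', h4]
      exact (mem_sdiff.1 (hD hyD)).2 (mem_imv.2 ⟨i', h7⟩)
    · obtain ⟨hm, j, hj⟩ := mem_lo.1 hz
      obtain ⟨hjD, hjn⟩ := mem_filter.1 hj
      refine ⟨mem_lo.2 ⟨hm, j, hjD⟩, fun hmem => hjn ?_⟩
      obtain ⟨i', hi'⟩ := mem_imv.1 hmem
      refine ⟨i', hrad _ hjD i' ?_⟩
      have h6 := nr_add z j
      have h7 : Nr 1 z (x1 i').1 := by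
        rw [← hi']
        exact h1x i'
      exact (h6.symm.trans h7).mono (by omega)
  have hdisj : Disjoint (Dn.image ψ) (lo Df) := by
    rw [disjoint_left]
    intro z hz hz'
    obtain ⟨y, hy, rfl⟩ := mem_image.1 hz
    obtain ⟨hyD, i, hi⟩ := mem_filter.1 hy
    obtain ⟨h3, h4⟩ := hψ y i hi
    obtain ⟨hm, j, hj⟩ := mem_lo.1 hz'
    obtain ⟨hjD, hjn⟩ := mem_filter.1 hj
    refine hjn ⟨i, hrad _ hjD i ?_⟩
    have h6 : Nr 1 (ψ y) y := by
      have := nr_add (ψ y) (δ i)
      rwa [h4] at this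
    exact (((nr_add (ψ y) j).symm.trans h6).trans hi).mono (by omega)
  have hfar : Df.card ≤ (lo Df).card := by
    by_contra hcon
    push Not at hcon
    have h2 := hC (k + 1) Df ((filter_subset _ _).trans hDV)
    have h3 : Df.card ≤ s := (card_filter_le _ _).trans hs
    have h4 : (k + 1) * ((lo Df).card + 1) ≤ (k + 1) * Df.card := Nat.mul_le_mul_left _ hcon
    have h5 : C * Df.card ≤ C * s := Nat.mul_le_mul_left _ h3
    nlinarith
  calc D.card = Dn.card + Df.card := hsplit.symm
    _ ≤ (Dn.image ψ).card + (lo Df).card := by omega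
    _ = (Dn.image ψ ∪ lo Df).card := (card_union_of_disjoint hdisj).symm
    _ ≤ _ := card_le_card hsub

theorem par (ι : Type) [Fintype ι] [DecidableEq ι] (d : ℕ) (hd : 1 ≤ d) : ∃ N K : ℕ,
    ∀ k : ℕ, K ≤ k → ∀ (x x' : ι ↪ Vt d k)
      (x1 x1' : ι ↪ Vt d (k + 1)) (δ δ' : ι → Fin (d + 2)),
      (∀ i, (x1 i).1 = (x i).1 + Pi.single (δ i) 1) →
      (∀ i, (x1' i).1 = (x' i).1 + Pi.single (δ' i) 1) →
      (∀ i, Blk N (x i).1) → (∀ i, Blk N (x' i).1) →
      (∀ i i', i ≠ i' → Far N (x i).1 (x i').1) → (∀ i i', i ≠ i' → Far N (x' i).1 (x' i').1) →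
      KP d k (imv x) (imv x1) (imv x') (imv x1') := by
  obtain ⟨s, K0, hp⟩ := punct d hd (Fintype.card ι)
  obtain ⟨K1, hdown⟩ := par_down (ι := ι) d s
  refine ⟨8 * s + 20, max K0 K1, fun k hk x x' x1 x1' δ δ' h1 h1' hb hb' hf hf' => ?_⟩
  refine hp k (le_of_max_le_left hk) (imv x) (imv_sub x) (imv x') (imv_sub x') (imv x1)
    (imv_sub x1) (imv x1') (imv_sub x1') (card_imv x) (card_imv x') (card_imv x1) (card_imv x1')
    ?_ ?_
  · intro A hA D hD hAs hDs
    exact Or.inr (Nat.add_le_add (par_up d s k x x1 δ h1 hb hf A hA hAs)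
      (hdown k (le_of_max_le_right hk) x' x1' δ' h1' hb' hf' D hD hDs))
  · intro A hA D hD hAs hDs
    exact Or.inr (Nat.add_le_add (par_up d s k x' x1' δ' h1' hb' hf' A hA hAs)
      (hdown k (le_of_max_le_right hk) x x1 δ h1 hb hf D hD hDs))

end Pool.Agent.Helper43.SN
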