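import Pool.Agent.Helper43.SN.Move

set_option autoImplicit false

/-!
# SN-20 Path: one chain moves along a path which raises the last coordinate first

PROOF of `path`. Claim: `Ev d (update z i p) z' G` for all `p` with `OnP (z i) t p`; induction on
`∑ p - ∑ (z i)` (or on the number of steps). `p = z i`: `update_eq_self`. `p = t` is the goal (`t` is on the
path; `n = d + 1 ≥ 1`). STEP `onP_step`: if `p` is on the path and `p ≠ t`, let `r` be the largest index with
`p r < t r`; then `p + e_r` is on the path (all `j > r` have `p j = t j`; `p j = v j` for `j < r`). By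
`onP_mono` all these places are monotone. Use `move` with `c = 1`, `G' = G`, `w = update z i (p + e_r)`;
`im w \ im (update z i p) ⊆ {p + e_r}`; injectivity by `hne`.
`onP_pred`: every `p ≠ v` on the path comes from a place of the path by one step (`r` = smallest index
with `v r < p r`) -- not needed if the induction goes forward from `z i`.
-/

namespace Pool.Agent.Helper43.SN

open Finset Pool.Agent.Helper46.MR

theorem onP_start {n : ℕ} {v t : Fin (n + 1) → ℕ} (h : v ≤ t) : OnP v t v :=
  ⟨Fin.last n, fun j hj => absurd hj (not_lt.2 (Fin.le_last j)), fun _ _ => rfl, le_rfl, h _⟩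

theorem onP_end {n : ℕ} {v t : Fin (n + 1) → ℕ} (h : v ≤ t) : OnP v t t :=
  ⟨0, fun _ _ => rfl, fun j hj => absurd hj (not_lt.2 (Fin.zero_le j)), h _, le_rfl⟩

theorem onP_le {n : ℕ} {v t p : Fin n → ℕ} (h : v ≤ t) (hp : OnP v t p) : v ≤ p ∧ p ≤ t := by
  obtain ⟨r, h1, h2, h3, h4⟩ := hp
  constructor
  · intro j
    rcases lt_trichotomy j r with hj | rfl | hj
    · exact (h2 j hj).ge
    · exact h3
    · exact (h j).trans (h1 j hj).ge
  · intro j
    rcases lt_trichotomy j r with hj | rfl | hj
    · exact (h2 j hj).le.trans (h j)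
    · exact h4
    · exact (h1 j hj).le

theorem onP_mono {n : ℕ} {v t p : Fin n → ℕ} (hv : Monotone v) (ht : Monotone t) (h : v ≤ t)
    (hp : OnP v t p) : Monotone p := by
  obtain ⟨hvp, hpt⟩ := onP_le h hp
  obtain ⟨r, h1, h2, -, -⟩ := hp
  intro i j hij
  rcases lt_trichotomy i r with hi | rfl | hi
  · rw [h2 i hi]
    exact (hv hij).trans (hvp j)
  · rcases hij.eq_or_lt with rfl | hij
    · exact le_rfl
    · rw [h1 j hij]
      exact (hpt i).trans (ht hij.le)
  · rw [h1 i hi, h1 j (hi.trans_le hij)]
    exact ht hij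

theorem onP_step {n : ℕ} {v t p : Fin (n + 1) → ℕ} (h : v ≤ t) (hp : OnP v t p) (hne : p ≠ t) :
    ∃ r, OnP v t (p + Pi.single r 1) := by
  classical
  obtain ⟨hvp, hpt⟩ := onP_le h hp
  obtain ⟨r, h1, h2, -, -⟩ := hp
  let S : Finset (Fin (n + 1)) := univ.filter fun j => p j < t j
  have hS : S.Nonempty := by
    by_contra hS
    rw [not_nonempty_iff_eq_empty, filter_eq_empty_iff] at hS
    exact hne (funext fun j => le_antisymm (hpt j) (not_lt.1 (hS (mem_univ j))))
  obtain ⟨q, hqS, hmax⟩ := S.exists_max_image id hS
  have hq : p q < t q := (mem_filter.1 hqS).2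
  have hup : ∀ j, q < j → p j = t j := fun j hj => by
    refine le_antisymm (hpt j) (not_lt.1 fun hlt => ?_)
    exact absurd (hmax j (mem_filter.2 ⟨mem_univ j, hlt⟩)) (not_le.2 hj)
  have hqr : q ≤ r := by
    by_contra hlt
    rw [h1 q (not_le.1 hlt)] at hq
    exact lt_irrefl _ hq
  refine ⟨q, q, fun j hj => ?_, fun j hj => ?_, ?_, ?_⟩
  · rw [add_single_apply, if_neg hj.ne']
    exact hup j hj
  · rw [add_single_apply, if_neg hj.ne]
    exact h2 j (hj.trans_le hqr)
  · rw [add_single_apply, if_pos rfl]
    exact (hvp q).trans (Nat.le_succ _)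
  · rw [add_single_apply, if_pos rfl]
    exact hq

namespace PathAux

variable {ι : Type} [Fintype ι] [DecidableEq ι] {d : ℕ}

omit [Fintype ι] in
theorem inj_update {z : ι → Fin (d + 1) → ℕ} (hz : Function.Injective z) {i : ι}
    {p : Fin (d + 1) → ℕ} (hp : ∀ l, l ≠ i → p ≠ z l) :
    Function.Injective (Function.update z i p) := by
  intro a b hab
  by_cases ha : a = i
  · by_cases hb : b = i
    · rw [ha, hb]
    · rw [ha, Function.update_self, Function.update_of_ne hb] at hab
      exact absurd hab (hp b hb)
  · by_cases hb : b = i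
    · rw [hb, Function.update_self, Function.update_of_ne ha] at hab
      exact absurd hab.symm (hp a ha)
    · rw [Function.update_of_ne ha, Function.update_of_ne hb] at hab
      exact hz hab

omit [Fintype ι] in
theorem mono_update {z : ι → Fin (d + 1) → ℕ} (mz : ∀ l, Monotone (z l)) {i : ι}
    {p : Fin (d + 1) → ℕ} (hp : Monotone p) (l : ι) : Monotone (Function.update z i p l) := by
  by_cases hl : l = i
  · rw [hl, Function.update_self]
    exact hp
  · rw [Function.update_of_ne hl]
    exact mz l

theorem card_le_one (z : ι → Fin (d + 1) → ℕ) (i : ι) (p q : Fin (d + 1) → ℕ) :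
    (im (Function.update z i q) \ im (Function.update z i p)).card ≤ 1 := by
  refine (card_le_card (t := {q}) fun x hx => ?_).trans (card_singleton q).le
  obtain ⟨hx1, hx2⟩ := mem_sdiff.1 hx
  unfold im at hx1 hx2
  obtain ⟨l, -, rfl⟩ := mem_image.1 hx1
  by_cases hl : l = i
  · rw [hl, Function.update_self]
    exact mem_singleton_self q
  · exfalso
    refine hx2 (mem_image.2 ⟨l, mem_univ l, ?_⟩)
    rw [Function.update_of_ne hl, Function.update_of_ne hl]

omit [Fintype ι] in
theorem update_step (z : ι → Fin (d + 1) → ℕ) (i : ι) (p q : Fin (d + 1) → ℕ) (r : Fin (d + 1))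
    (hq : q = p + Pi.single r 1) (l : ι) :
    Function.update z i q l = Function.update z i p l ∨
      ∃ j, Function.update z i q l = Function.update z i p l + Pi.single j 1 := by
  by_cases hl : l = i
  · right
    refine ⟨r, ?_⟩
    rw [hl, Function.update_self, Function.update_self, hq]
  · left
    rw [Function.update_of_ne hl, Function.update_of_ne hl]

end PathAux

theorem path {ι : Type} [Fintype ι] [DecidableEq ι] (d : ℕ) (hd : 1 ≤ d)
    (z z' : ι → Fin (d + 1) → ℕ) (G : Set (Equiv.Perm ι)) (i : ι) (t : Fin (d + 1) → ℕ)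
    (hz : Function.Injective z) (mz : ∀ l, Monotone (z l)) (hz' : Stat z')
    (mt : Monotone t) (hle : z i ≤ t)
    (hne : ∀ p, OnP (z i) t p → ∀ l, l ≠ i → p ≠ z l)
    (hcr : ∀ (p : Fin (d + 1) → ℕ) (j : Fin (d + 1)), OnP (z i) t p →
      OnP (z i) t (p + Pi.single j 1) →
      Crit (im (Function.update z i p)) (im (Function.update z i (p + Pi.single j 1))))
    (h : Ev d z z' G) : Ev d (Function.update z i t) z' G := by
  have key : ∀ N : ℕ, ∀ p : Fin (d + 1) → ℕ, OnP (z i) t p → ∑ j, t j ≤ ∑ j, p j + N →
      Ev d (Function.update z i p) z' G → Ev d (Function.update z i t) z' G := by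
    intro N
    induction N with
    | zero =>
      intro p hp hs hE
      have hpt := (onP_le hle hp).2
      have hpe : p = t := by
        funext j
        refine (sum_eq_sum_iff_of_le (fun j _ => hpt j)).1 ?_ j (mem_univ j)
        exact le_antisymm (sum_le_sum fun j _ => hpt j) hs
      rwa [hpe] at hE
    | succ N ih =>
      intro p hp hs hE
      by_cases hpe : p = t
      · rwa [hpe] at hE
      · obtain ⟨r, hr⟩ := onP_step hle hp hpe
        refine ih _ hr ?_ ?_
        · rw [sum_add_single]
          omega
        · have hU := PathAux.update_step z i p (p + Pi.single r 1) r rfl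
          exact move d hd (Function.update z i p) z' (Function.update z i (p + Pi.single r 1)) 1 G G
            (PathAux.inj_update hz (hne p hp)) (PathAux.inj_update hz (hne _ hr))
            (PathAux.mono_update mz (onP_mono (mz i) mt hle hp))
            (PathAux.mono_update mz (onP_mono (mz i) mt hle hr)) hz' hU (fun l => hU l)
            (PathAux.card_le_one z i p _) (hcr p r hp hr) (fun g hg => Or.inl hg) hE
  refine key (∑ j, t j) (z i) (onP_start hle) (Nat.le_add_left _ _) ?_
  rwa [Function.update_eq_self]

end Pool.Agent.Helper43.SN
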