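import Pool.Agent.Helper43.SN.Defs2

set_option autoImplicit false

/-!
# SN-28 Route: the routes `fill v t r`

`fill v t r j = v j + min (t j - v j) (r - ∑ i > j, (t i - v i))`.
PROOFS. `fill_succ`: if `r < ∑ (t - v)` let `j` be the index with
`∑ i > j, (t i - v i) ≤ r < ∑ i ≥ j, (t i - v i)`; only the coordinate `j` changes. `fill_blk`: if the coordinate
`j` is raised (`fill j > v j`) then `r > ∑ i > j`, so the coordinate `j + 1` is full: `fill (j+1) = t (j+1)
≥ t j + N ≥ fill j + N`; otherwise `fill j = v j`, `fill (j+1) ≥ v (j+1) ≥ v j + N`.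
`fill_far` (`n = d + 2`, `dd` = index before the last): let `α = t last - v last`, `β = t dd - v dd`, same with
primes. If `r ≥ α`, `r ≥ α'`: the last coordinates are `t last`, `t' last`. If `r < α` and `r < α'`: the
coordinates `0` are `v 0`, `v' 0` (`d ≥ 1`). If `r < α`, `α' ≤ r`: if `r ≤ α' + β'` again the coordinates `0`; if
`r > α' + β'`: the coordinate `dd`: `v dd` against `t' dd`. Symmetric case.
-/

namespace Pool.Agent.Helper43.SN

open Finset Pool.Agent.Helper46.MR

namespace RouteAux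

/-- the sum over the coordinates above `j` -/
def tl {n : ℕ} (v t : Fin n → ℕ) (j : Fin n) : ℕ :=
  ∑ i ∈ univ.filter (fun i => j < i), (t i - v i)

theorem fill_ap {n : ℕ} (v t : Fin n → ℕ) (r : ℕ) (j : Fin n) :
    fill v t r j = v j + min (t j - v j) (r - tl v t j) := rfl

theorem tl_add_le_tl {n : ℕ} (v t : Fin n → ℕ) {i j : Fin n} (h : i < j) :
    tl v t j + (t j - v j) ≤ tl v t i := by
  classical
  unfold tl
  have h1 : j ∉ univ.filter (fun k => j < k) := by simp
  rw [add_comm, ← sum_insert (f := fun k => t k - v k) h1]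
  refine sum_le_sum_of_subset fun k hk => ?_
  rcases mem_insert.1 hk with rfl | hk
  · exact mem_filter.2 ⟨mem_univ _, h⟩
  · exact mem_filter.2 ⟨mem_univ _, h.trans (mem_filter.1 hk).2⟩

theorem tl_add_le {n : ℕ} (v t : Fin n → ℕ) (j : Fin n) :
    tl v t j + (t j - v j) ≤ ∑ i, (t i - v i) := by
  classical
  unfold tl
  have h1 : j ∉ univ.filter (fun k => j < k) := by simp
  rw [add_comm, ← sum_insert (f := fun k => t k - v k) h1]
  exact sum_le_sum_of_subset (subset_univ _)

theorem exists_idx {n : ℕ} (v t : Fin n → ℕ) {r : ℕ} (hr : r < ∑ i, (t i - v i)) :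
    ∃ j, tl v t j ≤ r ∧ r < tl v t j + (t j - v j) := by
  classical
  by_contra hcon'
  have hcon : ∀ j, tl v t j ≤ r → tl v t j + (t j - v j) ≤ r := fun j hj =>
    not_lt.1 fun hlt => hcon' ⟨j, hj, hlt⟩
  -- all tails are at most `r`
  have hall : ∀ m : ℕ, ∀ j : Fin n, n - 1 - (j : ℕ) = m → tl v t j + (t j - v j) ≤ r := by
    intro m
    induction m with
    | zero =>
      intro j hj
      refine hcon j ?_
      unfold tl
      rw [filter_false_of_mem, sum_empty]
      · exact Nat.zero_le _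
      · intro i _ hij
        have h1 : (j : ℕ) < (i : ℕ) := hij
        have h2 := i.isLt
        omega
    | succ m ih =>
      intro j hj
      have hjn : (j : ℕ) + 1 < n := by have := j.isLt; omega
      have h1 := ih ⟨(j : ℕ) + 1, hjn⟩ (by simp only; omega)
      refine hcon j ?_
      refine le_trans ?_ h1
      unfold tl
      have h2 : (⟨(j : ℕ) + 1, hjn⟩ : Fin n) ∉ univ.filter
          (fun k => (⟨(j : ℕ) + 1, hjn⟩ : Fin n) < k) := by simp
      rw [add_comm, ← sum_insert (f := fun k => t k - v k) h2]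
      refine sum_le_sum_of_subset fun k hk => ?_
      have h3 : (j : ℕ) < (k : ℕ) := (mem_filter.1 hk).2
      rcases Nat.lt_or_ge ((j : ℕ) + 1) (k : ℕ) with h4 | h4
      · exact mem_insert_of_mem (mem_filter.2 ⟨mem_univ _, h4⟩)
      · have h5 : k = ⟨(j : ℕ) + 1, hjn⟩ := Fin.ext (by simp only; omega)
        rw [h5]
        exact mem_insert_self _ _
  rcases Nat.eq_zero_or_pos n with h0 | h0
  · subst h0
    simp at hr
  · have h1 := hall _ ⟨0, h0⟩ rfl
    have h2 : ∑ i, (t i - v i) ≤ tl v t ⟨0, h0⟩ + (t ⟨0, h0⟩ - v ⟨0, h0⟩) := by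
      unfold tl
      have h2 : (⟨0, h0⟩ : Fin n) ∉ univ.filter (fun k => (⟨0, h0⟩ : Fin n) < k) := by simp
      rw [add_comm, ← sum_insert (f := fun k => t k - v k) h2]
      refine sum_le_sum_of_subset fun k _ => ?_
      rcases Nat.eq_zero_or_pos (k : ℕ) with h4 | h4
      · have h5 : k = ⟨0, h0⟩ := Fin.ext h4
        rw [h5]
        exact mem_insert_self _ _
      · exact mem_insert_of_mem (mem_filter.2 ⟨mem_univ _, h4⟩)
    omega

theorem le_fill {n : ℕ} (v t : Fin n → ℕ) (r : ℕ) (j : Fin n) : v j ≤ fill v t r j := by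
  rw [fill_ap]
  omega

theorem fill_le {n : ℕ} {v t : Fin n → ℕ} (h : v ≤ t) (r : ℕ) (j : Fin n) :
    fill v t r j ≤ t j := by
  rw [fill_ap]
  have h1 : v j ≤ t j := h j
  omega

end RouteAux

open RouteAux

theorem fill_zero {n : ℕ} (v t : Fin n → ℕ) : fill v t 0 = v := by
  funext j
  rw [fill_ap]
  omega

theorem fill_end {n : ℕ} {v t : Fin n → ℕ} (h : v ≤ t) : fill v t (∑ i, (t i - v i)) = t := by
  funext j
  rw [fill_ap]
  have h1 := tl_add_le v t j
  have h2 : v j ≤ t j := h j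
  omega

theorem fill_succ {n : ℕ} {v t : Fin n → ℕ} (h : v ≤ t) {r : ℕ} (hr : r < ∑ i, (t i - v i)) :
    ∃ j, fill v t (r + 1) = fill v t r + Pi.single j 1 := by
  obtain ⟨j, hj1, hj2⟩ := exists_idx v t hr
  refine ⟨j, funext fun i => ?_⟩
  rw [add_single_ap, fill_ap, fill_ap]
  rcases lt_trichotomy i j with hij | hij | hij
  · have h1 := tl_add_le_tl v t hij
    rw [if_neg hij.ne]
    omega
  · subst hij
    rw [if_pos rfl]
    omega
  · have h1 := tl_add_le_tl v t hij
    rw [if_neg hij.ne']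
    omega

theorem fill_blk {n N : ℕ} {v t : Fin (n + 1) → ℕ} (hv : Blk N v) (ht : Blk N t) (h : v ≤ t)
    (r : ℕ) : Blk N (fill v t r) := by
  refine ⟨hv.1.trans (le_fill v t r 0), fun j => ?_⟩
  have h1 := hv.2 j
  have h2 := ht.2 j
  have h3 := tl_add_le_tl v t (Fin.castSucc_lt_succ (i := j))
  have h4 : v j.castSucc ≤ t j.castSucc := h _
  have h5 : v j.succ ≤ t j.succ := h _
  rw [fill_ap, fill_ap]
  omega

theorem fill_mem {d k n : ℕ} {v t : Fin (d + 2) → ℕ} (hv : v ∈ V d k) (ht : t ∈ V d n)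
    (h : v ≤ t) {r : ℕ} (hr : k + r ≤ n) : fill v t r ∈ V d (k + r) := by
  obtain ⟨hv1, hv2⟩ := mem_V.1 hv
  obtain ⟨ht1, ht2⟩ := mem_V.1 ht
  have hblk : ∀ {w : Fin (d + 2) → ℕ}, Monotone w → Blk 0 w := fun hw =>
    ⟨Nat.zero_le _, fun j => by simpa using hw (Fin.castSucc_lt_succ (i := j)).le⟩
  have hsum : ∑ i, (t i - v i) + k = n := by
    rw [← hv2, ← ht2, ← sum_add_distrib]
    exact sum_congr rfl fun i _ => Nat.sub_add_cancel (h i)
  refine mem_V.2 ⟨?_, ?_⟩
  · refine Fin.monotone_iff_le_succ.2 fun j => ?_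
    simpa using (fill_blk (hblk hv1) (hblk ht1) h r).2 j
  · clear hv1 ht1 hv ht hblk
    induction r with
    | zero => rw [fill_zero, hv2, add_zero]
    | succ r ih =>
      have h1 := ih (by omega)
      obtain ⟨j, hj⟩ := fill_succ h (r := r) (by omega)
      rw [hj, sum_add_single, h1]
      omega

theorem fill_far {d N : ℕ} (hd : 1 ≤ d) {v v' t t' : Fin (d + 2) → ℕ} (h : v ≤ t)
    (h' : v' ≤ t') (h0 : v 0 + N ≤ v' 0 ∨ v' 0 + N ≤ v 0)
    (h1 : v (Fin.last d).castSucc + N ≤ t' (Fin.last d).castSucc)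
    (h1' : v' (Fin.last d).castSucc + N ≤ t (Fin.last d).castSucc)
    (hl : t (Fin.last (d + 1)) + N ≤ t' (Fin.last (d + 1)) ∨
      t' (Fin.last (d + 1)) + N ≤ t (Fin.last (d + 1))) (r : ℕ) :
    Far N (fill v t r) (fill v' t' r) := by
  have hz : ∀ a b : Fin (d + 2) → ℕ, tl a b (Fin.last (d + 1)) = 0 := by
    intro a b
    unfold tl
    rw [filter_false_of_mem, sum_empty]
    exact fun i _ hi => absurd (Fin.le_last i) (not_le.2 hi)
  have hdd : ∀ a b : Fin (d + 2) → ℕ, tl a b (Fin.last d).castSucc =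
      b (Fin.last (d + 1)) - a (Fin.last (d + 1)) := by
    intro a b
    unfold tl
    have : univ.filter (fun i : Fin (d + 2) => (Fin.last d).castSucc < i) =
        {Fin.last (d + 1)} := by
      ext i
      rw [mem_filter, mem_singleton]
      constructor
      · rintro ⟨_, hi⟩
        have h2 : d < (i : ℕ) := hi
        have h3 := i.isLt
        exact Fin.ext (by simp only [Fin.val_last]; omega)
      · rintro rfl
        exact ⟨mem_univ _, Fin.castSucc_lt_last _⟩
    rw [this, sum_singleton]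
  have h0dd : (0 : Fin (d + 2)) < (Fin.last d).castSucc := by
    rw [Fin.lt_def]
    simp only [Fin.val_zero, Fin.val_castSucc, Fin.val_last]
    omega
  have ht0 := tl_add_le_tl v t h0dd
  have ht0' := tl_add_le_tl v' t' h0dd
  have hzv := hz v t
  have hzv' := hz v' t'
  have hdv := hdd v t
  have hdv' := hdd v' t'
  have e1 : v (Fin.last (d + 1)) ≤ t (Fin.last (d + 1)) := h _
  have e2 : v' (Fin.last (d + 1)) ≤ t' (Fin.last (d + 1)) := h' _
  have e3 : v (Fin.last d).castSucc ≤ t (Fin.last d).castSucc := h _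
  have e4 : v' (Fin.last d).castSucc ≤ t' (Fin.last d).castSucc := h' _
  by_cases hr : t (Fin.last (d + 1)) - v (Fin.last (d + 1)) ≤ r
  · by_cases hr' : t' (Fin.last (d + 1)) - v' (Fin.last (d + 1)) ≤ r
    · refine ⟨Fin.last (d + 1), ?_⟩
      rw [fill_ap, fill_ap]
      omega
    · by_cases hr2 : r ≤ tl v t (Fin.last d).castSucc +
        (t (Fin.last d).castSucc - v (Fin.last d).castSucc)
      · refine ⟨0, ?_⟩
        rw [fill_ap, fill_ap]
        omega
      · refine ⟨(Fin.last d).castSucc, ?_⟩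
        rw [fill_ap, fill_ap]
        omega
  · by_cases hr' : t' (Fin.last (d + 1)) - v' (Fin.last (d + 1)) ≤ r
    · by_cases hr2 : r ≤ tl v' t' (Fin.last d).castSucc +
        (t' (Fin.last d).castSucc - v' (Fin.last d).castSucc)
      · refine ⟨0, ?_⟩
        rw [fill_ap, fill_ap]
        omega
      · refine ⟨(Fin.last d).castSucc, ?_⟩
        rw [fill_ap, fill_ap]
        omega
    · refine ⟨0, ?_⟩
      rw [fill_ap, fill_ap]
      omega

end Pool.Agent.Helper43.SN
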