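import Pool.Agent.Helper43.SN.GenAll
import Pool.Agent.Helper43.SN.Par
import Pool.Agent.Helper43.SN.Route
import Pool.Agent.Helper43.SN.Nice

set_option autoImplicit false

/-!
# SN-30 ThmX: every linking at a high level is extendable

PROOF. `a` from `genAll`, `ι = J d a`, `N`, `K` from `par ι d` (WLOG `N ≥ 1`), `w`, `w'` from `genAll` for `B = N`, `K₁` from
`Ev d w w' {1}`. Fix `k ≥ K, K₁` so large that `v i = el k (w i)`, `v' i = el k (w' i)` are `Blk N` (only the last gap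
`k - ∑ w i - w i last` needs it). `N'` larger than all coordinates of all `v i`, `v' i`, plus `N`. `n₁` from
`nice ι d N'` (and `≥ k`). For `n ≥ n₁` and `π` take `t`, `t' i = π (t i)`. `Blk N'` implies `v i j + N ≤ t i' j` for
all `i, i', j` (all coordinates of a `Blk N'` element are `≥ N'`), so `v i ≤ t i`. For `r ≤ n - k` claim: there are
embeddings `x`, `x'` into `Vt d (k+r)` with values `fill (v i) (t i) r`, `fill (v' i) (t' i) r` (injective by
`fill_far`) and `T d (k+r) x x' {1}`. `r = 0`: `fill_zero`, `Ev`. Step: `T_step` with `c = 1`, `par`,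
`fill_succ`, `fill_blk`, `fill_far` (`Gen` gives `h0` at the coordinate `0`). `r = n - k`:
`fill_end` (`∑ (t - v) = n - k`), `T_one`.
-/

namespace Pool.Agent.Helper43.SN

open Finset Pool.Agent.Helper46.MR

namespace ThmXAux

/-- all coordinates of an element far from the walls are large -/
theorem blkCoord {n b : ℕ} {u : Fin (n + 1) → ℕ} (h : Blk b u) (j : Fin (n + 1)) : b ≤ u j := by
  induction j using Fin.induction with
  | zero => exact h.1
  | succ j ih =>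
    have h1 := h.2 j
    omega

theorem blkAnti {n b c : ℕ} (hbc : b ≤ c) {u : Fin (n + 1) → ℕ} (h : Blk c u) : Blk b u :=
  ⟨hbc.trans h.1, fun j => by have h1 := h.2 j; omega⟩

theorem farAnti {n b c : ℕ} (hbc : b ≤ c) {u v : Fin n → ℕ} (h : Far c u v) : Far b u v := by
  obtain ⟨j, hj⟩ := h
  exact ⟨j, by omega⟩

theorem farNe {n b : ℕ} (hb : 1 ≤ b) {u v : Fin n → ℕ} (h : Far b u v) : u ≠ v := by
  rintro rfl
  obtain ⟨j, hj⟩ := h
  omega

theorem coord_le {d k : ℕ} {v : Fin (d + 2) → ℕ} (hv : v ∈ V d k) (j : Fin (d + 2)) : v j ≤ k := by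
  rw [← (mem_V.1 hv).2]
  exact single_le_sum (f := v) (fun _ _ => Nat.zero_le _) (mem_univ j)

theorem sum_sub_eq {d k r : ℕ} {v t : Fin (d + 2) → ℕ} (hv : v ∈ V d k) (ht : t ∈ V d (k + r))
    (h : v ≤ t) : ∑ i, (t i - v i) = r := by
  have h1 : ∑ i, t i = ∑ i, v i + ∑ i, (t i - v i) := by
    rw [← sum_add_distrib]
    refine sum_congr rfl fun i _ => ?_
    have h2 : v i ≤ t i := h i
    omega
  rw [(mem_V.1 hv).2, (mem_V.1 ht).2] at h1
  omega

theorem el_zero {d : ℕ} (k : ℕ) (z : Fin (d + 1) → ℕ) : el k z 0 = z 0 := el_castSucc k z 0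

theorem el_blk {d N k : ℕ} {z : Fin (d + 1) → ℕ} (h0 : N ≤ z 0)
    (h : ∀ j : Fin d, z j.castSucc + N ≤ z j.succ) (hk : ∑ i, z i + z (Fin.last d) + N ≤ k) :
    Blk N (el k z) := by
  refine ⟨by rw [el_zero]; exact h0, fun j => ?_⟩
  refine Fin.lastCases ?_ (fun j => ?_) j
  · rw [el_castSucc, Fin.succ_last, el_last]
    omega
  · rw [el_castSucc, Fin.succ_castSucc, el_castSucc]
    exact h j

/-- the special chains run from the configuration `w`, `w'` to given targets -/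
theorem run {ι : Type} [Fintype ι] [DecidableEq ι] {d N K k r : ℕ} (hd : 1 ≤ d) (hN : 1 ≤ N)
    (hP : ∀ k : ℕ, K ≤ k → ∀ (x x' : ι ↪ Vt d k)
      (x1 x1' : ι ↪ Vt d (k + 1)) (δ δ' : ι → Fin (d + 2)),
      (∀ i, (x1 i).1 = (x i).1 + Pi.single (δ i) 1) →
      (∀ i, (x1' i).1 = (x' i).1 + Pi.single (δ' i) 1) →
      (∀ i, Blk N (x i).1) → (∀ i, Blk N (x' i).1) →
      (∀ i i', i ≠ i' → Far N (x i).1 (x i').1) → (∀ i i', i ≠ i' → Far N (x' i).1 (x' i').1) →
      KP d k (imv x) (imv x1) (imv x') (imv x1'))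
    (hk : K ≤ k) {y y' : ι ↪ Vt d k} (hT : T d k y y' {1})
    (hy : ∀ i, Blk N (y i).1) (hy' : ∀ i, Blk N (y' i).1)
    (hf : ∀ i i', i ≠ i' → (y i).1 0 + N ≤ (y i').1 0 ∨ (y i').1 0 + N ≤ (y i).1 0)
    (hf' : ∀ i i', i ≠ i' → (y' i).1 0 + N ≤ (y' i').1 0 ∨ (y' i').1 0 + N ≤ (y' i).1 0)
    {t t' : ι → Vt d (k + r)} (ht : ∀ i, Blk (k + N) (t i).1) (ht' : ∀ i, Blk (k + N) (t' i).1)
    (hl : ∀ i i', i ≠ i' →
      (t i).1 (Fin.last (d + 1)) + (k + N) ≤ (t i').1 (Fin.last (d + 1)) ∨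
      (t i').1 (Fin.last (d + 1)) + (k + N) ≤ (t i).1 (Fin.last (d + 1)))
    (hl' : ∀ i i', i ≠ i' →
      (t' i).1 (Fin.last (d + 1)) + (k + N) ≤ (t' i').1 (Fin.last (d + 1)) ∨
      (t' i').1 (Fin.last (d + 1)) + (k + N) ≤ (t' i).1 (Fin.last (d + 1)))
    (s : ℕ) (hs : s ≤ r) :
    ∃ x x' : ι ↪ Vt d (k + s), (∀ i, (x i).1 = fill (y i).1 (t i).1 s) ∧
      (∀ i, (x' i).1 = fill (y' i).1 (t' i).1 s) ∧ T d (k + s) x x' {1} := by
  -- every target is above every start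
  have hle : ∀ i i' j, (y i).1 j + N ≤ (t i').1 j := fun i i' j => by
    have h1 := coord_le (y i).2 j
    have h2 := blkCoord (ht i') j
    omega
  have hle' : ∀ i i' j, (y' i).1 j + N ≤ (t' i').1 j := fun i i' j => by
    have h1 := coord_le (y' i).2 j
    have h2 := blkCoord (ht' i') j
    omega
  have hyt : ∀ i, (y i).1 ≤ (t i).1 := fun i j => le_trans (Nat.le_add_right _ _) (hle i i j)
  have hyt' : ∀ i, (y' i).1 ≤ (t' i).1 := fun i j => le_trans (Nat.le_add_right _ _) (hle' i i j)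
  have far : ∀ (s : ℕ) i i', i ≠ i' → Far N (fill (y i).1 (t i).1 s) (fill (y i').1 (t i').1 s) :=
    fun s i i' hii => fill_far hd (hyt i) (hyt i') (hf i i' hii) (hle i i' _) (hle i' i _)
      (by have := hl i i' hii; omega) s
  have far' : ∀ (s : ℕ) i i', i ≠ i' →
      Far N (fill (y' i).1 (t' i).1 s) (fill (y' i').1 (t' i').1 s) :=
    fun s i i' hii => fill_far hd (hyt' i) (hyt' i') (hf' i i' hii) (hle' i i' _) (hle' i' i _)
      (by have := hl' i i' hii; omega) s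
  have blk : ∀ (s : ℕ) i, Blk N (fill (y i).1 (t i).1 s) := fun s i =>
    fill_blk (hy i) (blkAnti (by omega) (ht i)) (hyt i) s
  have blk' : ∀ (s : ℕ) i, Blk N (fill (y' i).1 (t' i).1 s) := fun s i =>
    fill_blk (hy' i) (blkAnti (by omega) (ht' i)) (hyt' i) s
  induction s with
  | zero =>
    refine ⟨y, y', fun i => ?_, fun i => ?_, hT⟩
    · rw [fill_zero]
    · rw [fill_zero]
  | succ s ih =>
    obtain ⟨x, x', hx, hx', hT1⟩ := ih (by omega)
    -- the next embeddings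
    have m1 : ∀ i, fill (y i).1 (t i).1 (s + 1) ∈ V d (k + (s + 1)) := fun i =>
      fill_mem (y i).2 (t i).2 (hyt i) (by omega)
    have m1' : ∀ i, fill (y' i).1 (t' i).1 (s + 1) ∈ V d (k + (s + 1)) := fun i =>
      fill_mem (y' i).2 (t' i).2 (hyt' i) (by omega)
    let x1 : ι ↪ Vt d (k + s + 1) := ⟨fun i => ⟨fill (y i).1 (t i).1 (s + 1), m1 i⟩, by
      intro i i' h
      by_contra hii
      exact farNe hN (far (s + 1) i i' hii) (Subtype.ext_iff.1 h)⟩
    let x1' : ι ↪ Vt d (k + s + 1) := ⟨fun i => ⟨fill (y' i).1 (t' i).1 (s + 1), m1' i⟩, by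
      intro i i' h
      by_contra hii
      exact farNe hN (far' (s + 1) i i' hii) (Subtype.ext_iff.1 h)⟩
    have hsl : ∀ i, ∃ j, fill (y i).1 (t i).1 (s + 1) = fill (y i).1 (t i).1 s + Pi.single j 1 :=
      fun i => fill_succ (hyt i) (by rw [sum_sub_eq (y i).2 (t i).2 (hyt i)]; omega)
    have hsl' : ∀ i, ∃ j,
        fill (y' i).1 (t' i).1 (s + 1) = fill (y' i).1 (t' i).1 s + Pi.single j 1 :=
      fun i => fill_succ (hyt' i) (by rw [sum_sub_eq (y' i).2 (t' i).2 (hyt' i)]; omega)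
    choose δ hδ using hsl
    choose δ' hδ' using hsl'
    have e1 : ∀ i, (x1 i).1 = (x i).1 + Pi.single (δ i) 1 := fun i => by
      rw [hx]; exact hδ i
    have e1' : ∀ i, (x1' i).1 = (x' i).1 + Pi.single (δ' i) 1 := fun i => by
      rw [hx']; exact hδ' i
    have le1 : ∀ i, (x i).1 ≤ (x1 i).1 := fun i =>
      (le_iff_cover (x i).2 (x1 i).2).2 ⟨_, e1 i⟩
    have le1' : ∀ i, (x' i).1 ≤ (x1' i).1 := fun i =>
      (le_iff_cover (x' i).2 (x1' i).2).2 ⟨_, e1' i⟩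
    have hKP : KP d (k + s) (imv x) (imv x1) (imv x') (imv x1') := by
      refine hP (k + s) (by omega) x x' x1 x1' δ δ' e1 e1' (fun i => ?_) (fun i => ?_)
        (fun i i' hii => ?_) (fun i i' hii => ?_)
      · rw [hx]; exact blk s i
      · rw [hx']; exact blk' s i
      · rw [hx, hx]; exact far s i i' hii
      · rw [hx', hx']; exact far' s i i' hii
    refine ⟨x1, x1', fun i => rfl, fun i => rfl, ?_⟩
    exact T_step x x' x1 x1' le1 le1' hKP 1 (fun i => by simpa using le1 i) {1} {1}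
      (fun g hg => Or.inl hg) hT1

theorem main {ι : Type} [Fintype ι] [DecidableEq ι] {d N K : ℕ} (hd : 1 ≤ d) (hN : 1 ≤ N)
    (hP : ∀ k : ℕ, K ≤ k → ∀ (x x' : ι ↪ Vt d k)
      (x1 x1' : ι ↪ Vt d (k + 1)) (δ δ' : ι → Fin (d + 2)),
      (∀ i, (x1 i).1 = (x i).1 + Pi.single (δ i) 1) →
      (∀ i, (x1' i).1 = (x' i).1 + Pi.single (δ' i) 1) →
      (∀ i, Blk N (x i).1) → (∀ i, Blk N (x' i).1) →
      (∀ i i', i ≠ i' → Far N (x i).1 (x i').1) → (∀ i i', i ≠ i' → Far N (x' i).1 (x' i').1) →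
      KP d k (imv x) (imv x1) (imv x') (imv x1'))
    {w w' : ι → Fin (d + 1) → ℕ} (hw : Gen N w) (hw' : Gen N w') (hE : Ev d w w' {1}) :
    ∃ n₁ : ℕ, ∀ n : ℕ, n₁ ≤ n → ∀ π : Equiv.Perm (Vt d n), Ext d n π := by
  obtain ⟨K₁, hE⟩ := hE
  let k : ℕ := K + K₁ + (∑ i, (∑ j, w i j + w i (Fin.last d))) +
    (∑ i, (∑ j, w' i j + w' i (Fin.last d))) + N
  have hk1 : ∀ i, ∑ j, w i j + w i (Fin.last d) + N ≤ k := fun i => by
    have h1 := single_le_sum (f := fun i => ∑ j, w i j + w i (Fin.last d))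
      (fun _ _ => Nat.zero_le _) (mem_univ i)
    beta_reduce at h1
    omega
  have hk1' : ∀ i, ∑ j, w' i j + w' i (Fin.last d) + N ≤ k := fun i => by
    have h1 := single_le_sum (f := fun i => ∑ j, w' i j + w' i (Fin.last d))
      (fun _ _ => Nat.zero_le _) (mem_univ i)
    beta_reduce at h1
    omega
  obtain ⟨y, y', hy, hy', hT⟩ := hE k (by omega)
  obtain ⟨n₁, hn₁⟩ := nice ι d (k + N)
  refine ⟨max n₁ k, fun n hn π => ?_⟩
  obtain ⟨r, rfl⟩ : ∃ r, n = k + r := ⟨n - k, by omega⟩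
  obtain ⟨t, h1, h2, h3⟩ := hn₁ (k + r) (by omega) π
  obtain ⟨x, x', hx, hx', hT'⟩ := run (t := t) (t' := fun i => π (t i)) hd hN hP (k := k)
    (by omega) hT
    (fun i => by rw [hy]; exact el_blk (hw.1 i).1 (hw.1 i).2 (hk1 i))
    (fun i => by rw [hy']; exact el_blk (hw'.1 i).1 (hw'.1 i).2 (hk1' i))
    (fun i i' hii => by rw [hy, hy, el_zero, el_zero]; exact hw.2 i i' hii 0)
    (fun i i' hii => by rw [hy', hy', el_zero, el_zero]; exact hw'.2 i i' hii 0)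
    h1 h2 (fun i i' hii => (h3 i i' hii).1) (fun i i' hii => (h3 i i' hii).2) r le_rfl
  have hb : ∀ (y : ι ↪ Vt d k) (t : ι → Vt d (k + r)), (∀ i, Blk (k + N) (t i).1) → ∀ i,
      fill (y i).1 (t i).1 r = (t i).1 := fun y t ht i => by
    have hyt : (y i).1 ≤ (t i).1 := fun j =>
      (coord_le (y i).2 j).trans ((Nat.le_add_right _ _).trans (blkCoord (ht i) j))
    have h4 := fill_end hyt
    rwa [sum_sub_eq (y i).2 (t i).2 hyt] at h4
  have ex : ∀ i, x i = t i := fun i => Subtype.ext (by rw [hx]; exact hb y t h1 i)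
  have ex' : ∀ i, x' i = π (t i) := fun i =>
    Subtype.ext (by rw [hx']; exact hb y' (fun i => π (t i)) h2 i)
  exact T_one hT' π fun i => by rw [ex, ex']

end ThmXAux

theorem thmX (d : ℕ) (hd : 3 ≤ d) : ∃ n₁ : ℕ, ∀ n : ℕ, n₁ ≤ n →
    ∀ π : Equiv.Perm (Vt d n), Ext d n π := by
  obtain ⟨a, ha⟩ := genAll d hd
  obtain ⟨N, K, hP⟩ := par {z : Fin (d + 1) → ℕ // z ∈ J d a} d (by omega)
  obtain ⟨w, w', hw, hw', hE⟩ := ha (N + 1)
  refine ThmXAux.main (N := N + 1) (K := K) (by omega) (by omega) ?_ hw hw' hE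
  intro k hk x x' x1 x1' δ δ' e e' b b' f f'
  exact hP k hk x x' x1 x1' δ δ' e e' (fun i => ThmXAux.blkAnti (Nat.le_succ N) (b i))
    (fun i => ThmXAux.blkAnti (Nat.le_succ N) (b' i)) (fun i i' h => ThmXAux.farAnti (Nat.le_succ N) (f i i' h))
    (fun i i' h => ThmXAux.farAnti (Nat.le_succ N) (f' i i' h))

end Pool.Agent.Helper43.SN
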