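import Pool.Agent.Helper43.SN.Iso
import Pool.Agent.Helper43.SN.Cut
import Pool.Agent.Helper43.SN.Big

set_option autoImplicit false

/-!
# SN-7 TubeKP: the punctured Griggs step for the tube

PROOF. `N = k + 1`, `X = tube d a k`, `X1 = tube d a (k+1)`. Let `(A, D)` be a violation:
`|lo D \ X| < |A|`, `|ups A \ X1| + |lo D \ X| < |A| + |D|`. By `ups_tube_disjoint` `ups A \ X1 = ups A`,
so with `f = |ups A| - |A|` (natural numbers): `f + 1 ≤ |D| - |lo D \ X| ≤ C' |D| / N` (`cut`). For large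
`N` `|D| ≤ 2 |A|` (`|A| > |lo D \ X| ≥ |D| (1 - C'/N)`), so `f + 1 ≤ 2 C' |A| / N`. By `iso`
`|A|^d ≤ ((2d+5) 2 C' |A| / N)^(d+1)` and `|A| ≥ 1`, hence `|A| ≥ ε₁ N^(d+1)`; and
`|D| ≥ N (f+1)/C' ≥ (N/C') |A|^(d/(d+1)) / (2d+5) ≥ ε₁ N^(d+1)` (smaller `ε₁`). So EVERY violation is
big.
`E = D ∪ X1`: `lo E = lo D ∪ X` (`lo_tube`), `|lo E| = |lo D \ X| + |X|`, `|E| = |D| + |X|`
(`card_tube`, `a ≤ k`), so `|lo E| < |A| + |X|` and `|ups A| + |lo E| < |A| + |E|`. `big_viol` with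
`ε = ε₁/2`, `h = |X| = |V d a| ≤ (a+1)^(d+1) ≤ δ N^(d+1)` (`V_pow`; `C a ≤ k`, `k₀ ≤ k`), `h' = 0`:
`|V k| ≤ |lo E| + ε N^(d+1)`. By `dual` (all four sets as here) also
`A'' = (V k \ X) \ lo D` belongs to a violation, so `|A''| ≥ ε₁ N^(d+1)`; but
`|A''| = |V k| - |lo E| ≤ ε N^(d+1)`. Contradiction.
-/

namespace Pool.Agent.Helper43.SN

open Finset Pool.Agent.Helper46.MR

namespace TubeKPAux

/-- every violation is big -/
theorem viol_big (d : ℕ) : ∃ (ε₁ : ℝ) (K : ℕ), 0 < ε₁ ∧ ∀ a k : ℕ, K ≤ k → 4 * a ≤ k →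
    ∀ A ⊆ V d k \ tube d a k, ∀ D ⊆ V d (k + 1) \ tube d a (k + 1),
      (lo D \ tube d a k).card < A.card →
      (ups A \ tube d a (k + 1)).card + (lo D \ tube d a k).card < A.card + D.card →
      ε₁ * ((k : ℝ) + 1) ^ (d + 1) ≤ A.card ∧ ε₁ * ((k : ℝ) + 1) ^ (d + 1) ≤ D.card := by
  obtain ⟨C₀, hC₀⟩ := cut d
  set C : ℝ := (C₀ : ℝ) + 1 with hC
  have hC1 : 1 ≤ C := by
    have : (0 : ℝ) ≤ C₀ := Nat.cast_nonneg _
    rw [hC]; linarith
  set b : ℝ := 2 * (d : ℝ) + 5 with hb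
  have hb1 : 1 ≤ b := by
    have : (0 : ℝ) ≤ d := Nat.cast_nonneg _
    rw [hb]; linarith
  set c0 : ℝ := (b * (2 * C)) ^ (d + 1) with hc0
  have hbC : 1 ≤ b * (2 * C) := by nlinarith
  have hc01 : 1 ≤ c0 := one_le_pow₀ hbC
  set c1 : ℝ := (C * b) ^ (d + 1) with hc1
  have hCb : 1 ≤ C * b := by nlinarith
  have hc11 : 1 ≤ c1 := one_le_pow₀ hCb
  set κ : ℝ := (1 / c0) ^ d / c1 with hκ
  have hc0pos : 0 < c0 := by linarith
  have hc1pos : 0 < c1 := by linarith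
  have hκpos : 0 < κ := by positivity
  refine ⟨min (1 / c0) κ, 2 * C₀ + 2, lt_min (by positivity) hκpos, ?_⟩
  intro a k hk ha A hA D hD h1 h2
  have hAV : A ⊆ V d k := hA.trans sdiff_subset
  have hN : (0 : ℝ) < (k : ℝ) + 1 := by positivity
  -- the upper shadow
  have hu : ups A \ tube d a (k + 1) = ups A := sdiff_eq_self_of_disjoint (ups_tube_disjoint hA)
  rw [hu] at h2
  have hau := card_le_ups hAV
  have hcut := hC₀ a k ha D hD
  have hiso := iso hAV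
  set x : ℕ := A.card with hx
  set y : ℕ := D.card with hy
  set l : ℕ := (lo D \ tube d a k).card with hl
  set u : ℕ := (ups A).card with huu
  set f : ℕ := u - x with hf
  have hx1 : 1 ≤ x := by omega
  have hfy : f + 1 + l ≤ y := by omega
  -- real forms
  have hcutR : ((k : ℝ) + 1) * y ≤ ((k : ℝ) + 1) * l + C₀ * y := by exact_mod_cast hcut
  have hfyR : (f : ℝ) + 1 + l ≤ y := by exact_mod_cast hfy
  have hlx : (l : ℝ) ≤ x := by exact_mod_cast h1.le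
  have hyC : (0 : ℝ) ≤ y := Nat.cast_nonneg _
  have hf0 : (0 : ℝ) ≤ f := Nat.cast_nonneg _
  have hkC : 2 * C ≤ (k : ℝ) + 1 := by
    have : ((2 * C₀ + 2 : ℕ) : ℝ) ≤ k := by exact_mod_cast hk
    push_cast at this
    rw [hC]; linarith
  -- `N (f+1) ≤ C y`
  have hA1 : ((k : ℝ) + 1) * ((f : ℝ) + 1) ≤ C * y := by
    have h3 : ((k : ℝ) + 1) * ((f : ℝ) + 1 + l) ≤ ((k : ℝ) + 1) * y :=
      mul_le_mul_of_nonneg_left hfyR hN.le
    have h4 : (C₀ : ℝ) * y ≤ C * y := mul_le_mul_of_nonneg_right (by rw [hC]; linarith) hyC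
    nlinarith
  -- `y ≤ 2 x`
  have hy2 : (y : ℝ) ≤ 2 * x := by
    have h4 : (C₀ : ℝ) * y ≤ C * y := mul_le_mul_of_nonneg_right (by rw [hC]; linarith) hyC
    have h5 : 2 * (C * y) ≤ ((k : ℝ) + 1) * y := by
      have := mul_le_mul_of_nonneg_right hkC hyC
      linarith
    have h6 : ((k : ℝ) + 1) * l ≤ ((k : ℝ) + 1) * x := mul_le_mul_of_nonneg_left hlx hN.le
    have h7 : ((k : ℝ) + 1) * y ≤ ((k : ℝ) + 1) * (2 * x) := by linarith
    exact le_of_mul_le_mul_left h7 hN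
  have hA2 : ((k : ℝ) + 1) * ((f : ℝ) + 1) ≤ 2 * C * x := by
    have : C * y ≤ C * (2 * x) := mul_le_mul_of_nonneg_left hy2 (by linarith)
    linarith
  have hxpos : (0 : ℝ) < x := by exact_mod_cast hx1
  have hisoR : (x : ℝ) ^ d ≤ (b * ((f : ℝ) + 1)) ^ (d + 1) := by
    have : ((x ^ d : ℕ) : ℝ) ≤ (((2 * d + 5) * (f + 1)) ^ (d + 1) : ℕ) := by exact_mod_cast hiso
    push_cast at this
    exact this
  have hb0 : 0 ≤ b := by linarith
  -- `N^(d+1) x^d ≤ (b N (f+1))^(d+1)`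
  have hNx : ((k : ℝ) + 1) ^ (d + 1) * (x : ℝ) ^ d ≤
      (b * (((k : ℝ) + 1) * ((f : ℝ) + 1))) ^ (d + 1) := by
    have h3 : ((k : ℝ) + 1) ^ (d + 1) * (x : ℝ) ^ d ≤
        ((k : ℝ) + 1) ^ (d + 1) * (b * ((f : ℝ) + 1)) ^ (d + 1) :=
      mul_le_mul_of_nonneg_left hisoR (by positivity)
    calc _ ≤ _ := h3
      _ = _ := by rw [← mul_pow]; ring
  have hxbig : 1 / c0 * ((k : ℝ) + 1) ^ (d + 1) ≤ x := by
    have h3 : (b * (((k : ℝ) + 1) * ((f : ℝ) + 1))) ^ (d + 1) ≤ (b * (2 * C * x)) ^ (d + 1) :=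
      pow_le_pow_left₀ (by positivity) (mul_le_mul_of_nonneg_left hA2 hb0) _
    have h4 : (b * (2 * C * x)) ^ (d + 1) = c0 * x * (x : ℝ) ^ d := by
      rw [hc0]
      calc (b * (2 * C * x)) ^ (d + 1) = ((b * (2 * C)) * x) ^ (d + 1) := by ring
        _ = (b * (2 * C)) ^ (d + 1) * (x : ℝ) ^ (d + 1) := mul_pow _ _ _
        _ = _ := by rw [pow_succ (x : ℝ) d]; ring
    have h5 : ((k : ℝ) + 1) ^ (d + 1) * (x : ℝ) ^ d ≤ c0 * x * (x : ℝ) ^ d := by
      rw [← h4]; exact hNx.trans h3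
    have h6 : ((k : ℝ) + 1) ^ (d + 1) ≤ c0 * x := le_of_mul_le_mul_right h5 (by positivity)
    rw [one_div, inv_mul_le_iff₀ hc0pos]
    exact h6
  have hybig : κ * (((k : ℝ) + 1) ^ (d + 1)) ^ (d + 1) ≤ (y : ℝ) ^ (d + 1) := by
    have h3 : (b * (((k : ℝ) + 1) * ((f : ℝ) + 1))) ^ (d + 1) ≤ (b * (C * y)) ^ (d + 1) :=
      pow_le_pow_left₀ (by positivity) (mul_le_mul_of_nonneg_left hA1 hb0) _
    have h4 : (b * (C * y)) ^ (d + 1) = c1 * (y : ℝ) ^ (d + 1) := by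
      rw [hc1, ← mul_pow]; ring
    have h5 : (1 / c0 * ((k : ℝ) + 1) ^ (d + 1)) ^ d ≤ (x : ℝ) ^ d :=
      pow_le_pow_left₀ (by positivity) hxbig _
    have h6 : ((k : ℝ) + 1) ^ (d + 1) * (1 / c0 * ((k : ℝ) + 1) ^ (d + 1)) ^ d ≤
        c1 * (y : ℝ) ^ (d + 1) := by
      rw [← h4]
      exact (mul_le_mul_of_nonneg_left h5 (by positivity)).trans (hNx.trans h3)
    have h7 : ((k : ℝ) + 1) ^ (d + 1) * (1 / c0 * ((k : ℝ) + 1) ^ (d + 1)) ^ d =
        (1 / c0) ^ d * (((k : ℝ) + 1) ^ (d + 1)) ^ (d + 1) := by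
      rw [mul_pow, pow_succ (((k : ℝ) + 1) ^ (d + 1)) d]; ring
    rw [h7] at h6
    rw [hκ, div_mul_eq_mul_div, div_le_iff₀ hc1pos]
    linarith
  set N' : ℝ := ((k : ℝ) + 1) ^ (d + 1) with hN'
  have hN'pos : 0 < N' := by positivity
  constructor
  · exact (mul_le_mul_of_nonneg_right (min_le_left _ _) hN'pos.le).trans hxbig
  · set e : ℝ := min (1 / c0) κ with he
    have he0 : 0 < e := lt_min (by positivity) hκpos
    have he1 : e ≤ 1 := (min_le_left _ _).trans (by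
      rw [div_le_one hc0pos]; exact hc01)
    have he2 : e ^ (d + 1) ≤ κ := by
      calc e ^ (d + 1) ≤ e ^ 1 := pow_le_pow_of_le_one he0.le he1 (by omega)
        _ = e := pow_one e
        _ ≤ κ := min_le_right _ _
    have h8 : (e * N') ^ (d + 1) ≤ (y : ℝ) ^ (d + 1) := by
      rw [mul_pow]
      exact (mul_le_mul_of_nonneg_right he2 (by positivity)).trans hybig
    exact le_of_pow_le_pow_left₀ (by omega) hyC h8

end TubeKPAux

open TubeKPAux in
theorem tubeKP (d : ℕ) (hd : 1 ≤ d) : ∃ C k₀ : ℕ, 4 ≤ C ∧ ∀ a k : ℕ, k₀ ≤ k → C * a ≤ k →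
    KP d k (tube d a k) (tube d a (k + 1)) (tube d a k) (tube d a (k + 1)) := by
  classical
  obtain ⟨ε₁, K1, hε₁, hviol⟩ := viol_big d
  obtain ⟨δ, K2, hδ, hbig⟩ := big_viol d hd ε₁ (ε₁ / 2) hε₁ (by linarith)
  obtain ⟨C1, hC1⟩ := exists_nat_ge (2 / δ)
  refine ⟨C1 + 4, K1 + K2 + C1 + 4, by omega, ?_⟩
  intro a k hk ha A hA D hD
  by_contra hcon
  push Not at hcon
  obtain ⟨h1, h2⟩ := hcon
  have h4a : 4 * a ≤ k := le_trans (Nat.mul_le_mul_right a (by omega)) ha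
  have hak : a ≤ k := by omega
  have hN : (0 : ℝ) < (k : ℝ) + 1 := by positivity
  obtain ⟨hAb, hDb⟩ := hviol a k (by omega) h4a A hA D hD h1 h2
  have hAV : A ⊆ V d k := hA.trans sdiff_subset
  have hDV : D ⊆ V d (k + 1) := hD.trans sdiff_subset
  have hX : tube d a k ⊆ V d k := tube_subset
  have hX1 : tube d a (k + 1) ⊆ V d (k + 1) := tube_subset
  have hcX : (tube d a k).card = (V d a).card := card_tube hak
  have hcX1 : (tube d a (k + 1)).card = (V d a).card := card_tube (by omega)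
  -- the set `E`
  have hE : D ∪ tube d a (k + 1) ⊆ V d (k + 1) := union_subset hDV hX1
  have hDX : Disjoint D (tube d a (k + 1)) :=
    disjoint_of_subset_left hD sdiff_disjoint
  have hcE : (D ∪ tube d a (k + 1)).card = D.card + (V d a).card := by
    rw [card_union_of_disjoint hDX, hcX1]
  have hloE : lo (D ∪ tube d a (k + 1)) = lo D ∪ tube d a k := by rw [lo_union, lo_tube]
  have hcloE : (lo (D ∪ tube d a (k + 1))).card = (lo D \ tube d a k).card + (V d a).card := by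
    rw [hloE, ← hcX, ← card_sdiff_add_card]
  have hu : ups A \ tube d a (k + 1) = ups A := sdiff_eq_self_of_disjoint (ups_tube_disjoint hA)
  -- `h ≤ δ N^(d+1)`
  have hh : (((V d a).card : ℕ) : ℝ) ≤ δ * ((k : ℝ) + 1) ^ (d + 1) := by
    have h3 : (((V d a).card : ℕ) : ℝ) ≤ ((a : ℝ) + 1) ^ (d + 1) := by exact_mod_cast V_pow d a
    -- `t = 2 / (C1 + 4)`
    set t : ℝ := 2 / ((C1 : ℝ) + 4) with ht
    have hC4 : (0 : ℝ) < (C1 : ℝ) + 4 := by positivity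
    have ht0 : 0 < t := by positivity
    have ht1 : t ≤ 1 := by
      rw [ht, div_le_one hC4]
      have : (0 : ℝ) ≤ C1 := Nat.cast_nonneg _
      linarith
    have htδ : t ≤ δ := by
      rw [ht, div_le_iff₀ hC4]
      rw [div_le_iff₀ hδ] at hC1
      nlinarith
    have ha' : ((C1 : ℝ) + 4) * a ≤ k := by exact_mod_cast ha
    have hk' : (C1 : ℝ) + 4 ≤ k := by
      have : ((C1 + 4 : ℕ) : ℝ) ≤ k := by exact_mod_cast (by omega : C1 + 4 ≤ k)
      push_cast at this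
      exact this
    have h4 : (a : ℝ) + 1 ≤ t * ((k : ℝ) + 1) := by
      rw [ht, div_mul_eq_mul_div, le_div_iff₀ hC4]
      nlinarith
    have h5 : ((a : ℝ) + 1) ^ (d + 1) ≤ (t * ((k : ℝ) + 1)) ^ (d + 1) :=
      pow_le_pow_left₀ (by positivity) h4 _
    have h6 : t ^ (d + 1) ≤ δ := by
      calc t ^ (d + 1) ≤ t ^ 1 := pow_le_pow_of_le_one ht0.le ht1 (by omega)
        _ = t := pow_one t
        _ ≤ δ := htδ
    calc (((V d a).card : ℕ) : ℝ) ≤ ((a : ℝ) + 1) ^ (d + 1) := h3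
      _ ≤ (t * ((k : ℝ) + 1)) ^ (d + 1) := h5
      _ = t ^ (d + 1) * ((k : ℝ) + 1) ^ (d + 1) := mul_pow _ _ _
      _ ≤ δ * ((k : ℝ) + 1) ^ (d + 1) := mul_le_mul_of_nonneg_right h6 (by positivity)
  -- apply `big_viol`
  have hb1 : ((lo (D ∪ tube d a (k + 1))).card : ℝ) ≤ A.card + ((V d a).card : ℝ) := by
    rw [hcloE]
    have : (lo D \ tube d a k).card + (V d a).card ≤ A.card + (V d a).card := by omega
    exact_mod_cast this
  have hb2 : ((ups A).card : ℝ) + (lo (D ∪ tube d a (k + 1))).card ≤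
      A.card + (D ∪ tube d a (k + 1)).card + 0 := by
    rw [hcloE, hcE]
    rw [hu] at h2
    have : (ups A).card + ((lo D \ tube d a k).card + (V d a).card) ≤
        A.card + (D.card + (V d a).card) := by omega
    have h' : (((ups A).card + ((lo D \ tube d a k).card + (V d a).card) : ℕ) : ℝ) ≤
        ((A.card + (D.card + (V d a).card) : ℕ) : ℝ) := by exact_mod_cast this
    push_cast at h' ⊢
    linarith
  have hEb : ε₁ * ((k : ℝ) + 1) ^ (d + 1) ≤ ((D ∪ tube d a (k + 1)).card : ℝ) := by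
    rw [hcE]
    push_cast
    have : (0 : ℝ) ≤ ((V d a).card : ℝ) := Nat.cast_nonneg _
    linarith
  obtain ⟨_, hV⟩ := hbig k (by omega) A hAV (D ∪ tube d a (k + 1)) hE ((V d a).card : ℝ) 0 hh
    (by positivity) hAb hEb hb1 hb2
  -- the dual violation
  obtain ⟨g1, g2⟩ := dual hX hX hX1 hX1 rfl rfl hA hD h1 h2
  have hA'' : (V d k \ tube d a k) \ lo D ⊆ V d k \ tube d a k := sdiff_subset
  have hD'' : (V d (k + 1) \ tube d a (k + 1)) \ ups A ⊆ V d (k + 1) \ tube d a (k + 1) :=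
    sdiff_subset
  obtain ⟨hA3, _⟩ := hviol a k (by omega) h4a _ hA'' _ hD'' g1 g2
  have hcard : ((V d k \ tube d a k) \ lo D).card + (lo (D ∪ tube d a (k + 1))).card =
      (V d k).card := by
    have e1 : (V d k \ tube d a k) \ lo D = V d k \ lo (D ∪ tube d a (k + 1)) := by
      rw [hloE, sdiff_sdiff_left, sup_eq_union, union_comm]
    rw [e1]
    exact card_sdiff_add_card_eq_card (lo_sub hE)
  have hcardR : (((V d k \ tube d a k) \ lo D).card : ℝ) + (lo (D ∪ tube d a (k + 1))).card =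
      (V d k).card := by exact_mod_cast hcard
  have hpos : 0 < ε₁ * ((k : ℝ) + 1) ^ (d + 1) := by positivity
  have : ε₁ / 2 * ((k : ℝ) + 1) ^ (d + 1) = ε₁ * ((k : ℝ) + 1) ^ (d + 1) / 2 := by ring
  rw [this] at hV
  linarith

end Pool.Agent.Helper43.SN
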