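import Pool.Agent.Helper43.SN.TubeKP
import Pool.Agent.Helper43.SN.Hall
import Pool.Agent.Helper43.SN.KillAll

set_option autoImplicit false

/-!
# SN-16 TubeT: eventually everything is extendable up to an even permutation of the tube

PROOF. `C`, `k₀` from `tubeKP`, `k* = C a`. `|V d a| ≥ c (a+1)^(d+1)` (`V_lo`) is a fixed proportion of
`W d (C a)` (`W_hi`), and `(d+2)! |V d k| ≤ W d k + (d+2)! (k+1)^d` (`V_le_W`), so for some `θ > 0` (from
`c`, `C`, `d` only) and all large `a`: `(d+2)! (|V d (C a)| - |V d a|) ≤ (1 - θ) W d (C a)`. Fix such an `a` with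
`C a ≥ k₀` and `C a ≥ K(θ)` of `kill_all`: `Kill d (C a) (|V d (C a)| - |V d a|)`. The elements `el k z`,
`z ∈ J d a`, are exactly those of `tube d a k` (`k ≥ a`; `gp_el`, `el_mem`, `el_init`).
BASE `k = C a`: for `π` with `π (x i) = x i` (`x i = el k i`) use `Kill` for `Y` = complement of the tube,
`e = sign π`: `ρ = π` off the tube, `sign ρ = sign π`, so `σ = π⁻¹ ρ` moves only tube elements,
`σ = g.viaFintypeEmbedding x`, `sign g = 1` (`viaFintypeEmbedding_sign`). STEP: `T_step` with `c = 1`,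
`G = G' = {sign g = 1}`, `tubeKP`, `shl_el`.
-/

namespace Pool.Agent.Helper43.SN

open Finset Pool.Agent.Helper46.MR

/-- the elements of the cross section of the tube -/
theorem mem_J {d a : ℕ} {z : Fin (d + 1) → ℕ} :
    z ∈ J d a ↔ Monotone z ∧ (∑ i, z i) + z (Fin.last d) ≤ a := by
  classical
  unfold J
  rw [mem_filter, Fintype.mem_piFinset]
  refine ⟨fun h => h.2, fun h => ⟨fun i => ?_, h⟩⟩
  rw [mem_range]
  have h1 : z i ≤ ∑ j, z j := single_le_sum (f := z) (fun _ _ => Nat.zero_le _) (mem_univ i)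
  omega

namespace TubeTAux

/-- the elements of the tube at level `k` -/
noncomputable def xk (d a k : ℕ) (h : a ≤ k) : {z : Fin (d + 1) → ℕ // z ∈ J d a} ↪ Vt d k :=
  ⟨fun z => ⟨el k z.1, el_mem (mem_J.1 z.2).1 ((mem_J.1 z.2).2.trans h)⟩, fun z w hzw => by
    have h1 : el k z.1 = el k w.1 := congrArg Subtype.val hzw
    exact Subtype.ext (el_inj k h1)⟩

theorem xk_val {d a k : ℕ} (h : a ≤ k) (z : {z : Fin (d + 1) → ℕ // z ∈ J d a}) :
    (xk d a k h z).1 = el k z.1 := rfl

theorem imv_xk {d a k : ℕ} (h : a ≤ k) : imv (xk d a k h) = tube d a k := by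
  classical
  ext y
  unfold imv tube
  rw [mem_image, mem_filter]
  constructor
  · rintro ⟨z, -, rfl⟩
    refine ⟨(xk d a k h z).2, ?_⟩
    rw [xk_val, gp_el]
    have := (mem_J.1 z.2).2
    omega
  · rintro ⟨hy, hg⟩
    obtain ⟨hm, hs⟩ := mem_V.1 hy
    have e := el_init hy
    have hz : Monotone (Fin.init y) := fun i j hij => hm (Fin.castSucc_le_castSucc_iff.2 hij)
    have h1 : Fin.init y (Fin.last d) ≤ y (Fin.last (d + 1)) := hm (Fin.le_last _)
    have h2 : y (Fin.last (d + 1)) = k - ∑ i, Fin.init y i := by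
      conv_lhs => rw [← e]
      rw [el_last]
    have h3 : ∑ i, Fin.init y i ≤ k := by
      have h4 : ∑ i : Fin (d + 1), y i.castSucc + y (Fin.last (d + 1)) = k :=
        (Fin.sum_univ_castSucc y).symm.trans hs
      have h5 : ∑ i, Fin.init y i = ∑ i : Fin (d + 1), y i.castSucc := rfl
      omega
    rw [← e, gp_el] at hg
    refine ⟨⟨Fin.init y, mem_J.2 ⟨hz, by omega⟩⟩, mem_univ _, ?_⟩
    rw [xk_val]
    exact e

theorem card_J {d a k : ℕ} (h : a ≤ k) :
    Fintype.card {z : Fin (d + 1) → ℕ // z ∈ J d a} = (V d a).card := by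
  classical
  rw [← card_tube h, ← imv_xk h]
  have hinj : Function.Injective fun i => (xk d a k h i).1 :=
    Subtype.val_injective.comp (xk d a k h).injective
  have h1 : (univ.image fun i => (xk d a k h i).1).card =
      Fintype.card {z : Fin (d + 1) → ℕ // z ∈ J d a} := by
    rw [card_image_of_injective _ hinj, card_univ]
  rw [← h1]
  unfold imv
  congr 1

/-- a permutation which moves only elements of the range of an embedding -/
theorem exists_via {ι α : Type} [Fintype ι] [DecidableEq ι] [Fintype α] [DecidableEq α]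
    (x : ι ↪ α) (σ : Equiv.Perm α) (h : ∀ v, v ∉ Set.range x → σ v = v) :
    ∃ g : Equiv.Perm ι, g.viaFintypeEmbedding x = σ := by
  classical
  have h1 : ∀ i, ∃ j, x j = σ (x i) := by
    intro i
    by_contra hc
    have h2 : σ (x i) ∉ Set.range x := fun ⟨j, hj⟩ => hc ⟨j, hj⟩
    have h3 := h _ h2
    have h4 : σ (x i) = x i := σ.injective h3
    exact hc ⟨i, h4.symm⟩
  choose f hf using h1
  have hinj : Function.Injective f := by
    intro i j hij
    have h2 : σ (x i) = σ (x j) := by rw [← hf, ← hf, hij]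
    exact x.injective (σ.injective h2)
  refine ⟨Equiv.ofBijective f (Finite.injective_iff_bijective.1 hinj), ?_⟩
  ext1 v
  by_cases hv : v ∈ Set.range x
  · obtain ⟨i, rfl⟩ := hv
    rw [Equiv.Perm.viaFintypeEmbedding_apply_image, Equiv.ofBijective_apply, hf]
  · rw [Equiv.Perm.viaFintypeEmbedding_apply_notMem_range _ _ hv, h v hv]

/-- the base level -/
theorem base {ι : Type} [Fintype ι] [DecidableEq ι] {d k y : ℕ} (x : ι ↪ Vt d k)
    (hy : (V d k).card ≤ y + Fintype.card ι) (hK : Kill d k y) :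
    T d k x x {g | Equiv.Perm.sign g = 1} := by
  classical
  intro π hπ
  obtain ⟨ρ, h1, h2, h3⟩ := hK (univ.filter fun v => v ∉ Set.range x) (by
    have e1 : (univ.filter fun v => v ∉ Set.range x) = univ \ univ.image x := by
      ext v
      simp
    have e2 : (univ : Finset (Vt d k)).card = (V d k).card := by
      rw [card_univ, Fintype.card_coe]
    rw [e1, card_sdiff_of_subset (subset_univ _), card_image_of_injective _ x.injective, e2,
      card_univ]
    omega) π (Equiv.Perm.sign π)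
  obtain ⟨g, hg⟩ := exists_via x (π⁻¹ * ρ) (by
    intro v hv
    rw [Equiv.Perm.mul_apply, h1 v (mem_filter.2 ⟨mem_univ _, hv⟩), ← Equiv.Perm.mul_apply,
      inv_mul_cancel, Equiv.Perm.one_apply])
  refine ⟨g, ?_, ?_⟩
  · change Equiv.Perm.sign g = 1
    rw [← Equiv.Perm.viaFintypeEmbedding_sign g x, hg, Equiv.Perm.sign_mul,
      Equiv.Perm.sign_inv, h2, Int.units_mul_self]
  · rw [hg, mul_inv_cancel_left]
    exact h3

/-- the choice of `θ` -/
theorem numbers (d C : ℕ) : ∃ (θ : ℝ) (A : ℕ), 0 < θ ∧ ∀ a : ℕ, A ≤ a → a ≤ C * a →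
    ((d + 2).factorial : ℝ) * (((V d (C * a)).card - (V d a).card : ℕ) : ℝ) ≤
      (1 - θ) * W d (C * a) := by
  obtain ⟨c, hc, hV⟩ := V_lo d
  have hC1 : (0 : ℝ) < ((C : ℝ) + 1) ^ (d + 1) := by positivity
  set θ : ℝ := c / (2 * ((C : ℝ) + 1) ^ (d + 1)) with hθ
  have hθ0 : 0 < θ := by positivity
  obtain ⟨A1, hA1⟩ := exists_nat_ge (((d + 2).factorial : ℝ) * ((d + 1).factorial : ℝ) / θ)
  refine ⟨θ, A1 + d + 1, hθ0, fun a ha hCa => ?_⟩
  set k : ℕ := C * a with hk
  -- `2 θ W ≤ |V a|`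
  have h1 : 2 * θ * (W d k : ℝ) ≤ ((V d a).card : ℝ) := by
    have e1 : (W d k : ℝ) ≤ (((C : ℝ) + 1) * ((a : ℝ) + 1)) ^ (d + 1) := by
      have e2 : W d k ≤ ((C + 1) * (a + 1)) ^ (d + 1) := by
        refine (W_hi d k).trans (Nat.pow_le_pow_left ?_ _)
        rw [hk]
        nlinarith
      exact_mod_cast e2
    rw [mul_pow] at e1
    have e3 : 2 * θ * (W d k : ℝ) ≤ 2 * θ * (((C : ℝ) + 1) ^ (d + 1) * ((a : ℝ) + 1) ^ (d + 1)) :=
      mul_le_mul_of_nonneg_left e1 (by positivity)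
    have e4 : 2 * θ * (((C : ℝ) + 1) ^ (d + 1) * ((a : ℝ) + 1) ^ (d + 1)) =
        c * ((a : ℝ) + 1) ^ (d + 1) := by
      rw [hθ]
      field_simp
    rw [e4] at e3
    exact e3.trans (hV a)
  -- `(d+2)! (k+1)^d ≤ θ W`
  have h2 : ((d + 2).factorial : ℝ) * ((k : ℝ) + 1) ^ d ≤ θ * (W d k : ℝ) := by
    have e1 : ((k : ℝ) + 1) ^ (d + 1) ≤ ((d + 1).factorial : ℝ) * (W d k : ℝ) := by
      exact_mod_cast W_lo d k
    have e2 : ((d + 2).factorial : ℝ) * ((d + 1).factorial : ℝ) ≤ θ * ((k : ℝ) + 1) := by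
      rw [div_le_iff₀ hθ0] at hA1
      have e3 : (A1 : ℝ) ≤ (k : ℝ) + 1 := by
        have : A1 ≤ k + 1 := by omega
        exact_mod_cast this
      have e4 : (A1 : ℝ) * θ ≤ ((k : ℝ) + 1) * θ := mul_le_mul_of_nonneg_right e3 hθ0.le
      linarith
    have hf : (0 : ℝ) < ((d + 1).factorial : ℝ) := by positivity
    have hkd : (0 : ℝ) ≤ ((k : ℝ) + 1) ^ d := by positivity
    have e5 : ((d + 1).factorial : ℝ) * (((d + 2).factorial : ℝ) * ((k : ℝ) + 1) ^ d) ≤
        ((d + 1).factorial : ℝ) * (θ * (W d k : ℝ)) := by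
      calc ((d + 1).factorial : ℝ) * (((d + 2).factorial : ℝ) * ((k : ℝ) + 1) ^ d)
          = (((d + 2).factorial : ℝ) * ((d + 1).factorial : ℝ)) * ((k : ℝ) + 1) ^ d := by ring
        _ ≤ (θ * ((k : ℝ) + 1)) * ((k : ℝ) + 1) ^ d := mul_le_mul_of_nonneg_right e2 hkd
        _ = θ * ((k : ℝ) + 1) ^ (d + 1) := by ring
        _ ≤ θ * (((d + 1).factorial : ℝ) * (W d k : ℝ)) := mul_le_mul_of_nonneg_left e1 hθ0.le
        _ = _ := by ring
    exact le_of_mul_le_mul_left e5 hf
  have h3 : ((d + 2).factorial : ℝ) * ((V d k).card : ℝ) ≤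
      (W d k : ℝ) + ((d + 2).factorial : ℝ) * ((k : ℝ) + 1) ^ d := by
    exact_mod_cast V_le_W d k
  have h4 : (V d a).card ≤ (V d k).card := by
    have : ∀ n, a ≤ n → (V d a).card ≤ (V d n).card := by
      intro n hn
      induction n, hn using Nat.le_induction with
      | base => exact le_rfl
      | succ n _ ih => exact ih.trans card_V_mono
    exact this k hCa
  rw [Nat.cast_sub h4]
  have h5 : ((V d a).card : ℝ) ≤ ((d + 2).factorial : ℝ) * ((V d a).card : ℝ) := by
    have e1 : (1 : ℝ) ≤ ((d + 2).factorial : ℝ) := by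
      exact_mod_cast Nat.succ_le_iff.2 (Nat.factorial_pos (d + 2))
    have e2 : (0 : ℝ) ≤ ((V d a).card : ℝ) := Nat.cast_nonneg _
    nlinarith
  nlinarith

end TubeTAux

open TubeTAux in
theorem tubeT (d : ℕ) (hd : 3 ≤ d) : ∃ a : ℕ,
    Ev (ι := {z : Fin (d + 1) → ℕ // z ∈ J d a}) d (fun i => i.1) (fun i => i.1)
      {g | Equiv.Perm.sign g = 1} := by
  obtain ⟨C, k₀, hC, hKP⟩ := tubeKP d (by omega)
  obtain ⟨θ, A, hθ, hnum⟩ := numbers d C
  obtain ⟨K, hK⟩ := kill_all d hd θ hθ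
  refine ⟨A + k₀ + K, C * (A + k₀ + K), ?_⟩
  set a : ℕ := A + k₀ + K with ha
  have haC : a ≤ C * a := Nat.le_mul_of_pos_left a (by omega)
  intro k hk
  have hak : a ≤ k := haC.trans hk
  refine ⟨xk d a k hak, xk d a k hak, fun i => rfl, fun i => rfl, ?_⟩
  induction k, hk using Nat.le_induction with
  | base =>
    refine base (y := (V d (C * a)).card - (V d a).card) _ ?_ ?_
    · rw [card_J hak]
      omega
    · exact hK _ (by omega) _ (hnum a (by omega) haC)
  | succ k hk ih =>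
    have hak' : a ≤ k := haC.trans hk
    have hle : ∀ i, (xk d a k hak' i).1 ≤ (xk d a (k + 1) hak i).1 := by
      intro i
      rw [xk_val, xk_val, ← shl_el (by have := (mem_J.1 i.2).2; omega)]
      intro j
      unfold shl
      rw [add_single_ap]
      split_ifs
      · exact Nat.le_succ _
      · exact le_rfl
    refine T_step (xk d a k hak') (xk d a k hak') (xk d a (k + 1) hak) (xk d a (k + 1) hak)
      hle hle ?_ 1 ?_ {g | Equiv.Perm.sign g = 1} _ ?_ (ih hak')
    · rw [imv_xk, imv_xk]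
      exact hKP a k (by omega) hk
    · intro i
      exact hle i
    · intro g hg
      exact Or.inl hg

end Pool.Agent.Helper43.SN
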